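import Pool.Agent.H635R2.Part

/-!
# The group is amenable
-/

namespace Pool.Agent.Helper672.ZFA.H635

open FirstOrder FirstOrder.Language
open Pool.Agent.H635Amen

universe u

set_option synthInstance.maxSize 2000

variable {M : Type u} [L.Structure M] [hM : IsModel M] {X : Type u} [ITy M X] [Nontrivial X]
variable {G : Set (PP M X)} (hG : IsGen M G)

theorem not_In_sg (n : INat M) : ¬ In n ((1, KK.sg n) : II M) :=
  fun h => lt_irrefl n (h n (KK.mem_sg.2 rfl))

/-- The subgroups of the generic group. -/
theorem exists_An (n : INat M) : ∃ z : NN (SS M X) hG, ∀ w, Plain.Mem w z ↔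
    ∃ i, In n i ∧ w = cc hG i := by
  have h' : Int M (fun q : INat M × II M => In q.1 q.2) := int_In
  obtain ⟨z, hz⟩ := (eqFam_cc hG).set (Z := fun i => In n i) (by (repeat' (first | with_reducible exact IntF.id | with_reducible exact IntF.fst' | with_reducible exact IntF.snd' | with_reducible exact IntF.const _ | with_reducible exact Int.const _ | assumption | with_reducible apply Int.and | with_reducible apply Int.or | with_reducible apply Int.not | with_reducible apply Int.imp | with_reducible apply Int.iff | with_reducible apply Int.ne | with_reducible apply Int.eq | with_reducible apply Int.mem | with_reducible apply Int.subset | with_reducible apply Int.ltN | with_reducible apply Int.leN | with_reducible_and_instances apply Int.le | with_reducible_and_instances apply Int.lt | with_reducible apply Int.all | with_reducible apply Int.ex | with_reducible apply IntF.fst | with_reducible apply IntF.snd | with_reducible apply IntF.app | with_reducible apply IntF.inl | with_reducible apply IntF.inr | with_reducible_and_instances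 apply IntF.mul | with_reducible_and_instances apply IntF.inv | with_reducible_and_instances apply IntF.add | with_reducible_and_instances apply IntF.sub | with_reducible_and_instances apply IntF.neg | with_reducible_and_instances apply IntF.smul | with_reducible apply IntF.succ | with_reducible apply IntF.val | with_reducible apply IntF.mk | (with_reducible refine Int.comp ?_ ?_; assumption) | (with_reducible refine Int.comp₂ ?_ ?_ ?_; assumption) | (with_reducible refine Int.comp₃ ?_ ?_ ?_ ?_; assumption) | (with_reducible refine Int.comp₄ ?_ ?_ ?_ ?_ ?_; assumption) | (with_reducible refine IntF.comp ?_ ?_; assumption) | (with_reducible refine IntF.comp₂ ?_ ?_ ?_; assumption) | (with_reducible refine IntF.comp₃ ?_ ?_ ?_ ?_; assumption) | with_reducible apply IntF.pair))) ⟨n, fun π hπ i hi => by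
    rw [rho_of_U hπ hi]
    exact hi⟩
  exact ⟨z, hz⟩

/-- Being a null set, in the extension. -/
def NullN (g a s : NN (SS M X) hG) : Prop :=
  ∃ B, (∀ x, Mem x B → Mem x a) ∧
    (∀ x y z, Mem x B → Mem y B → Mem z a → Mem (op (op x y) z) g → Mem z B) ∧
    (∃ x, Mem x a ∧ ¬ Mem x B) ∧ ∀ x, Mem x s → Mem x B

theorem nullN_iff {g a : NN (SS M X) hG} (ha : ∀ w, Plain.Mem w a ↔ ∃ i, w = cc hG i)
    (hg : ∀ w, Plain.Mem w g ↔ ∃ i j, w = op (op (cc hG i) (cc hG j)) (cc hG (i * j))) (s : Sub a) :
    NullN hG g a s.1 ↔ ∃ n : INat M, ∀ i, Plain.Mem (cc hG i) s.1 → In n i := by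
  constructor
  · rintro ⟨B, h1, h2, ⟨x, hx, hxB⟩, h3⟩
    obtain ⟨n, hn⟩ := dichotomy hG B
    refine ⟨n, fun i hi => ?_⟩
    by_contra hin
    have hiB : Plain.Mem (cc hG i) B := h3 _ hi
    obtain ⟨j, rfl⟩ := (ha x).1 hx
    refine hxB ?_
    by_cases hj : In n j
    · have h4 : ¬ In n (i * j) := fun h => hin (by
        have := h.mul hj
        rwa [mul_assoc, II_mul_self, mul_one] at this)
      have h5 := hn i (i * j) hin h4 hiB
      refine h2 (cc hG i) (cc hG (i * j)) (cc hG j) hiB h5 hx ((hg _).2 ⟨i, i * j, ?_⟩)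
      rw [← mul_assoc, II_mul_self, one_mul]
    · exact hn i j hin hj hiB
  · rintro ⟨n, hn⟩
    obtain ⟨B, hB⟩ := exists_An hG (X := X) n
    refine ⟨B, fun x hx => ?_, fun x y z hx hy hz hxyz => ?_, ⟨cc hG (1, KK.sg n),
      (ha _).2 ⟨_, rfl⟩, fun h => ?_⟩, fun x hx => ?_⟩
    · obtain ⟨i, -, rfl⟩ := (hB x).1 hx
      exact (ha _).2 ⟨i, rfl⟩
    · obtain ⟨i, hi, rfl⟩ := (hB x).1 hx
      obtain ⟨j, hj, rfl⟩ := (hB y).1 hy
      obtain ⟨i', j', h⟩ := (hg _).1 hxyz
      obtain ⟨h4, rfl⟩ := op_inj h
      obtain ⟨h5, h6⟩ := op_inj h4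
      obtain rfl := (cc_inj hG).1 h5
      obtain rfl := (cc_inj hG).1 h6
      exact (hB _).2 ⟨_, hi.mul hj, rfl⟩
    · obtain ⟨i, hi, h4⟩ := (hB _).1 h
      obtain rfl := (cc_inj hG).1 h4
      exact not_In_sg n hi
    · obtain ⟨i, rfl⟩ := (ha x).1 (s.2 x hx)
      exact (hB _).2 ⟨i, hn i hx, rfl⟩

/-- The group is amenable. -/
theorem exists_mean {g a r : NN (SS M X) hG} (ha : ∀ w, Plain.Mem w a ↔ ∃ i, w = cc hG i)
    (hg : ∀ w, Plain.Mem w g ↔ ∃ i j, w = op (op (cc hG i) (cc hG j)) (cc hG (i * j)))
    [Group (Plain.El a)]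
    (hmul : ∀ (x y : Plain.El a) (i j : II M), x.1 = cc hG i → y.1 = cc hG j →
      (x * y).1 = cc hG (i * j))
    [Field (Plain.El r)] [LinearOrder (Plain.El r)] [IsStrictOrderedRing (Plain.El r)] :
    ∃ μ : Sub a → Plain.El r, IsFunIn μ ∧ IsMean a r μ := by
  classical
  have hnull := nullN_iff hG ha hg
  have hcl : ∀ s : Sub a, ¬ NullN hG g a s.1 → ∃ n : INat M, ∀ i, ¬ In n i →
      Plain.Mem (cc hG i) s.1 := by
    intro s hs
    obtain ⟨n, hn⟩ := dichotomy hG s.1
    rw [hnull] at hs
    push Not at hs
    obtain ⟨i, hi, hin⟩ := hs n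
    exact ⟨n, fun j hj => hn i j hin hj hi⟩
  refine ⟨fun s => if NullN hG g a s.1 then 0 else 1, ?_, ?_, ?_, ?_, ?_, ?_⟩
  · obtain ⟨pa, hpa⟩ := nn_power hG a
    have hD : D (fun v : Fin 1 → NN (SS M X) hG => ∃ s y, v 0 = op s y ∧
        ((NullN hG g a s ∧ y = (0 : Plain.El r).1) ∨ (¬ NullN hG g a s ∧
          y = (1 : Plain.El r).1))) := by
      unfold NullN
      (repeat' (first | with_reducible exact DF.var _ | with_reducible exact DF.const _ | assumption | with_reducible apply D.and | with_reducible apply D.or | with_reducible apply D.not | with_reducible apply D.imp | with_reducible apply D.iff | with_reducible apply D.eqf | with_reducible apply D.memf | with_reducible apply D.all | with_reducible apply D.ex | with_reducible apply DF.op | with_reducible apply DF.up | with_reducible apply DF.fst | with_reducible apply DF.snd))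
    obtain ⟨gr, hgr⟩ := nn_sep (φ := fun v => ∃ s y, v = op s y ∧
        ((NullN hG g a s ∧ y = (0 : Plain.El r).1) ∨ (¬ NullN hG g a s ∧
          y = (1 : Plain.El r).1))) hD (small_prod pa r).elt
    refine ⟨gr, fun s y => ?_⟩
    rw [plain_graph, mem_NN, hgr]
    constructor
    · rintro rfl
      refine ⟨(small_prod pa r).mem.2 ⟨s.1, _, (hpa s.1).2 s.2, Subtype.property _, rfl⟩, s.1, _,
        rfl, ?_⟩
      by_cases h : NullN hG g a s.1
      · simp only [if_pos h]
        exact Or.inl ⟨h, trivial⟩
      · simp only [if_neg h]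
        exact Or.inr ⟨h, trivial⟩
    · rintro ⟨-, s', y', h1, h2⟩
      obtain ⟨h3, h4⟩ := op_inj h1
      rw [← h3, ← h4] at h2
      rcases h2 with ⟨h2, h5⟩ | ⟨h2, h5⟩
      · simp only [if_pos h2]
        exact (Subtype.ext h5).symm
      · simp only [if_neg h2]
        exact (Subtype.ext h5).symm
  · intro s
    by_cases h : NullN hG g a s.1
    · simp only [if_pos h]
      exact le_rfl
    · simp only [if_neg h]
      exact zero_le_one
  · intro s
    by_cases h : NullN hG g a s.1
    · simp only [if_pos h]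
      exact zero_le_one
    · simp only [if_neg h]
      exact le_rfl
  · intro s hs
    rw [if_neg]
    rw [hnull]
    rintro ⟨n, hn⟩
    exact not_In_sg n (hn _ (hs _ ((ha _).2 ⟨_, rfl⟩)))
  · intro s t v h1 h2
    by_cases hs : NullN hG g a s.1
    · by_cases ht : NullN hG g a t.1
      · have hv : NullN hG g a v.1 := by
          rw [hnull] at hs ht ⊢
          obtain ⟨n, hn⟩ := hs
          obtain ⟨n', hn'⟩ := ht
          refine ⟨max n n', fun i hi => ?_⟩
          rcases (h2 _).1 hi with h | h
          · exact (hn i h).mono (le_max_left _ _)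
          · exact (hn' i h).mono (le_max_right _ _)
        rw [if_pos hs, if_pos ht, if_pos hv, add_zero]
      · have hv : ¬ NullN hG g a v.1 := by
          intro hv
          refine ht ?_
          rw [hnull] at hv ⊢
          obtain ⟨n, hn⟩ := hv
          exact ⟨n, fun i hi => hn i ((h2 _).2 (Or.inr hi))⟩
        rw [if_pos hs, if_neg ht, if_neg hv, zero_add]
    · by_cases ht : NullN hG g a t.1
      · have hv : ¬ NullN hG g a v.1 := by
          intro hv
          refine hs ?_
          rw [hnull] at hv ⊢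
          obtain ⟨n, hn⟩ := hv
          exact ⟨n, fun i hi => hn i ((h2 _).2 (Or.inl hi))⟩
        rw [if_neg hs, if_pos ht, if_neg hv, add_zero]
      · exfalso
        obtain ⟨n, hn⟩ := hcl s hs
        obtain ⟨n', hn'⟩ := hcl t ht
        have h3 := not_In_sg (max n n')
        exact h1 _ ⟨hn _ fun h => h3 (h.mono (le_max_left _ _)),
          hn' _ fun h => h3 (h.mono (le_max_right _ _))⟩
  · intro k s t h1
    obtain ⟨k', hk⟩ := (ha k.1).1 k.2
    obtain ⟨m, hm⟩ := KK.exists_Kn k'.2
    have hmI : In m k' := hm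
    have key : NullN hG g a t.1 ↔ NullN hG g a s.1 := by
      rw [hnull, hnull]
      constructor
      · rintro ⟨n, hn⟩
        refine ⟨max n m, fun i hi => ?_⟩
        obtain ⟨x, hx⟩ : ∃ x : Plain.El a, x.1 = cc hG i := ⟨⟨_, (ha _).2 ⟨i, rfl⟩⟩, rfl⟩
        rw [← hx, ← h1 x, hmul k x k' i hk hx] at hi
        have h2 := ((hn _ hi).mono (le_max_left n m))
        have h3 := (hmI.mono (le_max_right n m)).mul h2
        rwa [← mul_assoc, II_mul_self, one_mul] at h3
      · rintro ⟨n, hn⟩
        refine ⟨max n m, fun i hi => ?_⟩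
        obtain ⟨x, hx⟩ : ∃ x : Plain.El a, x.1 = cc hG (k' * i) := ⟨⟨_, (ha _).2 ⟨_, rfl⟩⟩, rfl⟩
        have h2 := hmul k x k' (k' * i) hk hx
        rw [← mul_assoc, II_mul_self, one_mul] at h2
        rw [← h2, h1 x, hx] at hi
        have h3 := (hmI.mono (le_max_right n m)).mul ((hn _ hi).mono (le_max_left n m))
        rwa [← mul_assoc, II_mul_self, one_mul] at h3
    by_cases h : NullN hG g a s.1
    · rw [if_pos h, if_pos (key.2 h)]
    · rw [if_neg h, if_neg fun h' => h (key.1 h')]

end Pool.Agent.Helper672.ZFA.H635
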