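import Pool.Agent.H635R2.Base

/-!
# Automorphisms
-/

namespace Pool.Agent.Helper672.ZFA.H635

open FirstOrder FirstOrder.Language

universe u

set_option synthInstance.maxSize 2000

variable {M : Type u} [L.Structure M] [hM : IsModel M] {X : Type u} [ITy M X]

/-- Construction of involutive automorphisms. -/
theorem exists_gam {ρ : II M → II M} (hρ : IntF M ρ) (h1 : ∀ i, ρ (ρ i) = i)
    (h2 : ∀ i j, ρ (i * j) = ρ i * ρ j) (h3 : ∀ h : KK M, ρ (h, 1) = (h, 1))
    (h4 : ∃ m, ∀ n, m ≤ n → ∀ i, (In n i ↔ In n (ρ i)))
    {τ : II M → KK M → X → X} (hτ : IntF M (fun q : (II M × KK M) × X => τ q.1.1 q.1.2 q.2))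
    (h5 : ∀ i k d, τ (ρ i) k (τ i k d) = d) :
    ∃ π : Gam M X, (∀ i, rho π i = ρ i) ∧ (∀ i k d, sig π (i, (k, d)) = (ρ i, (k, τ i k d))) ∧
      ∀ i k d, sigi π (i, (k, d)) = (ρ i, (k, τ i k d)) := by
  have h6 : IntF M (fun c : Cell M X => (ρ c.1, (c.2.1, τ c.1 c.2.1 c.2.2))) := by
    (repeat' (first | with_reducible exact IntF.id | with_reducible exact IntF.fst' | with_reducible exact IntF.snd' | with_reducible exact IntF.const _ | with_reducible exact Int.const _ | assumption | with_reducible apply Int.and | with_reducible apply Int.or | with_reducible apply Int.not | with_reducible apply Int.imp | with_reducible apply Int.iff | with_reducible apply Int.ne | with_reducible apply Int.eq | with_reducible apply Int.mem | with_reducible apply Int.subset | with_reducible apply Int.ltN | with_reducible apply Int.leN | with_reducible_and_instances apply Int.le | with_reducible_and_instances apply Int.lt | with_reducible apply Int.all | with_reducible apply Int.ex | with_reducible apply IntF.fst | with_reducible apply IntF.snd | with_reducible apply IntF.app | with_reducible apply IntF.inl | with_reducible apply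 IntF.inr | with_reducible_and_instances apply IntF.mul | with_reducible_and_instances apply IntF.inv | with_reducible_and_instances apply IntF.add | with_reducible_and_instances apply IntF.sub | with_reducible_and_instances apply IntF.neg | with_reducible_and_instances apply IntF.smul | with_reducible apply IntF.succ | with_reducible apply IntF.val | with_reducible apply IntF.mk | (with_reducible refine Int.comp ?_ ?_; assumption) | (with_reducible refine Int.comp₂ ?_ ?_ ?_; assumption) | (with_reducible refine Int.comp₃ ?_ ?_ ?_ ?_; assumption) | (with_reducible refine Int.comp₄ ?_ ?_ ?_ ?_ ?_; assumption) | (with_reducible refine IntF.comp ?_ ?_; assumption) | (with_reducible refine IntF.comp₂ ?_ ?_ ?_; assumption) | (with_reducible refine IntF.comp₃ ?_ ?_ ?_ ?_; assumption) | with_reducible apply IntF.pair))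
  refine ⟨⟨(IPerm.ofInv ρ hρ h1, IPerm.ofInv (fun c : Cell M X => (ρ c.1, (c.2.1,
    τ c.1 c.2.1 c.2.2))) h6 fun c => ?_), ?_⟩, fun i => rfl, fun i k d => rfl, fun i k d => rfl⟩
  · exact Prod.ext (h1 _) (Prod.ext rfl (h5 _ _ _))
  · exact ⟨fun c => ⟨rfl, rfl⟩, h2, h3, h4⟩

/-- Local automorphisms. -/
theorem exists_local (q : PP M X) {n : INat M} {i : II M} (hi : ¬ In n i) {g : X → X}
    (hg : IntF M g) (hgg : ∀ d, g (g d) = d) : ∃ (m : INat M) (π : Gam M X), (SS M X).U n π ∧
      π • q = q ∧ (∀ j, rho π j = j) ∧ ∀ (t : TS M X) (k : KK M), ¬ KK.Kn m k → ∀ d,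
        ((k, d) ∈ ts π i t ↔ (k, g d) ∈ t) := by
  classical
  obtain ⟨m, hm⟩ := q.2.2
  have hK : Int M (fun q : INat M × KK M => KK.Kn q.1 q.2) := KK.int_Kn
  have hτ : IntF M (fun q : (II M × KK M) × X =>
      if q.1.1 = i ∧ ¬ KK.Kn m q.1.2 then g q.2 else q.2) := by
    refine IntF.ite ?_ ?_ ?_
    · (repeat' (first | with_reducible exact IntF.id | with_reducible exact IntF.fst' | with_reducible exact IntF.snd' | with_reducible exact IntF.const _ | with_reducible exact Int.const _ | assumption | with_reducible apply Int.and | with_reducible apply Int.or | with_reducible apply Int.not | with_reducible apply Int.imp | with_reducible apply Int.iff | with_reducible apply Int.ne | with_reducible apply Int.eq | with_reducible apply Int.mem | with_reducible apply Int.subset | with_reducible apply Int.ltN | with_reducible apply Int.leN | with_reducible_and_instances apply Int.le | with_reducible_and_instances apply Int.lt | with_reducible apply Int.all | with_reducible apply Int.ex | with_reducible apply IntF.fst | with_reducible apply IntF.snd | with_reducible apply IntF.app | with_reducible apply IntF.inl |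 with_reducible apply IntF.inr | with_reducible_and_instances apply IntF.mul | with_reducible_and_instances apply IntF.inv | with_reducible_and_instances apply IntF.add | with_reducible_and_instances apply IntF.sub | with_reducible_and_instances apply IntF.neg | with_reducible_and_instances apply IntF.smul | with_reducible apply IntF.succ | with_reducible apply IntF.val | with_reducible apply IntF.mk | (with_reducible refine Int.comp ?_ ?_; assumption) | (with_reducible refine Int.comp₂ ?_ ?_ ?_; assumption) | (with_reducible refine Int.comp₃ ?_ ?_ ?_ ?_; assumption) | (with_reducible refine Int.comp₄ ?_ ?_ ?_ ?_ ?_; assumption) | (with_reducible refine IntF.comp ?_ ?_; assumption) | (with_reducible refine IntF.comp₂ ?_ ?_ ?_; assumption) | (with_reducible refine IntF.comp₃ ?_ ?_ ?_ ?_; assumption) | with_reducible apply IntF.pair))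
    · (repeat' (first | with_reducible exact IntF.id | with_reducible exact IntF.fst' | with_reducible exact IntF.snd' | with_reducible exact IntF.const _ | with_reducible exact Int.const _ | assumption | with_reducible apply Int.and | with_reducible apply Int.or | with_reducible apply Int.not | with_reducible apply Int.imp | with_reducible apply Int.iff | with_reducible apply Int.ne | with_reducible apply Int.eq | with_reducible apply Int.mem | with_reducible apply Int.subset | with_reducible apply Int.ltN | with_reducible apply Int.leN | with_reducible_and_instances apply Int.le | with_reducible_and_instances apply Int.lt | with_reducible apply Int.all | with_reducible apply Int.ex | with_reducible apply IntF.fst | with_reducible apply IntF.snd | with_reducible apply IntF.app | with_reducible apply IntF.inl | with_reducible apply IntF.inr | with_reducible_and_instances apply IntF.mul | with_reducible_and_instances apply IntF.inv | with_reducible_and_instances apply IntF.add | with_reducible_and_instances apply IntF.sub | with_reducible_and_instances apply IntF.neg | with_reducible_and_instances apply IntF.smul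 | with_reducible apply IntF.succ | with_reducible apply IntF.val | with_reducible apply IntF.mk | (with_reducible refine Int.comp ?_ ?_; assumption) | (with_reducible refine Int.comp₂ ?_ ?_ ?_; assumption) | (with_reducible refine Int.comp₃ ?_ ?_ ?_ ?_; assumption) | (with_reducible refine Int.comp₄ ?_ ?_ ?_ ?_ ?_; assumption) | (with_reducible refine IntF.comp ?_ ?_; assumption) | (with_reducible refine IntF.comp₂ ?_ ?_ ?_; assumption) | (with_reducible refine IntF.comp₃ ?_ ?_ ?_ ?_; assumption) | with_reducible apply IntF.pair))
    · (repeat' (first | with_reducible exact IntF.id | with_reducible exact IntF.fst' | with_reducible exact IntF.snd' | with_reducible exact IntF.const _ | with_reducible exact Int.const _ | assumption | with_reducible apply Int.and | with_reducible apply Int.or | with_reducible apply Int.not | with_reducible apply Int.imp | with_reducible apply Int.iff | with_reducible apply Int.ne | with_reducible apply Int.eq | with_reducible apply Int.mem | with_reducible apply Int.subset | with_reducible apply Int.ltN | with_reducible apply Int.leN | with_reducible_and_instances apply Int.le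 | with_reducible_and_instances apply Int.lt | with_reducible apply Int.all | with_reducible apply Int.ex | with_reducible apply IntF.fst | with_reducible apply IntF.snd | with_reducible apply IntF.app | with_reducible apply IntF.inl | with_reducible apply IntF.inr | with_reducible_and_instances apply IntF.mul | with_reducible_and_instances apply IntF.inv | with_reducible_and_instances apply IntF.add | with_reducible_and_instances apply IntF.sub | with_reducible_and_instances apply IntF.neg | with_reducible_and_instances apply IntF.smul | with_reducible apply IntF.succ | with_reducible apply IntF.val | with_reducible apply IntF.mk | (with_reducible refine Int.comp ?_ ?_; assumption) | (with_reducible refine Int.comp₂ ?_ ?_ ?_; assumption) | (with_reducible refine Int.comp₃ ?_ ?_ ?_ ?_; assumption) | (with_reducible refine Int.comp₄ ?_ ?_ ?_ ?_ ?_; assumption) | (with_reducible refine IntF.comp ?_ ?_; assumption) | (with_reducible refine IntF.comp₂ ?_ ?_ ?_; assumption) | (with_reducible refine IntF.comp₃ ?_ ?_ ?_ ?_; assumption) | with_reducible apply IntF.pair))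
  obtain ⟨π, h1, h2, h3⟩ := exists_gam (M := M) (X := X) (ρ := fun i => i) (by (repeat' (first | with_reducible exact IntF.id | with_reducible exact IntF.fst' | with_reducible exact IntF.snd' | with_reducible exact IntF.const _ | with_reducible exact Int.const _ | assumption | with_reducible apply Int.and | with_reducible apply Int.or | with_reducible apply Int.not | with_reducible apply Int.imp | with_reducible apply Int.iff | with_reducible apply Int.ne | with_reducible apply Int.eq | with_reducible apply Int.mem | with_reducible apply Int.subset | with_reducible apply Int.ltN | with_reducible apply Int.leN | with_reducible_and_instances apply Int.le | with_reducible_and_instances apply Int.lt | with_reducible apply Int.all | with_reducible apply Int.ex | with_reducible apply IntF.fst | with_reducible apply IntF.snd | with_reducible apply IntF.app | with_reducible apply IntF.inl | with_reducible apply IntF.inr | with_reducible_and_instances apply IntF.mul | with_reducible_and_instances apply IntF.inv | with_reducible_and_instances apply IntF.add | with_reducible_and_instances apply IntF.sub | with_reducible_and_instances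 apply IntF.neg | with_reducible_and_instances apply IntF.smul | with_reducible apply IntF.succ | with_reducible apply IntF.val | with_reducible apply IntF.mk | (with_reducible refine Int.comp ?_ ?_; assumption) | (with_reducible refine Int.comp₂ ?_ ?_ ?_; assumption) | (with_reducible refine Int.comp₃ ?_ ?_ ?_ ?_; assumption) | (with_reducible refine Int.comp₄ ?_ ?_ ?_ ?_ ?_; assumption) | (with_reducible refine IntF.comp ?_ ?_; assumption) | (with_reducible refine IntF.comp₂ ?_ ?_ ?_; assumption) | (with_reducible refine IntF.comp₃ ?_ ?_ ?_ ?_; assumption) | with_reducible apply IntF.pair))) (fun _ => rfl)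
    (fun _ _ => rfl) (fun _ => rfl) ⟨0, fun _ _ _ => Iff.rfl⟩
    (τ := fun i' k d => if i' = i ∧ ¬ KK.Kn m k then g d else d) hτ (fun i' k d => by
      by_cases h : i' = i ∧ ¬ KK.Kn m k
      · rw [if_pos h, if_pos h, hgg]
      · rw [if_neg h, if_neg h])
  refine ⟨m, π, ?_, ?_, h1, ?_⟩
  · rintro ⟨i', k, d⟩ hc
    rw [h2, if_neg]
    rintro ⟨rfl, -⟩
    exact hi hc
  · refine Subtype.ext (IPow.ext' ?_)
    rintro ⟨i', k, d⟩
    rw [mem_smul', h3]
    by_cases h : i' = i ∧ ¬ KK.Kn m k
    · rw [if_pos h]
      constructor
      · intro h4
        exact absurd (hm _ h4) h.2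
      · intro h4
        exact absurd (hm _ h4) h.2
    · rw [if_neg h]
  · intro t k hk d
    rw [mem_ts, h1, h3, if_pos ⟨rfl, hk⟩]

theorem xor_aux (a b c d : Prop) :
    (¬ (¬ (a ↔ c) ↔ ¬ (b ↔ d))) ↔ ¬ (¬ (a ↔ b) ↔ ¬ (c ↔ d)) := by
  tauto

/-- Linear functionals. -/
theorem exists_functional {n : INat M} {i j : II M} (hi : ¬ In n i) (hj : ¬ In n j) :
    ∃ l : II M → Prop, Int M l ∧ (∀ a b, l (a * b) ↔ ¬ (l a ↔ l b)) ∧ l i ∧ l j ∧
      ∀ a, In n a → ¬ l a := by
  by_cases h : ∃ a, n ≤ a ∧ a ∈ i.2.1 ∧ a ∈ j.2.1
  · obtain ⟨a, ha, h1, h2⟩ := h
    refine ⟨fun v => a ∈ v.2.1, by (repeat' (first | with_reducible exact IntF.id | with_reducible exact IntF.fst' | with_reducible exact IntF.snd' | with_reducible exact IntF.const _ | with_reducible exact Int.const _ | assumption | with_reducible apply Int.and | with_reducible apply Int.or | with_reducible apply Int.not | with_reducible apply Int.imp | with_reducible apply Int.iff | with_reducible apply Int.ne | with_reducible apply Int.eq | with_reducible apply Int.mem | with_reducible apply Int.subset | with_reducible apply Int.ltN | with_reducible apply Int.leN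 | with_reducible_and_instances apply Int.le | with_reducible_and_instances apply Int.lt | with_reducible apply Int.all | with_reducible apply Int.ex | with_reducible apply IntF.fst | with_reducible apply IntF.snd | with_reducible apply IntF.app | with_reducible apply IntF.inl | with_reducible apply IntF.inr | with_reducible_and_instances apply IntF.mul | with_reducible_and_instances apply IntF.inv | with_reducible_and_instances apply IntF.add | with_reducible_and_instances apply IntF.sub | with_reducible_and_instances apply IntF.neg | with_reducible_and_instances apply IntF.smul | with_reducible apply IntF.succ | with_reducible apply IntF.val | with_reducible apply IntF.mk | (with_reducible refine Int.comp ?_ ?_; assumption) | (with_reducible refine Int.comp₂ ?_ ?_ ?_; assumption) | (with_reducible refine Int.comp₃ ?_ ?_ ?_ ?_; assumption) | (with_reducible refine Int.comp₄ ?_ ?_ ?_ ?_ ?_; assumption) | (with_reducible refine IntF.comp ?_ ?_; assumption) | (with_reducible refine IntF.comp₂ ?_ ?_ ?_; assumption) | (with_reducible refine IntF.comp₃ ?_ ?_ ?_ ?_; assumption) | with_reducible apply IntF.pair)),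 fun v w => KK.mem_mul, h1, h2, fun v hv h3 => ?_⟩
    exact absurd (hv a h3) (not_lt.2 ha)
  · unfold In KK.Kn at hi hj
    push Not at hi hj
    obtain ⟨a, ha, ha'⟩ := hi
    obtain ⟨b, hb, hb'⟩ := hj
    refine ⟨fun v => ¬ (a ∈ v.2.1 ↔ b ∈ v.2.1), by (repeat' (first | with_reducible exact IntF.id | with_reducible exact IntF.fst' | with_reducible exact IntF.snd' | with_reducible exact IntF.const _ | with_reducible exact Int.const _ | assumption | with_reducible apply Int.and | with_reducible apply Int.or | with_reducible apply Int.not | with_reducible apply Int.imp | with_reducible apply Int.iff | with_reducible apply Int.ne | with_reducible apply Int.eq | with_reducible apply Int.mem | with_reducible apply Int.subset | with_reducible apply Int.ltN | with_reducible apply Int.leN | with_reducible_and_instances apply Int.le | with_reducible_and_instances apply Int.lt | with_reducible apply Int.all | with_reducible apply Int.ex | with_reducible apply IntF.fst | with_reducible apply IntF.snd | with_reducible apply IntF.app | with_reducible apply IntF.inl | with_reducible apply IntF.inr | with_reducible_and_instances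 apply IntF.mul | with_reducible_and_instances apply IntF.inv | with_reducible_and_instances apply IntF.add | with_reducible_and_instances apply IntF.sub | with_reducible_and_instances apply IntF.neg | with_reducible_and_instances apply IntF.smul | with_reducible apply IntF.succ | with_reducible apply IntF.val | with_reducible apply IntF.mk | (with_reducible refine Int.comp ?_ ?_; assumption) | (with_reducible refine Int.comp₂ ?_ ?_ ?_; assumption) | (with_reducible refine Int.comp₃ ?_ ?_ ?_ ?_; assumption) | (with_reducible refine Int.comp₄ ?_ ?_ ?_ ?_ ?_; assumption) | (with_reducible refine IntF.comp ?_ ?_; assumption) | (with_reducible refine IntF.comp₂ ?_ ?_ ?_; assumption) | (with_reducible refine IntF.comp₃ ?_ ?_ ?_ ?_; assumption) | with_reducible apply IntF.pair)), fun v w => ?_, ?_, ?_,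
      fun v hv h3 => ?_⟩
    · have e1 : a ∈ (v * w).2.1 ↔ ¬ (a ∈ v.2.1 ↔ a ∈ w.2.1) := KK.mem_mul
      have e2 : b ∈ (v * w).2.1 ↔ ¬ (b ∈ v.2.1 ↔ b ∈ w.2.1) := KK.mem_mul
      beta_reduce
      rw [e1, e2]
      exact xor_aux _ _ _ _
    · intro h1
      exact h ⟨b, hb', h1.1 ha, hb⟩
    · intro h1
      exact h ⟨a, ha', ha, h1.2 hb⟩
    · refine h3 (iff_of_false (fun h4 => ?_) fun h4 => ?_)
      · exact absurd (hv a h4) (not_lt.2 ha')
      · exact absurd (hv b h4) (not_lt.2 hb')

theorem II_mul_self (i : II M) : i * i = 1 := Prod.ext (KK.mul_self' _) (KK.mul_self' _)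

theorem In.mul {n : INat M} {i j : II M} (hi : In n i) (hj : In n j) : In n (i * j) :=
  KK.Kn.mul hi hj

open Classical in
/-- Transvections. -/
noncomputable def tv (l : II M → Prop) (z : II M) (i : II M) : II M := if l i then i * z else i

section tv

variable {l : II M → Prop} {z : II M}

theorem int_tv (hl : Int M l) : IntF M (tv l z) := by
  unfold tv
  refine IntF.ite hl ?_ ?_
  · (repeat' (first | with_reducible exact IntF.id | with_reducible exact IntF.fst' | with_reducible exact IntF.snd' | with_reducible exact IntF.const _ | with_reducible exact Int.const _ | assumption | with_reducible apply Int.and | with_reducible apply Int.or | with_reducible apply Int.not | with_reducible apply Int.imp | with_reducible apply Int.iff | with_reducible apply Int.ne | with_reducible apply Int.eq | with_reducible apply Int.mem | with_reducible apply Int.subset | with_reducible apply Int.ltN | with_reducible apply Int.leN | with_reducible_and_instances apply Int.le | with_reducible_and_instances apply Int.lt | with_reducible apply Int.all | with_reducible apply Int.ex | with_reducible apply IntF.fst | with_reducible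 apply IntF.snd | with_reducible apply IntF.app | with_reducible apply IntF.inl | with_reducible apply IntF.inr | with_reducible_and_instances apply IntF.mul | with_reducible_and_instances apply IntF.inv | with_reducible_and_instances apply IntF.add | with_reducible_and_instances apply IntF.sub | with_reducible_and_instances apply IntF.neg | with_reducible_and_instances apply IntF.smul | with_reducible apply IntF.succ | with_reducible apply IntF.val | with_reducible apply IntF.mk | (with_reducible refine Int.comp ?_ ?_; assumption) | (with_reducible refine Int.comp₂ ?_ ?_ ?_; assumption) | (with_reducible refine Int.comp₃ ?_ ?_ ?_ ?_; assumption) | (with_reducible refine Int.comp₄ ?_ ?_ ?_ ?_ ?_; assumption) | (with_reducible refine IntF.comp ?_ ?_; assumption) | (with_reducible refine IntF.comp₂ ?_ ?_ ?_; assumption) | (with_reducible refine IntF.comp₃ ?_ ?_ ?_ ?_; assumption) | with_reducible apply IntF.pair))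
  · (repeat' (first | with_reducible exact IntF.id | with_reducible exact IntF.fst' | with_reducible exact IntF.snd' | with_reducible exact IntF.const _ | with_reducible exact Int.const _ | assumption | with_reducible apply Int.and | with_reducible apply Int.or | with_reducible apply Int.not | with_reducible apply Int.imp | with_reducible apply Int.iff | with_reducible apply Int.ne | with_reducible apply Int.eq | with_reducible apply Int.mem | with_reducible apply Int.subset | with_reducible apply Int.ltN | with_reducible apply Int.leN | with_reducible_and_instances apply Int.le | with_reducible_and_instances apply Int.lt | with_reducible apply Int.all | with_reducible apply Int.ex | with_reducible apply IntF.fst | with_reducible apply IntF.snd | with_reducible apply IntF.app | with_reducible apply IntF.inl | with_reducible apply IntF.inr | with_reducible_and_instances apply IntF.mul | with_reducible_and_instances apply IntF.inv | with_reducible_and_instances apply IntF.add | with_reducible_and_instances apply IntF.sub | with_reducible_and_instances apply IntF.neg | with_reducible_and_instances apply IntF.smul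 | with_reducible apply IntF.succ | with_reducible apply IntF.val | with_reducible apply IntF.mk | (with_reducible refine Int.comp ?_ ?_; assumption) | (with_reducible refine Int.comp₂ ?_ ?_ ?_; assumption) | (with_reducible refine Int.comp₃ ?_ ?_ ?_ ?_; assumption) | (with_reducible refine Int.comp₄ ?_ ?_ ?_ ?_ ?_; assumption) | (with_reducible refine IntF.comp ?_ ?_; assumption) | (with_reducible refine IntF.comp₂ ?_ ?_ ?_; assumption) | (with_reducible refine IntF.comp₃ ?_ ?_ ?_ ?_; assumption) | with_reducible apply IntF.pair))

theorem tv_tv (h : ∀ a b, l (a * b) ↔ ¬ (l a ↔ l b)) (hz : ¬ l z) (i : II M) :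
    tv l z (tv l z i) = i := by
  unfold tv
  by_cases hi : l i
  · rw [if_pos hi, if_pos ((h _ _).2 fun h1 => hz (h1.1 hi)), mul_assoc, II_mul_self, mul_one]
  · rw [if_neg hi, if_neg hi]

theorem tv_mul (h : ∀ a b, l (a * b) ↔ ¬ (l a ↔ l b)) (i j : II M) :
    tv l z (i * j) = tv l z i * tv l z j := by
  unfold tv
  by_cases hi : l i
  · by_cases hj : l j
    · rw [if_pos hi, if_pos hj, if_neg (fun h1 => (h _ _).1 h1 (iff_of_true hi hj)),
        mul_mul_mul_comm, II_mul_self, mul_one]
    · rw [if_pos hi, if_neg hj, if_pos ((h _ _).2 fun h1 => hj (h1.1 hi)), mul_right_comm]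
  · by_cases hj : l j
    · rw [if_neg hi, if_pos hj, if_pos ((h _ _).2 fun h1 => hi (h1.2 hj)), mul_assoc]
    · rw [if_neg hi, if_neg hj, if_neg (fun h1 => (h _ _).1 h1 (iff_of_false hi hj))]

theorem tv_In (h : ∀ a b, l (a * b) ↔ ¬ (l a ↔ l b)) (hz : ¬ l z) {m : INat M} (hm : In m z)
    {n : INat M} (hn : m ≤ n) (i : II M) : In n i ↔ In n (tv l z i) := by
  have h1 : ∀ i, In n i → In n (tv l z i) := by
    intro i hi
    unfold tv
    by_cases h2 : l i
    · rw [if_pos h2]
      exact hi.mul (hm.mono hn)
    · rw [if_neg h2]
      exact hi
  refine ⟨h1 i, fun h2 => ?_⟩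
  have h3 := h1 _ h2
  rwa [tv_tv h hz] at h3

end tv

/-- The relation of the exchange of the values of a condition at `i` and `j`. -/
def swR (q : PP M X) (i j : II M) (k : KK M) (d d' : X) : Prop :=
  (∃ e e', (i, (k, e)) ∈ q.1 ∧ (j, (k, e')) ∈ q.1 ∧ ((d = e ∧ d' = e') ∨ (d = e' ∧ d' = e))) ∨
  ((¬ ∃ e e', (i, (k, e)) ∈ q.1 ∧ (j, (k, e')) ∈ q.1 ∧ (d = e ∨ d = e')) ∧ d' = d)

theorem swR_exists (q : PP M X) (i j : II M) (k : KK M) (d : X) : ∃ d', swR q i j k d d' := by
  by_cases h : ∃ e e', (i, (k, e)) ∈ q.1 ∧ (j, (k, e')) ∈ q.1 ∧ (d = e ∨ d = e')
  · obtain ⟨e, e', h1, h2, rfl | rfl⟩ := h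
    · exact ⟨e', Or.inl ⟨_, _, h1, h2, Or.inl ⟨rfl, rfl⟩⟩⟩
    · exact ⟨e, Or.inl ⟨_, _, h1, h2, Or.inr ⟨rfl, rfl⟩⟩⟩
  · exact ⟨d, Or.inr ⟨h, rfl⟩⟩

theorem swR_unique {q : PP M X} {i j : II M} {k : KK M} {d d' d'' : X} (h : swR q i j k d d')
    (h' : swR q i j k d d'') : d' = d'' := by
  have hq := q.2.1
  rcases h with ⟨e, e', h1, h2, h3⟩ | ⟨h1, rfl⟩
  · rcases h' with ⟨f, f', h4, h5, h6⟩ | ⟨h4, -⟩
    · obtain rfl := hq _ _ _ _ h1 h4
      obtain rfl := hq _ _ _ _ h2 h5
      rcases h3 with ⟨rfl, rfl⟩ | ⟨rfl, rfl⟩
      · rcases h6 with ⟨_, rfl⟩ | ⟨rfl, rfl⟩ <;> rfl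
      · rcases h6 with ⟨rfl, rfl⟩ | ⟨_, rfl⟩ <;> rfl
    · refine absurd ⟨e, e', h1, h2, ?_⟩ h4
      rcases h3 with ⟨h, -⟩ | ⟨h, -⟩
      · exact Or.inl h
      · exact Or.inr h
  · rcases h' with ⟨f, f', h4, h5, h6⟩ | ⟨h4, rfl⟩
    · refine absurd ⟨f, f', h4, h5, ?_⟩ h1
      rcases h6 with ⟨h, -⟩ | ⟨h, -⟩
      · exact Or.inl h
      · exact Or.inr h
    · rfl

theorem swR_symm {q : PP M X} {i j : II M} {k : KK M} {d d' : X} (h : swR q i j k d d') :
    swR q j i k d' d := by
  rcases h with ⟨e, e', h1, h2, h3⟩ | ⟨h1, rfl⟩
  · refine Or.inl ⟨e', e, h2, h1, ?_⟩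
    rcases h3 with ⟨rfl, rfl⟩ | ⟨rfl, rfl⟩
    · exact Or.inl ⟨rfl, rfl⟩
    · exact Or.inr ⟨rfl, rfl⟩
  · refine Or.inr ⟨fun ⟨e, e', h2, h3, h4⟩ => h1 ⟨e', e, h3, h2, h4.symm⟩, rfl⟩

/-- Automorphisms that move the generic elements. -/
theorem exists_move (q : PP M X) {n : INat M} {i j : II M} (hi : ¬ In n i) (hj : ¬ In n j) :
    ∃ π : Gam M X, (SS M X).U n π ∧ rho π i = j ∧ ∃ r, r ≤ q ∧ r ≤ π • q := by
  obtain ⟨l, hl, h1, h2, h3, h4⟩ := exists_functional hi hj
  have hz : ¬ l (i * j) := fun h => (h1 _ _).1 h (iff_of_true h2 h3)
  choose τ hτ using fun (i' : II M) => swR_exists q i' (tv l (i * j) i')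
  have hT : IntF M (tv l (i * j)) := int_tv hl
  have hτi : IntF M (fun q : (II M × KK M) × X => τ q.1.1 q.1.2 q.2) := by
    refine IntF.of_unique (p := fun (c : (II M × KK M) × X) d' =>
      swR q c.1.1 (tv l (i * j) c.1.1) c.1.2 c.2 d') ?_ (fun c => hτ _ _ _)
      fun c a b => swR_unique
    unfold swR
    (repeat' (first | with_reducible exact IntF.id | with_reducible exact IntF.fst' | with_reducible exact IntF.snd' | with_reducible exact IntF.const _ | with_reducible exact Int.const _ | assumption | with_reducible apply Int.and | with_reducible apply Int.or | with_reducible apply Int.not | with_reducible apply Int.imp | with_reducible apply Int.iff | with_reducible apply Int.ne | with_reducible apply Int.eq | with_reducible apply Int.mem | with_reducible apply Int.subset | with_reducible apply Int.ltN | with_reducible apply Int.leN | with_reducible_and_instances apply Int.le | with_reducible_and_instances apply Int.lt | with_reducible apply Int.all | with_reducible apply Int.ex | with_reducible apply IntF.fst | with_reducible apply IntF.snd | with_reducible apply IntF.app | with_reducible apply IntF.inl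 | with_reducible apply IntF.inr | with_reducible_and_instances apply IntF.mul | with_reducible_and_instances apply IntF.inv | with_reducible_and_instances apply IntF.add | with_reducible_and_instances apply IntF.sub | with_reducible_and_instances apply IntF.neg | with_reducible_and_instances apply IntF.smul | with_reducible apply IntF.succ | with_reducible apply IntF.val | with_reducible apply IntF.mk | (with_reducible refine Int.comp ?_ ?_; assumption) | (with_reducible refine Int.comp₂ ?_ ?_ ?_; assumption) | (with_reducible refine Int.comp₃ ?_ ?_ ?_ ?_; assumption) | (with_reducible refine Int.comp₄ ?_ ?_ ?_ ?_ ?_; assumption) | (with_reducible refine IntF.comp ?_ ?_; assumption) | (with_reducible refine IntF.comp₂ ?_ ?_ ?_; assumption) | (with_reducible refine IntF.comp₃ ?_ ?_ ?_ ?_; assumption) | with_reducible apply IntF.pair))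
  have hττ : ∀ i' k d, τ (tv l (i * j) i') k (τ i' k d) = d := by
    intro i' k d
    have h5 := swR_symm (hτ i' k d)
    have h6 := hτ (tv l (i * j) i') k (τ i' k d)
    rw [tv_tv h1 hz] at h6
    exact swR_unique h6 h5
  obtain ⟨m, hm⟩ := KK.exists_Kn (i * j).2
  have hb : ∀ h : KK M, tv l (i * j) (h, 1) = (h, 1) := by
    intro h
    unfold tv
    rw [if_neg (h4 (h, 1) (KK.Kn.one n))]
  obtain ⟨π, e1, e2, e3⟩ := exists_gam hT (tv_tv h1 hz) (tv_mul h1) hb
    ⟨m, fun n' hn' i' => tv_In h1 hz hm hn' i'⟩ hτi hττ
  have e4 : ∀ a, In n a → tv l (i * j) a = a := by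
    intro a ha
    unfold tv
    rw [if_neg (h4 _ ha)]
  have hq := q.2.1
  refine ⟨π, ?_, ?_, ?_⟩
  · rintro ⟨i', k, d⟩ hc
    have h5 := hτ i' k d
    rw [e4 i' hc] at h5
    have h6 : τ i' k d = d := by
      rcases h5 with ⟨e, e', h5, h6, h7⟩ | ⟨-, h5⟩
      · obtain rfl := hq _ _ _ _ h5 h6
        rcases h7 with ⟨h7, h8⟩ | ⟨h7, h8⟩
        · exact h8.trans h7.symm
        · exact h8.trans h7.symm
      · exact h5
    rw [e2, e4 i' hc, h6]
  · rw [e1]
    unfold tv
    rw [if_pos h2, ← mul_assoc, II_mul_self, one_mul]
  · have hI : Int M (fun c : Cell M X => c ∈ q.1 ∨ c ∈ (π • q).1) := by (repeat' (first | with_reducible exact IntF.id | with_reducible exact IntF.fst' | with_reducible exact IntF.snd' | with_reducible exact IntF.const _ | with_reducible exact Int.const _ | assumption | with_reducible apply Int.and | with_reducible apply Int.or | with_reducible apply Int.not | with_reducible apply Int.imp | with_reducible apply Int.iff | with_reducible apply Int.ne | with_reducible apply Int.eq | with_reducible apply Int.mem | with_reducible apply Int.subset | with_reducible apply Int.ltN | with_reducible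 apply Int.leN | with_reducible_and_instances apply Int.le | with_reducible_and_instances apply Int.lt | with_reducible apply Int.all | with_reducible apply Int.ex | with_reducible apply IntF.fst | with_reducible apply IntF.snd | with_reducible apply IntF.app | with_reducible apply IntF.inl | with_reducible apply IntF.inr | with_reducible_and_instances apply IntF.mul | with_reducible_and_instances apply IntF.inv | with_reducible_and_instances apply IntF.add | with_reducible_and_instances apply IntF.sub | with_reducible_and_instances apply IntF.neg | with_reducible_and_instances apply IntF.smul | with_reducible apply IntF.succ | with_reducible apply IntF.val | with_reducible apply IntF.mk | (with_reducible refine Int.comp ?_ ?_; assumption) | (with_reducible refine Int.comp₂ ?_ ?_ ?_; assumption) | (with_reducible refine Int.comp₃ ?_ ?_ ?_ ?_; assumption) | (with_reducible refine Int.comp₄ ?_ ?_ ?_ ?_ ?_; assumption) | (with_reducible refine IntF.comp ?_ ?_; assumption) | (with_reducible refine IntF.comp₂ ?_ ?_ ?_; assumption) | (with_reducible refine IntF.comp₃ ?_ ?_ ?_ ?_; assumption) | with_reducible apply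 IntF.pair))
    have key : ∀ i' k d d', (i', (k, d)) ∈ q.1 → (i', (k, d')) ∈ (π • q).1 → d = d' := by
      intro i' k d d' hd hd'
      rw [mem_smul', e3] at hd'
      have h5 := hτ i' k d'
      rcases h5 with ⟨e, e', h5, h6, h7⟩ | ⟨h5, h6⟩
      · obtain rfl := hq _ _ _ _ hd h5
        obtain h8 := hq _ _ _ _ hd' h6
        rcases h7 with ⟨h7, h9⟩ | ⟨h7, h9⟩
        · exact h7.symm
        · rw [h7, ← h8, h9]
      · exact absurd ⟨d, _, hd, hd', Or.inr h6.symm⟩ h5
    refine ⟨⟨sep M fun c : Cell M X => c ∈ q.1 ∨ c ∈ (π • q).1, ?_, ?_⟩, ?_, ?_⟩
    · intro i' k d d' hd hd'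
      rcases (mem_sep hI).1 hd with hd | hd
      · rcases (mem_sep hI).1 hd' with hd' | hd'
        · exact hq _ _ _ _ hd hd'
        · exact key _ _ _ _ hd hd'
      · rcases (mem_sep hI).1 hd' with hd' | hd'
        · exact (key _ _ _ _ hd' hd).symm
        · exact (π • q).2.1 _ _ _ _ hd hd'
    · obtain ⟨a, ha⟩ := q.2.2
      obtain ⟨b, hb⟩ := (π • q).2.2
      refine ⟨max a b, fun c hc => ?_⟩
      rcases (mem_sep hI).1 hc with hc | hc
      · exact (ha c hc).mono (le_max_left _ _)
      · exact (hb c hc).mono (le_max_right _ _)
    · exact fun c hc => (mem_sep hI).2 (Or.inl hc)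
    · exact fun c hc => (mem_sep hI).2 (Or.inr hc)

end Pool.Agent.Helper672.ZFA.H635
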