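import Pool.Agent.H635R2.MkSet

/-!
# Axioms in the extension: pairing, union, infinity, foundation, separation
-/

namespace Pool.Agent.Helper672.ZFA.H635

open FirstOrder FirstOrder.Language
open Pool.Agent.Helper672.Plain (LSet)

universe u

section formulas

variable {N : Type u} [LSet.Structure N]

theorem exists_formula {n : ℕ} {s : Set (Fin n → N)} (h : (Set.univ : Set N).Definable LSet s) :
    ∃ (k : ℕ) (φ : LSet.Formula (Fin k ⊕ Fin n)) (a : Fin k → N),
      ∀ v, v ∈ s ↔ φ.Realize (Sum.elim a v) := by
  obtain ⟨A₀, -, h1⟩ := Set.definable_iff_finitely_definable.1 h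
  obtain ⟨φ, hφ⟩ := Set.definable_iff_exists_formula_sum.1 h1
  obtain ⟨k, ⟨e⟩⟩ := Finite.exists_equiv_fin (A₀ : Set N)
  refine ⟨k, φ.relabel (Sum.map e id), fun i => (e.symm i : N), fun v => ?_⟩
  rw [hφ, Formula.realize_relabel]
  simp only [Set.mem_ofPred_eq]
  refine iff_of_eq (congrArg φ.Realize ?_)
  funext i
  rcases i with i | i
  · simp
  · rfl

end formulas

section

variable {M : Type u} [L.Structure M] [hM : IsModel M]
variable {P Γ : Type u} [ITy M P] [Preorder P] [ILE M P] [ITy M Γ] [Group Γ] [IMul M Γ]
  [IInv M Γ] [MulAction Γ P] [ISMul M Γ P]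
variable {Λ : Type u} [ITy M Λ] {S : SymSys M P Γ Λ}
variable {α β ε : Type u} [ITy M α] [ITy M β] [ITy M ε]
variable {G : Set P} (hG : IsGen M G)

theorem truth_formula {k n : ℕ} (φ : LSet.Formula (Fin k ⊕ Fin n)) (params : Fin k → Nm S)
    (y : Fin n → Nm S) :
    φ.Realize (Sum.elim (fun i => NN.mk hG (params i)) (fun i => NN.mk hG (y i))) ↔
      ∃ p, p ∈ G ∧ Force φ (Sum.elim params y) default p := by
  rw [← truth hG φ (Sum.elim params y) default]
  have h : (Sum.elim (fun i => NN.mk hG (params i)) (fun i => NN.mk hG (y i)) :
      Fin k ⊕ Fin n → NN S hG) = fun i => NN.mk hG (Sum.elim params y i) := by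
    funext i
    rcases i with i | i <;> rfl
  rw [h]
  unfold Formula.Realize
  refine iff_of_eq (congrArg (BoundedFormula.Realize φ _) ?_)
  funext i
  exact i.elim0

/-! ### Symmetry of parameters -/

theorem feqN_of_sy {x : Nm S} {l : Λ} (h : Sy S x.E l x.root) {π : Γ} (hπ : S.U l π) (p : P) :
    FEqN p (actN π x) x :=
  ((feq_actN π x p).symm (x.int.tw π) (actN π x).int).trans (actN π x).int (x.int.tw π) x.int
    (h π hπ p)

theorem exists_common {A : Type} [Finite A] (v : A → Nm S) :
    ∃ l, ∀ a π, S.U l π → ∀ p, FEqN p (actN π (v a)) (v a) := by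
  classical
  have _ := Fintype.ofFinite A
  have h : ∀ s : Finset A, ∃ l, ∀ a, a ∈ s → ∀ π, S.U l π → ∀ p, FEqN p (actN π (v a)) (v a) := by
    intro s
    induction s using Finset.induction with
    | empty =>
      obtain ⟨l⟩ := S.nonempty
      exact ⟨l, fun a ha => absurd ha (Finset.notMem_empty a)⟩
    | insert a s _ ih =>
      obtain ⟨l, hl⟩ := ih
      obtain ⟨l', hl'⟩ := (v a).good.sym (v a).root
      obtain ⟨l'', h1⟩ := S.dir l l'
      refine ⟨l'', fun b hb π hπ p => ?_⟩
      rcases Finset.mem_insert.1 hb with rfl | hb
      · exact feqN_of_sy hl' (h1 π hπ).2 p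
      · exact hl b hb π (h1 π hπ).1 p
  obtain ⟨l, hl⟩ := h Finset.univ
  exact ⟨l, fun a => hl a (Finset.mem_univ a)⟩

theorem child_sym {E : α → P → α → Prop} (h : Good S E) {a : α} {l : Λ} (hl : Sy S E l a) {π : Γ}
    (hπ : S.U l π) {c : α} {s : P} (hc : E c s a) {q : P} (hq : q ≤ π • s) :
    ∃ q', q' ≤ q ∧ ∃ c' s', E c' s' a ∧ q' ≤ s' ∧ FEq M (tw π E) E q' c c' := by
  have h1 := ((feq_iff (h.int.tw π) h.int).1 (hl π hπ q)).1 c (π • s)
    (by rw [tw_smul]; exact hc) q le_rfl hq q le_rfl
  exact h1

theorem feqN_act_mkNm {E : α → P → α → Prop} (h : Good S E) {π : Γ} {q : P} {c c' : α}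
    (hc : FEq M (tw π E) E q c c') : FEqN q (actN π (mkNm h c)) (mkNm h c') := by
  have h1 := feq_actN π (mkNm h c) q
  have h2 := feq_tw S π (feq_mkNm h c (π⁻¹ • q))
  rw [smul_inv_smul] at h2
  have h3 := feq_mkNm h c' q
  have i1 := h.int.tw π
  have i2 := (mkNm h c).int.tw π
  exact (((h1.symm i2 (Nm.int _)).trans (Nm.int _) i2 i1 (h2.symm i1 i2)).trans (Nm.int _) i1
    h.int hc).trans (Nm.int _) h.int (Nm.int _) h3

theorem force_move {k n : ℕ} {φ : LSet.Formula (Fin k ⊕ Fin n)} {params : Fin k → Nm S}
    {y y' : Fin n → Nm S} {π : Γ} (hp : ∀ i p, FEqN p (actN π (params i)) (params i)) {q r : P}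
    (hq : q ≤ π • r) (hy : ∀ i, FEqN q (actN π (y i)) (y' i))
    (h : Force φ (Sum.elim params y) default r) : Force φ (Sum.elim params y') default q := by
  have h1 := ((Force.act_iff π).2 h).mono hq
  refine (Force.congr_aux ?_ fun i => i.elim0).1 h1
  rintro (i | i)
  · exact hp i q
  · exact hy i

/-! ### Separation -/

theorem nn_sep_nd {k : ℕ} (φ : LSet.Formula (Fin k ⊕ Fin 1)) (params : Fin k → Nm S)
    {E : α → P → α → Prop} (h : Good S E) (a : α) :
    ∃ z : NN S hG, ∀ w, Plain.Mem w z ↔ Plain.Mem w (nd hG h a) ∧
      φ.Realize (Sum.elim (fun i => NN.mk hG (params i)) (fun _ => w)) := by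
  have hE' : Int M (fun q : (α × P) × α => E q.1.1 q.1.2 q.2) := h.int
  have hF : Int M (fun q : α × P => Force φ (Sum.elim params (fun _ => mkNm h q.1)) default q.2) :=
    int_force φ params (fun c _ => mkNm h c) (fun _ w => op (dom M α) (op (gr h.int) (w ())))
      (fun _ => DF.op (DF.const _) (DF.op (DF.const _) (DF.var _))) (fun _ _ => rfl)
  obtain ⟨l, hl⟩ := h.sym a
  obtain ⟨l', hl'⟩ := exists_common params
  obtain ⟨l'', h1⟩ := S.dir l l'
  obtain ⟨z, hz⟩ := exists_set hG h (Q := fun c r => (∃ s, E c s a ∧ r ≤ s) ∧
    Force φ (Sum.elim params (fun _ => mkNm h c)) default r) (by (repeat' (first | with_reducible exact IntF.id | with_reducible exact IntF.fst' | with_reducible exact IntF.snd' | with_reducible exact IntF.const _ | with_reducible exact Int.const _ | assumption | with_reducible apply Int.and | with_reducible apply Int.or | with_reducible apply Int.not | with_reducible apply Int.imp | with_reducible apply Int.iff | with_reducible apply Int.ne | with_reducible apply Int.eq | with_reducible apply Int.mem | with_reducible apply Int.subset | with_reducible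 apply Int.ltN | with_reducible apply Int.leN | with_reducible_and_instances apply Int.le | with_reducible_and_instances apply Int.lt | with_reducible apply Int.all | with_reducible apply Int.ex | with_reducible apply IntF.fst | with_reducible apply IntF.snd | with_reducible apply IntF.app | with_reducible apply IntF.inl | with_reducible apply IntF.inr | with_reducible_and_instances apply IntF.mul | with_reducible_and_instances apply IntF.inv | with_reducible_and_instances apply IntF.add | with_reducible_and_instances apply IntF.sub | with_reducible_and_instances apply IntF.neg | with_reducible_and_instances apply IntF.smul | with_reducible apply IntF.succ | with_reducible apply IntF.val | with_reducible apply IntF.mk | (with_reducible refine Int.comp ?_ ?_; assumption) | (with_reducible refine Int.comp₂ ?_ ?_ ?_; assumption) | (with_reducible refine Int.comp₃ ?_ ?_ ?_ ?_; assumption) | (with_reducible refine Int.comp₄ ?_ ?_ ?_ ?_ ?_; assumption) | (with_reducible refine IntF.comp ?_ ?_; assumption) | (with_reducible refine IntF.comp₂ ?_ ?_ ?_; assumption) | (with_reducible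 refine IntF.comp₃ ?_ ?_ ?_ ?_; assumption) | with_reducible apply IntF.pair))) ⟨l'', by
      rintro π hπ c r ⟨⟨s, hs, hrs⟩, hf⟩ q hq
      obtain ⟨q', h2, c', s', h3, h4, h5⟩ := child_sym h hl (h1 π hπ).1 hs
        (hq.trans (S.smul_le π hrs))
      exact ⟨q', h2, c', q', ⟨⟨s', h3, h4⟩, force_move (hl' · π (h1 π hπ).2 ·) (h2.trans hq)
        (fun _ => feqN_act_mkNm h h5) hf⟩, le_rfl, h5⟩⟩
  refine ⟨z, fun w => (hz w).trans ?_⟩
  constructor
  · rintro ⟨c, r, hr, ⟨⟨s, hs, hrs⟩, hf⟩, rfl⟩
    refine ⟨(mem_nd hG h).2 ⟨c, s, hG.up _ _ hr hrs, hs, rfl⟩, ?_⟩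
    exact (truth_formula hG φ params (fun _ => mkNm h c)).2 ⟨r, hr, hf⟩
  · rintro ⟨hw, hf⟩
    obtain ⟨c, s, hs, h2, rfl⟩ := (mem_nd hG h).1 hw
    obtain ⟨p, hp, h3⟩ := (truth_formula hG φ params (fun _ => mkNm h c)).1 hf
    obtain ⟨r, hr, h4, h5⟩ := hG.dir p s hp hs
    exact ⟨c, r, hr, ⟨⟨s, h2, h5⟩, h3.mono h4⟩, rfl⟩

theorem nn_separation (T' : Set (NN S hG)) (hT : (Set.univ : Set (NN S hG)).Definable₁ LSet T')
    (x : NN S hG) : ∃ z, ∀ w, Plain.Mem w z ↔ Plain.Mem w x ∧ w ∈ T' := by
  obtain ⟨k, φ, a, h1⟩ := exists_formula hT
  choose params hp using fun i => exists_mk hG (a i)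
  obtain ⟨x, rfl⟩ := exists_mk hG x
  obtain ⟨z, hz⟩ := nn_sep_nd hG φ params x.good x.root
  refine ⟨z, fun w => (hz w).trans ?_⟩
  rw [mk_eq_nd]
  refine and_congr_right fun _ => ?_
  have h2 := h1 (fun _ => w)
  simp only [hp]
  rw [← h2]
  exact Iff.rfl

/-! ### Pairing, union -/

theorem nn_pair_nd {E : α → P → α → Prop} (h : Good S E) (a b : α) :
    ∃ z : NN S hG, ∀ w, Plain.Mem w z ↔ w = nd hG h a ∨ w = nd hG h b := by
  obtain ⟨l, hl⟩ := h.sym a
  obtain ⟨l', hl'⟩ := h.sym b
  obtain ⟨l'', h1⟩ := S.dir l l'
  obtain ⟨z, hz⟩ := exists_set hG h (Q := fun c _ => c = a ∨ c = b) (by (repeat' (first | with_reducible exact IntF.id | with_reducible exact IntF.fst' | with_reducible exact IntF.snd' | with_reducible exact IntF.const _ | with_reducible exact Int.const _ | assumption | with_reducible apply Int.and | with_reducible apply Int.or | with_reducible apply Int.not | with_reducible apply Int.imp | with_reducible apply Int.iff | with_reducible apply Int.ne | with_reducible apply Int.eq | with_reducible apply Int.mem | with_reducible apply Int.subset | with_reducible apply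 Int.ltN | with_reducible apply Int.leN | with_reducible_and_instances apply Int.le | with_reducible_and_instances apply Int.lt | with_reducible apply Int.all | with_reducible apply Int.ex | with_reducible apply IntF.fst | with_reducible apply IntF.snd | with_reducible apply IntF.app | with_reducible apply IntF.inl | with_reducible apply IntF.inr | with_reducible_and_instances apply IntF.mul | with_reducible_and_instances apply IntF.inv | with_reducible_and_instances apply IntF.add | with_reducible_and_instances apply IntF.sub | with_reducible_and_instances apply IntF.neg | with_reducible_and_instances apply IntF.smul | with_reducible apply IntF.succ | with_reducible apply IntF.val | with_reducible apply IntF.mk | (with_reducible refine Int.comp ?_ ?_; assumption) | (with_reducible refine Int.comp₂ ?_ ?_ ?_; assumption) | (with_reducible refine Int.comp₃ ?_ ?_ ?_ ?_; assumption) | (with_reducible refine Int.comp₄ ?_ ?_ ?_ ?_ ?_; assumption) | (with_reducible refine IntF.comp ?_ ?_; assumption) | (with_reducible refine IntF.comp₂ ?_ ?_ ?_; assumption) | (with_reducible refine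 IntF.comp₃ ?_ ?_ ?_ ?_; assumption) | with_reducible apply IntF.pair))) ⟨l'', by
      rintro π hπ c r (rfl | rfl) q hq
      · exact ⟨q, le_rfl, c, q, Or.inl rfl, le_rfl, hl π (h1 π hπ).1 q⟩
      · exact ⟨q, le_rfl, c, q, Or.inr rfl, le_rfl, hl' π (h1 π hπ).2 q⟩⟩
  refine ⟨z, fun w => (hz w).trans ?_⟩
  constructor
  · rintro ⟨c, _, _, rfl | rfl, rfl⟩
    · exact Or.inl rfl
    · exact Or.inr rfl
  · obtain ⟨p, hp⟩ := hG.ne
    rintro (rfl | rfl)
    · exact ⟨a, p, hp, Or.inl rfl, rfl⟩
    · exact ⟨b, p, hp, Or.inr rfl, rfl⟩

theorem nn_pairing (x y : NN S hG) : ∃ z, ∀ w, Plain.Mem w z ↔ w = x ∨ w = y := by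
  obtain ⟨x, rfl⟩ := exists_mk hG x
  obtain ⟨y, rfl⟩ := exists_mk hG y
  obtain ⟨z, hz⟩ := nn_pair_nd hG (good_sumG x.good y.good) (Sum.inl x.root) (Sum.inr y.root)
  rw [nd_sum_inl hG x.good y.good, nd_sum_inr hG x.good y.good, ← mk_eq_nd hG x,
    ← mk_eq_nd hG y] at hz
  exact ⟨z, hz⟩

theorem nn_union_nd {E : α → P → α → Prop} (h : Good S E) (a : α) :
    ∃ z : NN S hG, ∀ w, Plain.Mem w z ↔ ∃ y, Plain.Mem y (nd hG h a) ∧ Plain.Mem w y := by
  have hE' : Int M (fun q : (α × P) × α => E q.1.1 q.1.2 q.2) := h.int
  obtain ⟨l, hl⟩ := h.sym a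
  obtain ⟨z, hz⟩ := exists_set hG h (Q := fun c r => ∃ b r1 r2, E c r1 b ∧ E b r2 a ∧ r ≤ r1 ∧
    r ≤ r2) (by (repeat' (first | with_reducible exact IntF.id | with_reducible exact IntF.fst' | with_reducible exact IntF.snd' | with_reducible exact IntF.const _ | with_reducible exact Int.const _ | assumption | with_reducible apply Int.and | with_reducible apply Int.or | with_reducible apply Int.not | with_reducible apply Int.imp | with_reducible apply Int.iff | with_reducible apply Int.ne | with_reducible apply Int.eq | with_reducible apply Int.mem | with_reducible apply Int.subset | with_reducible apply Int.ltN | with_reducible apply Int.leN | with_reducible_and_instances apply Int.le | with_reducible_and_instances apply Int.lt | with_reducible apply Int.all | with_reducible apply Int.ex | with_reducible apply IntF.fst | with_reducible apply IntF.snd | with_reducible apply IntF.app | with_reducible apply IntF.inl | with_reducible apply IntF.inr | with_reducible_and_instances apply IntF.mul | with_reducible_and_instances apply IntF.inv | with_reducible_and_instances apply IntF.add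 | with_reducible_and_instances apply IntF.sub | with_reducible_and_instances apply IntF.neg | with_reducible_and_instances apply IntF.smul | with_reducible apply IntF.succ | with_reducible apply IntF.val | with_reducible apply IntF.mk | (with_reducible refine Int.comp ?_ ?_; assumption) | (with_reducible refine Int.comp₂ ?_ ?_ ?_; assumption) | (with_reducible refine Int.comp₃ ?_ ?_ ?_ ?_; assumption) | (with_reducible refine Int.comp₄ ?_ ?_ ?_ ?_ ?_; assumption) | (with_reducible refine IntF.comp ?_ ?_; assumption) | (with_reducible refine IntF.comp₂ ?_ ?_ ?_; assumption) | (with_reducible refine IntF.comp₃ ?_ ?_ ?_ ?_; assumption) | with_reducible apply IntF.pair))) ⟨l, by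
      rintro π hπ c r ⟨b, r1, r2, h1, h2, h3, h4⟩ q hq
      obtain ⟨q', h5, b', s', h6, h7, h8⟩ := child_sym h hl hπ h2
        (hq.trans (S.smul_le π h4))
      obtain ⟨q'', h9, c', s'', h10, h11, h12⟩ := ((feq_iff (h.int.tw π) h.int).1 h8).1 c (π • r1)
        (by rw [tw_smul]; exact h1) q' le_rfl (h5.trans (hq.trans (S.smul_le π h3))) q' le_rfl
      exact ⟨q'', h9.trans h5, c', q'', ⟨b', s'', s', h10, h6, h11, h9.trans h7⟩, le_rfl, h12⟩⟩
  refine ⟨z, fun w => (hz w).trans ?_⟩
  constructor
  · rintro ⟨c, r, hr, ⟨b, r1, r2, h1, h2, h3, h4⟩, rfl⟩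
    exact ⟨nd hG h b, (mem_nd hG h).2 ⟨b, r2, hG.up _ _ hr h4, h2, rfl⟩,
      (mem_nd hG h).2 ⟨c, r1, hG.up _ _ hr h3, h1, rfl⟩⟩
  · rintro ⟨y, h1, h2⟩
    obtain ⟨b, r2, h3, h4, rfl⟩ := (mem_nd hG h).1 h1
    obtain ⟨c, r1, h5, h6, rfl⟩ := (mem_nd hG h).1 h2
    obtain ⟨r, hr, h7, h8⟩ := hG.dir r1 r2 h5 h3
    exact ⟨c, r, hr, ⟨b, r1, r2, h6, h4, h7, h8⟩, rfl⟩

theorem nn_union (x : NN S hG) :
    ∃ z : NN S hG, ∀ w, Plain.Mem w z ↔ ∃ y, Plain.Mem y x ∧ Plain.Mem w y := by
  obtain ⟨x, rfl⟩ := exists_mk hG x
  rw [mk_eq_nd]
  exact nn_union_nd hG _ _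

/-! ### Foundation -/

theorem nn_found_nd {E : α → P → α → Prop} (h : Good S E) (a : α)
    (hne : ∃ w, Plain.Mem w (nd hG h a)) :
    ∃ y, Plain.Mem y (nd hG h a) ∧ ∀ z, Plain.Mem z (nd hG h a) → ¬ Plain.Mem z y := by
  have hE' : Int M (fun q : (α × P) × α => E q.1.1 q.1.2 q.2) := h.int
  have hI := h.int.fmem h.int
  obtain ⟨w, hw⟩ := hne
  obtain ⟨c₀, s₀, hs₀, h0, rfl⟩ := (mem_nd hG h).1 hw
  obtain ⟨p, hp, -, c, h1, h2⟩ := hG.dense_below (s := fun p => ∃ c, FMem M E E p c a ∧
      ∀ c' s', E c' s' c → ∀ q, q ≤ p → q ≤ s' → ¬ FMem M E E q c' a) (by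
        (repeat' (first | (with_reducible refine Int.comp₃ (p := fun p a b => FMem M E E p a b) hI ?_ ?_ ?_) | (with_reducible refine Int.comp₃ (p := fun a p b => E a p b) hE' ?_ ?_ ?_) | with_reducible exact IntF.id | with_reducible exact IntF.fst' | with_reducible exact IntF.snd' | with_reducible exact IntF.const _ | with_reducible exact Int.const _ | assumption | with_reducible apply Int.and | with_reducible apply Int.or | with_reducible apply Int.not | with_reducible apply Int.imp | with_reducible apply Int.iff | with_reducible apply Int.ne | with_reducible apply Int.eq | with_reducible apply Int.mem | with_reducible apply Int.subset | with_reducible apply Int.ltN | with_reducible apply Int.leN | with_reducible_and_instances apply Int.le | with_reducible_and_instances apply Int.lt | with_reducible apply Int.all | with_reducible apply Int.ex | with_reducible apply IntF.fst | with_reducible apply IntF.snd | with_reducible apply IntF.app | with_reducible apply IntF.inl | with_reducible apply IntF.inr | with_reducible_and_instances apply IntF.mul | with_reducible_and_instances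 apply IntF.inv | with_reducible_and_instances apply IntF.add | with_reducible_and_instances apply IntF.sub | with_reducible_and_instances apply IntF.neg | with_reducible_and_instances apply IntF.smul | with_reducible apply IntF.succ | with_reducible apply IntF.val | with_reducible apply IntF.mk | (with_reducible refine Int.comp ?_ ?_; assumption) | (with_reducible refine Int.comp₂ ?_ ?_ ?_; assumption) | (with_reducible refine Int.comp₃ ?_ ?_ ?_ ?_; assumption) | (with_reducible refine Int.comp₄ ?_ ?_ ?_ ?_ ?_; assumption) | (with_reducible refine IntF.comp ?_ ?_; assumption) | (with_reducible refine IntF.comp₂ ?_ ?_ ?_; assumption) | (with_reducible refine IntF.comp₃ ?_ ?_ ?_ ?_; assumption) | with_reducible apply IntF.pair)))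
      hs₀ fun p hp => by
        have hW : Int M (fun c => ∃ q, q ≤ p ∧ FMem M E E q c a) := by
          (repeat' (first | (with_reducible refine Int.comp₃ (p := fun p a b => FMem M E E p a b) hI ?_ ?_ ?_) | with_reducible exact IntF.id | with_reducible exact IntF.fst' | with_reducible exact IntF.snd' | with_reducible exact IntF.const _ | with_reducible exact Int.const _ | assumption | with_reducible apply Int.and | with_reducible apply Int.or | with_reducible apply Int.not | with_reducible apply Int.imp | with_reducible apply Int.iff | with_reducible apply Int.ne | with_reducible apply Int.eq | with_reducible apply Int.mem | with_reducible apply Int.subset | with_reducible apply Int.ltN | with_reducible apply Int.leN | with_reducible_and_instances apply Int.le | with_reducible_and_instances apply Int.lt | with_reducible apply Int.all | with_reducible apply Int.ex | with_reducible apply IntF.fst | with_reducible apply IntF.snd | with_reducible apply IntF.app | with_reducible apply IntF.inl | with_reducible apply IntF.inr | with_reducible_and_instances apply IntF.mul | with_reducible_and_instances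 apply IntF.inv | with_reducible_and_instances apply IntF.add | with_reducible_and_instances apply IntF.sub | with_reducible_and_instances apply IntF.neg | with_reducible_and_instances apply IntF.smul | with_reducible apply IntF.succ | with_reducible apply IntF.val | with_reducible apply IntF.mk | (with_reducible refine Int.comp ?_ ?_; assumption) | (with_reducible refine Int.comp₂ ?_ ?_ ?_; assumption) | (with_reducible refine Int.comp₃ ?_ ?_ ?_ ?_; assumption) | (with_reducible refine Int.comp₄ ?_ ?_ ?_ ?_ ?_; assumption) | (with_reducible refine IntF.comp ?_ ?_; assumption) | (with_reducible refine IntF.comp₂ ?_ ?_ ?_; assumption) | (with_reducible refine IntF.comp₃ ?_ ?_ ?_ ?_; assumption) | with_reducible apply IntF.pair))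
        obtain ⟨c, h1, h2⟩ := h.wf (sep M fun c => ∃ q, q ≤ p ∧ FMem M E E q c a)
          ⟨c₀, (mem_sep hW).2 ⟨p, le_rfl, FMem.of_edge h0 hp⟩⟩
        obtain ⟨q, h3, h4⟩ := (mem_sep hW).1 h1
        refine ⟨q, h3, c, h4, fun c' s' h5 q' h6 h7 h8 => ?_⟩
        exact h2 c' s' ((mem_sep hW).2 ⟨q', h6.trans h3, h8⟩) h5
  refine ⟨nd hG h c, (mem_nd_nd hG h h).2 ⟨p, hp, h1⟩, fun z hz hzc => ?_⟩
  obtain ⟨c', s', hs', h3, rfl⟩ := (mem_nd hG h).1 hzc
  obtain ⟨q, hq, h4⟩ := (mem_nd_nd hG h h).1 hz
  obtain ⟨r, hr, h5, h6⟩ := hG.dir p s' hp hs'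
  obtain ⟨r', hr', h7, h8⟩ := hG.dir r q hr hq
  exact h2 c' s' h3 r' (h7.trans h5) (h7.trans h6) (h4.mono h8)

theorem nn_foundation (x : NN S hG) (hne : ∃ w, Plain.Mem w x) :
    ∃ y, Plain.Mem y x ∧ ∀ z, Plain.Mem z x → ¬ Plain.Mem z y := by
  obtain ⟨x, rfl⟩ := exists_mk hG x
  rw [mk_eq_nd] at hne ⊢
  exact nn_found_nd hG _ _ hne

/-! ### Ground model graphs, infinity -/

/-- The graph of a relation of the ground model. -/
def chk (P : Type u) (r : α → α → Prop) : α → P → α → Prop := fun a _ b => r a b

theorem tw_chk (π : Γ) (r : α → α → Prop) : tw π (chk P r) = chk P r := rfl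

theorem good_chk {r : α → α → Prop} (hr : Int M (fun q : α × α => r q.1 q.2))
    (hw : WFI M (chk P r)) : Good S (chk P r) := by
  refine ⟨?_, hw, ?_⟩
  · unfold IG chk
    (repeat' (first | with_reducible exact IntF.id | with_reducible exact IntF.fst' | with_reducible exact IntF.snd' | with_reducible exact IntF.const _ | with_reducible exact Int.const _ | assumption | with_reducible apply Int.and | with_reducible apply Int.or | with_reducible apply Int.not | with_reducible apply Int.imp | with_reducible apply Int.iff | with_reducible apply Int.ne | with_reducible apply Int.eq | with_reducible apply Int.mem | with_reducible apply Int.subset | with_reducible apply Int.ltN | with_reducible apply Int.leN | with_reducible_and_instances apply Int.le | with_reducible_and_instances apply Int.lt | with_reducible apply Int.all | with_reducible apply Int.ex | with_reducible apply IntF.fst | with_reducible apply IntF.snd | with_reducible apply IntF.app | with_reducible apply IntF.inl | with_reducible apply IntF.inr | with_reducible_and_instances apply IntF.mul | with_reducible_and_instances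 apply IntF.inv | with_reducible_and_instances apply IntF.add | with_reducible_and_instances apply IntF.sub | with_reducible_and_instances apply IntF.neg | with_reducible_and_instances apply IntF.smul | with_reducible apply IntF.succ | with_reducible apply IntF.val | with_reducible apply IntF.mk | (with_reducible refine Int.comp ?_ ?_; assumption) | (with_reducible refine Int.comp₂ ?_ ?_ ?_; assumption) | (with_reducible refine Int.comp₃ ?_ ?_ ?_ ?_; assumption) | (with_reducible refine Int.comp₄ ?_ ?_ ?_ ?_ ?_; assumption) | (with_reducible refine IntF.comp ?_ ?_; assumption) | (with_reducible refine IntF.comp₂ ?_ ?_ ?_; assumption) | (with_reducible refine IntF.comp₃ ?_ ?_ ?_ ?_; assumption) | with_reducible apply IntF.pair))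
  · intro a
    obtain ⟨l⟩ := S.nonempty
    exact ⟨l, fun π _ p => FEq.refl p a⟩

theorem good_nat : Good S (chk P (fun m n : INat M => m < n)) := by
  refine good_chk (by (repeat' (first | with_reducible exact IntF.id | with_reducible exact IntF.fst' | with_reducible exact IntF.snd' | with_reducible exact IntF.const _ | with_reducible exact Int.const _ | assumption | with_reducible apply Int.and | with_reducible apply Int.or | with_reducible apply Int.not | with_reducible apply Int.imp | with_reducible apply Int.iff | with_reducible apply Int.ne | with_reducible apply Int.eq | with_reducible apply Int.mem | with_reducible apply Int.subset | with_reducible apply Int.ltN | with_reducible apply Int.leN | with_reducible_and_instances apply Int.le | with_reducible_and_instances apply Int.lt | with_reducible apply Int.all | with_reducible apply Int.ex | with_reducible apply IntF.fst | with_reducible apply IntF.snd | with_reducible apply IntF.app | with_reducible apply IntF.inl | with_reducible apply IntF.inr | with_reducible_and_instances apply IntF.mul | with_reducible_and_instances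 apply IntF.inv | with_reducible_and_instances apply IntF.add | with_reducible_and_instances apply IntF.sub | with_reducible_and_instances apply IntF.neg | with_reducible_and_instances apply IntF.smul | with_reducible apply IntF.succ | with_reducible apply IntF.val | with_reducible apply IntF.mk | (with_reducible refine Int.comp ?_ ?_; assumption) | (with_reducible refine Int.comp₂ ?_ ?_ ?_; assumption) | (with_reducible refine Int.comp₃ ?_ ?_ ?_ ?_; assumption) | (with_reducible refine Int.comp₄ ?_ ?_ ?_ ?_ ?_; assumption) | (with_reducible refine IntF.comp ?_ ?_; assumption) | (with_reducible refine IntF.comp₂ ?_ ?_ ?_; assumption) | (with_reducible refine IntF.comp₃ ?_ ?_ ?_ ?_; assumption) | with_reducible apply IntF.pair))) fun s hs => ?_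
  obtain ⟨n, h1, h2⟩ := INat.exists_least (p := fun n => n ∈ s) (by (repeat' (first | with_reducible exact IntF.id | with_reducible exact IntF.fst' | with_reducible exact IntF.snd' | with_reducible exact IntF.const _ | with_reducible exact Int.const _ | assumption | with_reducible apply Int.and | with_reducible apply Int.or | with_reducible apply Int.not | with_reducible apply Int.imp | with_reducible apply Int.iff | with_reducible apply Int.ne | with_reducible apply Int.eq | with_reducible apply Int.mem | with_reducible apply Int.subset | with_reducible apply Int.ltN | with_reducible apply Int.leN | with_reducible_and_instances apply Int.le | with_reducible_and_instances apply Int.lt | with_reducible apply Int.all | with_reducible apply Int.ex | with_reducible apply IntF.fst | with_reducible apply IntF.snd | with_reducible apply IntF.app | with_reducible apply IntF.inl | with_reducible apply IntF.inr | with_reducible_and_instances apply IntF.mul | with_reducible_and_instances apply IntF.inv | with_reducible_and_instances apply IntF.add | with_reducible_and_instances apply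 IntF.sub | with_reducible_and_instances apply IntF.neg | with_reducible_and_instances apply IntF.smul | with_reducible apply IntF.succ | with_reducible apply IntF.val | with_reducible apply IntF.mk | (with_reducible refine Int.comp ?_ ?_; assumption) | (with_reducible refine Int.comp₂ ?_ ?_ ?_; assumption) | (with_reducible refine Int.comp₃ ?_ ?_ ?_ ?_; assumption) | (with_reducible refine Int.comp₄ ?_ ?_ ?_ ?_ ?_; assumption) | (with_reducible refine IntF.comp ?_ ?_; assumption) | (with_reducible refine IntF.comp₂ ?_ ?_ ?_; assumption) | (with_reducible refine IntF.comp₃ ?_ ?_ ?_ ?_; assumption) | with_reducible apply IntF.pair))) hs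
  exact ⟨n, h1, fun m _ h3 h4 => absurd (h2 m h3) (not_le.2 h4)⟩

theorem nn_infinity : ∃ i : NN S hG, (∃ e, Plain.Mem e i ∧ ∀ z, ¬ Plain.Mem z e) ∧
    ∀ n, Plain.Mem n i → ∃ s, Plain.Mem s i ∧ ∀ z, Plain.Mem z s ↔ Plain.Mem z n ∨ z = n := by
  have h : Good S (chk P (fun m n : INat M => m < n)) := good_nat
  obtain ⟨l⟩ := S.nonempty
  obtain ⟨z, hz⟩ := exists_set hG h (Q := fun _ _ => True) (by (repeat' (first | with_reducible exact IntF.id | with_reducible exact IntF.fst' | with_reducible exact IntF.snd' | with_reducible exact IntF.const _ | with_reducible exact Int.const _ | assumption | with_reducible apply Int.and | with_reducible apply Int.or | with_reducible apply Int.not | with_reducible apply Int.imp | with_reducible apply Int.iff | with_reducible apply Int.ne | with_reducible apply Int.eq | with_reducible apply Int.mem | with_reducible apply Int.subset | with_reducible apply Int.ltN | with_reducible apply Int.leN | with_reducible_and_instances apply Int.le | with_reducible_and_instances apply Int.lt | with_reducible apply Int.all | with_reducible apply Int.ex | with_reducible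 apply IntF.fst | with_reducible apply IntF.snd | with_reducible apply IntF.app | with_reducible apply IntF.inl | with_reducible apply IntF.inr | with_reducible_and_instances apply IntF.mul | with_reducible_and_instances apply IntF.inv | with_reducible_and_instances apply IntF.add | with_reducible_and_instances apply IntF.sub | with_reducible_and_instances apply IntF.neg | with_reducible_and_instances apply IntF.smul | with_reducible apply IntF.succ | with_reducible apply IntF.val | with_reducible apply IntF.mk | (with_reducible refine Int.comp ?_ ?_; assumption) | (with_reducible refine Int.comp₂ ?_ ?_ ?_; assumption) | (with_reducible refine Int.comp₃ ?_ ?_ ?_ ?_; assumption) | (with_reducible refine Int.comp₄ ?_ ?_ ?_ ?_ ?_; assumption) | (with_reducible refine IntF.comp ?_ ?_; assumption) | (with_reducible refine IntF.comp₂ ?_ ?_ ?_; assumption) | (with_reducible refine IntF.comp₃ ?_ ?_ ?_ ?_; assumption) | with_reducible apply IntF.pair))) ⟨l, by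
      rintro π hπ c r - q hq
      exact ⟨q, le_rfl, c, q, trivial, le_rfl, FEq.refl q c⟩⟩
  obtain ⟨p, hp⟩ := hG.ne
  refine ⟨z, ⟨nd hG h 0, (hz _).2 ⟨0, p, hp, trivial, rfl⟩, fun w hw => ?_⟩, fun n hn => ?_⟩
  · obtain ⟨m, s, -, h1, -⟩ := (mem_nd hG h).1 hw
    exact INat.not_lt_zero h1
  · obtain ⟨m, -, -, -, rfl⟩ := (hz n).1 hn
    refine ⟨nd hG h m.succ, (hz _).2 ⟨m.succ, p, hp, trivial, rfl⟩, fun w => ?_⟩
    rw [mem_nd, mem_nd]
    constructor
    · rintro ⟨k, s, hs, h1, rfl⟩
      rcases INat.lt_succ_iff'.1 h1 with h1 | rfl
      · exact Or.inl ⟨k, s, hs, h1, rfl⟩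
      · exact Or.inr rfl
    · rintro (⟨k, s, hs, h1, rfl⟩ | rfl)
      · exact ⟨k, s, hs, INat.lt_succ_iff'.2 (Or.inl h1), rfl⟩
      · exact ⟨m, p, hp, INat.lt_succ_self m, rfl⟩

end

end Pool.Agent.Helper672.ZFA.H635
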