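import Pool.Agent.H635R2.Gen

/-!
# Nodes as elements of the extension, new nodes
-/

namespace Pool.Agent.Helper672.ZFA.H635

open FirstOrder FirstOrder.Language
open Pool.Agent.Helper672.Plain (LSet)

universe u

section

variable {M : Type u} [L.Structure M] [hM : IsModel M]
variable {P Γ : Type u} [ITy M P] [Preorder P] [ILE M P] [ITy M Γ] [Group Γ] [IMul M Γ]
  [IInv M Γ] [MulAction Γ P] [ISMul M Γ P]
variable {Λ : Type u} [ITy M Λ] {S : SymSys M P Γ Λ}
variable {α β ε : Type u} [ITy M α] [ITy M β] [ITy M ε]
variable {G : Set P} (hG : IsGen M G)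

/-- The element of the extension given by a node of a good graph. -/
noncomputable def nd {E : α → P → α → Prop} (h : Good S E) (a : α) : NN S hG :=
  NN.mk hG (mkNm h a)

theorem nd_eq {E : α → P → α → Prop} {F : β → P → β → Prop} (h : Good S E) (h' : Good S F)
    {a : α} {b : β} : nd hG h a = nd hG h' b ↔ ∃ p, p ∈ G ∧ FEq M E F p a b := by
  unfold nd
  rw [mk_eq]
  refine exists_congr fun p => and_congr_right fun _ => ?_
  have h1 := feq_mkNm h a p
  have h2 := feq_mkNm h' b p
  constructor
  · intro h3
    exact (h1.trans h.int (Nm.int _) (Nm.int _) h3).trans h.int (Nm.int _) h'.int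
      (h2.symm h'.int (Nm.int _))
  · intro h3
    exact ((h1.symm h.int (Nm.int _)).trans (Nm.int _) h.int h'.int h3).trans (Nm.int _)
      h'.int (Nm.int _) h2

theorem nd_eq_of {E : α → P → α → Prop} {F : β → P → β → Prop} (h : Good S E) (h' : Good S F)
    {a : α} {b : β} (hab : ∀ p, FEq M E F p a b) : nd hG h a = nd hG h' b := by
  obtain ⟨p, hp⟩ := hG.ne
  exact (nd_eq hG h h').2 ⟨p, hp, hab p⟩

theorem mk_eq_nd (x : Nm S) : NN.mk hG x = nd hG x.good x.root := by
  obtain ⟨p, hp⟩ := hG.ne
  exact (mk_eq hG).2 ⟨p, hp, feq_mkNm x.good x.root p⟩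

theorem mem_nd_nd {E : α → P → α → Prop} {F : β → P → β → Prop} (h : Good S E) (h' : Good S F)
    {a : α} {b : β} : Plain.Mem (nd hG h a) (nd hG h' b) ↔ ∃ p, p ∈ G ∧ FMem M E F p a b := by
  unfold nd
  rw [mem_mk (S := S) hG]
  refine exists_congr fun p => and_congr_right fun _ => ?_
  have h1 := feq_mkNm h a p
  have h2 := feq_mkNm h' b p
  constructor
  · intro h3
    exact FMem.congr_left h.int (Nm.int _) h'.int h1 (FMem.congr_right (Nm.int _) (Nm.int _)
      h'.int h3 (h2.symm h'.int (Nm.int _)))
  · intro h3
    exact FMem.congr_left (Nm.int _) h.int (Nm.int _) (h1.symm h.int (Nm.int _))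
      (FMem.congr_right h.int h'.int (Nm.int _) h3 h2)

include hG in
theorem fmem_gen {E : α → P → α → Prop} {F : β → P → β → Prop} (hE : IG M E) (hF : IG M F)
    {a : α} {b : β} {p : P} (hp : p ∈ G) (h : FMem M E F p a b) :
    ∃ q, q ∈ G ∧ q ≤ p ∧ ∃ b' s, F b' s b ∧ q ≤ s ∧ FEq M E F q a b' := by
  have hI := hE.feq hF
  have hF' : Int M (fun q : (β × P) × β => F q.1.1 q.1.2 q.2) := hF
  refine hG.dense_below (s := fun q => ∃ b' s, F b' s b ∧ q ≤ s ∧ FEq M E F q a b') ?_ hp h
  (repeat' (first | (with_reducible refine Int.comp₃ (p := fun p a b => FEq M E F p a b) hI ?_ ?_ ?_) | with_reducible exact IntF.id | with_reducible exact IntF.fst' | with_reducible exact IntF.snd' | with_reducible exact IntF.const _ | with_reducible exact Int.const _ | assumption | with_reducible apply Int.and | with_reducible apply Int.or | with_reducible apply Int.not | with_reducible apply Int.imp | with_reducible apply Int.iff | with_reducible apply Int.ne | with_reducible apply Int.eq | with_reducible apply Int.mem | with_reducible apply Int.subset | with_reducible apply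 Int.ltN | with_reducible apply Int.leN | with_reducible_and_instances apply Int.le | with_reducible_and_instances apply Int.lt | with_reducible apply Int.all | with_reducible apply Int.ex | with_reducible apply IntF.fst | with_reducible apply IntF.snd | with_reducible apply IntF.app | with_reducible apply IntF.inl | with_reducible apply IntF.inr | with_reducible_and_instances apply IntF.mul | with_reducible_and_instances apply IntF.inv | with_reducible_and_instances apply IntF.add | with_reducible_and_instances apply IntF.sub | with_reducible_and_instances apply IntF.neg | with_reducible_and_instances apply IntF.smul | with_reducible apply IntF.succ | with_reducible apply IntF.val | with_reducible apply IntF.mk | (with_reducible refine Int.comp ?_ ?_; assumption) | (with_reducible refine Int.comp₂ ?_ ?_ ?_; assumption) | (with_reducible refine Int.comp₃ ?_ ?_ ?_ ?_; assumption) | (with_reducible refine Int.comp₄ ?_ ?_ ?_ ?_ ?_; assumption) | (with_reducible refine IntF.comp ?_ ?_; assumption) | (with_reducible refine IntF.comp₂ ?_ ?_ ?_; assumption)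 | (with_reducible refine IntF.comp₃ ?_ ?_ ?_ ?_; assumption) | with_reducible apply IntF.pair))

theorem mem_nd {E : α → P → α → Prop} (h : Good S E) {b : α} {w : NN S hG} :
    Plain.Mem w (nd hG h b) ↔ ∃ a s, s ∈ G ∧ E a s b ∧ w = nd hG h a := by
  obtain ⟨x, rfl⟩ := exists_mk hG w
  rw [mk_eq_nd, mem_nd_nd]
  constructor
  · rintro ⟨p, hp, h1⟩
    obtain ⟨q, hq, -, b', s, h2, h3, h4⟩ := fmem_gen hG x.int h.int hp h1
    exact ⟨b', s, hG.up _ _ hq h3, h2, (nd_eq hG _ _).2 ⟨q, hq, h4⟩⟩
  · rintro ⟨a, s, hs, h1, h2⟩
    obtain ⟨p, hp, h3⟩ := (nd_eq hG _ _).1 h2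
    obtain ⟨r, hr, h4, h5⟩ := hG.dir p s hp hs
    refine ⟨r, hr, fun q hq => ⟨q, le_rfl, a, s, h1, hq.trans h5, h3.mono (hq.trans h4)⟩⟩

/-- Extensionality. -/
theorem nn_ext {x y : NN S hG} (hxy : ∀ z, Plain.Mem z x ↔ Plain.Mem z y) : x = y := by
  obtain ⟨x, rfl⟩ := exists_mk hG x
  obtain ⟨y, rfl⟩ := exists_mk hG y
  have hx := x.int
  have hy := y.int
  have hx' : Int M (fun q : (El (Tn x.1) × P) × El (Tn x.1) => x.E q.1.1 q.1.2 q.2) := hx
  have hy' : Int M (fun q : (El (Tn y.1) × P) × El (Tn y.1) => y.E q.1.1 q.1.2 q.2) := hy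
  have hI := hx.feq hy
  have hI1 := hx.fmem hy
  have hI2 := hy.fmem hx
  obtain ⟨p, hp, h1⟩ := hG.dense (fun p => FEqN p x y ∨
      (∃ a s, x.E a s x.root ∧ p ≤ s ∧ ∀ q, q ≤ p → ¬ FMem M x.E y.E q a y.root) ∨
      (∃ a s, y.E a s y.root ∧ p ≤ s ∧ ∀ q, q ≤ p → ¬ FMem M y.E x.E q a x.root))
    (by
      unfold FEqN
      (repeat' (first | (with_reducible refine Int.comp₃ (p := fun p a b => FEq M x.E y.E p a b) hI ?_ ?_ ?_) | (with_reducible refine Int.comp₃ (p := fun p a b => FMem M x.E y.E p a b) hI1 ?_ ?_ ?_) | (with_reducible refine Int.comp₃ (p := fun p a b => FMem M y.E x.E p a b) hI2 ?_ ?_ ?_) | (with_reducible refine Int.comp₃ (p := fun a p b => x.E a p b) hx' ?_ ?_ ?_) | (with_reducible refine Int.comp₃ (p := fun a p b => y.E a p b) hy' ?_ ?_ ?_) | with_reducible exact IntF.id | with_reducible exact IntF.fst' | with_reducible exact IntF.snd' | with_reducible exact IntF.const _ | with_reducible exact Int.const _ | assumption | with_reducible apply Int.and | with_reducible apply Int.or | with_reducible apply Int.not | with_reducible apply Int.imp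 | with_reducible apply Int.iff | with_reducible apply Int.ne | with_reducible apply Int.eq | with_reducible apply Int.mem | with_reducible apply Int.subset | with_reducible apply Int.ltN | with_reducible apply Int.leN | with_reducible_and_instances apply Int.le | with_reducible_and_instances apply Int.lt | with_reducible apply Int.all | with_reducible apply Int.ex | with_reducible apply IntF.fst | with_reducible apply IntF.snd | with_reducible apply IntF.app | with_reducible apply IntF.inl | with_reducible apply IntF.inr | with_reducible_and_instances apply IntF.mul | with_reducible_and_instances apply IntF.inv | with_reducible_and_instances apply IntF.add | with_reducible_and_instances apply IntF.sub | with_reducible_and_instances apply IntF.neg | with_reducible_and_instances apply IntF.smul | with_reducible apply IntF.succ | with_reducible apply IntF.val | with_reducible apply IntF.mk | (with_reducible refine Int.comp ?_ ?_; assumption) | (with_reducible refine Int.comp₂ ?_ ?_ ?_; assumption) | (with_reducible refine Int.comp₃ ?_ ?_ ?_ ?_; assumption)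 | (with_reducible refine Int.comp₄ ?_ ?_ ?_ ?_ ?_; assumption) | (with_reducible refine IntF.comp ?_ ?_; assumption) | (with_reducible refine IntF.comp₂ ?_ ?_ ?_; assumption) | (with_reducible refine IntF.comp₃ ?_ ?_ ?_ ?_; assumption) | with_reducible apply IntF.pair)))
    fun p => by
      by_contra h
      push Not at h
      have h0 : ∀ q, q ≤ p → ¬ FEqN q x y := fun q hq => (h q hq).1
      refine h0 p le_rfl ((feq_iff hx hy).2 ⟨?_, ?_⟩)
      · intro a s ha q hq hs
        refine FMem.of_dense fun r hr => ?_
        obtain ⟨q', h2, h3⟩ := (h r (hr.trans hq)).2.1 a s ha (hr.trans hs)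
        exact ⟨q', h2, h3⟩
      · intro a s ha q hq hs
        refine FMem.of_dense fun r hr => ?_
        obtain ⟨q', h2, h3⟩ := (h r (hr.trans hq)).2.2 a s ha (hr.trans hs)
        exact ⟨q', h2, h3⟩
  rcases h1 with h1 | ⟨a, s, h1, h2, h3⟩ | ⟨a, s, h1, h2, h3⟩
  · exact (mk_eq hG).2 ⟨p, hp, h1⟩
  · have h4 : Plain.Mem (nd hG x.good a) (NN.mk hG x) := by
      rw [mk_eq_nd, mem_nd]
      exact ⟨a, s, hG.up _ _ hp h2, h1, rfl⟩
    rw [hxy, mk_eq_nd, mem_nd_nd] at h4
    obtain ⟨q, hq, h5⟩ := h4
    obtain ⟨r, _, h6, h7⟩ := hG.dir p q hp hq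
    exact absurd (h5.mono h7) (h3 r h6)
  · have h4 : Plain.Mem (nd hG y.good a) (NN.mk hG y) := by
      rw [mk_eq_nd, mem_nd]
      exact ⟨a, s, hG.up _ _ hp h2, h1, rfl⟩
    rw [← hxy, mk_eq_nd, mem_nd_nd] at h4
    obtain ⟨q, hq, h5⟩ := h4
    obtain ⟨r, _, h6, h7⟩ := hG.dir p q hp hq
    exact absurd (h5.mono h7) (h3 r h6)

/-! ### New nodes -/

/-- The graph with new nodes `b` whose elements are given by `Q`. -/
def extG (E : α → P → α → Prop) (Q : α → P → β → Prop) : α ⊕ β → P → α ⊕ β → Prop :=
  fun x p y => (∃ a b, x = Sum.inl a ∧ y = Sum.inl b ∧ E a p b) ∨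
    (∃ a b, x = Sum.inl a ∧ y = Sum.inr b ∧ Q a p b)

omit [ITy M P] [Preorder P] [ILE M P] [ITy M α] [ITy M β] hM [L.Structure M] in
theorem extG_inl (E : α → P → α → Prop) (Q : α → P → β → Prop) (x : α ⊕ β) (p : P) (a : α) :
    extG E Q x p (Sum.inl a) ↔ ∃ a', Sum.inl a' = x ∧ E a' p a := by
  constructor
  · rintro (⟨a', b', rfl, h1, h2⟩ | ⟨a', b', rfl, h1, h2⟩)
    · obtain rfl := Sum.inl_injective h1
      exact ⟨a', rfl, h2⟩
    · cases h1
  · rintro ⟨a', rfl, h⟩
    exact Or.inl ⟨a', a, rfl, rfl, h⟩

theorem extG_inr (E : α → P → α → Prop) (Q : α → P → β → Prop) (x : α ⊕ β) (p : P) (b : β) :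
    extG E Q x p (Sum.inr b) ↔ ∃ a', Sum.inl a' = x ∧ Q a' p b := by
  constructor
  · rintro (⟨a', b', rfl, h1, h2⟩ | ⟨a', b', rfl, h1, h2⟩)
    · cases h1
    · obtain rfl := Sum.inr_injective h1
      exact ⟨a', rfl, h2⟩
  · rintro ⟨a', rfl, h⟩
    exact Or.inr ⟨a', b, rfl, rfl, h⟩

variable (S) in
/-- The elements given by `Q` form a symmetric set. -/
def SymQ (E : α → P → α → Prop) (Q : α → P → Prop) (l : Λ) : Prop :=
  ∀ π, S.U l π → ∀ a r, Q a r → ∀ q, q ≤ π • r → ∃ q', q' ≤ q ∧ ∃ b r', Q b r' ∧ q' ≤ r' ∧
    FEq M (tw π E) E q' a b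

theorem feq_inl (E : α → P → α → Prop) (Q : α → P → β → Prop) (p : P) (a : α) :
    FEq M E (extG E Q) p a (Sum.inl a) :=
  feq_of_map IntF.inl' (fun a' x s => extG_inl E Q x s a') p a

theorem feq_tw_inl (π : Γ) (E : α → P → α → Prop) (Q : α → P → β → Prop) (p : P) (a : α) :
    FEq M (tw π E) (tw π (extG E Q)) p a (Sum.inl a) :=
  feq_of_map IntF.inl' (fun a' x s => extG_inl E Q x (π⁻¹ • s) a') p a

theorem ig_extG {E : α → P → α → Prop} {Q : α → P → β → Prop} (hE : IG M E)
    (hQ : Int M (fun q : (α × P) × β => Q q.1.1 q.1.2 q.2)) : IG M (extG E Q) := by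
  have hE' : Int M (fun q : (α × P) × α => E q.1.1 q.1.2 q.2) := hE
  unfold IG extG
  (repeat' (first | with_reducible exact IntF.id | with_reducible exact IntF.fst' | with_reducible exact IntF.snd' | with_reducible exact IntF.const _ | with_reducible exact Int.const _ | assumption | with_reducible apply Int.and | with_reducible apply Int.or | with_reducible apply Int.not | with_reducible apply Int.imp | with_reducible apply Int.iff | with_reducible apply Int.ne | with_reducible apply Int.eq | with_reducible apply Int.mem | with_reducible apply Int.subset | with_reducible apply Int.ltN | with_reducible apply Int.leN | with_reducible_and_instances apply Int.le | with_reducible_and_instances apply Int.lt | with_reducible apply Int.all | with_reducible apply Int.ex | with_reducible apply IntF.fst | with_reducible apply IntF.snd | with_reducible apply IntF.app | with_reducible apply IntF.inl | with_reducible apply IntF.inr | with_reducible_and_instances apply IntF.mul | with_reducible_and_instances apply IntF.inv | with_reducible_and_instances apply IntF.add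 | with_reducible_and_instances apply IntF.sub | with_reducible_and_instances apply IntF.neg | with_reducible_and_instances apply IntF.smul | with_reducible apply IntF.succ | with_reducible apply IntF.val | with_reducible apply IntF.mk | (with_reducible refine Int.comp ?_ ?_; assumption) | (with_reducible refine Int.comp₂ ?_ ?_ ?_; assumption) | (with_reducible refine Int.comp₃ ?_ ?_ ?_ ?_; assumption) | (with_reducible refine Int.comp₄ ?_ ?_ ?_ ?_ ?_; assumption) | (with_reducible refine IntF.comp ?_ ?_; assumption) | (with_reducible refine IntF.comp₂ ?_ ?_ ?_; assumption) | (with_reducible refine IntF.comp₃ ?_ ?_ ?_ ?_; assumption) | with_reducible apply IntF.pair))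

theorem good_extG {E : α → P → α → Prop} {Q : α → P → β → Prop} (h : Good S E)
    (hQ : Int M (fun q : (α × P) × β => Q q.1.1 q.1.2 q.2))
    (hs : ∀ b, ∃ l, SymQ S E (fun a p => Q a p b) l) : Good S (extG E Q) := by
  have hI := ig_extG h.int hQ
  refine ⟨hI, ?_, ?_⟩
  · intro s ⟨x, hx⟩
    by_cases h1 : ∃ a : α, (Sum.inl a : α ⊕ β) ∈ s
    · have h2 : Int M (fun a : α => (Sum.inl a : α ⊕ β) ∈ s) := by (repeat' (first | with_reducible exact IntF.id | with_reducible exact IntF.fst' | with_reducible exact IntF.snd' | with_reducible exact IntF.const _ | with_reducible exact Int.const _ | assumption | with_reducible apply Int.and | with_reducible apply Int.or | with_reducible apply Int.not | with_reducible apply Int.imp | with_reducible apply Int.iff | with_reducible apply Int.ne | with_reducible apply Int.eq | with_reducible apply Int.mem | with_reducible apply Int.subset | with_reducible apply Int.ltN | with_reducible apply Int.leN | with_reducible_and_instances apply Int.le | with_reducible_and_instances apply Int.lt | with_reducible apply Int.all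 | with_reducible apply Int.ex | with_reducible apply IntF.fst | with_reducible apply IntF.snd | with_reducible apply IntF.app | with_reducible apply IntF.inl | with_reducible apply IntF.inr | with_reducible_and_instances apply IntF.mul | with_reducible_and_instances apply IntF.inv | with_reducible_and_instances apply IntF.add | with_reducible_and_instances apply IntF.sub | with_reducible_and_instances apply IntF.neg | with_reducible_and_instances apply IntF.smul | with_reducible apply IntF.succ | with_reducible apply IntF.val | with_reducible apply IntF.mk | (with_reducible refine Int.comp ?_ ?_; assumption) | (with_reducible refine Int.comp₂ ?_ ?_ ?_; assumption) | (with_reducible refine Int.comp₃ ?_ ?_ ?_ ?_; assumption) | (with_reducible refine Int.comp₄ ?_ ?_ ?_ ?_ ?_; assumption) | (with_reducible refine IntF.comp ?_ ?_; assumption) | (with_reducible refine IntF.comp₂ ?_ ?_ ?_; assumption) | (with_reducible refine IntF.comp₃ ?_ ?_ ?_ ?_; assumption) | with_reducible apply IntF.pair))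
      obtain ⟨a, ha⟩ := h1
      obtain ⟨a, h3, h4⟩ := h.wf (sep M fun a : α => (Sum.inl a : α ⊕ β) ∈ s)
        ⟨a, (mem_sep h2).2 ha⟩
      refine ⟨Sum.inl a, (mem_sep h2).1 h3, fun y q hy hE => ?_⟩
      obtain ⟨a', rfl, h5⟩ := (extG_inl E Q y q a).1 hE
      exact h4 a' q ((mem_sep h2).2 hy) h5
    · refine ⟨x, hx, fun y q hy hE => ?_⟩
      rcases hE with ⟨a', b', rfl, _, _⟩ | ⟨a', b', rfl, _, _⟩
      · exact h1 ⟨a', hy⟩
      · exact h1 ⟨a', hy⟩
  · rintro (a | b)
    · obtain ⟨l, hl⟩ := h.sym a
      exact ⟨l, hl.congr S h.int hI fun p => feq_inl E Q p a⟩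
    · obtain ⟨l, hl⟩ := hs b
      refine ⟨l, fun π hπ p => (feq_iff (hI.tw π) hI).2 ⟨?_, ?_⟩⟩
      · intro x r hx q _ hr q1 hq1
        obtain ⟨a, rfl, h1⟩ := (extG_inr E Q x _ b).1 hx
        have h2 : q1 ≤ π • π⁻¹ • r := by
          rw [smul_inv_smul]
          exact hq1.trans hr
        obtain ⟨q', h3, a', r', h4, h5, h6⟩ := hl π hπ a (π⁻¹ • r) h1 q1 h2
        refine ⟨q', h3, Sum.inl a', r', (extG_inr E Q _ _ b).2 ⟨a', rfl, h4⟩, h5, ?_⟩
        have h7 := feq_inl (M := M) E Q q' a'
        have h8 := feq_tw_inl (M := M) π E Q q' a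
        exact ((h8.symm (h.int.tw π) (hI.tw π)).trans (hI.tw π) (h.int.tw π) h.int h6).trans
          (hI.tw π) h.int hI h7
      · intro x r hx q _ hr q1 hq1
        obtain ⟨a, rfl, h1⟩ := (extG_inr E Q x _ b).1 hx
        have h2 : π⁻¹ • q1 ≤ π⁻¹ • r := S.smul_le _ (hq1.trans hr)
        obtain ⟨q', h3, a', r', h4, h5, h6⟩ := hl π⁻¹ (S.inv _ _ hπ) a r h1 (π⁻¹ • q1) h2
        have h6' := feq_tw S π h6
        rw [tw_tw_inv] at h6'
        refine ⟨π • q', ?_, Sum.inl a', π • r', ?_, S.smul_le π h5, ?_⟩
        · have := S.smul_le π h3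
          rwa [smul_inv_smul] at this
        · rw [tw_smul]
          exact (extG_inr E Q _ _ b).2 ⟨a', rfl, h4⟩
        · have h7 := feq_inl (M := M) E Q (π • q') a
          have h8 := feq_tw_inl (M := M) π E Q (π • q') a'
          exact ((h7.symm h.int hI).trans hI h.int (h.int.tw π) h6').trans
            hI (h.int.tw π) (hI.tw π) h8

theorem nd_inl {E : α → P → α → Prop} {Q : α → P → β → Prop} (h : Good S E)
    (h' : Good S (extG E Q)) (a : α) : nd hG h' (Sum.inl a) = nd hG h a :=
  (nd_eq_of hG h h' fun p => feq_inl E Q p a).symm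

theorem mem_nd_inr {E : α → P → α → Prop} {Q : α → P → β → Prop} (h : Good S E)
    (h' : Good S (extG E Q)) (b : β) {w : NN S hG} :
    Plain.Mem w (nd hG h' (Sum.inr b)) ↔ ∃ a s, s ∈ G ∧ Q a s b ∧ w = nd hG h a := by
  rw [mem_nd]
  constructor
  · rintro ⟨x, s, h1, h2, rfl⟩
    obtain ⟨a, rfl, h3⟩ := (extG_inr E Q x s b).1 h2
    exact ⟨a, s, h1, h3, nd_inl hG h h' a⟩
  · rintro ⟨a, s, h1, h2, rfl⟩
    exact ⟨Sum.inl a, s, h1, (extG_inr E Q _ s b).2 ⟨a, rfl, h2⟩, (nd_inl hG h h' a).symm⟩

/-- The basic construction of sets in the extension. -/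
theorem exists_set {E : α → P → α → Prop} (h : Good S E) {Q : α → P → Prop}
    (hQ : Int M (fun q : α × P => Q q.1 q.2)) (hs : ∃ l, SymQ S E Q l) :
    ∃ z : NN S hG, ∀ w, Plain.Mem w z ↔ ∃ a s, s ∈ G ∧ Q a s ∧ w = nd hG h a := by
  have h' : Good S (extG E (fun a p (_ : PUnit.{u+1}) => Q a p)) :=
    good_extG h (Int.comp₂ (p := Q) hQ (IntF.fst IntF.fst') (IntF.snd IntF.fst')) fun _ => hs
  exact ⟨nd hG h' (Sum.inr PUnit.unit), fun w => mem_nd_inr hG h h' _⟩

/-! ### Sums of graphs -/

/-- The disjoint union of two graphs. -/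
def sumG (E : α → P → α → Prop) (F : β → P → β → Prop) : α ⊕ β → P → α ⊕ β → Prop :=
  fun x p y => (∃ a b, x = Sum.inl a ∧ y = Sum.inl b ∧ E a p b) ∨
    (∃ a b, x = Sum.inr a ∧ y = Sum.inr b ∧ F a p b)

theorem sumG_inl (E : α → P → α → Prop) (F : β → P → β → Prop) (x : α ⊕ β) (p : P) (a : α) :
    sumG E F x p (Sum.inl a) ↔ ∃ a', Sum.inl a' = x ∧ E a' p a := by
  constructor
  · rintro (⟨a', b', rfl, h1, h2⟩ | ⟨a', b', rfl, h1, h2⟩)
    · obtain rfl := Sum.inl_injective h1
      exact ⟨a', rfl, h2⟩
    · cases h1
  · rintro ⟨a', rfl, h⟩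
    exact Or.inl ⟨a', a, rfl, rfl, h⟩

theorem sumG_inr (E : α → P → α → Prop) (F : β → P → β → Prop) (x : α ⊕ β) (p : P) (b : β) :
    sumG E F x p (Sum.inr b) ↔ ∃ b', Sum.inr b' = x ∧ F b' p b := by
  constructor
  · rintro (⟨a', b', rfl, h1, h2⟩ | ⟨a', b', rfl, h1, h2⟩)
    · cases h1
    · obtain rfl := Sum.inr_injective h1
      exact ⟨a', rfl, h2⟩
  · rintro ⟨b', rfl, h⟩
    exact Or.inr ⟨b', b, rfl, rfl, h⟩

theorem good_sumG {E : α → P → α → Prop} {F : β → P → β → Prop} (h : Good S E)
    (h' : Good S F) : Good S (sumG E F) := by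
  have hI : IG M (sumG E F) := by
    have hE' : Int M (fun q : (α × P) × α => E q.1.1 q.1.2 q.2) := h.int
    have hF' : Int M (fun q : (β × P) × β => F q.1.1 q.1.2 q.2) := h'.int
    unfold IG sumG
    (repeat' (first | with_reducible exact IntF.id | with_reducible exact IntF.fst' | with_reducible exact IntF.snd' | with_reducible exact IntF.const _ | with_reducible exact Int.const _ | assumption | with_reducible apply Int.and | with_reducible apply Int.or | with_reducible apply Int.not | with_reducible apply Int.imp | with_reducible apply Int.iff | with_reducible apply Int.ne | with_reducible apply Int.eq | with_reducible apply Int.mem | with_reducible apply Int.subset | with_reducible apply Int.ltN | with_reducible apply Int.leN | with_reducible_and_instances apply Int.le | with_reducible_and_instances apply Int.lt | with_reducible apply Int.all | with_reducible apply Int.ex | with_reducible apply IntF.fst | with_reducible apply IntF.snd | with_reducible apply IntF.app | with_reducible apply IntF.inl | with_reducible apply IntF.inr | with_reducible_and_instances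 apply IntF.mul | with_reducible_and_instances apply IntF.inv | with_reducible_and_instances apply IntF.add | with_reducible_and_instances apply IntF.sub | with_reducible_and_instances apply IntF.neg | with_reducible_and_instances apply IntF.smul | with_reducible apply IntF.succ | with_reducible apply IntF.val | with_reducible apply IntF.mk | (with_reducible refine Int.comp ?_ ?_; assumption) | (with_reducible refine Int.comp₂ ?_ ?_ ?_; assumption) | (with_reducible refine Int.comp₃ ?_ ?_ ?_ ?_; assumption) | (with_reducible refine Int.comp₄ ?_ ?_ ?_ ?_ ?_; assumption) | (with_reducible refine IntF.comp ?_ ?_; assumption) | (with_reducible refine IntF.comp₂ ?_ ?_ ?_; assumption) | (with_reducible refine IntF.comp₃ ?_ ?_ ?_ ?_; assumption) | with_reducible apply IntF.pair))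
  refine ⟨hI, ?_, ?_⟩
  · intro s ⟨x, hx⟩
    by_cases h1 : ∃ a : α, (Sum.inl a : α ⊕ β) ∈ s
    · have h2 : Int M (fun a : α => (Sum.inl a : α ⊕ β) ∈ s) := by (repeat' (first | with_reducible exact IntF.id | with_reducible exact IntF.fst' | with_reducible exact IntF.snd' | with_reducible exact IntF.const _ | with_reducible exact Int.const _ | assumption | with_reducible apply Int.and | with_reducible apply Int.or | with_reducible apply Int.not | with_reducible apply Int.imp | with_reducible apply Int.iff | with_reducible apply Int.ne | with_reducible apply Int.eq | with_reducible apply Int.mem | with_reducible apply Int.subset | with_reducible apply Int.ltN | with_reducible apply Int.leN | with_reducible_and_instances apply Int.le | with_reducible_and_instances apply Int.lt | with_reducible apply Int.all | with_reducible apply Int.ex | with_reducible apply IntF.fst | with_reducible apply IntF.snd | with_reducible apply IntF.app | with_reducible apply IntF.inl | with_reducible apply IntF.inr | with_reducible_and_instances apply IntF.mul | with_reducible_and_instances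 apply IntF.inv | with_reducible_and_instances apply IntF.add | with_reducible_and_instances apply IntF.sub | with_reducible_and_instances apply IntF.neg | with_reducible_and_instances apply IntF.smul | with_reducible apply IntF.succ | with_reducible apply IntF.val | with_reducible apply IntF.mk | (with_reducible refine Int.comp ?_ ?_; assumption) | (with_reducible refine Int.comp₂ ?_ ?_ ?_; assumption) | (with_reducible refine Int.comp₃ ?_ ?_ ?_ ?_; assumption) | (with_reducible refine Int.comp₄ ?_ ?_ ?_ ?_ ?_; assumption) | (with_reducible refine IntF.comp ?_ ?_; assumption) | (with_reducible refine IntF.comp₂ ?_ ?_ ?_; assumption) | (with_reducible refine IntF.comp₃ ?_ ?_ ?_ ?_; assumption) | with_reducible apply IntF.pair))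
      obtain ⟨a, ha⟩ := h1
      obtain ⟨a, h3, h4⟩ := h.wf (sep M fun a : α => (Sum.inl a : α ⊕ β) ∈ s)
        ⟨a, (mem_sep h2).2 ha⟩
      refine ⟨Sum.inl a, (mem_sep h2).1 h3, fun y q hy hE => ?_⟩
      obtain ⟨a', rfl, h5⟩ := (sumG_inl E F y q a).1 hE
      exact h4 a' q ((mem_sep h2).2 hy) h5
    · have h2 : Int M (fun b : β => (Sum.inr b : α ⊕ β) ∈ s) := by (repeat' (first | with_reducible exact IntF.id | with_reducible exact IntF.fst' | with_reducible exact IntF.snd' | with_reducible exact IntF.const _ | with_reducible exact Int.const _ | assumption | with_reducible apply Int.and | with_reducible apply Int.or | with_reducible apply Int.not | with_reducible apply Int.imp | with_reducible apply Int.iff | with_reducible apply Int.ne | with_reducible apply Int.eq | with_reducible apply Int.mem | with_reducible apply Int.subset | with_reducible apply Int.ltN | with_reducible apply Int.leN | with_reducible_and_instances apply Int.le | with_reducible_and_instances apply Int.lt | with_reducible apply Int.all | with_reducible apply Int.ex | with_reducible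 apply IntF.fst | with_reducible apply IntF.snd | with_reducible apply IntF.app | with_reducible apply IntF.inl | with_reducible apply IntF.inr | with_reducible_and_instances apply IntF.mul | with_reducible_and_instances apply IntF.inv | with_reducible_and_instances apply IntF.add | with_reducible_and_instances apply IntF.sub | with_reducible_and_instances apply IntF.neg | with_reducible_and_instances apply IntF.smul | with_reducible apply IntF.succ | with_reducible apply IntF.val | with_reducible apply IntF.mk | (with_reducible refine Int.comp ?_ ?_; assumption) | (with_reducible refine Int.comp₂ ?_ ?_ ?_; assumption) | (with_reducible refine Int.comp₃ ?_ ?_ ?_ ?_; assumption) | (with_reducible refine Int.comp₄ ?_ ?_ ?_ ?_ ?_; assumption) | (with_reducible refine IntF.comp ?_ ?_; assumption) | (with_reducible refine IntF.comp₂ ?_ ?_ ?_; assumption) | (with_reducible refine IntF.comp₃ ?_ ?_ ?_ ?_; assumption) | with_reducible apply IntF.pair))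
      rcases x with a | b
      · exact absurd ⟨a, hx⟩ h1
      obtain ⟨b, h3, h4⟩ := h'.wf (sep M fun b : β => (Sum.inr b : α ⊕ β) ∈ s)
        ⟨b, (mem_sep h2).2 hx⟩
      refine ⟨Sum.inr b, (mem_sep h2).1 h3, fun y q hy hE => ?_⟩
      obtain ⟨a', rfl, h5⟩ := (sumG_inr E F y q b).1 hE
      exact h4 a' q ((mem_sep h2).2 hy) h5
  · rintro (a | b)
    · obtain ⟨l, hl⟩ := h.sym a
      exact ⟨l, hl.congr S h.int hI fun p =>
        feq_of_map IntF.inl' (fun a' x s => sumG_inl E F x s a') p a⟩
    · obtain ⟨l, hl⟩ := h'.sym b
      exact ⟨l, hl.congr S h'.int hI fun p =>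
        feq_of_map IntF.inr' (fun a' x s => sumG_inr E F x s a') p b⟩

theorem nd_sum_inl {E : α → P → α → Prop} {F : β → P → β → Prop} (h : Good S E)
    (h' : Good S F) (a : α) : nd hG (good_sumG h h') (Sum.inl a) = nd hG h a :=
  (nd_eq_of hG h _ fun p => feq_of_map IntF.inl' (fun a' x s => sumG_inl E F x s a') p a).symm

theorem nd_sum_inr {E : α → P → α → Prop} {F : β → P → β → Prop} (h : Good S E)
    (h' : Good S F) (b : β) : nd hG (good_sumG h h') (Sum.inr b) = nd hG h' b :=
  (nd_eq_of hG h' _ fun p => feq_of_map IntF.inr' (fun a' x s => sumG_inr E F x s a') p b).symm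

end

end Pool.Agent.Helper672.ZFA.H635
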