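import Pool.Agent.H635R2.Conc
import Pool.Agent.H635R2.MkSet

/-!
# The base graph
-/

namespace Pool.Agent.Helper672.ZFA.H635

open FirstOrder FirstOrder.Language

universe u

set_option synthInstance.maxSize 2000

variable (M : Type u) [L.Structure M] [hM : IsModel M] (X : Type u) [ITy M X]

/-- The types of values. -/
abbrev TS : Type u := IPow M (KK M × X)

/-- The nodes of the base graph. -/
abbrev BN : Type u := INat M ⊕ (KK M ⊕ ((II M × TS M X) ⊕ (II M ⊕ (II M × TS M X))))

variable {M X}

/-- The node of a natural number. -/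
abbrev nat (n : INat M) : BN M X := Sum.inl n
/-- The node of a bounded set. -/
abbrev kn (k : KK M) : BN M X := Sum.inr (Sum.inl k)
/-- The nodes that are elements of the `cn`. -/
abbrev an (i : II M) (t : TS M X) : BN M X := Sum.inr (Sum.inr (Sum.inl (i, t)))
/-- The nodes of the generic elements. -/
abbrev cn (i : II M) : BN M X := Sum.inr (Sum.inr (Sum.inr (Sum.inl i)))
/-- The nodes of the generic subsets of the group. -/
abbrev yn (i : II M) (t : TS M X) : BN M X := Sum.inr (Sum.inr (Sum.inr (Sum.inr (i, t))))

/-- The base graph. -/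
def BE (x : BN M X) (p : PP M X) (y : BN M X) : Prop :=
  (∃ m n, x = nat m ∧ y = nat n ∧ m < n) ∨
  (∃ m k, x = nat m ∧ y = kn k ∧ m ∈ k.1) ∨
  (∃ (k : KK M) (i : II M) (t : TS M X), x = kn k ∧ y = an i t ∧
    ∃ d, (k, d) ∈ t ∧ (i, (k, d)) ∈ p.1) ∨
  (∃ (i : II M) (t : TS M X), x = an i t ∧ y = cn i) ∨
  (∃ (h : KK M) (i : II M) (t : TS M X), x = cn (h, 1) ∧ y = yn i t ∧
    ∃ d, (h, d) ∈ t ∧ (i, (h, d)) ∈ p.1)

theorem ig_BE : IG M (BE (M := M) (X := X)) := by
  unfold IG BE
  (repeat' (first | with_reducible exact IntF.id | with_reducible exact IntF.fst' | with_reducible exact IntF.snd' | with_reducible exact IntF.const _ | with_reducible exact Int.const _ | assumption | with_reducible apply Int.and | with_reducible apply Int.or | with_reducible apply Int.not | with_reducible apply Int.imp | with_reducible apply Int.iff | with_reducible apply Int.ne | with_reducible apply Int.eq | with_reducible apply Int.mem | with_reducible apply Int.subset | with_reducible apply Int.ltN | with_reducible apply Int.leN | with_reducible_and_instances apply Int.le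 | with_reducible_and_instances apply Int.lt | with_reducible apply Int.all | with_reducible apply Int.ex | with_reducible apply IntF.fst | with_reducible apply IntF.snd | with_reducible apply IntF.app | with_reducible apply IntF.inl | with_reducible apply IntF.inr | with_reducible_and_instances apply IntF.mul | with_reducible_and_instances apply IntF.inv | with_reducible_and_instances apply IntF.add | with_reducible_and_instances apply IntF.sub | with_reducible_and_instances apply IntF.neg | with_reducible_and_instances apply IntF.smul | with_reducible apply IntF.succ | with_reducible apply IntF.val | with_reducible apply IntF.mk | (with_reducible refine Int.comp ?_ ?_; assumption) | (with_reducible refine Int.comp₂ ?_ ?_ ?_; assumption) | (with_reducible refine Int.comp₃ ?_ ?_ ?_ ?_; assumption) | (with_reducible refine Int.comp₄ ?_ ?_ ?_ ?_ ?_; assumption) | (with_reducible refine IntF.comp ?_ ?_; assumption) | (with_reducible refine IntF.comp₂ ?_ ?_ ?_; assumption) | (with_reducible refine IntF.comp₃ ?_ ?_ ?_ ?_; assumption) | with_reducible apply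 IntF.pair))

variable {x : BN M X} {p : PP M X}

theorem BE_nat {n : INat M} : BE x p (nat n) ↔ ∃ m, x = nat m ∧ m < n := by
  simp [BE, nat, kn, an, cn, yn]

theorem BE_kn {k : KK M} : BE x p (kn k) ↔ ∃ m, x = nat m ∧ m ∈ k.1 := by
  simp [BE, nat, kn, an, cn, yn]

theorem BE_an {i : II M} {t : TS M X} : BE x p (an i t) ↔
    ∃ k, x = kn k ∧ ∃ d, (k, d) ∈ t ∧ (i, (k, d)) ∈ p.1 := by
  unfold BE
  constructor
  · rintro (⟨m, n, rfl, h, h1⟩ | ⟨m, n, rfl, h, h1⟩ | ⟨k, i', t', rfl, h, h1⟩ | ⟨i', t', rfl, h⟩ |
      ⟨h', i', t', rfl, h, h1⟩)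
    · cases h
    · cases h
    · cases h
      exact ⟨k, rfl, h1⟩
    · cases h
    · cases h
  · rintro ⟨k, rfl, h⟩
    exact Or.inr (Or.inr (Or.inl ⟨k, i, t, rfl, rfl, h⟩))

theorem BE_cn {i : II M} : BE x p (cn i) ↔ ∃ t, x = an i t := by
  unfold BE
  constructor
  · rintro (⟨m, n, rfl, h, h1⟩ | ⟨m, n, rfl, h, h1⟩ | ⟨k, i', t', rfl, h, h1⟩ | ⟨i', t', rfl, h⟩ |
      ⟨h', i', t', rfl, h, h1⟩)
    · cases h
    · cases h
    · cases h
    · cases h
      exact ⟨t', rfl⟩
    · cases h
  · rintro ⟨t, rfl⟩
    exact Or.inr (Or.inr (Or.inr (Or.inl ⟨i, t, rfl, rfl⟩)))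

theorem BE_yn {i : II M} {t : TS M X} : BE x p (yn i t) ↔
    ∃ h, x = cn (h, 1) ∧ ∃ d, (h, d) ∈ t ∧ (i, (h, d)) ∈ p.1 := by
  unfold BE
  constructor
  · rintro (⟨m, n, rfl, h, h1⟩ | ⟨m, n, rfl, h, h1⟩ | ⟨k, i', t', rfl, h, h1⟩ | ⟨i', t', rfl, h⟩ |
      ⟨h', i', t', rfl, h, h1⟩)
    · cases h
    · cases h
    · cases h
    · cases h
    · cases h
      exact ⟨h', rfl, h1⟩
  · rintro ⟨h', rfl, h⟩
    exact Or.inr (Or.inr (Or.inr (Or.inr ⟨h', i, t, rfl, rfl, h⟩)))

theorem wf_BE : WFI M (BE (M := M) (X := X)) := by
  intro s hs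
  by_cases h1 : ∃ n, nat n ∈ s
  · obtain ⟨n, h2, h3⟩ := INat.exists_least (p := fun n => nat n ∈ s) (by (repeat' (first | with_reducible exact IntF.id | with_reducible exact IntF.fst' | with_reducible exact IntF.snd' | with_reducible exact IntF.const _ | with_reducible exact Int.const _ | assumption | with_reducible apply Int.and | with_reducible apply Int.or | with_reducible apply Int.not | with_reducible apply Int.imp | with_reducible apply Int.iff | with_reducible apply Int.ne | with_reducible apply Int.eq | with_reducible apply Int.mem | with_reducible apply Int.subset | with_reducible apply Int.ltN | with_reducible apply Int.leN | with_reducible_and_instances apply Int.le | with_reducible_and_instances apply Int.lt | with_reducible apply Int.all | with_reducible apply Int.ex | with_reducible apply IntF.fst | with_reducible apply IntF.snd | with_reducible apply IntF.app | with_reducible apply IntF.inl | with_reducible apply IntF.inr | with_reducible_and_instances apply IntF.mul | with_reducible_and_instances apply IntF.inv | with_reducible_and_instances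 apply IntF.add | with_reducible_and_instances apply IntF.sub | with_reducible_and_instances apply IntF.neg | with_reducible_and_instances apply IntF.smul | with_reducible apply IntF.succ | with_reducible apply IntF.val | with_reducible apply IntF.mk | (with_reducible refine Int.comp ?_ ?_; assumption) | (with_reducible refine Int.comp₂ ?_ ?_ ?_; assumption) | (with_reducible refine Int.comp₃ ?_ ?_ ?_ ?_; assumption) | (with_reducible refine Int.comp₄ ?_ ?_ ?_ ?_ ?_; assumption) | (with_reducible refine IntF.comp ?_ ?_; assumption) | (with_reducible refine IntF.comp₂ ?_ ?_ ?_; assumption) | (with_reducible refine IntF.comp₃ ?_ ?_ ?_ ?_; assumption) | with_reducible apply IntF.pair))) h1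
    refine ⟨nat n, h2, fun x q hx h4 => ?_⟩
    obtain ⟨m, rfl, h5⟩ := BE_nat.1 h4
    exact absurd (h3 m hx) (not_le.2 h5)
  by_cases h2 : ∃ k, kn k ∈ s
  · obtain ⟨k, hk⟩ := h2
    refine ⟨kn k, hk, fun x q hx h4 => ?_⟩
    obtain ⟨m, rfl, h5⟩ := BE_kn.1 h4
    exact h1 ⟨m, hx⟩
  by_cases h3 : ∃ i t, an i t ∈ s
  · obtain ⟨i, t, hk⟩ := h3
    refine ⟨an i t, hk, fun x q hx h4 => ?_⟩
    obtain ⟨k, rfl, h5⟩ := BE_an.1 h4
    exact h2 ⟨k, hx⟩
  by_cases h5 : ∃ i, cn i ∈ s
  · obtain ⟨i, hk⟩ := h5
    refine ⟨cn i, hk, fun x q hx h4 => ?_⟩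
    obtain ⟨t, rfl⟩ := BE_cn.1 h4
    exact h3 ⟨i, t, hx⟩
  obtain ⟨x, hx⟩ := hs
  refine ⟨x, hx, fun y q hy h4 => ?_⟩
  rcases x with n | k | ⟨i, t⟩ | i | ⟨i, t⟩
  · exact h1 ⟨n, hx⟩
  · exact h2 ⟨k, hx⟩
  · exact h3 ⟨i, t, hx⟩
  · exact h5 ⟨i, hx⟩
  · obtain ⟨h, rfl, -⟩ := BE_yn.1 h4
    exact h5 ⟨_, hy⟩

/-! ### The action on nodes -/

/-- The action on types of values. -/
noncomputable def ts (π : Gam M X) (i : II M) (t : TS M X) : TS M X :=
  sep M fun q : KK M × X => (q.1, (sigi π (rho π i, (q.1, q.2))).2.2) ∈ t

theorem int_ts : IntF M (fun q : (Gam M X × II M) × TS M X => ts q.1.1 q.1.2 q.2) := by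
  have h : IntF M (fun q : Gam M X × Cell M X => sigi q.1 q.2) := int_sigi
  have h' : IntF M (fun q : Gam M X × II M => rho q.1 q.2) := int_rho
  unfold ts
  refine IntF.sep ?_
  (repeat' (first | with_reducible exact IntF.id | with_reducible exact IntF.fst' | with_reducible exact IntF.snd' | with_reducible exact IntF.const _ | with_reducible exact Int.const _ | assumption | with_reducible apply Int.and | with_reducible apply Int.or | with_reducible apply Int.not | with_reducible apply Int.imp | with_reducible apply Int.iff | with_reducible apply Int.ne | with_reducible apply Int.eq | with_reducible apply Int.mem | with_reducible apply Int.subset | with_reducible apply Int.ltN | with_reducible apply Int.leN | with_reducible_and_instances apply Int.le | with_reducible_and_instances apply Int.lt | with_reducible apply Int.all | with_reducible apply Int.ex | with_reducible apply IntF.fst | with_reducible apply IntF.snd | with_reducible apply IntF.app | with_reducible apply IntF.inl | with_reducible apply IntF.inr | with_reducible_and_instances apply IntF.mul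 | with_reducible_and_instances apply IntF.inv | with_reducible_and_instances apply IntF.add | with_reducible_and_instances apply IntF.sub | with_reducible_and_instances apply IntF.neg | with_reducible_and_instances apply IntF.smul | with_reducible apply IntF.succ | with_reducible apply IntF.val | with_reducible apply IntF.mk | (with_reducible refine Int.comp ?_ ?_; assumption) | (with_reducible refine Int.comp₂ ?_ ?_ ?_; assumption) | (with_reducible refine Int.comp₃ ?_ ?_ ?_ ?_; assumption) | (with_reducible refine Int.comp₄ ?_ ?_ ?_ ?_ ?_; assumption) | (with_reducible refine IntF.comp ?_ ?_; assumption) | (with_reducible refine IntF.comp₂ ?_ ?_ ?_; assumption) | (with_reducible refine IntF.comp₃ ?_ ?_ ?_ ?_; assumption) | with_reducible apply IntF.pair))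

theorem mem_ts {π : Gam M X} {i : II M} {t : TS M X} {k : KK M} {d : X} :
    (k, d) ∈ ts π i t ↔ (k, (sigi π (rho π i, (k, d))).2.2) ∈ t := by
  have h : IntF M (fun q : Gam M X × Cell M X => sigi q.1 q.2) := int_sigi
  have h' : IntF M (fun q : Gam M X × II M => rho q.1 q.2) := int_rho
  exact mem_sep (p := fun q : KK M × X => (q.1, (sigi π (rho π i, (q.1, q.2))).2.2) ∈ t) (by (repeat' (first | with_reducible exact IntF.id | with_reducible exact IntF.fst' | with_reducible exact IntF.snd' | with_reducible exact IntF.const _ | with_reducible exact Int.const _ | assumption | with_reducible apply Int.and | with_reducible apply Int.or | with_reducible apply Int.not | with_reducible apply Int.imp | with_reducible apply Int.iff | with_reducible apply Int.ne | with_reducible apply Int.eq | with_reducible apply Int.mem | with_reducible apply Int.subset | with_reducible apply Int.ltN | with_reducible apply Int.leN | with_reducible_and_instances apply Int.le | with_reducible_and_instances apply Int.lt | with_reducible apply Int.all | with_reducible apply Int.ex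 | with_reducible apply IntF.fst | with_reducible apply IntF.snd | with_reducible apply IntF.app | with_reducible apply IntF.inl | with_reducible apply IntF.inr | with_reducible_and_instances apply IntF.mul | with_reducible_and_instances apply IntF.inv | with_reducible_and_instances apply IntF.add | with_reducible_and_instances apply IntF.sub | with_reducible_and_instances apply IntF.neg | with_reducible_and_instances apply IntF.smul | with_reducible apply IntF.succ | with_reducible apply IntF.val | with_reducible apply IntF.mk | (with_reducible refine Int.comp ?_ ?_; assumption) | (with_reducible refine Int.comp₂ ?_ ?_ ?_; assumption) | (with_reducible refine Int.comp₃ ?_ ?_ ?_ ?_; assumption) | (with_reducible refine Int.comp₄ ?_ ?_ ?_ ?_ ?_; assumption) | (with_reducible refine IntF.comp ?_ ?_; assumption) | (with_reducible refine IntF.comp₂ ?_ ?_ ?_; assumption) | (with_reducible refine IntF.comp₃ ?_ ?_ ?_ ?_; assumption) | with_reducible apply IntF.pair)))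

theorem mem_ts_sig {π : Gam M X} {i : II M} {t : TS M X} {k : KK M} {d : X} :
    (k, (sig π (i, (k, d))).2.2) ∈ ts π i t ↔ (k, d) ∈ t := by
  rw [mem_ts]
  rw [cell_eq, sigi_sig]

theorem ts_surj (π : Gam M X) (i : II M) (t : TS M X) : ∃ t', ts π i t' = t := by
  have h : IntF M (fun q : Gam M X × Cell M X => sig q.1 q.2) := int_sig
  refine ⟨sep M fun q : KK M × X => (q.1, (sig π (i, (q.1, q.2))).2.2) ∈ t, IPow.ext' ?_⟩
  rintro ⟨k, d⟩
  rw [mem_ts, mem_sep (by (repeat' (first | with_reducible exact IntF.id | with_reducible exact IntF.fst' | with_reducible exact IntF.snd' | with_reducible exact IntF.const _ | with_reducible exact Int.const _ | assumption | with_reducible apply Int.and | with_reducible apply Int.or | with_reducible apply Int.not | with_reducible apply Int.imp | with_reducible apply Int.iff | with_reducible apply Int.ne | with_reducible apply Int.eq | with_reducible apply Int.mem | with_reducible apply Int.subset | with_reducible apply Int.ltN | with_reducible apply Int.leN | with_reducible_and_instances apply Int.le | with_reducible_and_instances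 apply Int.lt | with_reducible apply Int.all | with_reducible apply Int.ex | with_reducible apply IntF.fst | with_reducible apply IntF.snd | with_reducible apply IntF.app | with_reducible apply IntF.inl | with_reducible apply IntF.inr | with_reducible_and_instances apply IntF.mul | with_reducible_and_instances apply IntF.inv | with_reducible_and_instances apply IntF.add | with_reducible_and_instances apply IntF.sub | with_reducible_and_instances apply IntF.neg | with_reducible_and_instances apply IntF.smul | with_reducible apply IntF.succ | with_reducible apply IntF.val | with_reducible apply IntF.mk | (with_reducible refine Int.comp ?_ ?_; assumption) | (with_reducible refine Int.comp₂ ?_ ?_ ?_; assumption) | (with_reducible refine Int.comp₃ ?_ ?_ ?_ ?_; assumption) | (with_reducible refine Int.comp₄ ?_ ?_ ?_ ?_ ?_; assumption) | (with_reducible refine IntF.comp ?_ ?_; assumption) | (with_reducible refine IntF.comp₂ ?_ ?_ ?_; assumption) | (with_reducible refine IntF.comp₃ ?_ ?_ ?_ ?_; assumption) | with_reducible apply IntF.pair)))]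
  simp only
  rw [cell_eq', sig_sigi]

/-- The action on nodes. -/
noncomputable def th (π : Gam M X) : BN M X → BN M X
  | Sum.inl n => nat n
  | Sum.inr (Sum.inl k) => kn k
  | Sum.inr (Sum.inr (Sum.inl (i, t))) => an (rho π i) (ts π i t)
  | Sum.inr (Sum.inr (Sum.inr (Sum.inl i))) => cn (rho π i)
  | Sum.inr (Sum.inr (Sum.inr (Sum.inr (i, t)))) => yn (rho π i) (ts π i t)

theorem th_nat (π : Gam M X) (n : INat M) : th π (nat n) = nat n := rfl
theorem th_kn (π : Gam M X) (n : KK M) : th π (kn n) = kn n := rfl
theorem th_an (π : Gam M X) (i : II M) (t : TS M X) : th π (an i t) = an (rho π i) (ts π i t) := rfl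
theorem th_cn (π : Gam M X) (i : II M) : th π (cn i) = cn (rho π i) := rfl
theorem th_yn (π : Gam M X) (i : II M) (t : TS M X) : th π (yn i t) = yn (rho π i) (ts π i t) := rfl

theorem int_th (π : Gam M X) : IntF M (th π) := by
  have h1 : IntF M (fun q : (Gam M X × II M) × TS M X => ts q.1.1 q.1.2 q.2) := int_ts
  have h2 : IntF M (fun q : Gam M X × II M => rho q.1 q.2) := int_rho
  refine IntF.of_rel (r := fun x y => (∃ n, x = nat n ∧ y = nat n) ∨ (∃ n, x = kn n ∧ y = kn n) ∨
    (∃ i t, x = an i t ∧ y = an (rho π i) (ts π i t)) ∨ (∃ i, x = cn i ∧ y = cn (rho π i)) ∨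
    (∃ i t, x = yn i t ∧ y = yn (rho π i) (ts π i t))) (by (repeat' (first | with_reducible exact IntF.id | with_reducible exact IntF.fst' | with_reducible exact IntF.snd' | with_reducible exact IntF.const _ | with_reducible exact Int.const _ | assumption | with_reducible apply Int.and | with_reducible apply Int.or | with_reducible apply Int.not | with_reducible apply Int.imp | with_reducible apply Int.iff | with_reducible apply Int.ne | with_reducible apply Int.eq | with_reducible apply Int.mem | with_reducible apply Int.subset | with_reducible apply Int.ltN | with_reducible apply Int.leN | with_reducible_and_instances apply Int.le | with_reducible_and_instances apply Int.lt | with_reducible apply Int.all | with_reducible apply Int.ex | with_reducible apply IntF.fst | with_reducible apply IntF.snd | with_reducible apply IntF.app | with_reducible apply IntF.inl | with_reducible apply IntF.inr | with_reducible_and_instances apply IntF.mul | with_reducible_and_instances apply IntF.inv | with_reducible_and_instances apply IntF.add | with_reducible_and_instances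 apply IntF.sub | with_reducible_and_instances apply IntF.neg | with_reducible_and_instances apply IntF.smul | with_reducible apply IntF.succ | with_reducible apply IntF.val | with_reducible apply IntF.mk | (with_reducible refine Int.comp ?_ ?_; assumption) | (with_reducible refine Int.comp₂ ?_ ?_ ?_; assumption) | (with_reducible refine Int.comp₃ ?_ ?_ ?_ ?_; assumption) | (with_reducible refine Int.comp₄ ?_ ?_ ?_ ?_ ?_; assumption) | (with_reducible refine IntF.comp ?_ ?_; assumption) | (with_reducible refine IntF.comp₂ ?_ ?_ ?_; assumption) | (with_reducible refine IntF.comp₃ ?_ ?_ ?_ ?_; assumption) | with_reducible apply IntF.pair))) fun x y => ?_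
  constructor
  · rintro (⟨n, rfl, rfl⟩ | ⟨n, rfl, rfl⟩ | ⟨i, t, rfl, rfl⟩ | ⟨n, rfl, rfl⟩ | ⟨i, t, rfl, rfl⟩) <;>
      rfl
  · rintro rfl
    rcases x with n | k | ⟨i, t⟩ | i | ⟨i, t⟩
    · exact Or.inl ⟨n, rfl, rfl⟩
    · exact Or.inr (Or.inl ⟨k, rfl, rfl⟩)
    · exact Or.inr (Or.inr (Or.inl ⟨i, t, rfl, rfl⟩))
    · exact Or.inr (Or.inr (Or.inr (Or.inl ⟨i, rfl, rfl⟩)))
    · exact Or.inr (Or.inr (Or.inr (Or.inr ⟨i, t, rfl, rfl⟩)))

theorem BE_th (π : Gam M X) (a b : BN M X) (s : PP M X) :
    BE b s (th π a) ↔ ∃ a', th π a' = b ∧ tw π BE a' s a := by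
  unfold tw
  rcases a with n | k | ⟨i, t⟩ | i | ⟨i, t⟩
  · change BE b s (nat n) ↔ ∃ a', _ ∧ BE a' _ (nat n)
    simp only [BE_nat]
    constructor
    · rintro ⟨m, rfl, h⟩
      exact ⟨nat m, rfl, m, rfl, h⟩
    · rintro ⟨_, rfl, m, rfl, h⟩
      exact ⟨m, rfl, h⟩
  · change BE b s (kn k) ↔ ∃ a', _ ∧ BE a' _ (kn k)
    simp only [BE_kn]
    constructor
    · rintro ⟨m, rfl, h⟩
      exact ⟨nat m, rfl, m, rfl, h⟩
    · rintro ⟨_, rfl, m, rfl, h⟩
      exact ⟨m, rfl, h⟩
  · change BE b s (an (rho π i) (ts π i t)) ↔ ∃ a', _ ∧ BE a' _ (an i t)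
    simp only [BE_an]
    constructor
    · rintro ⟨k, rfl, d, h1, h2⟩
      refine ⟨kn k, rfl, k, rfl, _, mem_ts.1 h1, ?_⟩
      rw [mem_smul', sigi_inv]
      rw [cell_eq', sig_sigi]
      exact h2
    · rintro ⟨_, rfl, k, rfl, d, h1, h2⟩
      refine ⟨k, rfl, (sig π (i, (k, d))).2.2, mem_ts_sig.2 h1, ?_⟩
      rw [mem_smul', sigi_inv] at h2
      rwa [cell_eq]
  · change BE b s (cn (rho π i)) ↔ ∃ a', _ ∧ BE a' _ (cn i)
    simp only [BE_cn]
    constructor
    · rintro ⟨t, rfl⟩
      obtain ⟨t', rfl⟩ := ts_surj π i t
      exact ⟨an i t', rfl, t', rfl⟩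
    · rintro ⟨_, rfl, t, rfl⟩
      exact ⟨ts π i t, rfl⟩
  · change BE b s (yn (rho π i) (ts π i t)) ↔ ∃ a', _ ∧ BE a' _ (yn i t)
    simp only [BE_yn]
    constructor
    · rintro ⟨k, rfl, d, h1, h2⟩
      refine ⟨cn (k, 1), ?_, k, rfl, _, mem_ts.1 h1, ?_⟩
      · rw [th_cn, rho_base]
      rw [mem_smul', sigi_inv]
      rw [cell_eq', sig_sigi]
      exact h2
    · rintro ⟨_, rfl, k, rfl, d, h1, h2⟩
      refine ⟨k, ?_, (sig π (i, (k, d))).2.2, mem_ts_sig.2 h1, ?_⟩
      · rw [th_cn, rho_base]
      rw [mem_smul', sigi_inv] at h2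
      rwa [cell_eq]

theorem feq_th (π : Gam M X) (p : PP M X) (a : BN M X) : FEq M (tw π BE) BE p a (th π a) :=
  feq_of_map (int_th π) (BE_th π) p a

theorem ts_of_U [Nonempty X] {n : INat M} {π : Gam M X} (h : (SS M X).U n π) {i : II M}
    (hi : In n i) (t : TS M X) : ts π i t = t := by
  refine IPow.ext' ?_
  rintro ⟨k, d⟩
  rw [mem_ts, rho_of_U h hi]
  have h1 := h (i, (k, d)) hi
  have h2 := sigi_sig π (i, (k, d))
  rw [h1] at h2
  rw [h2]

theorem good_BE [Nonempty X] : Good (SS M X) (BE (M := M) (X := X)) := by
  refine ⟨ig_BE, wf_BE, ?_⟩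
  rintro (n | k | ⟨i, t⟩ | i | ⟨i, t⟩)
  · exact ⟨0, fun π _ p => feq_th π p (nat n)⟩
  · exact ⟨0, fun π _ p => feq_th π p (kn k)⟩
  · obtain ⟨n, hn⟩ := KK.exists_Kn i.2
    refine ⟨n, fun π hπ p => ?_⟩
    have h := feq_th π p (an i t)
    rw [th_an, rho_of_U hπ hn, ts_of_U hπ hn] at h
    exact h
  · obtain ⟨n, hn⟩ := KK.exists_Kn i.2
    refine ⟨n, fun π hπ p => ?_⟩
    have h := feq_th π p (cn i)
    rw [th_cn, rho_of_U hπ hn] at h
    exact h
  · obtain ⟨n, hn⟩ := KK.exists_Kn i.2
    refine ⟨n, fun π hπ p => ?_⟩
    have h := feq_th π p (yn i t)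
    rw [th_yn, rho_of_U hπ hn, ts_of_U hπ hn] at h
    exact h

end Pool.Agent.Helper672.ZFA.H635
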