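import Pool.Agent.H635R2.Zf

/-!
# Collection from Replacement and Foundation
-/

namespace Pool.Agent.Helper672.ZFA.H635

open FirstOrder FirstOrder.Language
open Pool.Agent.Helper672.Plain (LSet)
open Pool.Agent.H635Amen (ZF)

universe u

/-- The scheme of Replacement. -/
def ReplL (M : Type u) [L.Structure M] : Prop :=
  ∀ F : M → M → Prop, D (fun v : Fin 2 → M => F (v 0) (v 1)) →
    ∀ a, (∀ x, Mem x a → ∃! y, F x y) → ∃ b, ∀ y, Mem y b ↔ ∃ x, Mem x a ∧ F x y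

/-- Foundation. -/
def FoundL (M : Type u) [L.Structure M] : Prop :=
  ∀ x : M, (∃ y, Mem y x) → ∃ y, Mem y x ∧ ∀ z, Mem z x → ¬ Mem z y

section

variable {M : Type u} [L.Structure M]

/-- Inclusion. -/
def MSub (x y : M) : Prop := ∀ z, Mem z x → Mem z y

/-- The union. -/
def IsUn (x y : M) : Prop := ∀ z, Mem z x ↔ ∃ w, Mem w y ∧ Mem z w

/-- The successor. -/
def IsSc (x y : M) : Prop := ∀ z, Mem z x ↔ Mem z y ∨ z = y

theorem D.msub {ι : Type} {f g : (ι → M) → M} (hf : DF f) (hg : DF g) :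
    D (fun v => MSub (f v) (g v)) := by
  unfold MSub
  exact D.all (D.imp (D.memf (DF.var _) hf.lift) (D.memf (DF.var _) hg.lift))

theorem D.isUn {ι : Type} {f g : (ι → M) → M} (hf : DF f) (hg : DF g) :
    D (fun v => IsUn (f v) (g v)) := by
  unfold IsUn
  exact D.all (D.iff (D.memf (DF.var _) hf.lift) (D.ex (D.and (D.memf (DF.var _) hg.lift.lift)
    (D.memf (DF.var _) (DF.var _)))))

theorem D.isSc {ι : Type} {f g : (ι → M) → M} (hf : DF f) (hg : DF g) :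
    D (fun v => IsSc (f v) (g v)) := by
  unfold IsSc
  exact D.all (D.iff (D.memf (DF.var _) hf.lift) (D.or (D.memf (DF.var _) hg.lift)
    (D.eqf (DF.var _) hg.lift)))

variable [hM : IsModel M] (hS : ∀ x : M, IsSet x)

include hS in
theorem ext_of_isSet {x y : M} (h : ∀ z, Mem z x ↔ Mem z y) : x = y := hM.ext x y (hS x) (hS y) h

/-- A partial sequence of iterated unions. -/
def Att (x s : M) : Prop := ∀ p, Mem p s → p = op (INat.val (0 : INat M)) x ∨
  ∃ n y m u, Mem n (dom M (INat M)) ∧ Mem (op n y) s ∧ IsSc m n ∧ IsUn u y ∧ p = op m u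

/-- The iterated unions. -/
def ItU (x n y : M) : Prop := ∃ s, Att x s ∧ Mem (op n y) s

theorem D.itU {ι : Type} {f g h : (ι → M) → M} (hf : DF f) (hg : DF g) (hh : DF h) :
    D (fun v => ItU (f v) (g v) (h v)) := by
  unfold ItU Att
  refine D.ex (D.and (D.all (D.imp (D.memf (DF.var _) (DF.var _)) (D.or
    (D.eqf (DF.var _) (DF.op (DF.const _) hf.lift.lift))
    (D.ex (D.ex (D.ex (D.ex (D.and (D.memf (DF.var _) (DF.const _)) (D.and
      (D.memf (DF.op (DF.var _) (DF.var _)) (DF.var _)) (D.and (D.isSc (DF.var _) (DF.var _))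
      (D.and (D.isUn (DF.var _) (DF.var _))
        (D.eqf (DF.var _) (DF.op (DF.var _) (DF.var _))))))))))))))
    (D.memf (DF.op hg.lift hh.lift) (DF.var _)))

theorem isSc_succ (n : INat M) : IsSc (INat.succ n).val n.val := fun _ => INat.mem_succ

theorem itU_zero {x y : M} : ItU x (INat.val (0 : INat M)) y ↔ y = x := by
  constructor
  · rintro ⟨s, h1, h2⟩
    rcases h1 _ h2 with h3 | ⟨n, y', m, w, -, -, h3, -, h4⟩
    · exact (op_inj h3).2
    · have h5 := (op_inj h4).1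
      exact absurd (h5 ▸ (h3 n).2 (Or.inr rfl)) INat.not_mem_zero
  · rintro rfl
    refine ⟨up (op (INat.val (0 : INat M)) y) (op (INat.val (0 : INat M)) y), fun p hp => ?_,
      mem_up.2 (Or.inl rfl)⟩
    rcases mem_up.1 hp with h | h <;> exact Or.inl h

include hS in
theorem itU_succ {x w : M} {n : INat M} : ItU x (INat.succ n).val w ↔
    ∃ y, ItU x n.val y ∧ IsUn w y := by
  constructor
  · rintro ⟨s, h1, h2⟩
    rcases h1 _ h2 with h3 | ⟨n', y', m, w', h3, h4, h5, h6, h7⟩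
    · exact absurd (INat.ext (op_inj h3).1) (INat.succ_ne_zero n)
    · obtain ⟨h8, rfl⟩ := op_inj h7
      obtain ⟨k, rfl⟩ := mem_dom.1 h3
      have h9 : m = (INat.succ k).val := ext_of_isSet hS fun z => (h5 z).trans INat.mem_succ.symm
      have h10 : n = k := INat.succ_inj (INat.ext (h8.trans h9))
      subst h10
      exact ⟨y', ⟨s, h1, h4⟩, h6⟩
  · rintro ⟨y, ⟨s, h1, h2⟩, h3⟩
    refine ⟨(small_union s (up (op (INat.succ n).val w) (op (INat.succ n).val w))).elt,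
      fun p hp => ?_, (small_union _ _).mem.2 (Or.inr (mem_up.2 (Or.inl rfl)))⟩
    have h4 : ∀ q, Mem q s → Mem q (small_union s (up (op (INat.succ n).val w)
      (op (INat.succ n).val w))).elt := fun q hq => (small_union _ _).mem.2 (Or.inl hq)
    rcases (small_union _ _).mem.1 hp with h | h
    · rcases h1 p h with h5 | ⟨n', y', m, w', h5, h6, h7, h8, h9⟩
      · exact Or.inl h5
      · exact Or.inr ⟨n', y', m, w', h5, h4 _ h6, h7, h8, h9⟩
    · have h5 : p = op (INat.succ n).val w := by rcases mem_up.1 h with h | h <;> exact h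
      exact Or.inr ⟨n.val, y, _, w, code_mem_dom n, h4 _ h2, isSc_succ n, h3, h5⟩

include hS in
theorem itU_unique (x : M) (n : INat M) : ∃ y, ItU x n.val y ∧ ∀ y', ItU x n.val y' → y' = y := by
  refine INat.ind (p := fun n : INat M => ∃ y, ItU x n.val y ∧ ∀ y', ItU x n.val y' → y' = y)
    ?_ ?_ ?_ n
  · refine Int.of_D (S := fun v => ∃ y, ItU x (v 0) y ∧ ∀ y', ItU x (v 0) y' → y' = y) ?_
      fun _ => Iff.rfl
    exact D.ex (D.and (D.itU (DF.const _) (DF.var _) (DF.var _)) (D.all (D.imp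
      (D.itU (DF.const _) (DF.var _) (DF.var _)) (D.eqf (DF.var _) (DF.var _)))))
  · exact ⟨x, itU_zero.2 rfl, fun y' h => itU_zero.1 h⟩
  · rintro n ⟨y, h1, h2⟩
    obtain ⟨w, -, hw⟩ := hM.union y
    refine ⟨w, (itU_succ hS).2 ⟨y, h1, hw⟩, fun w' h => ?_⟩
    obtain ⟨y', h3, h4⟩ := (itU_succ hS).1 h
    obtain rfl := h2 y' h3
    exact ext_of_isSet hS fun z => (h4 z).trans (hw z).symm

include hS in
theorem exists_trans (hR : ReplL M) (x : M) : ∃ t, (∀ z, Mem z x → Mem z t) ∧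
    ∀ z w, Mem z t → Mem w z → Mem w t := by
  obtain ⟨b, hb⟩ := hR (ItU x) (D.itU (DF.const _) (DF.var _) (DF.var _)) (dom M (INat M))
    fun n hn => by
      obtain ⟨k, rfl⟩ := mem_dom.1 hn
      exact itU_unique hS x k
  obtain ⟨t, -, ht⟩ := hM.union b
  refine ⟨t, fun z hz => (ht z).2 ⟨x, (hb x).2 ⟨_, code_mem_dom (0 : INat M),
    itU_zero.2 rfl⟩, hz⟩, fun z w hz hw => ?_⟩
  obtain ⟨y, h1, h2⟩ := (ht z).1 hz
  obtain ⟨n, h3, h4⟩ := (hb y).1 h1
  obtain ⟨k, rfl⟩ := mem_dom.1 h3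
  obtain ⟨w', -, hw'⟩ := hM.union y
  exact (ht w).2 ⟨w', (hb w').2 ⟨_, code_mem_dom (INat.succ k), (itU_succ hS).2 ⟨y, h4, hw'⟩⟩,
    (hw' w).2 ⟨z, h2, hw⟩⟩

include hS in
/-- Induction on membership. -/
theorem mem_ind (hR : ReplL M) (hF : FoundL M) {S : M → Prop}
    (hD : D (fun v : Fin 1 → M => S (v 0))) (h : ∀ x, (∀ y, Mem y x → S y) → S x) (x : M) :
    S x := by
  by_contra hx
  obtain ⟨t, h1, h2⟩ := exists_trans hS hR (up x x)
  have h3 := small_sep (S := {z | ¬ S z}) (D.not hD) t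
  obtain ⟨z, h4, h5⟩ := hF h3.elt ⟨x, h3.mem.2 ⟨h1 x (mem_up.2 (Or.inl rfl)), hx⟩⟩
  obtain ⟨h6, h7⟩ := h3.mem.1 h4
  refine h7 (h z fun y hy => ?_)
  by_contra h8
  exact h5 y (h3.mem.2 ⟨h2 z y h6 hy, h8⟩) hy

/-! ### Level theory -/

/-- Histories. -/
def Hist (h : M) : Prop :=
  ∀ x, Mem x h → ∀ y, Mem y x ↔ ∃ c, Mem c h ∧ Mem c x ∧ MSub y c

/-- Levels. -/
def Lev (s : M) : Prop := ∃ h, Hist h ∧ ∀ y, Mem y s ↔ ∃ c, Mem c h ∧ MSub y c

omit hM in
theorem D.hist {ι : Type} {f : (ι → M) → M} (hf : DF f) : D (fun v => Hist (f v)) := by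
  unfold Hist
  exact D.all (D.imp (D.memf (DF.var _) hf.lift) (D.all (D.iff (D.memf (DF.var _) (DF.var _))
    (D.ex (D.and (D.memf (DF.var _) hf.lift.lift.lift) (D.and (D.memf (DF.var _) (DF.var _))
      (D.msub (DF.var _) (DF.var _))))))))

omit hM in
theorem D.lev {ι : Type} {f : (ι → M) → M} (hf : DF f) : D (fun v => Lev (f v)) := by
  unfold Lev
  exact D.ex (D.and (D.hist (DF.var _)) (D.all (D.iff (D.memf (DF.var _) hf.lift.lift)
    (D.ex (D.and (D.memf (DF.var _) (DF.var _)) (D.msub (DF.var _) (DF.var _)))))))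

include hM in
theorem exists_pot (a : M) : ∃ b, ∀ y, Mem y b ↔ IsSet y ∧ ∃ c, Mem c a ∧ MSub y c := by
  obtain ⟨w, -, hw⟩ := hM.union a
  have h1 := small_sep (S := {y | ∃ c, Mem c a ∧ MSub y c}) (D.ex (D.and
    (D.memf (DF.var _) (DF.const _)) (D.msub (DF.var _) (DF.var _)))) (small_power w).elt
  refine ⟨h1.elt, fun y => h1.mem.trans ⟨fun h => ⟨((small_power w).mem.1 h.1).1, h.2⟩,
    fun h => ⟨(small_power w).mem.2 ⟨h.1, fun z hz => ?_⟩, h.2⟩⟩⟩
  obtain ⟨c, h2, h3⟩ := h.2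
  exact (hw z).2 ⟨c, h2, h3 z hz⟩

variable (hR : ReplL M) (hF : FoundL M)

include hS hR hF in
theorem hist_trans {h : M} (hh : Hist h) (s : M) :
    Mem s h → ∀ x, Mem x s → ∀ z, Mem z x → Mem z s := by
  refine mem_ind hS hR hF (S := fun s => Mem s h → ∀ x, Mem x s → ∀ z, Mem z x → Mem z s) ?_ ?_ s
  · exact D.imp (D.memf (DF.var _) (DF.const _)) (D.all (D.imp (D.memf (DF.var _) (DF.var _))
      (D.all (D.imp (D.memf (DF.var _) (DF.var _)) (D.memf (DF.var _) (DF.var _))))))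
  · intro s ih hs x hx z hz
    obtain ⟨d, h1, h2, h3⟩ := (hh s hs x).1 hx
    obtain ⟨e, h4, h5, h6⟩ := (hh d h1 z).1 (h3 z hz)
    exact (hh s hs z).2 ⟨d, h1, h2, fun w hw => ih d h2 h1 e h5 w (h6 w hw)⟩

include hS hR hF in
theorem Lev.trans {s : M} (hs : Lev s) {x z : M} (hx : Mem x s) (hz : Mem z x) : Mem z s := by
  obtain ⟨h, h1, h2⟩ := hs
  obtain ⟨c, h3, h4⟩ := (h2 x).1 hx
  exact (h2 z).2 ⟨c, h3, fun w hw => hist_trans hS hR hF h1 c h3 z (h4 z hz) w hw⟩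

omit hM in
theorem Lev.sub {s : M} (hs : Lev s) {x z : M} (hx : Mem x s) (hz : MSub z x) : Mem z s := by
  obtain ⟨h, h1, h2⟩ := hs
  obtain ⟨c, h3, h4⟩ := (h2 x).1 hx
  exact (h2 z).2 ⟨c, h3, fun w hw => h4 w (hz w hw)⟩

include hS hR hF in
theorem hist_lev {h s : M} (hh : Hist h) (hs : Mem s h) : Lev s := by
  have h1 := small_sep (S := {c | Mem c h}) (D.memf (DF.var _) (DF.const _)) s
  refine ⟨h1.elt, fun x hx y => ?_, fun y => ?_⟩
  · obtain ⟨h2, h3⟩ := h1.mem.1 hx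
    constructor
    · intro hy
      obtain ⟨c, h4, h5, h6⟩ := (hh x h3 y).1 hy
      exact ⟨c, h1.mem.2 ⟨hist_trans hS hR hF hh s hs x h2 c h5, h4⟩, h5, h6⟩
    · rintro ⟨c, h4, h5, h6⟩
      exact (hh x h3 y).2 ⟨c, (h1.mem.1 h4).2, h5, h6⟩
  · constructor
    · intro hy
      obtain ⟨c, h4, h5, h6⟩ := (hh s hs y).1 hy
      exact ⟨c, h1.mem.2 ⟨h5, h4⟩, h6⟩
    · rintro ⟨c, h4, h6⟩
      exact (hh s hs y).2 ⟨c, (h1.mem.1 h4).2, (h1.mem.1 h4).1, h6⟩

include hS hR hF in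
theorem Lev.mem_iff {s : M} (hs : Lev s) (y : M) : Mem y s ↔ ∃ r, Lev r ∧ Mem r s ∧ MSub y r := by
  constructor
  · intro hy
    obtain ⟨h, h1, h2⟩ := hs
    obtain ⟨c, h3, h4⟩ := (h2 y).1 hy
    exact ⟨c, hist_lev hS hR hF h1 h3, (h2 c).2 ⟨c, h3, fun _ => id⟩, h4⟩
  · rintro ⟨r, -, h1, h2⟩
    exact hs.sub h1 h2

include hS hR hF in
theorem Lev.comp (s t : M) : Lev s → Lev t → Mem s t ∨ s = t ∨ Mem t s := by
  refine mem_ind hS hR hF (S := fun s => ∀ t, Lev s → Lev t → Mem s t ∨ s = t ∨ Mem t s) ?_ ?_ s t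
  · exact D.all (D.imp (D.lev (DF.var _)) (D.imp (D.lev (DF.var _)) (D.or
      (D.memf (DF.var _) (DF.var _)) (D.or (D.eqf (DF.var _) (DF.var _))
        (D.memf (DF.var _) (DF.var _))))))
  · intro s ih t hs
    refine mem_ind hS hR hF (S := fun t => Lev t → Mem s t ∨ s = t ∨ Mem t s) ?_ ?_ t
    · exact D.imp (D.lev (DF.var _)) (D.or
        (D.memf (DF.const _) (DF.var _)) (D.or (D.eqf (DF.const _) (DF.var _))
          (D.memf (DF.var _) (DF.const _))))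
    · intro t ih2 ht
      by_contra hcon
      push Not at hcon
      obtain ⟨c1, c2, c3⟩ := hcon
      refine c2 (ext_of_isSet hS fun x => ⟨fun hx => ?_, fun hx => ?_⟩)
      · obtain ⟨r, h1, h2, h3⟩ := (hs.mem_iff hS hR hF x).1 hx
        rcases ih r h2 t h1 ht with h4 | h4 | h4
        · exact ht.sub h4 h3
        · exact absurd (h4 ▸ h2) c3
        · exact absurd (hs.trans hS hR hF h2 h4) c3
      · obtain ⟨r, h1, h2, h3⟩ := (ht.mem_iff hS hR hF x).1 hx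
        rcases ih2 r h2 h1 with h4 | h4 | h4
        · exact absurd (ht.trans hS hR hF h2 h4) c1
        · exact absurd (h4 ▸ h2) c1
        · exact hs.sub h4 h3

include hS hR hF in
theorem Lev.least {S : M → Prop} (hD : D (fun v : Fin 1 → M => S (v 0))) {r : M} (hr : Lev r)
    (h : S r) : ∃! s, Lev s ∧ S s ∧ ∀ q, Mem q s → Lev q → ¬ S q := by
  have h1 : ∃ s, Lev s ∧ S s ∧ ∀ q, Mem q s → Lev q → ¬ S q := by
    by_contra hcon
    have h2 := mem_ind hS hR hF (S := fun s => Lev s → ¬ S s) (D.imp (D.lev (DF.var _))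
      (D.not hD)) (fun x ih hx h3 => hcon ⟨x, hx, h3, ih⟩) r hr
    exact h2 h
  obtain ⟨s, h2, h3, h4⟩ := h1
  refine ⟨s, ⟨h2, h3, h4⟩, fun t ⟨h5, h6, h7⟩ => ?_⟩
  rcases Lev.comp hS hR hF t s h5 h2 with h8 | h8 | h8
  · exact absurd h6 (h4 t h8 h5)
  · exact h8
  · exact absurd h3 (h7 s h8 h2)

include hS hR hF in
theorem exists_lev (x : M) : ∃ s, Lev s ∧ MSub x s := by
  refine mem_ind hS hR hF (S := fun x => ∃ s, Lev s ∧ MSub x s) ?_ ?_ x
  · exact D.ex (D.and (D.lev (DF.var _)) (D.msub (DF.var _) (DF.var _)))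
  · intro x ih
    obtain ⟨b, hb⟩ := hR (fun y s => Lev s ∧ MSub y s ∧ ∀ q, Mem q s → Lev q → ¬ MSub y q)
      (D.and (D.lev (DF.var _)) (D.and (D.msub (DF.var _) (DF.var _)) (D.all (D.imp
        (D.memf (DF.var _) (DF.var _)) (D.imp (D.lev (DF.var _)) (D.not
          (D.msub (DF.var _) (DF.var _)))))))) x fun y hy => by
        obtain ⟨r, h1, h2⟩ := ih y hy
        exact Lev.least hS hR hF (S := fun s => MSub y s) (D.msub (DF.const _) (DF.var _)) h1 h2
    obtain ⟨w, -, hw⟩ := hM.union b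
    have h1 := small_sep (S := {s | Lev s}) (D.lev (DF.var _)) (small_union b w).elt
    have hbl : ∀ t, Mem t b → Lev t := fun t ht => by
      obtain ⟨y, -, h2, -⟩ := (hb t).1 ht
      exact h2
    have hbh : ∀ t, Mem t b → Mem t h1.elt := fun t ht =>
      h1.mem.2 ⟨(small_union b w).mem.2 (Or.inl ht), hbl t ht⟩
    have hdown : ∀ s r, Mem s h1.elt → Lev r → Mem r s → Mem r h1.elt := by
      intro s r hs hr hrs
      refine h1.mem.2 ⟨(small_union b w).mem.2 (Or.inr ?_), hr⟩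
      obtain ⟨h2, h3⟩ := h1.mem.1 hs
      rcases (small_union b w).mem.1 h2 with h4 | h4
      · exact (hw r).2 ⟨s, h4, hrs⟩
      · obtain ⟨t, h5, h6⟩ := (hw s).1 h4
        exact (hw r).2 ⟨t, h5, (hbl t h5).trans hS hR hF h6 hrs⟩
    have hh : Hist h1.elt := by
      intro s hs y
      obtain ⟨-, h3⟩ := h1.mem.1 hs
      have h3 : Lev s := h3
      rw [h3.mem_iff hS hR hF]
      constructor
      · rintro ⟨r, h4, h5, h6⟩
        exact ⟨r, hdown s r hs h4 h5, h5, h6⟩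
      · rintro ⟨r, h4, h5, h6⟩
        exact ⟨r, (h1.mem.1 h4).2, h5, h6⟩
    obtain ⟨s, hs⟩ := exists_pot h1.elt
    refine ⟨s, ⟨h1.elt, hh, fun y => (hs y).trans (and_iff_right (hS y))⟩, fun y hy => ?_⟩
    obtain ⟨r, h2, h3⟩ := ih y hy
    obtain ⟨l, h4, -⟩ := Lev.least hS hR hF (S := fun s => MSub y s)
      (D.msub (DF.const _) (DF.var _)) h2 h3
    exact (hs y).2 ⟨hS y, l, hbh l ((hb l).2 ⟨y, hy, h4⟩), h4.2.1⟩

include hS hR hF in
theorem coll_of_repl : CollL M := by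
  intro F hD a
  have hD2 : D (fun v : Fin 2 → M => ∃ y, MSub y (v 1) ∧ F (v 0) y) := by
    refine D.ex (D.and (D.msub (DF.var _) (DF.var _)) ?_)
    exact hD.reindex (κ := Fin 2 ⊕ Unit) ![Sum.inl 0, Sum.inr ()]
  let G : M → M → Prop := fun x s => (Lev s ∧ (∃ y, MSub y s ∧ F x y) ∧
    ∀ q, Mem q s → Lev q → ¬ ∃ y, MSub y q ∧ F x y) ∨ ((¬ ∃ y, F x y) ∧ s = a)
  have hG : D (fun v : Fin 2 → M => G (v 0) (v 1)) := by
    refine D.or (D.and (D.lev (DF.var _)) (D.and hD2 (D.all (D.imp (D.memf (DF.var _) (DF.var _))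
      (D.imp (D.lev (DF.var _)) (D.not ?_)))))) (D.and (D.not (D.ex ?_))
      (D.eqf (DF.var _) (DF.const _)))
    · exact hD2.reindex (κ := Fin 2 ⊕ Unit) ![Sum.inl 0, Sum.inr ()]
    · exact hD.reindex (κ := Fin 2 ⊕ Unit) ![Sum.inl 0, Sum.inr ()]
  have hD3 : ∀ x, D (fun v : Fin 1 → M => ∃ y, MSub y (v 0) ∧ F x y) := fun x => by
    have h := D.subst hD2 (f := ![fun _ : Fin 1 → M => x, fun v => v 0]) fun k => by
      fin_cases k
      · exact DF.const x
      · exact DF.var 0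
    exact h
  have hex : ∀ x, ∃! s, G x s := by
    intro x
    by_cases h : ∃ y, F x y
    · obtain ⟨y, hy⟩ := h
      obtain ⟨r, h1, h2⟩ := exists_lev hS hR hF y
      obtain ⟨s, h3, h4⟩ := Lev.least hS hR hF (S := fun s => ∃ y, MSub y s ∧ F x y) (hD3 x) h1
        ⟨y, h2, hy⟩
      refine ⟨s, Or.inl h3, fun t ht => ?_⟩
      rcases ht with ht | ht
      · exact h4 t ht
      · exact absurd ⟨y, hy⟩ ht.1
    · refine ⟨a, Or.inr ⟨h, rfl⟩, fun t ht => ?_⟩
      rcases ht with ht | ht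
      · obtain ⟨y, -, hy⟩ := ht.2.1
        exact absurd ⟨y, hy⟩ h
      · exact ht.2
  obtain ⟨b, hb⟩ := hR G hG a fun x _ => hex x
  obtain ⟨w, -, hw⟩ := hM.union b
  refine ⟨(small_power w).elt, fun x hx hy => ?_⟩
  obtain ⟨s, hs, -⟩ := hex x
  have h1 : Mem s b := (hb s).2 ⟨x, hx, hs⟩
  rcases hs with hs | hs
  · obtain ⟨y, h2, h3⟩ := hs.2.1
    exact ⟨y, (small_power w).mem.2 ⟨hS y, fun z hz => (hw z).2 ⟨s, h1, h2 z hz⟩⟩, h3⟩
  · exact absurd hy hs.1

end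

section

variable {M : Type u} [LSet.Structure M]

attribute [local instance] toL

theorem coll_of_zf (h : ZF M) : CollL M := by
  have hM : IsModel M := isModel_of_zermelo h.toZermelo
  refine coll_of_repl (fun _ => trivial) (fun F hD a h1 => ?_) h.foundation
  exact h.replacement {p | F p.1 p.2} (definable_of_toL hD) a h1

end

end Pool.Agent.Helper672.ZFA.H635
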