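import Pool.Agent.H635R2.Feq

/-!
# Symmetric systems, twisted graphs and symmetric graphs
-/

namespace Pool.Agent.Helper672.ZFA.H635

open FirstOrder FirstOrder.Language

universe u

/-- A symmetric system in the model: a notion of forcing `P`, a group `Γ` of automorphisms of it,
and a family of subgroups of `Γ` that generates a normal filter. -/
structure SymSys (M : Type u) [L.Structure M] [IsModel M] (P Γ Λ : Type u) [ITy M P] [Preorder P]
    [ILE M P] [ITy M Γ] [Group Γ] [IMul M Γ] [IInv M Γ] [MulAction Γ P] [ISMul M Γ P]
    [ITy M Λ] where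
  smul_le : ∀ (π : Γ) {p q : P}, p ≤ q → π • p ≤ π • q
  U : Λ → Γ → Prop
  int_U : Int M (fun q : Λ × Γ => U q.1 q.2)
  nonempty : Nonempty Λ
  one : ∀ l, U l 1
  mul : ∀ l a b, U l a → U l b → U l (a * b)
  inv : ∀ l a, U l a → U l a⁻¹
  dir : ∀ l l', ∃ l'', ∀ a, U l'' a → U l a ∧ U l' a
  conj : ∀ (π : Γ) l, ∃ l', ∀ a, U l' a → U l (π⁻¹ * a * π)

/-- Internal well-foundedness. -/
def WFI (M : Type u) [L.Structure M] [IsModel M] {P α : Type u} [ITy M α]
    (E : α → P → α → Prop) : Prop :=
  ∀ s : IPow M α, (∃ a, a ∈ s) → ∃ a, a ∈ s ∧ ∀ a' q, a' ∈ s → ¬ E a' q a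

section twist

variable {M : Type u} [L.Structure M] [hM : IsModel M]
variable {P Γ : Type u} [ITy M P] [Preorder P] [ILE M P] [ITy M Γ] [Group Γ] [IMul M Γ]
  [IInv M Γ] [MulAction Γ P] [ISMul M Γ P]
variable {α β γ δ : Type u} [ITy M α] [ITy M β] [ITy M γ] [ITy M δ]

/-- The twist of a graph by an automorphism of the notion of forcing. -/
def tw (π : Γ) (E : α → P → α → Prop) : α → P → α → Prop := fun a p b => E a (π⁻¹ • p) b

theorem tw_one (E : α → P → α → Prop) : tw (1 : Γ) E = E := by
  funext a p b
  simp [tw]

theorem tw_mul (π σ : Γ) (E : α → P → α → Prop) : tw (π * σ) E = tw π (tw σ E) := by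
  funext a p b
  simp [tw, mul_smul]

theorem tw_smul (π : Γ) (E : α → P → α → Prop) (a b : α) (p : P) :
    tw π E a (π • p) b = E a p b := by
  simp [tw]

theorem tw_inv_tw (π : Γ) (E : α → P → α → Prop) : tw π⁻¹ (tw π E) = E := by
  rw [← tw_mul, inv_mul_cancel, tw_one]

theorem tw_tw_inv (π : Γ) (E : α → P → α → Prop) : tw π (tw π⁻¹ E) = E := by
  rw [← tw_mul, mul_inv_cancel, tw_one]

theorem IG.tw {E : α → P → α → Prop} (hE : IG M E) (π : Γ) : IG M (tw π E) := by
  have hE' : Int M (fun q : (α × P) × α => E q.1.1 q.1.2 q.2) := hE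
  unfold IG H635.tw
  (repeat' (first | with_reducible exact IntF.id | with_reducible exact IntF.fst' | with_reducible exact IntF.snd' | with_reducible exact IntF.const _ | with_reducible exact Int.const _ | assumption | with_reducible apply Int.and | with_reducible apply Int.or | with_reducible apply Int.not | with_reducible apply Int.imp | with_reducible apply Int.iff | with_reducible apply Int.ne | with_reducible apply Int.eq | with_reducible apply Int.mem | with_reducible apply Int.subset | with_reducible apply Int.ltN | with_reducible apply Int.leN | with_reducible_and_instances apply Int.le | with_reducible_and_instances apply Int.lt | with_reducible apply Int.all | with_reducible apply Int.ex | with_reducible apply IntF.fst | with_reducible apply IntF.snd | with_reducible apply IntF.app | with_reducible apply IntF.inl | with_reducible apply IntF.inr | with_reducible_and_instances apply IntF.mul | with_reducible_and_instances apply IntF.inv | with_reducible_and_instances apply IntF.add | with_reducible_and_instances apply IntF.sub | with_reducible_and_instances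 apply IntF.neg | with_reducible_and_instances apply IntF.smul | with_reducible apply IntF.succ | with_reducible apply IntF.val | with_reducible apply IntF.mk | (with_reducible refine Int.comp ?_ ?_; assumption) | (with_reducible refine Int.comp₂ ?_ ?_ ?_; assumption) | (with_reducible refine Int.comp₃ ?_ ?_ ?_ ?_; assumption) | (with_reducible refine Int.comp₄ ?_ ?_ ?_ ?_ ?_; assumption) | (with_reducible refine IntF.comp ?_ ?_; assumption) | (with_reducible refine IntF.comp₂ ?_ ?_ ?_; assumption) | (with_reducible refine IntF.comp₃ ?_ ?_ ?_ ?_; assumption) | with_reducible apply IntF.pair))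

theorem WFI.tw {E : α → P → α → Prop} (hE : WFI M E) (π : Γ) : WFI M (tw π E) := by
  intro s hs
  obtain ⟨a, ha, h⟩ := hE s hs
  exact ⟨a, ha, fun a' q h1 h2 => h a' _ h1 h2⟩

variable {Λ : Type u} [ITy M Λ] (S : SymSys M P Γ Λ)
include S

theorem smul_le_iff (π : Γ) {p q : P} : π • p ≤ π • q ↔ p ≤ q := by
  refine ⟨fun h => ?_, fun h => S.smul_le π h⟩
  have := S.smul_le π⁻¹ h
  simpa using this

theorem smul_le_iff' (π : Γ) {p q : P} : p ≤ π • q ↔ π⁻¹ • p ≤ q := by
  rw [← smul_le_iff S π⁻¹]
  simp

variable {E : α → P → α → Prop} {F : β → P → β → Prop} {p : P} {a : α} {b : β}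

theorem feq_tw (π : Γ) (h : FEq M E F p a b) : FEq M (tw π E) (tw π F) (π • p) a b := by
  obtain ⟨R, hR, h⟩ := h
  refine FEq.of_rel (r := fun q x y => ((π⁻¹ • q, x), y) ∈ R) (by (repeat' (first | with_reducible exact IntF.id | with_reducible exact IntF.fst' | with_reducible exact IntF.snd' | with_reducible exact IntF.const _ | with_reducible exact Int.const _ | assumption | with_reducible apply Int.and | with_reducible apply Int.or | with_reducible apply Int.not | with_reducible apply Int.imp | with_reducible apply Int.iff | with_reducible apply Int.ne | with_reducible apply Int.eq | with_reducible apply Int.mem | with_reducible apply Int.subset | with_reducible apply Int.ltN | with_reducible apply Int.leN | with_reducible_and_instances apply Int.le | with_reducible_and_instances apply Int.lt | with_reducible apply Int.all | with_reducible apply Int.ex | with_reducible apply IntF.fst | with_reducible apply IntF.snd | with_reducible apply IntF.app | with_reducible apply IntF.inl | with_reducible apply IntF.inr | with_reducible_and_instances apply IntF.mul | with_reducible_and_instances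 apply IntF.inv | with_reducible_and_instances apply IntF.add | with_reducible_and_instances apply IntF.sub | with_reducible_and_instances apply IntF.neg | with_reducible_and_instances apply IntF.smul | with_reducible apply IntF.succ | with_reducible apply IntF.val | with_reducible apply IntF.mk | (with_reducible refine Int.comp ?_ ?_; assumption) | (with_reducible refine Int.comp₂ ?_ ?_ ?_; assumption) | (with_reducible refine Int.comp₃ ?_ ?_ ?_ ?_; assumption) | (with_reducible refine Int.comp₄ ?_ ?_ ?_ ?_ ?_; assumption) | (with_reducible refine IntF.comp ?_ ?_; assumption) | (with_reducible refine IntF.comp₂ ?_ ?_ ?_; assumption) | (with_reducible refine IntF.comp₃ ?_ ?_ ?_ ?_; assumption) | with_reducible apply IntF.pair))) ?_ (by simpa using h)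
  intro q x y h1
  obtain ⟨h2, h3, h4⟩ := hR _ _ _ h1
  refine ⟨fun q' hq' => h2 _ (S.smul_le _ hq'), ?_, ?_⟩
  · intro a' s ha q' hq' hs
    obtain ⟨q'', h5, b', s', h6, h7, h8⟩ := h3 a' (π⁻¹ • s) ha (π⁻¹ • q') (S.smul_le _ hq')
      (S.smul_le _ hs)
    refine ⟨π • q'', ?_, b', π • s', ?_, S.smul_le _ h7, ?_⟩
    · simpa using S.smul_le π h5
    · simpa [tw] using h6
    · simpa using h8
  · intro a' s ha q' hq' hs
    obtain ⟨q'', h5, b', s', h6, h7, h8⟩ := h4 a' (π⁻¹ • s) ha (π⁻¹ • q') (S.smul_le _ hq')
      (S.smul_le _ hs)
    refine ⟨π • q'', ?_, b', π • s', ?_, S.smul_le _ h7, ?_⟩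
    · simpa using S.smul_le π h5
    · simpa [tw] using h6
    · simpa using h8

theorem feq_tw_iff (π : Γ) : FEq M (tw π E) (tw π F) (π • p) a b ↔ FEq M E F p a b := by
  refine ⟨fun h => ?_, feq_tw S π⟩
  have := feq_tw S π⁻¹ h
  rwa [tw_inv_tw, tw_inv_tw, inv_smul_smul] at this

theorem fmem_tw (π : Γ) (h : FMem M E F p a b) : FMem M (tw π E) (tw π F) (π • p) a b := by
  intro q hq
  have hq' : π⁻¹ • q ≤ p := by
    have := S.smul_le π⁻¹ hq
    simpa using this
  obtain ⟨q', h1, b', s, h2, h3, h4⟩ := h _ hq'
  refine ⟨π • q', ?_, b', π • s, ?_, S.smul_le _ h3, feq_tw S π h4⟩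
  · simpa using S.smul_le π h1
  · simpa [tw] using h2

omit S in
theorem int_tw {ε : Type u} [ITy M ε] {E : ε → α → P → α → Prop}
    (hE : Int M (fun q : ((ε × α) × P) × α => E q.1.1.1 q.1.1.2 q.1.2 q.2)) {π : ε → Γ}
    (hπ : IntF M π) : Int M (fun q : ((ε × α) × P) × α => tw (π q.1.1.1) (E q.1.1.1) q.1.1.2
      q.1.2 q.2) := by
  unfold tw
  (repeat' (first | with_reducible exact IntF.id | with_reducible exact IntF.fst' | with_reducible exact IntF.snd' | with_reducible exact IntF.const _ | with_reducible exact Int.const _ | assumption | with_reducible apply Int.and | with_reducible apply Int.or | with_reducible apply Int.not | with_reducible apply Int.imp | with_reducible apply Int.iff | with_reducible apply Int.ne | with_reducible apply Int.eq | with_reducible apply Int.mem | with_reducible apply Int.subset | with_reducible apply Int.ltN | with_reducible apply Int.leN | with_reducible_and_instances apply Int.le | with_reducible_and_instances apply Int.lt | with_reducible apply Int.all | with_reducible apply Int.ex | with_reducible apply IntF.fst | with_reducible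 apply IntF.snd | with_reducible apply IntF.app | with_reducible apply IntF.inl | with_reducible apply IntF.inr | with_reducible_and_instances apply IntF.mul | with_reducible_and_instances apply IntF.inv | with_reducible_and_instances apply IntF.add | with_reducible_and_instances apply IntF.sub | with_reducible_and_instances apply IntF.neg | with_reducible_and_instances apply IntF.smul | with_reducible apply IntF.succ | with_reducible apply IntF.val | with_reducible apply IntF.mk | (with_reducible refine Int.comp ?_ ?_; assumption) | (with_reducible refine Int.comp₂ ?_ ?_ ?_; assumption) | (with_reducible refine Int.comp₃ ?_ ?_ ?_ ?_; assumption) | (with_reducible refine Int.comp₄ ?_ ?_ ?_ ?_ ?_; assumption) | (with_reducible refine IntF.comp ?_ ?_; assumption) | (with_reducible refine IntF.comp₂ ?_ ?_ ?_; assumption) | (with_reducible refine IntF.comp₃ ?_ ?_ ?_ ?_; assumption) | with_reducible apply IntF.pair))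

/-- The node `a` is fixed by the subgroup `U l`. -/
def Sy (E : α → P → α → Prop) (l : Λ) (a : α) : Prop :=
  ∀ π, S.U l π → ∀ p, FEq M (tw π E) E p a a

/-- All nodes are symmetric. -/
def SymG (E : α → P → α → Prop) : Prop := ∀ a, ∃ l, Sy S E l a

/-- Good graphs. -/
structure Good (E : α → P → α → Prop) : Prop where
  int : IG M E
  wf : WFI M E
  sym : SymG S E

theorem Sy.mono {l l' : Λ} (h : Sy S E l a) (hl : ∀ a, S.U l' a → S.U l a) : Sy S E l' a :=
  fun π hπ p => h π (hl π hπ) p

theorem Sy.congr (hE : IG M E) (hF : IG M F) {l : Λ} (h : Sy S E l a)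
    (hab : ∀ p, FEq M E F p a b) : Sy S F l b := by
  intro π hπ p
  have h1 : FEq M (tw π E) (tw π F) p a b := by
    have := feq_tw S π (hab (π⁻¹ • p))
    rwa [smul_inv_smul] at this
  exact (h1.symm (hE.tw π) (hF.tw π)).trans (hF.tw π) (hE.tw π) hF
    ((h π hπ p).trans (hE.tw π) hE hF (hab p))

/-- The twist of a symmetric node is symmetric. -/
theorem Sy.tw (π : Γ) {l l' : Λ} (h : Sy S E l a) (hl : ∀ a, S.U l' a → S.U l (π⁻¹ * a * π)) :
    Sy S (tw π E) l' a := by
  intro σ hσ p
  have h1 := feq_tw S π (h _ (hl σ hσ) (π⁻¹ • p))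
  rwa [smul_inv_smul, ← tw_mul, mul_assoc, mul_inv_cancel_left, tw_mul] at h1

theorem SymG.tw (h : SymG S E) (π : Γ) : SymG S (tw π E) := by
  intro a
  obtain ⟨l, hl⟩ := h a
  obtain ⟨l', hl'⟩ := S.conj π l
  exact ⟨l', hl.tw S π hl'⟩

theorem Good.tw (h : Good S E) (π : Γ) : Good S (tw π E) :=
  ⟨h.int.tw π, h.wf.tw π, h.sym.tw S π⟩

end twist

end Pool.Agent.Helper672.ZFA.H635
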