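import Pool.Agent.H635R2.Perm
import Pool.Agent.H635R2.Sys

/-!
# The symmetric system
-/

namespace Pool.Agent.Helper672.ZFA.H635

open FirstOrder FirstOrder.Language

universe u

variable (M : Type u) [L.Structure M] [hM : IsModel M] (X : Type u) [ITy M X]

/-- The index group. -/
abbrev II : Type u := KK M × KK M

/-- The cells. -/
abbrev Cell : Type u := II M × (KK M × X)

variable {M X}

/-- The subgroups of the index group. -/
def In (n : INat M) (i : II M) : Prop := KK.Kn n i.2

theorem int_In : Int M (fun q : INat M × II M => In q.1 q.2) := by
  have h : Int M (fun q : INat M × KK M => KK.Kn q.1 q.2) := KK.int_Kn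
  unfold In
  (repeat' (first | with_reducible exact IntF.id | with_reducible exact IntF.fst' | with_reducible exact IntF.snd' | with_reducible exact IntF.const _ | with_reducible exact Int.const _ | assumption | with_reducible apply Int.and | with_reducible apply Int.or | with_reducible apply Int.not | with_reducible apply Int.imp | with_reducible apply Int.iff | with_reducible apply Int.ne | with_reducible apply Int.eq | with_reducible apply Int.mem | with_reducible apply Int.subset | with_reducible apply Int.ltN | with_reducible apply Int.leN | with_reducible_and_instances apply Int.le | with_reducible_and_instances apply Int.lt | with_reducible apply Int.all | with_reducible apply Int.ex | with_reducible apply IntF.fst | with_reducible apply IntF.snd | with_reducible apply IntF.app | with_reducible apply IntF.inl | with_reducible apply IntF.inr | with_reducible_and_instances apply IntF.mul | with_reducible_and_instances apply IntF.inv | with_reducible_and_instances apply IntF.add | with_reducible_and_instances apply IntF.sub | with_reducible_and_instances apply IntF.neg | with_reducible_and_instances apply IntF.smul | with_reducible apply IntF.succ |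 with_reducible apply IntF.val | with_reducible apply IntF.mk | (with_reducible refine Int.comp ?_ ?_; assumption) | (with_reducible refine Int.comp₂ ?_ ?_ ?_; assumption) | (with_reducible refine Int.comp₃ ?_ ?_ ?_ ?_; assumption) | (with_reducible refine Int.comp₄ ?_ ?_ ?_ ?_ ?_; assumption) | (with_reducible refine IntF.comp ?_ ?_; assumption) | (with_reducible refine IntF.comp₂ ?_ ?_ ?_; assumption) | (with_reducible refine IntF.comp₃ ?_ ?_ ?_ ?_; assumption) | with_reducible apply IntF.pair))

theorem In.mono {n n' : INat M} {i : II M} (h : In n i) (hn : n ≤ n') : In n' i :=
  KK.Kn.mono h hn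

/-- The conditions. -/
def IsCond (p : IPow M (Cell M X)) : Prop :=
  (∀ (i : II M) (k : KK M) (d d' : X), (i, (k, d)) ∈ p → (i, (k, d')) ∈ p → d = d') ∧
    ∃ n, ∀ c : Cell M X, c ∈ p → KK.Kn n c.2.1

theorem int_isCond : Int M (IsCond (M := M) (X := X)) := by
  have h : Int M (fun q : INat M × KK M => KK.Kn q.1 q.2) := KK.int_Kn
  unfold IsCond
  (repeat' (first | with_reducible exact IntF.id | with_reducible exact IntF.fst' | with_reducible exact IntF.snd' | with_reducible exact IntF.const _ | with_reducible exact Int.const _ | assumption | with_reducible apply Int.and | with_reducible apply Int.or | with_reducible apply Int.not | with_reducible apply Int.imp | with_reducible apply Int.iff | with_reducible apply Int.ne | with_reducible apply Int.eq | with_reducible apply Int.mem | with_reducible apply Int.subset | with_reducible apply Int.ltN | with_reducible apply Int.leN | with_reducible_and_instances apply Int.le | with_reducible_and_instances apply Int.lt | with_reducible apply Int.all | with_reducible apply Int.ex | with_reducible apply IntF.fst | with_reducible apply IntF.snd | with_reducible apply IntF.app | with_reducible apply IntF.inl | with_reducible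 apply IntF.inr | with_reducible_and_instances apply IntF.mul | with_reducible_and_instances apply IntF.inv | with_reducible_and_instances apply IntF.add | with_reducible_and_instances apply IntF.sub | with_reducible_and_instances apply IntF.neg | with_reducible_and_instances apply IntF.smul | with_reducible apply IntF.succ | with_reducible apply IntF.val | with_reducible apply IntF.mk | (with_reducible refine Int.comp ?_ ?_; assumption) | (with_reducible refine Int.comp₂ ?_ ?_ ?_; assumption) | (with_reducible refine Int.comp₃ ?_ ?_ ?_ ?_; assumption) | (with_reducible refine Int.comp₄ ?_ ?_ ?_ ?_ ?_; assumption) | (with_reducible refine IntF.comp ?_ ?_; assumption) | (with_reducible refine IntF.comp₂ ?_ ?_ ?_; assumption) | (with_reducible refine IntF.comp₃ ?_ ?_ ?_ ?_; assumption) | with_reducible apply IntF.pair))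

instance : Fact (Int M (IsCond (M := M) (X := X))) := ⟨int_isCond⟩

variable (M X) in
/-- The notion of forcing. -/
abbrev PP : Type u := {p : IPow M (Cell M X) // IsCond p}

instance : Preorder (PP M X) where
  le p q := ∀ c, c ∈ q.1 → c ∈ p.1
  le_refl _ _ h := h
  le_trans _ _ _ h h' c hc := h c (h' c hc)

theorem le_def' {p q : PP M X} : p ≤ q ↔ ∀ c, c ∈ q.1 → c ∈ p.1 := Iff.rfl

instance : ILE M (PP M X) where
  out := by
    change Int M (fun q : PP M X × PP M X => ∀ c, c ∈ q.2.1 → c ∈ q.1.1)
    (repeat' (first | with_reducible exact IntF.id | with_reducible exact IntF.fst' | with_reducible exact IntF.snd' | with_reducible exact IntF.const _ | with_reducible exact Int.const _ | assumption | with_reducible apply Int.and | with_reducible apply Int.or | with_reducible apply Int.not | with_reducible apply Int.imp | with_reducible apply Int.iff | with_reducible apply Int.ne | with_reducible apply Int.eq | with_reducible apply Int.mem | with_reducible apply Int.subset | with_reducible apply Int.ltN | with_reducible apply Int.leN | with_reducible_and_instances apply Int.le | with_reducible_and_instances apply Int.lt | with_reducible apply Int.all | with_reducible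 apply Int.ex | with_reducible apply IntF.fst | with_reducible apply IntF.snd | with_reducible apply IntF.app | with_reducible apply IntF.inl | with_reducible apply IntF.inr | with_reducible_and_instances apply IntF.mul | with_reducible_and_instances apply IntF.inv | with_reducible_and_instances apply IntF.add | with_reducible_and_instances apply IntF.sub | with_reducible_and_instances apply IntF.neg | with_reducible_and_instances apply IntF.smul | with_reducible apply IntF.succ | with_reducible apply IntF.val | with_reducible apply IntF.mk | (with_reducible refine Int.comp ?_ ?_; assumption) | (with_reducible refine Int.comp₂ ?_ ?_ ?_; assumption) | (with_reducible refine Int.comp₃ ?_ ?_ ?_ ?_; assumption) | (with_reducible refine Int.comp₄ ?_ ?_ ?_ ?_ ?_; assumption) | (with_reducible refine IntF.comp ?_ ?_; assumption) | (with_reducible refine IntF.comp₂ ?_ ?_ ?_; assumption) | (with_reducible refine IntF.comp₃ ?_ ?_ ?_ ?_; assumption) | with_reducible apply IntF.pair))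

/-- The conditions for automorphisms. -/
def IsGam (π : IPerm M (II M) × IPerm M (Cell M X)) : Prop :=
  (∀ c, (π.2.1.1 c).1 = π.1.1.1 c.1 ∧ (π.2.1.1 c).2.1 = c.2.1) ∧
  (∀ i j, π.1.1.1 (i * j) = π.1.1.1 i * π.1.1.1 j) ∧
  (∀ h : KK M, π.1.1.1 (h, 1) = (h, 1)) ∧
  ∃ m, ∀ n, m ≤ n → ∀ i, (In n i ↔ In n (π.1.1.1 i))

instance : IMul M (II M) where
  out := by
    have h : IntF M (fun q : II M × II M => (q.1.1 * q.2.1, q.1.2 * q.2.2)) := by (repeat' (first | with_reducible exact IntF.id | with_reducible exact IntF.fst' | with_reducible exact IntF.snd' | with_reducible exact IntF.const _ | with_reducible exact Int.const _ | assumption | with_reducible apply Int.and | with_reducible apply Int.or | with_reducible apply Int.not | with_reducible apply Int.imp | with_reducible apply Int.iff | with_reducible apply Int.ne | with_reducible apply Int.eq | with_reducible apply Int.mem | with_reducible apply Int.subset | with_reducible apply Int.ltN | with_reducible apply Int.leN | with_reducible_and_instances apply Int.le | with_reducible_and_instances apply Int.lt | with_reducible apply Int.all | with_reducible apply Int.ex | with_reducible apply IntF.fst | with_reducible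 apply IntF.snd | with_reducible apply IntF.app | with_reducible apply IntF.inl | with_reducible apply IntF.inr | with_reducible_and_instances apply IntF.mul | with_reducible_and_instances apply IntF.inv | with_reducible_and_instances apply IntF.add | with_reducible_and_instances apply IntF.sub | with_reducible_and_instances apply IntF.neg | with_reducible_and_instances apply IntF.smul | with_reducible apply IntF.succ | with_reducible apply IntF.val | with_reducible apply IntF.mk | (with_reducible refine Int.comp ?_ ?_; assumption) | (with_reducible refine Int.comp₂ ?_ ?_ ?_; assumption) | (with_reducible refine Int.comp₃ ?_ ?_ ?_ ?_; assumption) | (with_reducible refine Int.comp₄ ?_ ?_ ?_ ?_ ?_; assumption) | (with_reducible refine IntF.comp ?_ ?_; assumption) | (with_reducible refine IntF.comp₂ ?_ ?_ ?_; assumption) | (with_reducible refine IntF.comp₃ ?_ ?_ ?_ ?_; assumption) | with_reducible apply IntF.pair))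
    exact h

theorem int_isGam : Int M (IsGam (M := M) (X := X)) := by
  have h : Int M (fun q : INat M × II M => In q.1 q.2) := int_In
  unfold IsGam
  (repeat' (first | with_reducible exact IntF.id | with_reducible exact IntF.fst' | with_reducible exact IntF.snd' | with_reducible exact IntF.const _ | with_reducible exact Int.const _ | assumption | with_reducible apply Int.and | with_reducible apply Int.or | with_reducible apply Int.not | with_reducible apply Int.imp | with_reducible apply Int.iff | with_reducible apply Int.ne | with_reducible apply Int.eq | with_reducible apply Int.mem | with_reducible apply Int.subset | with_reducible apply Int.ltN | with_reducible apply Int.leN | with_reducible_and_instances apply Int.le | with_reducible_and_instances apply Int.lt | with_reducible apply Int.all | with_reducible apply Int.ex | with_reducible apply IntF.fst | with_reducible apply IntF.snd | with_reducible apply IntF.app | with_reducible apply IntF.inl | with_reducible apply IntF.inr | with_reducible_and_instances apply IntF.mul | with_reducible_and_instances apply IntF.inv | with_reducible_and_instances apply IntF.add | with_reducible_and_instances apply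 IntF.sub | with_reducible_and_instances apply IntF.neg | with_reducible_and_instances apply IntF.smul | with_reducible apply IntF.succ | with_reducible apply IntF.val | with_reducible apply IntF.mk | (with_reducible refine Int.comp ?_ ?_; assumption) | (with_reducible refine Int.comp₂ ?_ ?_ ?_; assumption) | (with_reducible refine Int.comp₃ ?_ ?_ ?_ ?_; assumption) | (with_reducible refine Int.comp₄ ?_ ?_ ?_ ?_ ?_; assumption) | (with_reducible refine IntF.comp ?_ ?_; assumption) | (with_reducible refine IntF.comp₂ ?_ ?_ ?_; assumption) | (with_reducible refine IntF.comp₃ ?_ ?_ ?_ ?_; assumption) | with_reducible apply IntF.pair))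

theorem IsGam.mul {π σ : IPerm M (II M) × IPerm M (Cell M X)} (h : IsGam π) (h' : IsGam σ) :
    IsGam (π * σ) := by
  obtain ⟨h1, h2, h3, m, h4⟩ := h
  obtain ⟨h1', h2', h3', m', h4'⟩ := h'
  refine ⟨fun c => ?_, fun i j => ?_, fun h => ?_, max m m', fun n hn i => ?_⟩
  · rw [Prod.snd_mul, Prod.fst_mul, IPerm.mul_apply, IPerm.mul_apply, (h1 _).1, (h1 _).2,
      (h1' _).1, (h1' _).2]
    exact ⟨rfl, rfl⟩
  · rw [Prod.fst_mul, IPerm.mul_apply, IPerm.mul_apply, IPerm.mul_apply, h2', h2]
  · rw [Prod.fst_mul, IPerm.mul_apply, h3', h3]
  · rw [Prod.fst_mul, IPerm.mul_apply, h4' n ((le_max_right _ _).trans hn),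
      h4 n ((le_max_left _ _).trans hn)]

theorem IsGam.one : IsGam (1 : IPerm M (II M) × IPerm M (Cell M X)) := by
  refine ⟨fun c => ?_, fun i j => ?_, fun h => ?_, 0, fun n _ i => ?_⟩
  · rw [Prod.snd_one, Prod.fst_one, IPerm.one_apply, IPerm.one_apply]
    exact ⟨rfl, rfl⟩
  · rw [Prod.fst_one, IPerm.one_apply, IPerm.one_apply, IPerm.one_apply]
  · rw [Prod.fst_one, IPerm.one_apply]
  · rw [Prod.fst_one, IPerm.one_apply]

theorem IsGam.inv {π : IPerm M (II M) × IPerm M (Cell M X)} (h : IsGam π) : IsGam π⁻¹ := by
  obtain ⟨h1, h2, h3, m, h4⟩ := h
  have e1 : ∀ i, π.1.1.1 (π.1.1.2 i) = i := π.1.2.1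
  have e2 : ∀ i, π.1.1.2 (π.1.1.1 i) = i := π.1.2.2
  have e3 : ∀ i, π.2.1.1 (π.2.1.2 i) = i := π.2.2.1
  refine ⟨fun c => ?_, fun i j => ?_, fun h => ?_, m, fun n hn i => ?_⟩
  · rw [Prod.snd_inv, Prod.fst_inv, IPerm.inv_apply, IPerm.inv_apply]
    have h5 := h1 (π.2.1.2 c)
    rw [e3] at h5
    rw [h5.1, e2]
    exact ⟨rfl, h5.2.symm⟩
  · rw [Prod.fst_inv, IPerm.inv_apply, IPerm.inv_apply, IPerm.inv_apply]
    have h5 := h2 (π.1.1.2 i) (π.1.1.2 j)
    rw [e1, e1] at h5
    rw [← h5, e2]
  · rw [Prod.fst_inv, IPerm.inv_apply]
    have h5 : π.1.1.2 (π.1.1.1 (h, 1)) = π.1.1.2 (h, 1) := by rw [h3 h]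
    rw [e2] at h5
    exact h5.symm
  · rw [Prod.fst_inv, IPerm.inv_apply, h4 n hn (π.1.1.2 i), e1]

variable (M X) in
/-- The group of automorphisms. -/
def GamH : Subgroup (IPerm M (II M) × IPerm M (Cell M X)) where
  carrier := {π | IsGam π}
  mul_mem' h h' := h.mul h'
  one_mem' := IsGam.one
  inv_mem' h := h.inv

theorem mem_GamH {π : IPerm M (II M) × IPerm M (Cell M X)} : π ∈ GamH M X ↔ IsGam π := Iff.rfl

instance : Fact (Int M (fun π : IPerm M (II M) × IPerm M (Cell M X) => π ∈ GamH M X)) :=
  ⟨int_isGam⟩

variable (M X) in
/-- The group of automorphisms. -/
abbrev Gam : Type u := {π : IPerm M (II M) × IPerm M (Cell M X) // π ∈ GamH M X}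

/-- The permutation of the indices. -/
def rho (π : Gam M X) : II M → II M := fun i => π.1.1.1.1 i

/-- The permutation of the cells. -/
def sig (π : Gam M X) : Cell M X → Cell M X := fun c => π.1.2.1.1 c

/-- The inverse permutation of the indices. -/
def rhoi (π : Gam M X) : II M → II M := fun i => π.1.1.1.2 i

/-- The inverse permutation of the cells. -/
def sigi (π : Gam M X) : Cell M X → Cell M X := fun c => π.1.2.1.2 c

section

variable (π σ : Gam M X)

theorem rho_rhoi (i : II M) : rho π (rhoi π i) = i := π.1.1.2.1 i
theorem rhoi_rho (i : II M) : rhoi π (rho π i) = i := π.1.1.2.2 i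
theorem sig_sigi (i : Cell M X) : sig π (sigi π i) = i := π.1.2.2.1 i
theorem sigi_sig (i : Cell M X) : sigi π (sig π i) = i := π.1.2.2.2 i
theorem sig_fst (c : Cell M X) : (sig π c).1 = rho π c.1 := (π.2.1 c).1
theorem sig_snd (c : Cell M X) : (sig π c).2.1 = c.2.1 := (π.2.1 c).2
theorem sigi_fst (c : Cell M X) : (sigi π c).1 = rhoi π c.1 := by
  have h := sig_fst π (sigi π c)
  rw [sig_sigi] at h
  rw [h, rhoi_rho]
theorem sigi_snd (c : Cell M X) : (sigi π c).2.1 = c.2.1 := by
  have h := sig_snd π (sigi π c)
  rw [sig_sigi] at h
  exact h.symm
theorem rho_mul' (i j : II M) : rho π (i * j) = rho π i * rho π j := π.2.2.1 i j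
theorem rho_base (h : KK M) : rho π (h, 1) = (h, 1) := π.2.2.2.1 h
theorem exists_In : ∃ m, ∀ n, m ≤ n → ∀ i, (In n i ↔ In n (rho π i)) := π.2.2.2.2
theorem rho_comp (i : II M) : rho (π * σ) i = rho π (rho σ i) := IPerm.mul_apply _ _ _
theorem sig_comp (c : Cell M X) : sig (π * σ) c = sig π (sig σ c) := IPerm.mul_apply _ _ _
theorem sigi_comp (c : Cell M X) : sigi (π * σ) c = sigi σ (sigi π c) := IPerm.mul_apply₂ _ _ _
theorem rho_inv (i : II M) : rho π⁻¹ i = rhoi π i := rfl
theorem sig_inv (c : Cell M X) : sig π⁻¹ c = sigi π c := rfl
theorem sigi_inv (c : Cell M X) : sigi π⁻¹ c = sig π c := rfl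
theorem sig_one (c : Cell M X) : sig (1 : Gam M X) c = c := IPerm.one_apply _
theorem sigi_one (c : Cell M X) : sigi (1 : Gam M X) c = c := IPerm.one_apply₂ _
theorem rho_one (i : II M) : rho (1 : Gam M X) i = i := IPerm.one_apply _

end

theorem cell_eq (π : Gam M X) (i : II M) (k : KK M) (d : X) :
    (rho π i, (k, (sig π (i, (k, d))).2.2)) = sig π (i, (k, d)) :=
  Prod.ext (sig_fst π (i, (k, d))).symm (Prod.ext (sig_snd π (i, (k, d))).symm rfl)

theorem cell_eq' (π : Gam M X) (i : II M) (k : KK M) (d : X) :
    (i, (k, (sigi π (rho π i, (k, d))).2.2)) = sigi π (rho π i, (k, d)) := by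
  refine Prod.ext ?_ (Prod.ext (sigi_snd π (rho π i, (k, d))).symm rfl)
  rw [sigi_fst, rhoi_rho]

theorem int_rho : IntF M (fun q : Gam M X × II M => rho q.1 q.2) := by
  unfold rho
  (repeat' (first | with_reducible exact IntF.id | with_reducible exact IntF.fst' | with_reducible exact IntF.snd' | with_reducible exact IntF.const _ | with_reducible exact Int.const _ | assumption | with_reducible apply Int.and | with_reducible apply Int.or | with_reducible apply Int.not | with_reducible apply Int.imp | with_reducible apply Int.iff | with_reducible apply Int.ne | with_reducible apply Int.eq | with_reducible apply Int.mem | with_reducible apply Int.subset | with_reducible apply Int.ltN | with_reducible apply Int.leN | with_reducible_and_instances apply Int.le | with_reducible_and_instances apply Int.lt | with_reducible apply Int.all | with_reducible apply Int.ex | with_reducible apply IntF.fst | with_reducible apply IntF.snd | with_reducible apply IntF.app | with_reducible apply IntF.inl | with_reducible apply IntF.inr | with_reducible_and_instances apply IntF.mul | with_reducible_and_instances apply IntF.inv | with_reducible_and_instances apply IntF.add | with_reducible_and_instances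 apply IntF.sub | with_reducible_and_instances apply IntF.neg | with_reducible_and_instances apply IntF.smul | with_reducible apply IntF.succ | with_reducible apply IntF.val | with_reducible apply IntF.mk | (with_reducible refine Int.comp ?_ ?_; assumption) | (with_reducible refine Int.comp₂ ?_ ?_ ?_; assumption) | (with_reducible refine Int.comp₃ ?_ ?_ ?_ ?_; assumption) | (with_reducible refine Int.comp₄ ?_ ?_ ?_ ?_ ?_; assumption) | (with_reducible refine IntF.comp ?_ ?_; assumption) | (with_reducible refine IntF.comp₂ ?_ ?_ ?_; assumption) | (with_reducible refine IntF.comp₃ ?_ ?_ ?_ ?_; assumption) | with_reducible apply IntF.pair))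

theorem int_sig : IntF M (fun q : Gam M X × Cell M X => sig q.1 q.2) := by
  unfold sig
  (repeat' (first | with_reducible exact IntF.id | with_reducible exact IntF.fst' | with_reducible exact IntF.snd' | with_reducible exact IntF.const _ | with_reducible exact Int.const _ | assumption | with_reducible apply Int.and | with_reducible apply Int.or | with_reducible apply Int.not | with_reducible apply Int.imp | with_reducible apply Int.iff | with_reducible apply Int.ne | with_reducible apply Int.eq | with_reducible apply Int.mem | with_reducible apply Int.subset | with_reducible apply Int.ltN | with_reducible apply Int.leN | with_reducible_and_instances apply Int.le | with_reducible_and_instances apply Int.lt | with_reducible apply Int.all | with_reducible apply Int.ex | with_reducible apply IntF.fst | with_reducible apply IntF.snd | with_reducible apply IntF.app | with_reducible apply IntF.inl | with_reducible apply IntF.inr | with_reducible_and_instances apply IntF.mul | with_reducible_and_instances apply IntF.inv | with_reducible_and_instances apply IntF.add | with_reducible_and_instances apply IntF.sub | with_reducible_and_instances apply IntF.neg | with_reducible_and_instances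 apply IntF.smul | with_reducible apply IntF.succ | with_reducible apply IntF.val | with_reducible apply IntF.mk | (with_reducible refine Int.comp ?_ ?_; assumption) | (with_reducible refine Int.comp₂ ?_ ?_ ?_; assumption) | (with_reducible refine Int.comp₃ ?_ ?_ ?_ ?_; assumption) | (with_reducible refine Int.comp₄ ?_ ?_ ?_ ?_ ?_; assumption) | (with_reducible refine IntF.comp ?_ ?_; assumption) | (with_reducible refine IntF.comp₂ ?_ ?_ ?_; assumption) | (with_reducible refine IntF.comp₃ ?_ ?_ ?_ ?_; assumption) | with_reducible apply IntF.pair))

theorem int_sigi : IntF M (fun q : Gam M X × Cell M X => sigi q.1 q.2) := by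
  unfold sigi
  (repeat' (first | with_reducible exact IntF.id | with_reducible exact IntF.fst' | with_reducible exact IntF.snd' | with_reducible exact IntF.const _ | with_reducible exact Int.const _ | assumption | with_reducible apply Int.and | with_reducible apply Int.or | with_reducible apply Int.not | with_reducible apply Int.imp | with_reducible apply Int.iff | with_reducible apply Int.ne | with_reducible apply Int.eq | with_reducible apply Int.mem | with_reducible apply Int.subset | with_reducible apply Int.ltN | with_reducible apply Int.leN | with_reducible_and_instances apply Int.le | with_reducible_and_instances apply Int.lt | with_reducible apply Int.all | with_reducible apply Int.ex | with_reducible apply IntF.fst | with_reducible apply IntF.snd | with_reducible apply IntF.app | with_reducible apply IntF.inl | with_reducible apply IntF.inr | with_reducible_and_instances apply IntF.mul | with_reducible_and_instances apply IntF.inv | with_reducible_and_instances apply IntF.add | with_reducible_and_instances apply IntF.sub | with_reducible_and_instances apply IntF.neg | with_reducible_and_instances apply IntF.smul | with_reducible apply IntF.succ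 | with_reducible apply IntF.val | with_reducible apply IntF.mk | (with_reducible refine Int.comp ?_ ?_; assumption) | (with_reducible refine Int.comp₂ ?_ ?_ ?_; assumption) | (with_reducible refine Int.comp₃ ?_ ?_ ?_ ?_; assumption) | (with_reducible refine Int.comp₄ ?_ ?_ ?_ ?_ ?_; assumption) | (with_reducible refine IntF.comp ?_ ?_; assumption) | (with_reducible refine IntF.comp₂ ?_ ?_ ?_; assumption) | (with_reducible refine IntF.comp₃ ?_ ?_ ?_ ?_; assumption) | with_reducible apply IntF.pair))

instance : IMul M (Gam M X) where
  out := by
    refine IntF.mk ?_
    have h : IntF M (fun q : Gam M X × Gam M X => (q.1.1.1 * q.2.1.1, q.1.1.2 * q.2.1.2)) := by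
      (repeat' (first | with_reducible exact IntF.id | with_reducible exact IntF.fst' | with_reducible exact IntF.snd' | with_reducible exact IntF.const _ | with_reducible exact Int.const _ | assumption | with_reducible apply Int.and | with_reducible apply Int.or | with_reducible apply Int.not | with_reducible apply Int.imp | with_reducible apply Int.iff | with_reducible apply Int.ne | with_reducible apply Int.eq | with_reducible apply Int.mem | with_reducible apply Int.subset | with_reducible apply Int.ltN | with_reducible apply Int.leN | with_reducible_and_instances apply Int.le | with_reducible_and_instances apply Int.lt | with_reducible apply Int.all | with_reducible apply Int.ex | with_reducible apply IntF.fst | with_reducible apply IntF.snd | with_reducible apply IntF.app | with_reducible apply IntF.inl | with_reducible apply IntF.inr | with_reducible_and_instances apply IntF.mul | with_reducible_and_instances apply IntF.inv | with_reducible_and_instances apply IntF.add | with_reducible_and_instances apply IntF.sub | with_reducible_and_instances apply IntF.neg | with_reducible_and_instances apply IntF.smul | with_reducible apply IntF.succ | with_reducible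 apply IntF.val | with_reducible apply IntF.mk | (with_reducible refine Int.comp ?_ ?_; assumption) | (with_reducible refine Int.comp₂ ?_ ?_ ?_; assumption) | (with_reducible refine Int.comp₃ ?_ ?_ ?_ ?_; assumption) | (with_reducible refine Int.comp₄ ?_ ?_ ?_ ?_ ?_; assumption) | (with_reducible refine IntF.comp ?_ ?_; assumption) | (with_reducible refine IntF.comp₂ ?_ ?_ ?_; assumption) | (with_reducible refine IntF.comp₃ ?_ ?_ ?_ ?_; assumption) | with_reducible apply IntF.pair))
    exact h

instance : IInv M (Gam M X) where
  out := by
    refine IntF.mk ?_
    have h : IntF M (fun q : Gam M X => (q.1.1⁻¹, q.1.2⁻¹)) := by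
      (repeat' (first | with_reducible exact IntF.id | with_reducible exact IntF.fst' | with_reducible exact IntF.snd' | with_reducible exact IntF.const _ | with_reducible exact Int.const _ | assumption | with_reducible apply Int.and | with_reducible apply Int.or | with_reducible apply Int.not | with_reducible apply Int.imp | with_reducible apply Int.iff | with_reducible apply Int.ne | with_reducible apply Int.eq | with_reducible apply Int.mem | with_reducible apply Int.subset | with_reducible apply Int.ltN | with_reducible apply Int.leN | with_reducible_and_instances apply Int.le | with_reducible_and_instances apply Int.lt | with_reducible apply Int.all | with_reducible apply Int.ex | with_reducible apply IntF.fst | with_reducible apply IntF.snd | with_reducible apply IntF.app | with_reducible apply IntF.inl | with_reducible apply IntF.inr | with_reducible_and_instances apply IntF.mul | with_reducible_and_instances apply IntF.inv | with_reducible_and_instances apply IntF.add | with_reducible_and_instances apply IntF.sub | with_reducible_and_instances apply IntF.neg | with_reducible_and_instances apply IntF.smul | with_reducible apply IntF.succ | with_reducible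 apply IntF.val | with_reducible apply IntF.mk | (with_reducible refine Int.comp ?_ ?_; assumption) | (with_reducible refine Int.comp₂ ?_ ?_ ?_; assumption) | (with_reducible refine Int.comp₃ ?_ ?_ ?_ ?_; assumption) | (with_reducible refine Int.comp₄ ?_ ?_ ?_ ?_ ?_; assumption) | (with_reducible refine IntF.comp ?_ ?_; assumption) | (with_reducible refine IntF.comp₂ ?_ ?_ ?_; assumption) | (with_reducible refine IntF.comp₃ ?_ ?_ ?_ ?_; assumption) | with_reducible apply IntF.pair))
    exact h

theorem int_smul_aux (π : Gam M X) (p : PP M X) : Int M (fun c => sigi π c ∈ p.1) := by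
  have h : IntF M (fun q : Gam M X × Cell M X => sigi q.1 q.2) := int_sigi
  (repeat' (first | with_reducible exact IntF.id | with_reducible exact IntF.fst' | with_reducible exact IntF.snd' | with_reducible exact IntF.const _ | with_reducible exact Int.const _ | assumption | with_reducible apply Int.and | with_reducible apply Int.or | with_reducible apply Int.not | with_reducible apply Int.imp | with_reducible apply Int.iff | with_reducible apply Int.ne | with_reducible apply Int.eq | with_reducible apply Int.mem | with_reducible apply Int.subset | with_reducible apply Int.ltN | with_reducible apply Int.leN | with_reducible_and_instances apply Int.le | with_reducible_and_instances apply Int.lt | with_reducible apply Int.all | with_reducible apply Int.ex | with_reducible apply IntF.fst | with_reducible apply IntF.snd | with_reducible apply IntF.app | with_reducible apply IntF.inl | with_reducible apply IntF.inr | with_reducible_and_instances apply IntF.mul | with_reducible_and_instances apply IntF.inv | with_reducible_and_instances apply IntF.add | with_reducible_and_instances apply IntF.sub | with_reducible_and_instances apply IntF.neg | with_reducible_and_instances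 apply IntF.smul | with_reducible apply IntF.succ | with_reducible apply IntF.val | with_reducible apply IntF.mk | (with_reducible refine Int.comp ?_ ?_; assumption) | (with_reducible refine Int.comp₂ ?_ ?_ ?_; assumption) | (with_reducible refine Int.comp₃ ?_ ?_ ?_ ?_; assumption) | (with_reducible refine Int.comp₄ ?_ ?_ ?_ ?_ ?_; assumption) | (with_reducible refine IntF.comp ?_ ?_; assumption) | (with_reducible refine IntF.comp₂ ?_ ?_ ?_; assumption) | (with_reducible refine IntF.comp₃ ?_ ?_ ?_ ?_; assumption) | with_reducible apply IntF.pair))

theorem smul_cond (π : Gam M X) (p : PP M X) : IsCond (sep M fun c => sigi π c ∈ p.1) := by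
  have hI := int_smul_aux π p
  obtain ⟨h1, n, h2⟩ := p.2
  constructor
  · intro i k d d' hd hd'
    have h3 := (mem_sep hI).1 hd
    have h4 := (mem_sep hI).1 hd'
    have e1 : sigi π (i, (k, d)) = (rhoi π i, (k, (sigi π (i, (k, d))).2.2)) :=
      Prod.ext (sigi_fst π _) (Prod.ext (sigi_snd π _) rfl)
    have e2 : sigi π (i, (k, d')) = (rhoi π i, (k, (sigi π (i, (k, d'))).2.2)) :=
      Prod.ext (sigi_fst π _) (Prod.ext (sigi_snd π _) rfl)
    rw [e1] at h3
    rw [e2] at h4
    have h5 := h1 _ _ _ _ h3 h4
    have h6 : sigi π (i, (k, d)) = sigi π (i, (k, d')) := by
      rw [e1, e2, h5]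
    have h7 := congrArg (sig π) h6
    rw [sig_sigi, sig_sigi] at h7
    exact congrArg (fun c : Cell M X => c.2.2) h7
  · refine ⟨n, fun c hc => ?_⟩
    have h3 := h2 _ ((mem_sep hI).1 hc)
    rwa [sigi_snd] at h3

noncomputable instance : SMul (Gam M X) (PP M X) :=
  ⟨fun π p => ⟨sep M fun c => sigi π c ∈ p.1, smul_cond π p⟩⟩

theorem mem_smul' {π : Gam M X} {p : PP M X} {c : Cell M X} :
    c ∈ (π • p).1 ↔ sigi π c ∈ p.1 := mem_sep (int_smul_aux π p)

theorem sig_mem_smul {π : Gam M X} {p : PP M X} {c : Cell M X} :
    sig π c ∈ (π • p).1 ↔ c ∈ p.1 := by
  rw [mem_smul', sigi_sig]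

noncomputable instance : MulAction (Gam M X) (PP M X) where
  one_smul p := Subtype.ext (IPow.ext' fun c => by rw [mem_smul', sigi_one])
  mul_smul π σ p := Subtype.ext (IPow.ext' fun c => by
    rw [mem_smul', mem_smul', mem_smul', sigi_comp])

instance : ISMul M (Gam M X) (PP M X) where
  out := by
    have h : IntF M (fun q : Gam M X × Cell M X => sigi q.1 q.2) := int_sigi
    refine IntF.of_rel (r := fun (q : Gam M X × PP M X) (p : PP M X) =>
      ∀ c, c ∈ p.1 ↔ sigi q.1 c ∈ q.2.1) (by (repeat' (first | with_reducible exact IntF.id | with_reducible exact IntF.fst' | with_reducible exact IntF.snd' | with_reducible exact IntF.const _ | with_reducible exact Int.const _ | assumption | with_reducible apply Int.and | with_reducible apply Int.or | with_reducible apply Int.not | with_reducible apply Int.imp | with_reducible apply Int.iff | with_reducible apply Int.ne | with_reducible apply Int.eq | with_reducible apply Int.mem | with_reducible apply Int.subset | with_reducible apply Int.ltN | with_reducible apply Int.leN | with_reducible_and_instances apply Int.le | with_reducible_and_instances apply Int.lt | with_reducible apply Int.all | with_reducible apply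 Int.ex | with_reducible apply IntF.fst | with_reducible apply IntF.snd | with_reducible apply IntF.app | with_reducible apply IntF.inl | with_reducible apply IntF.inr | with_reducible_and_instances apply IntF.mul | with_reducible_and_instances apply IntF.inv | with_reducible_and_instances apply IntF.add | with_reducible_and_instances apply IntF.sub | with_reducible_and_instances apply IntF.neg | with_reducible_and_instances apply IntF.smul | with_reducible apply IntF.succ | with_reducible apply IntF.val | with_reducible apply IntF.mk | (with_reducible refine Int.comp ?_ ?_; assumption) | (with_reducible refine Int.comp₂ ?_ ?_ ?_; assumption) | (with_reducible refine Int.comp₃ ?_ ?_ ?_ ?_; assumption) | (with_reducible refine Int.comp₄ ?_ ?_ ?_ ?_ ?_; assumption) | (with_reducible refine IntF.comp ?_ ?_; assumption) | (with_reducible refine IntF.comp₂ ?_ ?_ ?_; assumption) | (with_reducible refine IntF.comp₃ ?_ ?_ ?_ ?_; assumption) | with_reducible apply IntF.pair))) fun q p => ?_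
    constructor
    · intro h1
      exact Subtype.ext (IPow.ext' fun c => mem_smul'.trans (h1 c).symm)
    · rintro rfl c
      exact mem_smul'

/-- The subgroups. -/
def UU (n : INat M) (π : Gam M X) : Prop := ∀ c, In n c.1 → sig π c = c

variable (M X) in
/-- The symmetric system. -/
noncomputable def SS : SymSys M (PP M X) (Gam M X) (INat M) where
  smul_le π p q h c hc := mem_smul'.2 (h _ (mem_smul'.1 hc))
  U := UU
  int_U := by
    have h : IntF M (fun q : Gam M X × Cell M X => sig q.1 q.2) := int_sig
    have h' : Int M (fun q : INat M × II M => In q.1 q.2) := int_In
    unfold UU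
    (repeat' (first | with_reducible exact IntF.id | with_reducible exact IntF.fst' | with_reducible exact IntF.snd' | with_reducible exact IntF.const _ | with_reducible exact Int.const _ | assumption | with_reducible apply Int.and | with_reducible apply Int.or | with_reducible apply Int.not | with_reducible apply Int.imp | with_reducible apply Int.iff | with_reducible apply Int.ne | with_reducible apply Int.eq | with_reducible apply Int.mem | with_reducible apply Int.subset | with_reducible apply Int.ltN | with_reducible apply Int.leN | with_reducible_and_instances apply Int.le | with_reducible_and_instances apply Int.lt | with_reducible apply Int.all | with_reducible apply Int.ex | with_reducible apply IntF.fst | with_reducible apply IntF.snd | with_reducible apply IntF.app | with_reducible apply IntF.inl | with_reducible apply IntF.inr | with_reducible_and_instances apply IntF.mul | with_reducible_and_instances apply IntF.inv | with_reducible_and_instances apply IntF.add | with_reducible_and_instances apply IntF.sub | with_reducible_and_instances apply IntF.neg | with_reducible_and_instances apply IntF.smul | with_reducible apply IntF.succ | with_reducible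 apply IntF.val | with_reducible apply IntF.mk | (with_reducible refine Int.comp ?_ ?_; assumption) | (with_reducible refine Int.comp₂ ?_ ?_ ?_; assumption) | (with_reducible refine Int.comp₃ ?_ ?_ ?_ ?_; assumption) | (with_reducible refine Int.comp₄ ?_ ?_ ?_ ?_ ?_; assumption) | (with_reducible refine IntF.comp ?_ ?_; assumption) | (with_reducible refine IntF.comp₂ ?_ ?_ ?_; assumption) | (with_reducible refine IntF.comp₃ ?_ ?_ ?_ ?_; assumption) | with_reducible apply IntF.pair))
  nonempty := ⟨0⟩
  one _ c _ := sig_one c
  mul _ a b ha hb c hc := by rw [sig_comp, hb c hc, ha c hc]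
  inv _ a ha c hc := by
    rw [sig_inv]
    have h := congrArg (sigi a) (ha c hc)
    rwa [sigi_sig, eq_comm] at h
  dir l l' := ⟨max l l', fun a ha => ⟨fun c hc => ha c (hc.mono (le_max_left _ _)),
    fun c hc => ha c (hc.mono (le_max_right _ _))⟩⟩
  conj π l := by
    obtain ⟨m, hm⟩ := exists_In π
    refine ⟨max l m, fun a ha c hc => ?_⟩
    rw [sig_comp, sig_comp, sig_inv, ha, sigi_sig]
    rw [sig_fst]
    exact (hm _ (le_max_right _ _) _).1 (hc.mono (le_max_left _ _))

theorem SS_U {n : INat M} {π : Gam M X} : (SS M X).U n π ↔ ∀ c, In n c.1 → sig π c = c := Iff.rfl

theorem rho_of_U [Nonempty X] {n : INat M} {π : Gam M X} (h : (SS M X).U n π) {i : II M}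
    (hi : In n i) : rho π i = i := by
  obtain ⟨d⟩ := ‹Nonempty X›
  have h1 := h (i, (1, d)) hi
  have h2 := sig_fst π (i, (1, d))
  rw [h1] at h2
  exact h2.symm

end Pool.Agent.Helper672.ZFA.H635
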