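import Mathlib

/-!
# The completion of an ordered field by cuts
-/

namespace Pool.Agent.Helper672.ZFA.H635

universe u v

/-! ### Extension of additive maps -/

section extend

variable {A : Type u} {B : Type v} [AddCommGroup A] [LinearOrder A] [IsOrderedAddMonoid A]
  [AddCommGroup B]

theorem abs_add_pos {e : A} (he : 0 < e) (a : A) : 0 < |a| + e + a := by
  have h := neg_abs_le a
  have h1 : 0 ≤ |a| + a := by
    have := add_le_add_right h |a|
    simpa using this
  calc (0 : A) < e := he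
    _ = 0 + e := (zero_add e).symm
    _ ≤ (|a| + a) + e := by
      exact add_le_add h1 le_rfl
    _ = |a| + e + a := by abel

/-- Extension of a map that is additive on positive elements. -/
def extendPos (e : A) (g : A → B) (he : 0 < e)
    (hg : ∀ x y, 0 < x → 0 < y → g (x + y) = g x + g y) : A →+ B where
  toFun a := g (|a| + e + a) - g (|a| + e)
  map_zero' := by simp
  map_add' a b := by
    have h1 : ∀ a : A, 0 < |a| + e := fun a => add_pos_of_nonneg_of_pos (abs_nonneg a) he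
    have h2 := abs_add_pos he
    -- both sides by cross multiplication
    have k1 : g (|a + b| + e + (a + b)) + g ((|a| + e) + (|b| + e)) =
        g (|a + b| + e) + g ((|a| + e + a) + (|b| + e + b)) := by
      rw [← hg _ _ (h2 _) (add_pos (h1 _) (h1 _)), ← hg _ _ (h1 _) (add_pos (h2 _) (h2 _))]
      congr 1
      abel
    rw [hg _ _ (h1 a) (h1 b), hg _ _ (h2 a) (h2 b)] at k1
    have k2 : g (|a + b| + e + (a + b)) = g (|a + b| + e) + (g (|a| + e + a) + g (|b| + e + b)) -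
        (g (|a| + e) + g (|b| + e)) := eq_sub_of_add_eq k1
    rw [k2]
    abel

theorem extendPos_pos {e : A} {g : A → B} (he : 0 < e)
    (hg : ∀ x y, 0 < x → 0 < y → g (x + y) = g x + g y) {x : A} (hx : 0 < x) :
    extendPos e g he hg x = g x := by
  change g (|x| + e + x) - g (|x| + e) = g x
  rw [hg _ _ (add_pos_of_nonneg_of_pos (abs_nonneg x) he) hx]
  abel

theorem hom_ext_pos {e : A} (he : 0 < e) {f g : A →+ B} (h : ∀ x, 0 < x → f x = g x) : f = g := by
  ext a
  have h1 : a = (|a| + e + a) - (|a| + e) := by abel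
  rw [h1, map_sub, map_sub, h _ (abs_add_pos he a),
    h _ (add_pos_of_nonneg_of_pos (abs_nonneg a) he)]

end extend

/-! ### Cuts -/

variable (K : Type u) [Field K] [LinearOrder K] [IsStrictOrderedRing K]

/-- Good cuts. -/
@[ext] structure GC where
  /-- the lower set -/
  p : K → Prop
  ne : ∃ x, p x
  arch : ∀ ε, 0 < ε → ∃ x, p x ∧ ¬ p (x + ε)
  down : ∀ x y, p y → x < y → p x
  nomax : ∀ x, p x → ∃ y, p y ∧ x < y

variable {K}

namespace GC

theorem ext' {c d : GC K} (h : ∀ x, c.p x ↔ d.p x) : c = d := GC.ext (funext fun x => propext (h x))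

theorem lt_of (c : GC K) {x y : K} (hx : c.p x) (hy : ¬ c.p y) : x < y := by
  by_contra h
  rcases lt_or_eq_of_le (not_lt.1 h) with h1 | h1
  · exact hy (c.down y x hx h1)
  · exact hy (h1 ▸ hx)

theorem down' (c : GC K) {x y : K} (hy : c.p y) (h : x ≤ y) : c.p x := by
  rcases lt_or_eq_of_le h with h | rfl
  · exact c.down _ _ hy h
  · exact hy

theorem exists_not (c : GC K) : ∃ x, ¬ c.p x := by
  obtain ⟨x, -, h⟩ := c.arch 1 one_pos
  exact ⟨_, h⟩

theorem p_max (c : GC K) {x y : K} (hx : c.p x) (hy : c.p y) : c.p (max x y) := by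
  rcases max_choice x y with h | h <;> rw [h] <;> assumption

instance : LE (GC K) := ⟨fun c d => ∀ x, c.p x → d.p x⟩

theorem le_def {c d : GC K} : c ≤ d ↔ ∀ x, c.p x → d.p x := Iff.rfl

open Classical in
noncomputable instance : LinearOrder (GC K) where
  le_refl _ _ h := h
  le_trans _ _ _ h h' x hx := h' x (h x hx)
  le_antisymm _ _ h h' := ext' fun x => ⟨h x, h' x⟩
  le_total c d := by
    by_contra h
    push Not at h
    obtain ⟨h1, h2⟩ := h
    rw [le_def] at h1 h2
    push Not at h1 h2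
    obtain ⟨x, hx, hx'⟩ := h1
    obtain ⟨y, hy, hy'⟩ := h2
    exact lt_asymm (c.lt_of hx hy') (d.lt_of hy hx')
  toDecidableLE := Classical.decRel _

theorem lt_iff' {c d : GC K} : c < d ↔ ∃ x, d.p x ∧ ¬ c.p x := by
  rw [← not_le, le_def]
  push Not
  rfl

instance : Add (GC K) := ⟨fun c d =>
  { p := fun z => ∃ x y, c.p x ∧ d.p y ∧ z = x + y
    ne := by
      obtain ⟨x, hx⟩ := c.ne
      obtain ⟨y, hy⟩ := d.ne
      exact ⟨x + y, x, y, hx, hy, rfl⟩
    arch := by
      intro ε hε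
      obtain ⟨x, hx, hx'⟩ := c.arch (ε / 2) (by linarith)
      obtain ⟨y, hy, hy'⟩ := d.arch (ε / 2) (by linarith)
      refine ⟨x + y, ⟨x, y, hx, hy, rfl⟩, ?_⟩
      rintro ⟨u, v, hu, hv, h⟩
      have h1 := c.lt_of hu hx'
      have h2 := d.lt_of hv hy'
      linarith
    down := by
      rintro z _ ⟨x, y, hx, hy, rfl⟩ h
      exact ⟨z - y, y, c.down _ _ hx (by linarith), hy, by ring⟩
    nomax := by
      rintro _ ⟨x, y, hx, hy, rfl⟩
      obtain ⟨x', hx', h⟩ := c.nomax x hx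
      exact ⟨x' + y, ⟨x', y, hx', hy, rfl⟩, by linarith⟩ }⟩

theorem add_p {c d : GC K} {z : K} : (c + d).p z ↔ ∃ x y, c.p x ∧ d.p y ∧ z = x + y := Iff.rfl

instance : Zero (GC K) := ⟨
  { p := fun z => z < 0
    ne := ⟨-1, by linarith⟩
    arch := fun ε hε => ⟨-(ε / 2), by linarith, by linarith⟩
    down := fun x y h h' => h'.trans h
    nomax := fun x hx => ⟨x / 2, by linarith, by linarith⟩ }⟩

theorem zero_p {z : K} : (0 : GC K).p z ↔ z < 0 := Iff.rfl

instance : Neg (GC K) := ⟨fun c =>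
  { p := fun z => ∃ w, ¬ c.p w ∧ z < -w
    ne := by
      obtain ⟨w, hw⟩ := c.exists_not
      exact ⟨-w - 1, w, hw, by linarith⟩
    arch := by
      intro ε hε
      obtain ⟨x, hx, hx'⟩ := c.arch (ε / 2) (by linarith)
      refine ⟨-x - ε, ⟨_, hx', by linarith⟩, ?_⟩
      rintro ⟨w, hw, h⟩
      have := c.lt_of hx hw
      linarith
    down := fun x y ⟨w, hw, h⟩ h' => ⟨w, hw, h'.trans h⟩
    nomax := fun x ⟨w, hw, h⟩ => ⟨(x + -w) / 2, ⟨w, hw, by linarith⟩, by linarith⟩ }⟩

theorem neg_p {c : GC K} {z : K} : (-c).p z ↔ ∃ w, ¬ c.p w ∧ z < -w := Iff.rfl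

instance : AddCommGroup (GC K) where
  add_assoc a b c := ext' fun z => by
    constructor
    · rintro ⟨_, w, ⟨x, y, hx, hy, rfl⟩, hw, rfl⟩
      exact ⟨x, y + w, hx, ⟨y, w, hy, hw, rfl⟩, by ring⟩
    · rintro ⟨x, _, hx, ⟨y, w, hy, hw, rfl⟩, rfl⟩
      exact ⟨x + y, w, ⟨x, y, hx, hy, rfl⟩, hw, by ring⟩
  zero_add a := ext' fun z => by
    constructor
    · rintro ⟨x, y, hx, hy, rfl⟩
      rw [zero_p] at hx
      exact a.down _ _ hy (by linarith)
    · intro hz
      obtain ⟨y, hy, h⟩ := a.nomax z hz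
      refine ⟨z - y, y, ?_, hy, by ring⟩
      rw [zero_p]
      linarith
  add_zero a := ext' fun z => by
    constructor
    · rintro ⟨x, y, hx, hy, rfl⟩
      rw [zero_p] at hy
      exact a.down _ _ hx (by linarith)
    · intro hz
      obtain ⟨y, hy, h⟩ := a.nomax z hz
      refine ⟨y, z - y, hy, ?_, by ring⟩
      rw [zero_p]
      linarith
  nsmul := nsmulRec
  zsmul := zsmulRec
  neg_add_cancel a := ext' fun z => by
    constructor
    · rintro ⟨x, y, ⟨w, hw, hx⟩, hy, rfl⟩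
      have := a.lt_of hy hw
      rw [zero_p]
      linarith
    · intro hz
      rw [zero_p] at hz
      obtain ⟨x, hx, hx'⟩ := a.arch (-z / 2) (by linarith)
      exact ⟨z - x, x, ⟨_, hx', by linarith⟩, hx, by ring⟩
  add_comm a b := ext' fun z => by
    constructor
    · rintro ⟨x, y, hx, hy, rfl⟩
      exact ⟨y, x, hy, hx, add_comm _ _⟩
    · rintro ⟨x, y, hx, hy, rfl⟩
      exact ⟨y, x, hy, hx, add_comm _ _⟩

instance : IsOrderedAddMonoid (GC K) where
  add_le_add_left a b h c := by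
    rintro z ⟨x, y, hx, hy, rfl⟩
    exact ⟨x, y, h x hx, hy, rfl⟩

theorem pos_iff {c : GC K} : 0 < c ↔ c.p 0 := by
  rw [lt_iff']
  constructor
  · rintro ⟨x, h1, h2⟩
    rw [zero_p, not_lt] at h2
    exact c.down' h1 h2
  · intro h
    exact ⟨0, h, by rw [zero_p]; exact lt_irrefl 0⟩

theorem exists_pos {c : GC K} (h : 0 < c) : ∃ x, 0 < x ∧ c.p x := by
  obtain ⟨x, h1, h2⟩ := c.nomax 0 (pos_iff.1 h)
  exact ⟨x, h2, h1⟩

/-- The product of positive cuts. -/
def PMp (c d : GC K) (z : K) : Prop := ∃ x y, 0 < x ∧ 0 < y ∧ c.p x ∧ d.p y ∧ z < x * y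

/-- The product of positive cuts. -/
def pmul (c d : GC K) (hc : 0 < c) (hd : 0 < d) : GC K where
  p := PMp c d
  ne := by
    obtain ⟨x, hx, hx'⟩ := exists_pos hc
    obtain ⟨y, hy, hy'⟩ := exists_pos hd
    exact ⟨0, x, y, hx, hy, hx', hy', mul_pos hx hy⟩
  arch := by
    intro ε hε
    obtain ⟨x0, hx0, hx0'⟩ := exists_pos hc
    obtain ⟨y0, hy0, hy0'⟩ := exists_pos hd
    obtain ⟨X, hX⟩ := c.exists_not
    obtain ⟨Y, hY⟩ := d.exists_not
    have hX0 := hx0.trans (c.lt_of hx0' hX)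
    have hY0 := hy0.trans (d.lt_of hy0' hY)
    obtain ⟨δ, hδ, hδ1, hδ2⟩ : ∃ δ : K, 0 < δ ∧ δ ≤ 1 ∧ δ * (X + Y + 2) ≤ ε := by
      refine ⟨min 1 (ε / (X + Y + 2)), lt_min one_pos (by positivity), min_le_left _ _, ?_⟩
      calc min 1 (ε / (X + Y + 2)) * (X + Y + 2) ≤ ε / (X + Y + 2) * (X + Y + 2) := by
            gcongr
            exact min_le_right _ _
        _ = ε := by field_simp
    obtain ⟨x1, hx1, hx1'⟩ := c.arch δ hδ
    obtain ⟨y1, hy1, hy1'⟩ := d.arch δ hδ
    have hx : c.p (max x1 x0) := c.p_max hx1 hx0'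
    have hy : d.p (max y1 y0) := d.p_max hy1 hy0'
    have hx' : ¬ c.p (max x1 x0 + δ) := fun h => hx1' (c.down' h (by
      have := le_max_left x1 x0
      linarith))
    have hy' : ¬ d.p (max y1 y0 + δ) := fun h => hy1' (d.down' h (by
      have := le_max_left y1 y0
      linarith))
    have hxp : 0 < max x1 x0 := lt_max_of_lt_right hx0
    have hyp : 0 < max y1 y0 := lt_max_of_lt_right hy0
    have hxX := c.lt_of hx hX
    have hyY := d.lt_of hy hY
    generalize max x1 x0 = x at *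
    generalize max y1 y0 = y at *
    refine ⟨x * y - δ * δ, ⟨x, y, hxp, hyp, hx, hy, by nlinarith⟩, ?_⟩
    rintro ⟨u, v, hu0, hv0, hu, hv, h⟩
    have h1 := c.lt_of hu hx'
    have h2 := d.lt_of hv hy'
    have h3 : u * v < (x + δ) * (y + δ) := by nlinarith
    nlinarith
  down := fun z w ⟨x, y, hx, hy, hx', hy', h⟩ h' => ⟨x, y, hx, hy, hx', hy', h'.trans h⟩
  nomax := fun z ⟨x, y, hx, hy, hx', hy', h⟩ =>
    ⟨(z + x * y) / 2, ⟨x, y, hx, hy, hx', hy', by linarith⟩, by linarith⟩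

theorem pmul_pos {c d : GC K} (hc : 0 < c) (hd : 0 < d) : 0 < pmul c d hc hd := by
  rw [pos_iff]
  obtain ⟨x, hx, hx'⟩ := exists_pos hc
  obtain ⟨y, hy, hy'⟩ := exists_pos hd
  exact ⟨x, y, hx, hy, hx', hy', mul_pos hx hy⟩

theorem pmul_comm {c d : GC K} (hc : 0 < c) (hd : 0 < d) : pmul c d hc hd = pmul d c hd hc := by
  refine ext' fun z => ⟨?_, ?_⟩
  · rintro ⟨x, y, h1, h2, h3, h4, h5⟩
    exact ⟨y, x, h2, h1, h4, h3, by rwa [mul_comm]⟩
  · rintro ⟨x, y, h1, h2, h3, h4, h5⟩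
    exact ⟨y, x, h2, h1, h4, h3, by rwa [mul_comm]⟩

theorem pmul_assoc {a b c : GC K} (ha : 0 < a) (hb : 0 < b) (hc : 0 < c) :
    pmul (pmul a b ha hb) c (pmul_pos ha hb) hc = pmul a (pmul b c hb hc) ha (pmul_pos hb hc) := by
  refine ext' fun z => ⟨?_, ?_⟩
  · rintro ⟨w, v, h1, h2, ⟨x, y, hx, hy, hx', hy', h3⟩, hv, h5⟩
    obtain ⟨v', hv', hvv⟩ := c.nomax v hv
    refine ⟨x, y * v, hx, mul_pos hy h2, hx', ⟨y, v', hy, h2.trans hvv, hy', hv', ?_⟩, ?_⟩
    · exact mul_lt_mul_of_pos_left hvv hy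
    · calc z < w * v := h5
        _ < x * y * v := mul_lt_mul_of_pos_right h3 h2
        _ = x * (y * v) := by ring
  · rintro ⟨x, w, h1, h2, hx, ⟨y, v, hy, hv, hy', hv', h3⟩, h5⟩
    obtain ⟨x', hx', hxx⟩ := a.nomax x hx
    refine ⟨x * y, v, mul_pos h1 hy, hv, ⟨x', y, h1.trans hxx, hy, hx', hy', ?_⟩, hv', ?_⟩
    · exact mul_lt_mul_of_pos_right hxx hy
    · calc z < x * w := h5
        _ < x * (y * v) := mul_lt_mul_of_pos_left h3 h1
        _ = x * y * v := by ring

theorem pmul_add {a b c : GC K} (ha : 0 < a) (hb : 0 < b) (hc : 0 < c) :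
    pmul c (a + b) hc (add_pos ha hb) = pmul c a hc ha + pmul c b hc hb := by
  refine ext' fun z => ⟨?_, ?_⟩
  · rintro ⟨y, _, hy, h0, hy', ⟨p, q, hp, hq, rfl⟩, h⟩
    obtain ⟨p0, hp0, hp0'⟩ := exists_pos ha
    obtain ⟨q0, hq0, hq0'⟩ := exists_pos hb
    have h1 := a.p_max hp hp0'
    have h2 := b.p_max hq hq0'
    have h3 : 0 < max p p0 := lt_max_of_lt_right hp0
    have h4 : 0 < max q q0 := lt_max_of_lt_right hq0
    have h5 : z < y * max p p0 + y * max q q0 := by
      calc z < y * (p + q) := h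
        _ ≤ y * (max p p0 + max q q0) := by
          gcongr
          · exact le_max_left _ _
          · exact le_max_left _ _
        _ = y * max p p0 + y * max q q0 := by ring
    generalize max p p0 = p' at *
    generalize max q q0 = q' at *
    refine ⟨(z - y * q' + y * p') / 2, z - (z - y * q' + y * p') / 2,
      ⟨y, p', hy, h3, hy', h1, by linarith⟩, ⟨y, q', hy, h4, hy', h2, by linarith⟩, by ring⟩
  · rintro ⟨u, v, ⟨x, y, hx, hy, hx', hy', h⟩, ⟨x1, y1, hx1, hy1, hx1', hy1', h1⟩, rfl⟩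
    have h2 := c.p_max hx' hx1'
    refine ⟨max x x1, y + y1, lt_max_of_lt_left hx, add_pos hy hy1, h2, ⟨y, y1, hy', hy1', rfl⟩, ?_⟩
    calc u + v < x * y + x1 * y1 := add_lt_add h h1
      _ ≤ max x x1 * y + max x x1 * y1 := by
        gcongr
        · exact le_max_left _ _
        · exact le_max_right _ _
      _ = max x x1 * (y + y1) := by ring

instance : One (GC K) := ⟨
  { p := fun z => z < 1
    ne := ⟨0, one_pos⟩
    arch := fun ε hε => ⟨1 - (ε / 2), by linarith, by linarith⟩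
    down := fun x y h h' => h'.trans h
    nomax := fun x hx => ⟨(x + 1) / 2, by linarith, by linarith⟩ }⟩

theorem one_p {z : K} : (1 : GC K).p z ↔ z < 1 := Iff.rfl

theorem one_pos' : (0 : GC K) < 1 := pos_iff.2 (one_p.2 one_pos)

theorem pmul_one {c : GC K} (hc : 0 < c) : pmul c 1 hc one_pos' = c := by
  refine ext' fun z => ⟨?_, ?_⟩
  · rintro ⟨x, y, hx, hy, hx', hy', h⟩
    rw [one_p] at hy'
    exact c.down' hx' (by nlinarith)
  · intro hz
    obtain ⟨x0, hx0, hx0'⟩ := exists_pos hc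
    have h1 := c.p_max hz hx0'
    have h2 : 0 < max z x0 := lt_max_of_lt_right hx0
    have h4 : z ≤ max z x0 := le_max_left _ _
    generalize max z x0 = x at *
    obtain ⟨x1, hx1, hxx⟩ := c.nomax x h1
    obtain ⟨x2, hx2, hxx2⟩ := c.nomax x1 hx1
    have h3 : 0 < x1 := h2.trans hxx
    have h5 : 0 < x2 := h3.trans hxx2
    refine ⟨x2, x1 / x2, h5, div_pos h3 h5, hx2, ?_, ?_⟩
    · rw [one_p, div_lt_one h5]
      exact hxx2
    · rw [mul_div_cancel₀ _ h5.ne']
      exact h4.trans_lt hxx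

/-- The inverse of a positive cut. -/
def pinv (c : GC K) (hc : 0 < c) : GC K where
  p := fun z => ∃ w, ¬ c.p w ∧ z < w⁻¹
  ne := by
    obtain ⟨w, hw⟩ := c.exists_not
    exact ⟨w⁻¹ - 1, w, hw, by linarith⟩
  arch := by
    intro ε hε
    obtain ⟨x0, hx0, hx0'⟩ := exists_pos hc
    obtain ⟨δ, hδ, hδ'⟩ : ∃ δ : K, 0 < δ ∧ δ ≤ ε / 2 * (x0 * x0) :=
      ⟨ε / 2 * (x0 * x0), by positivity, le_rfl⟩
    obtain ⟨x1, hx1, hx1'⟩ := c.arch δ hδ
    have hx : c.p (max x1 x0) := c.p_max hx1 hx0'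
    have hx' : ¬ c.p (max x1 x0 + δ) := fun h => hx1' (c.down' h (by
      have := le_max_left x1 x0
      linarith))
    have hle : x0 ≤ max x1 x0 := le_max_right _ _
    generalize max x1 x0 = x at *
    have hxp : 0 < x := hx0.trans_le hle
    refine ⟨(x + δ)⁻¹ - ε / 2, ⟨_, hx', by linarith⟩, ?_⟩
    rintro ⟨w, hw, h⟩
    have h1 := c.lt_of hx hw
    have h2 : w⁻¹ < x⁻¹ := inv_strictAnti₀ hxp h1
    have h3 : x⁻¹ - (x + δ)⁻¹ ≤ ε / 2 := by
      have h4 : x⁻¹ - (x + δ)⁻¹ = δ / (x * (x + δ)) := by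
        field_simp
        ring
      rw [h4, div_le_iff₀ (by positivity)]
      calc δ ≤ ε / 2 * (x0 * x0) := hδ'
        _ ≤ ε / 2 * (x * (x + δ)) := by
          gcongr
          linarith
    linarith
  down := fun x y ⟨w, hw, h⟩ h' => ⟨w, hw, h'.trans h⟩
  nomax := fun x ⟨w, hw, h⟩ => ⟨(x + w⁻¹) / 2, ⟨w, hw, by linarith⟩, by linarith⟩

theorem pinv_pos {c : GC K} (hc : 0 < c) : 0 < pinv c hc := by
  rw [pos_iff]
  obtain ⟨x, hx, hx'⟩ := exists_pos hc
  obtain ⟨w, hw⟩ := c.exists_not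
  exact ⟨w, hw, inv_pos.2 (hx.trans (c.lt_of hx' hw))⟩

theorem pmul_pinv {c : GC K} (hc : 0 < c) : pmul c (pinv c hc) hc (pinv_pos hc) = 1 := by
  refine ext' fun z => ⟨?_, ?_⟩
  · rintro ⟨x, y, hx, hy, hx', ⟨w, hw, h1⟩, h⟩
    have h2 := c.lt_of hx' hw
    have h3 : 0 < w := hx.trans h2
    rw [one_p]
    calc z < x * y := h
      _ < w * w⁻¹ := by
        apply mul_lt_mul'' h2 h1 hx.le hy.le
      _ = 1 := mul_inv_cancel₀ h3.ne'
  · intro hz
    rw [one_p] at hz
    -- enlarge z to a positive element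
    obtain ⟨t, ht0, ht1, hzt⟩ : ∃ t : K, 0 < t ∧ t < 1 ∧ z < t := by
      refine ⟨max (1 / 2) ((z + 1) / 2), ?_, ?_, ?_⟩
      · exact lt_max_of_lt_left (by norm_num)
      · exact max_lt (by norm_num) (by linarith)
      · exact lt_max_of_lt_right (by linarith)
    obtain ⟨x0, hx0, hx0'⟩ := exists_pos hc
    obtain ⟨δ, hδ, hδ'⟩ : ∃ δ : K, 0 < δ ∧ δ < x0 * (1 - t) :=
      ⟨x0 * (1 - t) / 2, by
        have : 0 < x0 * (1 - t) := mul_pos hx0 (by linarith)
        linarith, by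
        have : 0 < x0 * (1 - t) := mul_pos hx0 (by linarith)
        linarith⟩
    obtain ⟨x1, hx1, hx1'⟩ := c.arch δ hδ
    have hx : c.p (max x1 x0) := c.p_max hx1 hx0'
    have hx' : ¬ c.p (max x1 x0 + δ) := fun h => hx1' (c.down' h (by
      have := le_max_left x1 x0
      linarith))
    have hle : x0 ≤ max x1 x0 := le_max_right _ _
    generalize max x1 x0 = x at *
    have hxp : 0 < x := hx0.trans_le hle
    have hw : 0 < x + δ := by linarith
    have h1 : t / x < (x + δ)⁻¹ := by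
      rw [div_lt_iff₀ hxp, inv_mul_eq_div, lt_div_iff₀ hw]
      nlinarith
    refine ⟨x, t / x, hxp, div_pos ht0 hxp, hx, ⟨_, hx', h1⟩, ?_⟩
    rw [mul_div_cancel₀ _ hxp.ne']
    exact hzt

/-! ### The ring structure -/

open Classical in
/-- Multiplication by a positive cut. -/
noncomputable def Lpos (c : GC K) (hc : 0 < c) : GC K →+ GC K :=
  extendPos 1 (fun d => if h : 0 < d then pmul c d hc h else 0) one_pos' fun x y hx hy => by
    rw [dif_pos hx, dif_pos hy, dif_pos (add_pos hx hy)]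
    exact pmul_add hx hy hc

theorem Lpos_apply {c d : GC K} (hc : 0 < c) (hd : 0 < d) : Lpos c hc d = pmul c d hc hd := by
  unfold Lpos
  rw [extendPos_pos _ _ hd, dif_pos hd]

open Classical in
/-- Multiplication. -/
noncomputable def mulHom : GC K →+ GC K →+ GC K :=
  extendPos 1 (fun c => if h : 0 < c then Lpos c h else 0) one_pos' fun x y hx hy => by
    rw [dif_pos hx, dif_pos hy, dif_pos (add_pos hx hy)]
    refine hom_ext_pos one_pos' fun d hd => ?_
    rw [AddMonoidHom.add_apply, Lpos_apply _ hd, Lpos_apply _ hd, Lpos_apply _ hd,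
      pmul_comm _ hd, pmul_comm hx hd, pmul_comm hy hd]
    exact pmul_add hx hy hd

theorem mulHom_apply {c d : GC K} (hc : 0 < c) (hd : 0 < d) : mulHom c d = pmul c d hc hd := by
  unfold mulHom
  rw [extendPos_pos _ _ hc, dif_pos hc, Lpos_apply hc hd]

theorem pos_induction {p : GC K → Prop} (h : ∀ x, 0 < x → p x)
    (hs : ∀ x y, p x → p y → p (x - y)) (a : GC K) : p a := by
  have h1 : a = (|a| + 1 + a) - (|a| + 1) := by abel
  rw [h1]
  exact hs _ _ (h _ (abs_add_pos one_pos' a)) (h _ (add_pos_of_nonneg_of_pos (abs_nonneg a) one_pos'))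

noncomputable instance : Mul (GC K) := ⟨fun a b => mulHom a b⟩

theorem mul_def (a b : GC K) : a * b = mulHom a b := rfl

theorem mul_pos_eq {c d : GC K} (hc : 0 < c) (hd : 0 < d) : c * d = pmul c d hc hd :=
  mulHom_apply hc hd

theorem sub_mul' (a b c : GC K) : (a - b) * c = a * c - b * c := by
  rw [mul_def, map_sub, AddMonoidHom.sub_apply]
  rfl

theorem mul_sub' (a b c : GC K) : a * (b - c) = a * b - a * c := by
  rw [mul_def, map_sub]
  rfl

theorem mul_comm' (a b : GC K) : a * b = b * a := by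
  refine pos_induction (p := fun a => ∀ b, a * b = b * a) (fun x hx b => ?_)
    (fun x y hx hy b => ?_) a b
  · refine pos_induction (p := fun b => x * b = b * x) (fun y hy => ?_) (fun y z hy hz => ?_) b
    · rw [mul_pos_eq hx hy, mul_pos_eq hy hx, pmul_comm]
    · rw [sub_mul', mul_sub', hy, hz]
  · rw [sub_mul', mul_sub', hx, hy]

theorem mul_assoc' (a b c : GC K) : a * b * c = a * (b * c) := by
  refine pos_induction (p := fun a => ∀ b c, a * b * c = a * (b * c)) (fun x hx b c => ?_)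
    (fun x y hx hy b c => ?_) a b c
  · refine pos_induction (p := fun b => ∀ c, x * b * c = x * (b * c)) (fun y hy c => ?_)
      (fun y z hy hz c => ?_) b c
    · refine pos_induction (p := fun c => x * y * c = x * (y * c)) (fun z hz => ?_)
        (fun z w hz hw => ?_) c
      · have e1 := pmul_pos hx hy
        have e2 := pmul_pos hy hz
        rw [mul_pos_eq hx hy, mul_pos_eq hy hz, mul_pos_eq e1 hz, mul_pos_eq hx e2, pmul_assoc]
      · rw [mul_sub', mul_sub', mul_sub', hz, hw]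
    · rw [mul_sub', sub_mul', sub_mul', mul_sub', hy, hz]
  · rw [sub_mul', sub_mul', sub_mul', hx, hy]

theorem mul_one' (a : GC K) : a * 1 = a := by
  refine pos_induction (p := fun a => a * 1 = a) (fun x hx => ?_) (fun x y hx hy => ?_) a
  · rw [mul_pos_eq hx one_pos', pmul_one]
  · rw [sub_mul', hx, hy]

noncomputable instance : CommRing (GC K) where
  mul_assoc := mul_assoc'
  one_mul a := by rw [mul_comm', mul_one']
  mul_one := mul_one'
  mul_comm := mul_comm'
  left_distrib a b c := by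
    rw [mul_def, map_add]
    rfl
  right_distrib a b c := by
    rw [mul_def, map_add, AddMonoidHom.add_apply]
    rfl
  zero_mul a := by
    rw [mul_def, map_zero]
    rfl
  mul_zero a := by
    rw [mul_def, map_zero]
  zsmul := zsmulRec
  neg_add_cancel := neg_add_cancel

instance : Nontrivial (GC K) := ⟨0, 1, one_pos'.ne⟩

instance : ZeroLEOneClass (GC K) := ⟨one_pos'.le⟩

instance : IsStrictOrderedRing (GC K) :=
  IsStrictOrderedRing.of_mul_pos fun a b ha hb => by
    rw [mul_pos_eq ha hb]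
    exact pmul_pos ha hb

noncomputable instance : Field (GC K) := Field.ofIsUnitOrEqZero fun a => by
  rcases lt_trichotomy a 0 with h | h | h
  · refine Or.inl ?_
    have h1 : 0 < -a := neg_pos.2 h
    have h2 : -a * pinv (-a) h1 = 1 := by
      rw [mul_pos_eq h1 (pinv_pos h1), pmul_pinv]
    exact (IsUnit.neg_iff a).1 (IsUnit.of_mul_eq_one _ h2)
  · exact Or.inr h
  · refine Or.inl ?_
    have h2 : a * pinv a h = 1 := by
      rw [mul_pos_eq h (pinv_pos h), pmul_pinv]
    exact IsUnit.of_mul_eq_one _ h2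

end GC

end Pool.Agent.Helper672.ZFA.H635
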