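import Pool.Agent.H635R2.Aut

/-!
# The generic elements
-/

namespace Pool.Agent.Helper672.ZFA.H635

open FirstOrder FirstOrder.Language

universe u

set_option synthInstance.maxSize 2000

variable {M : Type u} [L.Structure M] [hM : IsModel M] {X : Type u} [ITy M X]

theorem feq_nat {p : PP M X} {m n : INat M} (h : FEq M BE BE p (nat m) (nat n)) : m = n := by
  have hI := (ig_BE (M := M) (X := X)).feq ig_BE
  by_contra hmn
  have hP : Int M (fun m : INat M => ∃ (n : INat M) (p : PP M X),
      FEq M BE BE p (nat m) (nat n) ∧ m ≠ n) := by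
    (repeat' (first | (with_reducible refine Int.comp₃ (p := fun (p : PP M X) a b => FEq M BE BE p a b) hI ?_ ?_ ?_) | with_reducible exact IntF.id | with_reducible exact IntF.fst' | with_reducible exact IntF.snd' | with_reducible exact IntF.const _ | with_reducible exact Int.const _ | assumption | with_reducible apply Int.and | with_reducible apply Int.or | with_reducible apply Int.not | with_reducible apply Int.imp | with_reducible apply Int.iff | with_reducible apply Int.ne | with_reducible apply Int.eq | with_reducible apply Int.mem | with_reducible apply Int.subset | with_reducible apply Int.ltN | with_reducible apply Int.leN | with_reducible_and_instances apply Int.le | with_reducible_and_instances apply Int.lt | with_reducible apply Int.all | with_reducible apply Int.ex | with_reducible apply IntF.fst | with_reducible apply IntF.snd | with_reducible apply IntF.app | with_reducible apply IntF.inl | with_reducible apply IntF.inr | with_reducible_and_instances apply IntF.mul | with_reducible_and_instances apply IntF.inv | with_reducible_and_instances apply IntF.add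 | with_reducible_and_instances apply IntF.sub | with_reducible_and_instances apply IntF.neg | with_reducible_and_instances apply IntF.smul | with_reducible apply IntF.succ | with_reducible apply IntF.val | with_reducible apply IntF.mk | (with_reducible refine Int.comp ?_ ?_; assumption) | (with_reducible refine Int.comp₂ ?_ ?_ ?_; assumption) | (with_reducible refine Int.comp₃ ?_ ?_ ?_ ?_; assumption) | (with_reducible refine Int.comp₄ ?_ ?_ ?_ ?_ ?_; assumption) | (with_reducible refine IntF.comp ?_ ?_; assumption) | (with_reducible refine IntF.comp₂ ?_ ?_ ?_; assumption) | (with_reducible refine IntF.comp₃ ?_ ?_ ?_ ?_; assumption) | with_reducible apply IntF.pair))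
  obtain ⟨m, ⟨n, p, h, hmn⟩, hmin⟩ := INat.exists_least hP ⟨m, n, p, h, hmn⟩
  obtain ⟨h1, h2⟩ := (feq_iff ig_BE ig_BE).1 h
  rcases lt_or_gt_of_ne hmn with hlt | hlt
  · obtain ⟨r, -, b, s, hb, -, h3⟩ := h2 (nat m) p (BE_nat.2 ⟨m, rfl, hlt⟩) p le_rfl le_rfl p le_rfl
    obtain ⟨m', rfl, hm'⟩ := BE_nat.1 hb
    refine absurd (hmin m' ⟨m, r, h3.symm ig_BE ig_BE, hm'.ne⟩) (not_le.2 hm')
  · obtain ⟨r, -, b, s, hb, -, h3⟩ := h1 (nat n) p (BE_nat.2 ⟨n, rfl, hlt⟩) p le_rfl le_rfl p le_rfl
    obtain ⟨n', rfl, hn'⟩ := BE_nat.1 hb
    refine absurd (hmin n ⟨n', r, h3, hn'.ne'⟩) (not_le.2 hlt)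

theorem feq_kn {p : PP M X} {k k' : KK M} (h : FEq M BE BE p (kn k) (kn k')) : k = k' := by
  obtain ⟨h1, h2⟩ := (feq_iff ig_BE ig_BE).1 h
  refine KK.ext' fun m => ⟨fun hm => ?_, fun hm => ?_⟩
  · obtain ⟨r, -, b, s, hb, -, h3⟩ := h1 (nat m) p (BE_kn.2 ⟨m, rfl, hm⟩) p le_rfl le_rfl p le_rfl
    obtain ⟨m', rfl, hm'⟩ := BE_kn.1 hb
    rwa [feq_nat h3]
  · obtain ⟨r, -, b, s, hb, -, h3⟩ := h2 (nat m) p (BE_kn.2 ⟨m, rfl, hm⟩) p le_rfl le_rfl p le_rfl
    obtain ⟨m', rfl, hm'⟩ := BE_kn.1 hb
    rwa [feq_nat h3]

/-- Extension of conditions. -/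
theorem exists_ext (p : PP M X) (k : KK M) {f : II M → X} (hf : IntF M f) :
    ∃ q, q ≤ p ∧ ∀ i, (¬ ∃ d, (i, (k, d)) ∈ p.1) → (i, (k, f i)) ∈ q.1 := by
  have hI : Int M (fun c : Cell M X => c ∈ p.1 ∨ (c.2.1 = k ∧ c.2.2 = f c.1 ∧
      ¬ ∃ d, (c.1, (k, d)) ∈ p.1)) := by (repeat' (first | with_reducible exact IntF.id | with_reducible exact IntF.fst' | with_reducible exact IntF.snd' | with_reducible exact IntF.const _ | with_reducible exact Int.const _ | assumption | with_reducible apply Int.and | with_reducible apply Int.or | with_reducible apply Int.not | with_reducible apply Int.imp | with_reducible apply Int.iff | with_reducible apply Int.ne | with_reducible apply Int.eq | with_reducible apply Int.mem | with_reducible apply Int.subset | with_reducible apply Int.ltN | with_reducible apply Int.leN | with_reducible_and_instances apply Int.le | with_reducible_and_instances apply Int.lt | with_reducible apply Int.all | with_reducible apply Int.ex | with_reducible apply IntF.fst | with_reducible apply IntF.snd | with_reducible apply IntF.app | with_reducible apply IntF.inl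 | with_reducible apply IntF.inr | with_reducible_and_instances apply IntF.mul | with_reducible_and_instances apply IntF.inv | with_reducible_and_instances apply IntF.add | with_reducible_and_instances apply IntF.sub | with_reducible_and_instances apply IntF.neg | with_reducible_and_instances apply IntF.smul | with_reducible apply IntF.succ | with_reducible apply IntF.val | with_reducible apply IntF.mk | (with_reducible refine Int.comp ?_ ?_; assumption) | (with_reducible refine Int.comp₂ ?_ ?_ ?_; assumption) | (with_reducible refine Int.comp₃ ?_ ?_ ?_ ?_; assumption) | (with_reducible refine Int.comp₄ ?_ ?_ ?_ ?_ ?_; assumption) | (with_reducible refine IntF.comp ?_ ?_; assumption) | (with_reducible refine IntF.comp₂ ?_ ?_ ?_; assumption) | (with_reducible refine IntF.comp₃ ?_ ?_ ?_ ?_; assumption) | with_reducible apply IntF.pair))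
  obtain ⟨h1, m, hm⟩ := p.2
  obtain ⟨n, hn⟩ := KK.exists_Kn k
  refine ⟨⟨sep M fun c : Cell M X => c ∈ p.1 ∨ (c.2.1 = k ∧ c.2.2 = f c.1 ∧
      ¬ ∃ d, (c.1, (k, d)) ∈ p.1), ?_, max m n, ?_⟩, fun c hc => (mem_sep hI).2 (Or.inl hc),
      fun i hi => (mem_sep hI).2 (Or.inr ⟨rfl, rfl, hi⟩)⟩
  · intro i k' d d' hd hd'
    rcases (mem_sep hI).1 hd with hd₁ | ⟨e1, e2, e3⟩
    · rcases (mem_sep hI).1 hd' with hd₂ | ⟨e1', e2', e3'⟩
      · exact h1 _ _ _ _ hd₁ hd₂
      · dsimp only at e1' e2' e3'
        rw [e1'] at hd₁
        exact absurd ⟨d, hd₁⟩ e3'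
    · rcases (mem_sep hI).1 hd' with hd₂ | ⟨e1', e2', e3'⟩
      · dsimp only at e1 e2 e3
        rw [e1] at hd₂
        exact absurd ⟨d', hd₂⟩ e3
      · exact e2.trans e2'.symm
  · intro c hc
    rcases (mem_sep hI).1 hc with hc | ⟨e1, -, -⟩
    · exact (hm c hc).mono (le_max_left _ _)
    · rw [e1]
      exact hn.mono (le_max_right _ _)

theorem feq_an {p : PP M X} {d₀ d₁ : X} (hd : d₀ ≠ d₁) {i j : II M} (hij : i ≠ j)
    {t t₀ : TS M X} (ht₀ : ∀ k d, (k, d) ∈ t₀ ↔ d = d₀) :
    ¬ FEq M BE BE p (an i t₀) (an j t) := by
  classical
  intro h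
  obtain ⟨m, hm⟩ := p.2.2
  have hk : ¬ KK.Kn m (KK.sg m) := fun h => lt_irrefl m (h m (KK.mem_sg.2 rfl))
  have hu : ∀ i, ¬ ∃ d, (i, (KK.sg m, d)) ∈ p.1 := fun i ⟨d, hd⟩ => hk (hm _ hd)
  by_cases he : ∃ e, (KK.sg m, e) ∈ t
  · obtain ⟨e, he⟩ := he
    have hf : IntF M (fun i' : II M => if i' = i then d₁ else e) := by
      refine IntF.ite ?_ ?_ ?_ <;> (repeat' (first | with_reducible exact IntF.id | with_reducible exact IntF.fst' | with_reducible exact IntF.snd' | with_reducible exact IntF.const _ | with_reducible exact Int.const _ | assumption | with_reducible apply Int.and | with_reducible apply Int.or | with_reducible apply Int.not | with_reducible apply Int.imp | with_reducible apply Int.iff | with_reducible apply Int.ne | with_reducible apply Int.eq | with_reducible apply Int.mem | with_reducible apply Int.subset | with_reducible apply Int.ltN | with_reducible apply Int.leN | with_reducible_and_instances apply Int.le | with_reducible_and_instances apply Int.lt | with_reducible apply Int.all | with_reducible apply Int.ex | with_reducible apply IntF.fst | with_reducible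 apply IntF.snd | with_reducible apply IntF.app | with_reducible apply IntF.inl | with_reducible apply IntF.inr | with_reducible_and_instances apply IntF.mul | with_reducible_and_instances apply IntF.inv | with_reducible_and_instances apply IntF.add | with_reducible_and_instances apply IntF.sub | with_reducible_and_instances apply IntF.neg | with_reducible_and_instances apply IntF.smul | with_reducible apply IntF.succ | with_reducible apply IntF.val | with_reducible apply IntF.mk | (with_reducible refine Int.comp ?_ ?_; assumption) | (with_reducible refine Int.comp₂ ?_ ?_ ?_; assumption) | (with_reducible refine Int.comp₃ ?_ ?_ ?_ ?_; assumption) | (with_reducible refine Int.comp₄ ?_ ?_ ?_ ?_ ?_; assumption) | (with_reducible refine IntF.comp ?_ ?_; assumption) | (with_reducible refine IntF.comp₂ ?_ ?_ ?_; assumption) | (with_reducible refine IntF.comp₃ ?_ ?_ ?_ ?_; assumption) | with_reducible apply IntF.pair))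
    obtain ⟨q, hq, h3⟩ := exists_ext p (KK.sg m) hf
    have h4 := h3 i (hu i)
    have h5 := h3 j (hu j)
    rw [if_pos rfl] at h4
    rw [if_neg hij.symm] at h5
    obtain ⟨-, h2⟩ := (feq_iff ig_BE ig_BE).1 h
    obtain ⟨r, hr, b, s, hb, hs, h6⟩ := h2 (kn (KK.sg m)) q (BE_an.2 ⟨_, rfl, e, he, h5⟩) q hq le_rfl
      q le_rfl
    obtain ⟨k', rfl, d, h7, h8⟩ := BE_an.1 hb
    obtain rfl := feq_kn h6
    rw [ht₀] at h7
    subst h7
    exact hd (r.2.1 _ _ _ _ (hs _ h8) (hr _ h4))
  · have hf : IntF M (fun i' : II M => d₀) := by (repeat' (first | with_reducible exact IntF.id | with_reducible exact IntF.fst' | with_reducible exact IntF.snd' | with_reducible exact IntF.const _ | with_reducible exact Int.const _ | assumption | with_reducible apply Int.and | with_reducible apply Int.or | with_reducible apply Int.not | with_reducible apply Int.imp | with_reducible apply Int.iff | with_reducible apply Int.ne | with_reducible apply Int.eq | with_reducible apply Int.mem | with_reducible apply Int.subset | with_reducible apply Int.ltN | with_reducible apply Int.leN | with_reducible_and_instances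 apply Int.le | with_reducible_and_instances apply Int.lt | with_reducible apply Int.all | with_reducible apply Int.ex | with_reducible apply IntF.fst | with_reducible apply IntF.snd | with_reducible apply IntF.app | with_reducible apply IntF.inl | with_reducible apply IntF.inr | with_reducible_and_instances apply IntF.mul | with_reducible_and_instances apply IntF.inv | with_reducible_and_instances apply IntF.add | with_reducible_and_instances apply IntF.sub | with_reducible_and_instances apply IntF.neg | with_reducible_and_instances apply IntF.smul | with_reducible apply IntF.succ | with_reducible apply IntF.val | with_reducible apply IntF.mk | (with_reducible refine Int.comp ?_ ?_; assumption) | (with_reducible refine Int.comp₂ ?_ ?_ ?_; assumption) | (with_reducible refine Int.comp₃ ?_ ?_ ?_ ?_; assumption) | (with_reducible refine Int.comp₄ ?_ ?_ ?_ ?_ ?_; assumption) | (with_reducible refine IntF.comp ?_ ?_; assumption) | (with_reducible refine IntF.comp₂ ?_ ?_ ?_; assumption) | (with_reducible refine IntF.comp₃ ?_ ?_ ?_ ?_; assumption) | with_reducible apply IntF.pair))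
    obtain ⟨q, hq, h3⟩ := exists_ext p (KK.sg m) hf
    have h4 := h3 i (hu i)
    obtain ⟨h2, -⟩ := (feq_iff ig_BE ig_BE).1 h
    obtain ⟨r, hr, b, s, hb, hs, h6⟩ := h2 (kn (KK.sg m)) q (BE_an.2 ⟨_, rfl, d₀,
      (ht₀ _ _).2 rfl, h4⟩) q hq le_rfl q le_rfl
    obtain ⟨k', rfl, d, h7, h8⟩ := BE_an.1 hb
    obtain rfl := feq_kn h6
    exact he ⟨d, h7⟩

theorem feq_cn [Nontrivial X] {p : PP M X} {i j : II M} (h : FEq M BE BE p (cn i) (cn j)) :
    i = j := by
  by_contra hij
  obtain ⟨d₀, d₁, hd⟩ := exists_pair_ne X
  obtain ⟨h1, -⟩ := (feq_iff ig_BE ig_BE).1 h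
  have hI : Int M (fun q : KK M × X => q.2 = d₀) := by (repeat' (first | with_reducible exact IntF.id | with_reducible exact IntF.fst' | with_reducible exact IntF.snd' | with_reducible exact IntF.const _ | with_reducible exact Int.const _ | assumption | with_reducible apply Int.and | with_reducible apply Int.or | with_reducible apply Int.not | with_reducible apply Int.imp | with_reducible apply Int.iff | with_reducible apply Int.ne | with_reducible apply Int.eq | with_reducible apply Int.mem | with_reducible apply Int.subset | with_reducible apply Int.ltN | with_reducible apply Int.leN | with_reducible_and_instances apply Int.le | with_reducible_and_instances apply Int.lt | with_reducible apply Int.all | with_reducible apply Int.ex | with_reducible apply IntF.fst | with_reducible apply IntF.snd | with_reducible apply IntF.app | with_reducible apply IntF.inl | with_reducible apply IntF.inr | with_reducible_and_instances apply IntF.mul | with_reducible_and_instances apply IntF.inv | with_reducible_and_instances apply IntF.add | with_reducible_and_instances apply IntF.sub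 | with_reducible_and_instances apply IntF.neg | with_reducible_and_instances apply IntF.smul | with_reducible apply IntF.succ | with_reducible apply IntF.val | with_reducible apply IntF.mk | (with_reducible refine Int.comp ?_ ?_; assumption) | (with_reducible refine Int.comp₂ ?_ ?_ ?_; assumption) | (with_reducible refine Int.comp₃ ?_ ?_ ?_ ?_; assumption) | (with_reducible refine Int.comp₄ ?_ ?_ ?_ ?_ ?_; assumption) | (with_reducible refine IntF.comp ?_ ?_; assumption) | (with_reducible refine IntF.comp₂ ?_ ?_ ?_; assumption) | (with_reducible refine IntF.comp₃ ?_ ?_ ?_ ?_; assumption) | with_reducible apply IntF.pair))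
  obtain ⟨r, hr, b, s, hb, hs, h6⟩ := h1 (an i (sep M fun q : KK M × X => q.2 = d₀)) p
    (BE_cn.2 ⟨_, rfl⟩) p le_rfl le_rfl p le_rfl
  obtain ⟨t, rfl⟩ := BE_cn.1 hb
  exact feq_an hd hij (fun k d => mem_sep hI) h6

/-! ### In the extension -/

section ext

variable {G : Set (PP M X)} (hG : IsGen M G)

/-- The generic function. -/
def Gv (G : Set (PP M X)) (i : II M) (k : KK M) (d : X) : Prop := ∃ p, p ∈ G ∧ (i, (k, d)) ∈ p.1

include hG in
theorem Gv_total [Nonempty X] (i : II M) (k : KK M) : ∃ d, Gv G i k d := by
  obtain ⟨d₀⟩ := ‹Nonempty X›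
  obtain ⟨p, hp, d, hd⟩ := hG.dense (fun p => ∃ d, (i, (k, d)) ∈ p.1) (by (repeat' (first | with_reducible exact IntF.id | with_reducible exact IntF.fst' | with_reducible exact IntF.snd' | with_reducible exact IntF.const _ | with_reducible exact Int.const _ | assumption | with_reducible apply Int.and | with_reducible apply Int.or | with_reducible apply Int.not | with_reducible apply Int.imp | with_reducible apply Int.iff | with_reducible apply Int.ne | with_reducible apply Int.eq | with_reducible apply Int.mem | with_reducible apply Int.subset | with_reducible apply Int.ltN | with_reducible apply Int.leN | with_reducible_and_instances apply Int.le | with_reducible_and_instances apply Int.lt | with_reducible apply Int.all | with_reducible apply Int.ex | with_reducible apply IntF.fst | with_reducible apply IntF.snd | with_reducible apply IntF.app | with_reducible apply IntF.inl | with_reducible apply IntF.inr | with_reducible_and_instances apply IntF.mul | with_reducible_and_instances apply IntF.inv | with_reducible_and_instances apply IntF.add | with_reducible_and_instances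 apply IntF.sub | with_reducible_and_instances apply IntF.neg | with_reducible_and_instances apply IntF.smul | with_reducible apply IntF.succ | with_reducible apply IntF.val | with_reducible apply IntF.mk | (with_reducible refine Int.comp ?_ ?_; assumption) | (with_reducible refine Int.comp₂ ?_ ?_ ?_; assumption) | (with_reducible refine Int.comp₃ ?_ ?_ ?_ ?_; assumption) | (with_reducible refine Int.comp₄ ?_ ?_ ?_ ?_ ?_; assumption) | (with_reducible refine IntF.comp ?_ ?_; assumption) | (with_reducible refine IntF.comp₂ ?_ ?_ ?_; assumption) | (with_reducible refine IntF.comp₃ ?_ ?_ ?_ ?_; assumption) | with_reducible apply IntF.pair))) fun p => by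
    by_cases h : ∃ d, (i, (k, d)) ∈ p.1
    · exact ⟨p, le_rfl, h⟩
    · obtain ⟨q, hq, h1⟩ := exists_ext p k (f := fun _ => d₀) (by (repeat' (first | with_reducible exact IntF.id | with_reducible exact IntF.fst' | with_reducible exact IntF.snd' | with_reducible exact IntF.const _ | with_reducible exact Int.const _ | assumption | with_reducible apply Int.and | with_reducible apply Int.or | with_reducible apply Int.not | with_reducible apply Int.imp | with_reducible apply Int.iff | with_reducible apply Int.ne | with_reducible apply Int.eq | with_reducible apply Int.mem | with_reducible apply Int.subset | with_reducible apply Int.ltN | with_reducible apply Int.leN | with_reducible_and_instances apply Int.le | with_reducible_and_instances apply Int.lt | with_reducible apply Int.all | with_reducible apply Int.ex | with_reducible apply IntF.fst | with_reducible apply IntF.snd | with_reducible apply IntF.app | with_reducible apply IntF.inl | with_reducible apply IntF.inr | with_reducible_and_instances apply IntF.mul | with_reducible_and_instances apply IntF.inv | with_reducible_and_instances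 apply IntF.add | with_reducible_and_instances apply IntF.sub | with_reducible_and_instances apply IntF.neg | with_reducible_and_instances apply IntF.smul | with_reducible apply IntF.succ | with_reducible apply IntF.val | with_reducible apply IntF.mk | (with_reducible refine Int.comp ?_ ?_; assumption) | (with_reducible refine Int.comp₂ ?_ ?_ ?_; assumption) | (with_reducible refine Int.comp₃ ?_ ?_ ?_ ?_; assumption) | (with_reducible refine Int.comp₄ ?_ ?_ ?_ ?_ ?_; assumption) | (with_reducible refine IntF.comp ?_ ?_; assumption) | (with_reducible refine IntF.comp₂ ?_ ?_ ?_; assumption) | (with_reducible refine IntF.comp₃ ?_ ?_ ?_ ?_; assumption) | with_reducible apply IntF.pair)))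
      exact ⟨q, hq, d₀, h1 i h⟩
  exact ⟨d, p, hp, hd⟩

include hG in
theorem Gv_unique {i : II M} {k : KK M} {d d' : X} (h : Gv G i k d) (h' : Gv G i k d') :
    d = d' := by
  obtain ⟨p, hp, h1⟩ := h
  obtain ⟨p', hp', h1'⟩ := h'
  obtain ⟨r, -, h2, h3⟩ := hG.dir p p' hp hp'
  exact r.2.1 _ _ _ _ (h2 _ h1) (h3 _ h1')

variable [Nontrivial X]

/-- The generic elements. -/
noncomputable def cc (i : II M) : NN (SS M X) hG := nd hG good_BE (cn i)

/-- The generic subsets. -/
noncomputable def yy (i : II M) (t : TS M X) : NN (SS M X) hG := nd hG good_BE (yn i t)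

theorem cc_inj {i j : II M} : cc hG i = cc hG j ↔ i = j := by
  refine ⟨fun h => ?_, fun h => h ▸ rfl⟩
  obtain ⟨p, -, h1⟩ := (nd_eq hG _ _).1 h
  exact feq_cn h1

theorem mem_yy {i : II M} {t : TS M X} {w : NN (SS M X) hG} : Plain.Mem w (yy hG i t) ↔
    ∃ h d, w = cc hG (h, 1) ∧ (h, d) ∈ t ∧ Gv G i h d := by
  unfold yy cc Gv
  rw [mem_nd]
  constructor
  · rintro ⟨a, s, hs, h1, rfl⟩
    obtain ⟨h, rfl, d, h2, h3⟩ := BE_yn.1 h1
    exact ⟨h, d, rfl, h2, s, hs, h3⟩
  · rintro ⟨h, d, rfl, h2, s, hs, h3⟩
    exact ⟨_, s, hs, BE_yn.2 ⟨h, rfl, d, h2, h3⟩, rfl⟩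

theorem mem_yy_cc {i : II M} {t : TS M X} {h : KK M} :
    Plain.Mem (cc hG (h, 1)) (yy hG i t) ↔ ∃ d, (h, d) ∈ t ∧ Gv G i h d := by
  rw [mem_yy]
  constructor
  · rintro ⟨h', d, h1, h2, h3⟩
    obtain rfl := (Prod.mk.inj ((cc_inj hG).1 h1)).1
    exact ⟨d, h2, h3⟩
  · rintro ⟨d, h2, h3⟩
    exact ⟨h, d, rfl, h2, h3⟩

/-- The dichotomy. -/
theorem dichotomy (x : NN (SS M X) hG) : ∃ n : INat M, ∀ i j, ¬ In n i → ¬ In n j →
    Plain.Mem (cc hG i) x → Plain.Mem (cc hG j) x := by
  obtain ⟨x, rfl⟩ := exists_mk hG x
  obtain ⟨n, hn⟩ := x.good.sym x.root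
  refine ⟨n, fun i j hi hj h => ?_⟩
  rw [mk_eq_nd] at h ⊢
  unfold cc at h ⊢
  rw [mem_nd_nd] at h ⊢
  by_contra hc
  obtain ⟨p, hp, h1⟩ := h
  have hI := (ig_BE (M := M) (X := X)).fmem x.int
  obtain ⟨q, hq, h2⟩ := hG.dense (fun q => FMem M BE x.E q (cn j) x.root ∨
      ∀ r, r ≤ q → ¬ FMem M BE x.E r (cn j) x.root)
    (by (repeat' (first | (with_reducible refine Int.comp₃ (p := fun p a b => FMem M BE x.E p a b) hI ?_ ?_ ?_) | with_reducible exact IntF.id | with_reducible exact IntF.fst' | with_reducible exact IntF.snd' | with_reducible exact IntF.const _ | with_reducible exact Int.const _ | assumption | with_reducible apply Int.and | with_reducible apply Int.or | with_reducible apply Int.not | with_reducible apply Int.imp | with_reducible apply Int.iff | with_reducible apply Int.ne | with_reducible apply Int.eq | with_reducible apply Int.mem | with_reducible apply Int.subset | with_reducible apply Int.ltN | with_reducible apply Int.leN | with_reducible_and_instances apply Int.le | with_reducible_and_instances apply Int.lt | with_reducible apply Int.all | with_reducible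 apply Int.ex | with_reducible apply IntF.fst | with_reducible apply IntF.snd | with_reducible apply IntF.app | with_reducible apply IntF.inl | with_reducible apply IntF.inr | with_reducible_and_instances apply IntF.mul | with_reducible_and_instances apply IntF.inv | with_reducible_and_instances apply IntF.add | with_reducible_and_instances apply IntF.sub | with_reducible_and_instances apply IntF.neg | with_reducible_and_instances apply IntF.smul | with_reducible apply IntF.succ | with_reducible apply IntF.val | with_reducible apply IntF.mk | (with_reducible refine Int.comp ?_ ?_; assumption) | (with_reducible refine Int.comp₂ ?_ ?_ ?_; assumption) | (with_reducible refine Int.comp₃ ?_ ?_ ?_ ?_; assumption) | (with_reducible refine Int.comp₄ ?_ ?_ ?_ ?_ ?_; assumption) | (with_reducible refine IntF.comp ?_ ?_; assumption) | (with_reducible refine IntF.comp₂ ?_ ?_ ?_; assumption) | (with_reducible refine IntF.comp₃ ?_ ?_ ?_ ?_; assumption) | with_reducible apply IntF.pair)))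
    fun q => by
      by_cases h : ∃ r, r ≤ q ∧ FMem M BE x.E r (cn j) x.root
      · obtain ⟨r, hr, h3⟩ := h
        exact ⟨r, hr, Or.inl h3⟩
      · exact ⟨q, le_rfl, Or.inr fun r hr h3 => h ⟨r, hr, h3⟩⟩
  rcases h2 with h2 | h2
  · exact hc ⟨q, hq, h2⟩
  obtain ⟨q₀, -, h3, h4⟩ := hG.dir p q hp hq
  obtain ⟨π, hπ, hij, r, hr, hr'⟩ := exists_move q₀ hi hj
  refine h2 r (hr.trans h4) ?_
  have h5 := (fmem_tw (SS M X) π (h1.mono h3)).mono hr'
  have h6 := feq_th π r (cn i)
  rw [th_cn, hij] at h6
  exact FMem.congr_left ig_BE (ig_BE.tw π) x.int (h6.symm (ig_BE.tw π) ig_BE)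
    (FMem.congr_right (ig_BE.tw π) (x.int.tw π) x.int h5 (hn π hπ r))

/-- Symmetry of the generic subsets. -/
theorem yy_symm (x : NN (SS M X) hG) : ∃ n : INat M, ∀ i, ¬ In n i → ∀ g : X → X, IntF M g →
    (∀ d, g (g d) = d) → ∀ t, Plain.Mem (yy hG i t) x → ∃ (m : INat M) (t' : TS M X),
      Plain.Mem (yy hG i t') x ∧ ∀ k, ¬ KK.Kn m k → ∀ d, ((k, d) ∈ t' ↔ (k, g d) ∈ t) := by
  obtain ⟨x, rfl⟩ := exists_mk hG x
  obtain ⟨n, hn⟩ := x.good.sym x.root
  refine ⟨n, fun i hi g hg hgg t h => ?_⟩
  rw [mk_eq_nd] at h ⊢
  unfold yy at h ⊢
  rw [mem_nd_nd] at h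
  obtain ⟨p, hp, h1⟩ := h
  obtain ⟨m, π, h2, h3, h4, h5⟩ := exists_local p hi hg hgg
  refine ⟨m, ts π i t, ?_, h5 t⟩
  rw [mem_nd_nd]
  refine ⟨p, hp, ?_⟩
  have h6 := fmem_tw (SS M X) π h1
  rw [h3] at h6
  have h7 := feq_th π p (yn i t)
  rw [th_yn, h4] at h7
  exact FMem.congr_left ig_BE (ig_BE.tw π) x.int (h7.symm (ig_BE.tw π) ig_BE)
    (FMem.congr_right (ig_BE.tw π) (x.int.tw π) x.int h6 (hn π h2 p))

end ext

end Pool.Agent.Helper672.ZFA.H635
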