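import Pool.Agent.Helper672.SIK.Plain

/-!
# Amenability of subgroups without the axiom of choice: the statement

The language `LSet` of set theory has one binary relation symbol. In a structure `M` for it,
`Mem x y` says that `x` is an element of `y` in the sense of `M`, and `El a` is the type of the
`x : M` that are elements of `a` in the sense of `M`. (`LSet`, `Mem`, `Zermelo`, `IsOrdPair`,
`El` and `IsOpGraph` are from the imported file.)
-/

namespace Pool.Agent.H635Amen

open FirstOrder FirstOrder.Language
open Pool.Agent.Helper672.Plain (LSet Mem Zermelo IsPair IsOrdPair El IsOpGraph)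

universe u

/-- Models of ZF: Extensionality, Pairing, Union, Power Set, Infinity and the schema of
Separation (these are the class `Zermelo`), and Foundation and the schema of Replacement. The
schemas are for all classes that are first order definable with parameters. -/
class ZF (M : Type u) [LSet.Structure M] : Prop extends Zermelo M where
  foundation : ∀ x : M, (∃ y, Mem y x) → ∃ y, Mem y x ∧ ∀ z, Mem z x → ¬ Mem z y
  replacement : ∀ F : Set (M × M), (Set.univ : Set M).Definable₂ LSet F →
    ∀ a : M, (∀ x, Mem x a → ∃! y, (x, y) ∈ F) →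
      ∃ b, ∀ y, Mem y b ↔ ∃ x, Mem x a ∧ (x, y) ∈ F

section defs

variable {M : Type u} [LSet.Structure M]

/-- The subsets of `a` in the model. -/
def Sub (a : M) : Type u := {s : M // ∀ x, Mem x s → Mem x a}

/-- The group `El a` is in the model: the graph of its multiplication is an element of the
model. -/
def IsGroupIn (a : M) [Group (El a)] : Prop := ∃ g, IsOpGraph (fun x y : El a => x * y) g

/-- The inclusion. -/
def incl {b a : M} (h : ∀ x, Mem x b → Mem x a) (x : El b) : El a := ⟨x.1, h x.1 x.2⟩

/-- The group `El b` is a subgroup of the group `El a`: `b` is a subset of `a` and the inclusion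
is multiplicative. -/
def IsSubgroupIn (b a : M) [Group (El b)] [Group (El a)] : Prop :=
  ∃ h : ∀ x, Mem x b → Mem x a, ∀ x y : El b, incl h (x * y) = incl h x * incl h y

/-- `El r` is the field of real numbers of the model: an ordered field whose operations and
order are elements of the model, and in which every nonempty subset in the model that is bounded
above has a least upper bound. -/
structure IsReals (r : M) [Field (El r)] [LinearOrder (El r)] [IsStrictOrderedRing (El r)] :
    Prop where
  add : ∃ g, IsOpGraph (fun x y : El r => x + y) g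
  mul : ∃ g, IsOpGraph (fun x y : El r => x * y) g
  le : ∃ g, ∀ x y : El r, x ≤ y ↔ ∃ p, IsOrdPair p x.1 y.1 ∧ Mem p g
  complete : ∀ s : Sub r, (∃ x, Mem x s.1) → (∃ b : El r, ∀ x : El r, Mem x.1 s.1 → x ≤ b) →
    ∃ c : El r, IsLUB {x : El r | Mem x.1 s.1} c

/-- The function `μ` from the power set of `a` to `r` is an element of the model. -/
def IsFunIn {a r : M} (μ : Sub a → El r) : Prop :=
  ∃ g, ∀ (s : Sub a) (y : El r), μ s = y ↔ ∃ p, IsOrdPair p s.1 y.1 ∧ Mem p g

/-- `μ` is a finitely additive left invariant probability measure on all subsets of `a` (that are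
in the model). -/
structure IsMean (a r : M) [Group (El a)] [Field (El r)] [LinearOrder (El r)]
    (μ : Sub a → El r) : Prop where
  nonneg : ∀ s, 0 ≤ μ s
  le_one : ∀ s, μ s ≤ 1
  total : ∀ s : Sub a, (∀ x, Mem x a → Mem x s.1) → μ s = 1
  add : ∀ s t v : Sub a, (∀ x, ¬ (Mem x s.1 ∧ Mem x t.1)) →
    (∀ x, Mem x v.1 ↔ Mem x s.1 ∨ Mem x t.1) → μ v = μ s + μ t
  inv : ∀ (g : El a) (s t : Sub a), (∀ x : El a, Mem (g * x).1 t.1 ↔ Mem x.1 s.1) → μ t = μ s

/-- The group `a` is amenable in the model. -/
def Amenable (a : M) [Group (El a)] : Prop :=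
  ∃ (r : M) (_ : Field (El r)) (_ : LinearOrder (El r)) (_ : IsStrictOrderedRing (El r)),
    IsReals r ∧ ∃ μ : Sub a → El r, IsFunIn μ ∧ IsMean a r μ

end defs

/-- The statement (S) in the model `M`: every subgroup of an amenable group is amenable. -/
def SubgroupsAmenable (M : Type u) [LSet.Structure M] : Prop :=
  ∀ (a b : M) [Group (El a)] [Group (El b)], IsGroupIn a → IsGroupIn b → IsSubgroupIn b a →
    Amenable a → Amenable b

end Pool.Agent.H635Amen
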