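import Pool.Agent.H635R2.Ax
import Pool.Agent.H635R2.Statement

/-!
# Elementary substructures of models of ZF
-/

namespace Pool.Agent.Helper672.ZFA.H635

open FirstOrder FirstOrder.Language
open Pool.Agent.Helper672.Plain (LSet)
open Pool.Agent.H635Amen (ZF)

universe u

section DA

variable {M : Type u} [LSet.Structure M]

/-- Definability with parameters in `A`. -/
def DA (A : Set M) {ι : Type} (p : (ι → M) → Prop) : Prop := A.Definable LSet {v | p v}

/-- Terms: variables and parameters. -/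
def TA (A : Set M) {ι : Type} (t : (ι → M) → M) : Prop :=
  ∃ τ : LSet[[A]].Term ι, ∀ v, τ.realize v = t v

variable {A : Set M} {ι : Type}

theorem TA.var (i : ι) : TA A (fun v : ι → M => v i) := ⟨Term.var i, fun _ => rfl⟩

theorem TA.const {a : M} (ha : a ∈ A) : TA A (fun _ : ι → M => a) :=
  ⟨(LSet.con (⟨a, ha⟩ : A)).term, fun v => by
    simp [Term.realize_constants]⟩

theorem DA.not {p : (ι → M) → Prop} (hp : DA A p) : DA A (fun v => ¬ p v) := by
  have h := Set.Definable.compl hp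
  exact h

theorem DA.and {p q : (ι → M) → Prop} (hp : DA A p) (hq : DA A q) :
    DA A (fun v => p v ∧ q v) := by
  have h := Set.Definable.inter hp hq
  exact h

theorem DA.or {p q : (ι → M) → Prop} (hp : DA A p) (hq : DA A q) :
    DA A (fun v => p v ∨ q v) := by
  have h := Set.Definable.union hp hq
  exact h

theorem DA.imp {p q : (ι → M) → Prop} (hp : DA A p) (hq : DA A q) :
    DA A (fun v => p v → q v) := by
  have h := (hp.not).or hq
  refine Eq.mp (congrArg (DA A) ?_) h
  funext v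
  exact propext imp_iff_not_or.symm

theorem DA.iff {p q : (ι → M) → Prop} (hp : DA A p) (hq : DA A q) :
    DA A (fun v => (p v ↔ q v)) := by
  have h := (hp.imp hq).and (hq.imp hp)
  refine Eq.mp (congrArg (DA A) ?_) h
  funext v
  exact propext iff_iff_implies_and_implies.symm

theorem DA.ex {p : (ι → M) → M → Prop}
    (h : DA A (fun w : ι ⊕ Unit → M => p (fun i => w (Sum.inl i)) (w (Sum.inr ())))) :
    DA A (fun v => ∃ x, p v x) := by
  have h1 := Set.Definable.exists_of_finite (β := Unit) h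
  refine Eq.mp (congrArg (DA A) ?_) h1
  funext v
  refine propext ⟨fun ⟨a, ha⟩ => ⟨a (), ha⟩, fun ⟨x, hx⟩ => ⟨fun _ => x, hx⟩⟩

theorem DA.all {p : (ι → M) → M → Prop}
    (h : DA A (fun w : ι ⊕ Unit → M => p (fun i => w (Sum.inl i)) (w (Sum.inr ())))) :
    DA A (fun v => ∀ x, p v x) := by
  have h1 := Set.Definable.forall_of_finite (β := Unit) h
  refine Eq.mp (congrArg (DA A) ?_) h1
  funext v
  refine propext ⟨fun h2 x => h2 fun _ => x, fun h2 a => h2 (a ())⟩

theorem DA.mem {s t : (ι → M) → M} (hs : TA A s) (ht : TA A t) :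
    DA A (fun v => Plain.Mem (s v) (t v)) := by
  obtain ⟨σ, hσ⟩ := hs
  obtain ⟨τ, hτ⟩ := ht
  refine ⟨Relations.formula₂ (((LSet.lhomWithConstants A).onRelation
    (Plain.Sym.mem : LSet.Relations 2))) σ τ, ?_⟩
  ext v
  simp only [Set.mem_ofPred_eq, Formula.realize_rel₂, hσ, hτ]
  rfl

theorem DA.eq {s t : (ι → M) → M} (hs : TA A s) (ht : TA A t) : DA A (fun v => s v = t v) := by
  obtain ⟨σ, hσ⟩ := hs
  obtain ⟨τ, hτ⟩ := ht
  refine ⟨σ.equal τ, ?_⟩
  ext v
  simp only [Set.mem_ofPred_eq, Formula.realize_equal, hσ, hτ]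

theorem DA.reindex {κ : Type} {p : (ι → M) → Prop} (hp : DA A p) (e : ι → κ) :
    DA A (fun w : κ → M => p (fun i => w (e i))) := Set.Definable.preimage_comp e hp

end DA

section

variable {M : Type u} [LSet.Structure M] (S : LSet.ElementarySubstructure M)

theorem mem_coe {x y : S} : Plain.Mem x y ↔ Plain.Mem (x : M) (y : M) := by
  have h : ((fun i => ((![x, y] : Fin 2 → S) i : M)) : Fin 2 → M) = ![(x : M), (y : M)] := by
    funext i
    fin_cases i <;> rfl
  change Structure.RelMap (L := LSet) (Plain.Sym.mem : LSet.Relations 2)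
    (fun i => ((![x, y] : Fin 2 → S) i : M)) ↔ _
  rw [h]
  exact Iff.rfl

/-- Definable nonempty sets meet the substructure. -/
theorem meets {p : M → Prop} (h : DA (S : Set M) (fun v : Fin 1 → M => p (v 0)))
    (hex : ∃ x, p x) : ∃ x : S, p x := by
  obtain ⟨x, hx, hx'⟩ := S.meetsDefinable {x | p x} hex h
  exact ⟨⟨x, hx'⟩, hx⟩

/-- Definable sets of the substructure extend. -/
theorem lift_def {n : ℕ} {s : Set (Fin n → S)} (h : (Set.univ : Set S).Definable LSet s) :
    ∃ p : (Fin n → M) → Prop, DA (S : Set M) p ∧ ∀ v : Fin n → S, p (fun i => v i) ↔ v ∈ s := by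
  obtain ⟨k, φ, a, h1⟩ := exists_formula h
  refine ⟨fun v => φ.Realize (Sum.elim (fun i => (a i : M)) v), ?_, fun v => ?_⟩
  · refine Set.definable_iff_exists_formula_sum.2 ⟨φ.relabel (Sum.map (fun i => (⟨a i, (a i).2⟩ :
      (S : Set M))) id), ?_⟩
    ext v
    simp only [Set.mem_ofPred_eq]
    rw [Formula.realize_relabel]
    refine iff_of_eq (congrArg φ.Realize ?_)
    funext i
    rcases i with i | i <;> rfl
  · rw [h1, ← S.subtype.map_formula]
    refine iff_of_eq (congrArg φ.Realize ?_)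
    funext i
    rcases i with i | i <;> rfl

theorem zf_substructure [hM : ZF M] : ZF S where
  ext x y h := by
    refine Subtype.ext (hM.ext x y fun z => ?_)
    by_contra hz
    obtain ⟨z, hz⟩ := meets S (p := fun z => ¬ (Plain.Mem z (x : M) ↔ Plain.Mem z (y : M)))
      (DA.not (DA.iff (DA.mem (TA.var _) (TA.const x.2)) (DA.mem (TA.var _) (TA.const y.2))))
      ⟨z, hz⟩
    rw [← mem_coe, ← mem_coe] at hz
    exact hz (h z)
  pairing x y := by
    obtain ⟨p, hp⟩ := meets S (p := fun p => ∀ z, Plain.Mem z p ↔ z = (x : M) ∨ z = (y : M))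
      (DA.all (DA.iff (DA.mem (TA.var _) (TA.var _)) (DA.or
        (DA.eq (TA.var _) (TA.const x.2)) (DA.eq (TA.var _) (TA.const y.2)))))
      (hM.pairing x y)
    refine ⟨p, fun z => ?_⟩
    rw [mem_coe, hp, Subtype.ext_iff, Subtype.ext_iff]
  union x := by
    obtain ⟨p, hp⟩ := meets S (p := fun p => ∀ z, Plain.Mem z p ↔ ∃ y, Plain.Mem y (x : M) ∧
      Plain.Mem z y)
      (DA.all (DA.iff (DA.mem (TA.var _) (TA.var _)) (DA.ex (DA.and
        (DA.mem (TA.var _) (TA.const x.2)) (DA.mem (TA.var _) (TA.var _))))))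
      (hM.union x)
    refine ⟨p, fun z => ?_⟩
    rw [mem_coe, hp]
    constructor
    · intro h
      obtain ⟨y, h1, h2⟩ := meets S (DA.and (DA.mem (TA.var _) (TA.const x.2))
        (DA.mem (TA.const z.2) (TA.var _))) h
      exact ⟨y, (mem_coe S).2 h1, (mem_coe S).2 h2⟩
    · rintro ⟨y, h1, h2⟩
      exact ⟨y, (mem_coe S).1 h1, (mem_coe S).1 h2⟩
  power x := by
    obtain ⟨p, hp⟩ := meets S (p := fun p => ∀ z, Plain.Mem z p ↔ ∀ w, Plain.Mem w z →
      Plain.Mem w (x : M))
      (DA.all (DA.iff (DA.mem (TA.var _) (TA.var _)) (DA.all (DA.imp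
        (DA.mem (TA.var _) (TA.var _)) (DA.mem (TA.var _) (TA.const x.2))))))
      (hM.power x)
    refine ⟨p, fun z => ?_⟩
    rw [mem_coe, hp]
    constructor
    · intro h w hw
      exact (mem_coe S).2 (h _ ((mem_coe S).1 hw))
    · intro h w hw
      by_contra hwx
      obtain ⟨w, h1, h2⟩ := meets S (p := fun w => Plain.Mem w (z : M) ∧ ¬ Plain.Mem w (x : M))
        (DA.and (DA.mem (TA.var _) (TA.const z.2)) (DA.not (DA.mem (TA.var _) (TA.const x.2))))
        ⟨w, hw, hwx⟩
      exact h2 ((mem_coe S).1 (h w ((mem_coe S).2 h1)))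
  infinity := by
    obtain ⟨i, ⟨e, h1, h2⟩, h3⟩ := meets S (p := fun i : M => (∃ e, Plain.Mem e i ∧
      ∀ z, ¬ Plain.Mem z e) ∧ ∀ n, Plain.Mem n i → ∃ s, Plain.Mem s i ∧
        ∀ z, Plain.Mem z s ↔ Plain.Mem z n ∨ z = n)
      (DA.and (DA.ex (DA.and (DA.mem (TA.var _) (TA.var _)) (DA.all (DA.not
        (DA.mem (TA.var _) (TA.var _)))))) (DA.all (DA.imp (DA.mem (TA.var _) (TA.var _))
        (DA.ex (DA.and (DA.mem (TA.var _) (TA.var _)) (DA.all (DA.iff
        (DA.mem (TA.var _) (TA.var _)) (DA.or (DA.mem (TA.var _) (TA.var _))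
        (DA.eq (TA.var _) (TA.var _))))))))))
      hM.infinity
    refine ⟨i, ?_, fun n hn => ?_⟩
    · obtain ⟨e, h4, h5⟩ := meets S (p := fun e => Plain.Mem e (i : M) ∧ ∀ z, ¬ Plain.Mem z e)
        (DA.and (DA.mem (TA.var _) (TA.const i.2))
        (DA.all (DA.not (DA.mem (TA.var _) (TA.var _))))) ⟨e, h1, h2⟩
      exact ⟨e, (mem_coe S).2 h4, fun z hz => h5 z ((mem_coe S).1 hz)⟩
    · obtain ⟨s, h4, h5⟩ := meets S (DA.and (DA.mem (TA.var _) (TA.const i.2))
        (DA.all (DA.iff (DA.mem (TA.var _) (TA.var _)) (DA.or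
          (DA.mem (TA.var _) (TA.const n.2)) (DA.eq (TA.var _) (TA.const n.2))))))
        (h3 n ((mem_coe S).1 hn))
      refine ⟨s, (mem_coe S).2 h4, fun z => ?_⟩
      rw [mem_coe, h5, mem_coe, Subtype.ext_iff]
  separation T hT x := by
    obtain ⟨p, hp, h1⟩ := lift_def S hT
    have hp' : DA (S : Set M) (fun v : Fin 1 ⊕ Unit → M => p (fun _ => v (Sum.inr ()))) :=
      hp.reindex fun _ => Sum.inr ()
    have hT' : (Set.univ : Set M).Definable₁ LSet {z | p fun _ => z} := by
      refine Eq.mp (congrArg ((Set.univ : Set M).Definable LSet) ?_)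
        (Set.Definable.mono hp (Set.subset_univ _))
      ext v
      simp only [Set.mem_ofPred_eq]
      refine iff_of_eq (congrArg p ?_)
      funext i
      rw [Subsingleton.elim i 0]
    obtain ⟨y, hy⟩ := meets S (p := fun y => ∀ z, Plain.Mem z y ↔ Plain.Mem z (x : M) ∧
      p fun _ => z) (DA.all (DA.iff (DA.mem (TA.var _) (TA.var _)) (DA.and
        (DA.mem (TA.var _) (TA.const x.2)) hp'))) (hM.separation _ hT' x)
    refine ⟨y, fun z => ?_⟩
    rw [mem_coe, hy, mem_coe]
    exact and_congr_right fun _ => h1 fun _ => z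
  foundation x hx := by
    obtain ⟨y, hy⟩ := hx
    obtain ⟨y, h1, h2⟩ := meets S (DA.and (DA.mem (TA.var _) (TA.const x.2)) (DA.all (DA.imp
      (DA.mem (TA.var _) (TA.const x.2)) (DA.not (DA.mem (TA.var _) (TA.var _))))))
      (hM.foundation x ⟨y, (mem_coe S).1 hy⟩)
    exact ⟨y, (mem_coe S).2 h1, fun z hz hzy => h2 z ((mem_coe S).1 hz) ((mem_coe S).1 hzy)⟩
  replacement F hF a h := by
    obtain ⟨p, hp, h1⟩ := lift_def S hF
    have h1' : ∀ x y : S, p ![(x : M), (y : M)] ↔ (x, y) ∈ F := by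
      intro x y
      have h2 := h1 ![x, y]
      have h3 : (fun i => ((![x, y] : Fin 2 → S) i : M)) = ![(x : M), (y : M)] := by
        funext i
        fin_cases i <;> rfl
      rw [h3] at h2
      exact h2
    have hp2 : ∀ {ι : Type} (i j : ι), DA (S : Set M) (fun v : ι → M => p ![v i, v j]) := by
      intro ι i j
      have h2 := hp.reindex ![i, j]
      refine Eq.mp (congrArg (DA (S : Set M)) ?_) h2
      funext v
      refine congrArg p ?_
      funext i
      fin_cases i <;> rfl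
    have hp1 : ∀ (x : S) {ι : Type} (j : ι), DA (S : Set M) (fun v : ι → M => p ![(x : M), v j]) := by
      intro x ι j
      have h2 : DA (S : Set M) (fun v : ι → M => ∃ z, z = (x : M) ∧ p ![z, v j]) :=
        DA.ex (DA.and (DA.eq (TA.var _) (TA.const x.2)) (hp2 _ _))
      refine Eq.mp (congrArg (DA (S : Set M)) ?_) h2
      funext v
      exact propext ⟨fun ⟨z, h3, h4⟩ => h3 ▸ h4, fun h3 => ⟨_, rfl, h3⟩⟩
    have hF' : (Set.univ : Set M).Definable₂ LSet {q | p ![q.1, q.2]} := by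
      refine Eq.mp (congrArg ((Set.univ : Set M).Definable LSet) ?_)
        (Set.Definable.mono hp (Set.subset_univ _))
      ext v
      simp only [Set.mem_ofPred_eq]
      refine iff_of_eq (congrArg p ?_)
      funext i
      fin_cases i <;> rfl
    have hu : ∀ x, Plain.Mem x (a : M) → ∃! y, (x, y) ∈ {q : M × M | p ![q.1, q.2]} := by
      by_contra hc
      push Not at hc
      obtain ⟨x, hx⟩ := hc
      have hx' : ∃ x, Plain.Mem x (a : M) ∧ ¬ ∃ y, p ![x, y] ∧ ∀ z, p ![x, z] → z = y := ⟨x, hx⟩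
      obtain ⟨x, h2, h3⟩ := meets S (p := fun x => Plain.Mem x (a : M) ∧
        ¬ ∃ y, p ![x, y] ∧ ∀ z, p ![x, z] → z = y) (DA.and (DA.mem (TA.var _) (TA.const a.2))
        (DA.not (DA.ex (DA.and (hp2 _ _) (DA.all (DA.imp (hp2 _ _)
          (DA.eq (TA.var _) (TA.var _)))))))) hx'
      obtain ⟨y, h4, h5⟩ := h x ((mem_coe S).2 h2)
      refine h3 ⟨y, (h1' x y).2 h4, fun z hz => ?_⟩
      by_contra hzy
      obtain ⟨z, h6, h7⟩ := meets S (p := fun z => p ![(x : M), z] ∧ ¬ z = (y : M))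
        (DA.and (hp1 x _) (DA.not (DA.eq (TA.var _) (TA.const y.2)))) ⟨z, hz, hzy⟩
      exact h7 (congrArg Subtype.val (h5 z ((h1' x z).1 h6)))
    obtain ⟨b, hb⟩ := meets S (p := fun b => ∀ y, Plain.Mem y b ↔ ∃ x, Plain.Mem x (a : M) ∧
      p ![x, y]) (DA.all (DA.iff (DA.mem (TA.var _) (TA.var _)) (DA.ex (DA.and
        (DA.mem (TA.var _) (TA.const a.2)) (hp2 _ _))))) (hM.replacement _ hF' a hu)
    refine ⟨b, fun y => ?_⟩
    rw [mem_coe, hb]
    constructor
    · rintro ⟨x, h2, h3⟩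
      obtain ⟨x, h4, h5⟩ := meets S (p := fun x => Plain.Mem x (a : M) ∧ p ![x, (y : M)])
        (DA.and (DA.mem (TA.var _) (TA.const a.2)) (by
          have h6 : DA (S : Set M) (fun v : Fin 1 → M => ∃ z, z = (y : M) ∧ p ![v 0, z]) :=
            DA.ex (DA.and (DA.eq (TA.var _) (TA.const y.2)) (hp2 _ _))
          refine Eq.mp (congrArg (DA (S : Set M)) ?_) h6
          funext v
          exact propext ⟨fun ⟨z, h3, h4⟩ => h3 ▸ h4, fun h3 => ⟨_, rfl, h3⟩⟩)) ⟨x, h2, h3⟩
      exact ⟨x, (mem_coe S).2 h4, (h1' x y).1 h5⟩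
    · rintro ⟨x, h2, h3⟩
      exact ⟨x, (mem_coe S).1 h2, (h1' x y).2 h3⟩

/-- A countable model. -/
theorem exists_countable (M : Type u) [LSet.Structure M] (hM : ZF M) :
    ∃ (M₀ : Type u) (_ : LSet.Structure M₀), Countable M₀ ∧ ZF M₀ := by
  by_cases h : Countable M
  · exact ⟨M, _, h, hM⟩
  · rw [not_countable_iff] at h
    have h0 : Nonempty M := by
      obtain ⟨i, -⟩ := hM.infinity
      exact ⟨i⟩
    have hc : Countable (Σ l, LSet.Functions l) :=
      ⟨⟨fun x => Empty.elim x.2, fun x => Empty.elim x.2⟩⟩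
    have hc' : Countable (Σ l, LSet.Relations l) := ⟨⟨fun x => x.1, by
      rintro ⟨l, r⟩ ⟨l', r'⟩ h
      obtain rfl : l = l' := h
      cases r
      cases r'
      rfl⟩⟩
    have hcard : LSet.card ≤ Cardinal.aleph0 := by
      have : Countable LSet.Symbols := inferInstanceAs (Countable
        ((Σ l, LSet.Functions l) ⊕ (Σ l, LSet.Relations l)))
      exact Cardinal.mk_le_aleph0
    obtain ⟨S, -, hS⟩ := exists_elementarySubstructure_card_eq LSet (∅ : Set M)
      (Cardinal.aleph0.{u}) le_rfl (by simp) (by simpa using hcard) (by simp)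
    refine ⟨S, _, ?_, zf_substructure S⟩
    rw [← Cardinal.mk_le_aleph0_iff]
    simpa using hS.le

end

end Pool.Agent.Helper672.ZFA.H635
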