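import Pool.Agent.H635R2.NCol
import Pool.Agent.H635R2.Statement

/-!
# The extension is a model of ZF
-/

namespace Pool.Agent.Helper672.ZFA.H635

open FirstOrder FirstOrder.Language
open Pool.Agent.Helper672.Plain (LSet)
open Pool.Agent.H635Amen (ZF)

universe u

section toL

variable {M : Type u} [LSet.Structure M]

variable (M) in
/-- The structure for set theory with atoms in which everything is a set. -/
@[reducible] def toL : L.Structure M where
  funMap := fun f => Empty.elim f
  RelMap := fun {_} r v => match r, v with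
    | Sym.isSet, _ => True
    | Sym.mem, v => Structure.RelMap (L := LSet) (Plain.Sym.mem : LSet.Relations 2) v

section

attribute [local instance] toL

theorem isSet_toL (x : M) : IsSet x := trivial

theorem mem_toL {x y : M} : Mem x y ↔ Plain.Mem x y := Iff.rfl

theorem toL_exists_term {ι : Type} {n : ℕ}
    (t : L[[(Set.univ : Set M)]].Term (ι ⊕ Fin n)) :
    ∃ t' : LSet[[(Set.univ : Set M)]].Term (ι ⊕ Fin n), ∀ v : (ι ⊕ Fin n) → M,
      t'.realize v = t.realize v := by
  induction t with
  | var i => exact ⟨Term.var i, fun _ => rfl⟩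
  | @func k f ts ih =>
    rcases f with f | f
    · exact Empty.elim f
    · rcases k with _ | k
      · obtain rfl : ts = default := Subsingleton.elim _ _
        let a : (Set.univ : Set M) := f
        refine ⟨(LSet.con a).term, fun v => ?_⟩
        change Term.realize v (LSet.con a).term = Term.realize v (L.con a).term
        rw [Term.realize_constants, Term.realize_constants]
        simp
      · exact PEmpty.elim f

theorem toL_exists_formula {ι : Type} {n : ℕ}
    (φ : L[[(Set.univ : Set M)]].BoundedFormula ι n) :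
    ∃ ψ : LSet[[(Set.univ : Set M)]].BoundedFormula ι n, ∀ (v : ι → M) (xs : Fin n → M),
      ψ.Realize v xs ↔ φ.Realize v xs := by
  induction φ with
  | falsum => exact ⟨BoundedFormula.falsum, fun _ _ => Iff.rfl⟩
  | equal t₁ t₂ =>
    obtain ⟨s₁, h₁⟩ := toL_exists_term t₁
    obtain ⟨s₂, h₂⟩ := toL_exists_term t₂
    refine ⟨BoundedFormula.equal s₁ s₂, fun v xs => ?_⟩
    simp only [BoundedFormula.Realize, h₁, h₂]
  | @rel k l R ts =>
    rcases R with R | R
    · cases R with
      | isSet =>
        refine ⟨⊤, fun v xs => ?_⟩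
        simp only [BoundedFormula.realize_top, true_iff]
        trivial
      | mem =>
        choose s hs using fun i => toL_exists_term (ts i)
        refine ⟨BoundedFormula.rel (L := LSet[[(Set.univ : Set M)]]) (Sum.inl Plain.Sym.mem) s,
          fun v xs => ?_⟩
        simp only [BoundedFormula.Realize, hs]
        rfl
    · exact Empty.elim R
  | imp φ₁ φ₂ ih₁ ih₂ =>
    obtain ⟨ψ₁, h₁⟩ := ih₁
    obtain ⟨ψ₂, h₂⟩ := ih₂
    exact ⟨ψ₁.imp ψ₂, fun v xs => by simp only [BoundedFormula.realize_imp, h₁, h₂]⟩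
  | all φ ih =>
    obtain ⟨ψ, h⟩ := ih
    exact ⟨ψ.all, fun v xs => by simp only [BoundedFormula.realize_all, h]⟩

theorem definable_of_toL {ι : Type} {s : Set (ι → M)} (h : (Set.univ : Set M).Definable L s) :
    (Set.univ : Set M).Definable LSet s := by
  obtain ⟨φ, hφ⟩ := h
  obtain ⟨ψ, hψ⟩ := toL_exists_formula φ
  refine ⟨ψ, ?_⟩
  rw [hφ]
  ext v
  exact (hψ v _).symm

/-- The translation of the language. -/
def homL : LSet →ᴸ L where
  onFunction := fun _ f => Empty.elim f
  onRelation := fun _ r => match r with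
    | Plain.Sym.mem => Sym.mem

instance : (homL).IsExpansionOn M where
  map_onFunction := fun {_} f => Empty.elim f
  map_onRelation := fun {n} r x => by
    cases r
    rfl

theorem definable_toL {ι : Type} {s : Set (ι → M)} (h : (Set.univ : Set M).Definable LSet s) :
    (Set.univ : Set M).Definable L s := h.map_expansion homL

theorem isModel_of_zermelo (h : Plain.Zermelo M) : IsModel M where
  atoms _ _ _ := trivial
  ext x y _ _ h1 := h.ext x y h1
  pairing x y := by
    obtain ⟨p, hp⟩ := h.pairing x y
    exact ⟨p, trivial, hp⟩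
  union x := by
    obtain ⟨a, ha⟩ := h.union x
    exact ⟨a, trivial, ha⟩
  power x := by
    obtain ⟨p, hp⟩ := h.power x
    exact ⟨p, trivial, fun z => (hp z).trans ⟨fun h1 => ⟨trivial, h1⟩, fun h1 => h1.2⟩⟩
  infinity := by
    obtain ⟨i, ⟨e, h1, h2⟩, h3⟩ := h.infinity
    refine ⟨i, ⟨e, h1, trivial, h2⟩, fun n hn => ?_⟩
    obtain ⟨s, hs, h4⟩ := h3 n hn
    exact ⟨s, hs, trivial, h4⟩
  separation S hS x := by
    obtain ⟨y, hy⟩ := h.separation S (definable_of_toL hS) x
    exact ⟨y, trivial, hy⟩

end

end toL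

section

variable {M : Type u} [L.Structure M] [hM : IsModel M]
variable {P Γ : Type u} [ITy M P] [Preorder P] [ILE M P] [ITy M Γ] [Group Γ] [IMul M Γ]
  [IInv M Γ] [MulAction Γ P] [ISMul M Γ P]
variable {Λ : Type u} [ITy M Λ] {S : SymSys M P Γ Λ}
variable {G : Set P} (hG : IsGen M G)

theorem nn_zermelo : Plain.Zermelo (NN S hG) where
  ext x y h := nn_ext hG h
  pairing x y := nn_pairing hG x y
  union x := nn_union hG x
  power x := nn_power hG x
  infinity := nn_infinity hG
  separation T hT x := nn_separation hG T hT x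

theorem nn_zf (hC : CollL M) : ZF (NN S hG) where
  toZermelo := nn_zermelo hG
  foundation x := nn_foundation hG x
  replacement F hF a h := by
    obtain ⟨b₀, hb₀⟩ := nn_collection hG hC (fun x y => (x, y) ∈ F) hF a
    have h1 : (Set.univ : Set (NN S hG)).Definable₁ LSet
        {y | ∃ x, Plain.Mem x a ∧ (x, y) ∈ F} := by
      let _ := toL (NN S hG)
      have h2 : D (fun v : Fin 2 → NN S hG => (v 0, v 1) ∈ F) := definable_toL hF
      have h3 : D (fun v : Fin 1 → NN S hG => ∃ x, Mem x a ∧ (x, v 0) ∈ F) := by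
        refine D.ex (D.and (D.memf (DF.var _) (DF.const _)) ?_)
        have h4 := h2.reindex (κ := Fin 1 ⊕ Unit) ![Sum.inr (), Sum.inl 0]
        exact h4
      exact definable_of_toL h3
    obtain ⟨b, hb⟩ := nn_separation hG _ h1 b₀
    refine ⟨b, fun y => (hb y).trans ⟨fun h => h.2, fun hy => ⟨?_, hy⟩⟩⟩
    obtain ⟨x, hx, hxy⟩ := hy
    obtain ⟨y', h2, h3⟩ := hb₀ x hx ⟨y, hxy⟩
    rwa [(h x hx).unique hxy h3]

end

end Pool.Agent.Helper672.ZFA.H635
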