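import Pool.Agent.H635R2.RealM
import Pool.Agent.H635R2.Zf

/-!
# Every model of Zermelo set theory has real numbers
-/

namespace Pool.Agent.Helper672.ZFA.H635

open FirstOrder FirstOrder.Language
open Pool.Agent.Helper672.Plain (LSet)
open Pool.Agent.H635Amen

universe u

section transfer

variable {A B : Type u} [Field B] [LinearOrder B] [IsStrictOrderedRing B] (e : A ≃ B)

theorem exists_transfer : ∃ (_ : Field A) (_ : LinearOrder A) (_ : IsStrictOrderedRing A),
    (∀ x y : A, e (x + y) = e x + e y) ∧ (∀ x y : A, e (x * y) = e x * e y) ∧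
    ∀ x y : A, x ≤ y ↔ e x ≤ e y := by
  let _ : Field A := e.field
  let _ : LinearOrder A := LinearOrder.lift' e e.injective
  have hadd : ∀ x y : A, e (x + y) = e x + e y := fun x y => e.apply_symm_apply _
  have hmul : ∀ x y : A, e (x * y) = e x * e y := fun x y => e.apply_symm_apply _
  have hzero : e (0 : A) = 0 := e.apply_symm_apply _
  have hone : e (1 : A) = 1 := e.apply_symm_apply _
  have hle : ∀ x y : A, x ≤ y ↔ e x ≤ e y := fun x y => Iff.rfl
  have hlt : ∀ x y : A, x < y ↔ e x < e y := fun x y => Iff.rfl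
  have h1 : IsOrderedAddMonoid A := ⟨fun a b h c => by
    rw [hle] at h ⊢
    rw [hadd, hadd]
    exact add_le_add h le_rfl, fun a b h c => by
    rw [hle] at h ⊢
    rw [hadd, hadd]
    exact add_le_add le_rfl h⟩
  have h2 : ZeroLEOneClass A := ⟨by
    rw [hle, hzero, hone]
    exact zero_le_one⟩
  refine ⟨inferInstance, inferInstance, IsStrictOrderedRing.of_mul_pos fun a b ha hb => ?_, hadd,
    hmul, hle⟩
  rw [hlt] at ha hb ⊢
  rw [hzero] at ha hb ⊢
  rw [hmul]
  exact mul_pos ha hb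

end transfer

section

variable {N : Type u} [LSet.Structure N]

attribute [local instance] toL

theorem plainN_pair [IsModel N] {p x y : N} : Plain.IsPair p x y ↔ p = up x y :=
  ⟨fun h => eq_up.2 ⟨trivial, h⟩, fun h => (eq_up.1 h).2⟩

theorem plainN_ordPair [IsModel N] {p x y : N} : Plain.IsOrdPair p x y ↔ p = op x y := by
  unfold Plain.IsOrdPair
  simp only [plainN_pair]
  constructor
  · rintro ⟨s, d, rfl, rfl, rfl⟩
    rfl
  · rintro rfl
    exact ⟨_, _, rfl, rfl, rfl⟩

theorem plainN_graph [IsModel N] {g x y : N} :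
    (∃ p, Plain.IsOrdPair p x y ∧ Plain.Mem p g) ↔ Mem (op x y) g := by
  simp only [plainN_ordPair]
  exact ⟨fun ⟨p, h1, h2⟩ => h1 ▸ h2, fun h => ⟨_, rfl, h⟩⟩

theorem plainN_opGraph [IsModel N] {g x y z : N} : (∃ p q, Plain.IsOrdPair p x y ∧
    Plain.IsOrdPair q p z ∧ Plain.Mem q g) ↔ Mem (op (op x y) z) g := by
  simp only [plainN_ordPair]
  exact ⟨fun ⟨p, q, h1, h2, h3⟩ => h1 ▸ h2 ▸ h3, fun h => ⟨_, _, rfl, rfl, h⟩⟩

theorem exists_reals (hN : Plain.Zermelo N) :
    ∃ (r : N) (_ : Field (Plain.El r)) (_ : LinearOrder (Plain.El r))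
      (_ : IsStrictOrderedRing (Plain.El r)), IsReals r := by
  have hM : IsModel N := isModel_of_zermelo hN
  let r : N := dom N (IR N)
  have hcm : ∀ c : IR N, Plain.Mem (code (M := N) c) r := fun c =>
    (show Mem (code c) (dom N (IR N)) from code_mem_dom c)
  have hdom : ∀ x : N, Plain.Mem x r → ∃ c : IR N, code c = x := fun x hx =>
    mem_dom.1 (show Mem x (dom N (IR N)) from hx)
  let e : Plain.El r ≃ IR N := (Equiv.ofBijective (fun c : IR N => (⟨code c, hcm c⟩ :
    Plain.El r)) ⟨fun c d h => ITy.inj (congrArg Subtype.val h), fun x => by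
      obtain ⟨c, hc⟩ := hdom x.1 x.2
      exact ⟨c, Subtype.ext hc⟩⟩).symm
  have he : ∀ x : Plain.El r, code (M := N) (e x) = x.1 := fun x =>
    congrArg Subtype.val (e.symm_apply_apply x)
  obtain ⟨i1, i2, i3, hadd, hmul, hle⟩ := exists_transfer e
  refine ⟨r, i1, i2, i3, ?_, ?_, ?_, ?_⟩
  · obtain ⟨g, hg⟩ := (IAdd.out : IntF N (fun q : IR N × IR N => q.1 + q.2))
    refine ⟨g, fun x y z => ?_⟩
    rw [plainN_opGraph, ← he x, ← he y, ← he z]
    refine Iff.trans ?_ (hg ((e x, e y), e z)).symm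
    change x + y = z ↔ e x + e y = e z
    rw [← hadd]
    exact e.injective.eq_iff.symm
  · obtain ⟨g, hg⟩ := (IMul.out : IntF N (fun q : IR N × IR N => q.1 * q.2))
    refine ⟨g, fun x y z => ?_⟩
    rw [plainN_opGraph, ← he x, ← he y, ← he z]
    refine Iff.trans ?_ (hg ((e x, e y), e z)).symm
    change x * y = z ↔ e x * e y = e z
    rw [← hmul]
    exact e.injective.eq_iff.symm
  · obtain ⟨g, hg⟩ := (ILE.out : Int N (fun q : IR N × IR N => q.1 ≤ q.2))
    refine ⟨g, fun x y => ?_⟩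
    rw [plainN_graph, ← he x, ← he y, hle]
    exact (hg (e x, e y)).symm
  · intro s h1 h2
    have hs : Int N (fun c : IR N => Mem (code c) s.1) := ⟨s.1, fun _ => Iff.rfl⟩
    obtain ⟨c, h3, h4⟩ := IR.complete (⟨_, hs⟩ : IPow N (IR N)) (by
      obtain ⟨x, hx⟩ := h1
      obtain ⟨c, rfl⟩ := hdom x (s.2 x hx)
      exact ⟨c, hx⟩) (by
      obtain ⟨b, hb⟩ := h2
      refine ⟨e b, fun c hc => ?_⟩
      have h5 := hb (e.symm c) hc
      rwa [hle, e.apply_symm_apply] at h5)
    refine ⟨e.symm c, fun x hx => ?_, fun b hb => ?_⟩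
    · rw [hle, e.apply_symm_apply]
      refine h3 (e x) ?_
      change Mem (code (e x)) s.1
      rw [he]
      exact hx
    · rw [hle, e.apply_symm_apply]
      refine h4 (e b) fun d hd => ?_
      have h5 := hb (a := e.symm d) hd
      rwa [hle, e.apply_symm_apply] at h5

end

end Pool.Agent.Helper672.ZFA.H635
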