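import Pool.Agent.H635R2.Final
import Pool.Agent.H635R2.LS
import Pool.Agent.H635R2.Coll
import Pool.Agent.H635R2.RealN

/-!
# The ground model is a transitive part of the extension
-/

namespace Pool.Agent.Helper672.ZFA.H635

open FirstOrder FirstOrder.Language
open Pool.Agent.Helper672.Plain (LSet)
open Pool.Agent.H635Amen (ZF SubgroupsAmenable IsReals)

universe u

set_option synthInstance.maxSize 2000
set_option linter.unusedSectionVars false

section

variable {M : Type u} [L.Structure M] [hM : IsModel M]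
variable {P Γ : Type u} [ITy M P] [Preorder P] [ILE M P] [ITy M Γ] [Group Γ] [IMul M Γ]
  [IInv M Γ] [MulAction Γ P] [ISMul M Γ P]
variable {Λ : Type u} [ITy M Λ] {S : SymSys M P Γ Λ}

variable (P) in
/-- The graph of the membership relation of the model on the elements of `t`. -/
def chE (t : M) : El t → P → El t → Prop := fun a _ b => Mem a.1 b.1

theorem int_val {t : M} : Int M (fun q : El t × El t => Mem q.1.1 q.2.1) := by
  refine Int.of_D₂ (S := fun v => Mem (v 0) (v 1)) (D.memf (DF.var _) (DF.var _)) fun _ _ => Iff.rfl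

theorem int_veq {t t' : M} : Int M (fun q : El t × El t' => q.1.1 = q.2.1) := by
  refine Int.of_D₂ (S := fun v => v 0 = v 1) (D.eqf (DF.var _) (DF.var _)) fun _ _ => Iff.rfl

theorem ig_chE (t : M) : IG M (chE P t) := by
  have h := int_val (M := M) (t := t)
  unfold IG chE
  exact Int.comp₂ (p := fun a b : El t => Mem a.1 b.1) h (IntF.fst IntF.fst') IntF.snd'

theorem wfi_chE (hF : FoundL M) (t : M) : WFI M (chE P t) := by
  intro s ⟨a, ha⟩
  obtain ⟨y, h1, h2⟩ := hF (code s) ⟨_, mem_code_iff.2 ha⟩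
  obtain ⟨b, h3, rfl⟩ := mem_code_pow.1 h1
  exact ⟨b, h3, fun a' _ h4 h5 => h2 (code a') (mem_code_iff.2 h4) h5⟩

theorem good_chE (hF : FoundL M) (t : M) : Good S (chE P t) := by
  refine ⟨ig_chE t, wfi_chE hF t, fun a => ?_⟩
  obtain ⟨l⟩ := S.nonempty
  exact ⟨l, fun π _ p => FEq.refl p a⟩

/-- An element as a node. -/
def toEl {x t : M} (h : Mem x t) : El t := ⟨x, h⟩

/-- A set is transitive. -/
def Trans (t : M) : Prop := ∀ z w, Mem z t → Mem w z → Mem w t

/-- Nodes that are the same element are forced to be equal. -/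
theorem feq_chE {t t' : M} (ht : Trans t) (ht' : Trans t') (p : P) {a : El t} {b : El t'}
    (h : a.1 = b.1) : FEq M (chE P t) (chE P t') p a b := by
  refine FEq.of_rel (r := fun _ x y => x.1 = y.1) ?_ ?_ h
  · exact Int.comp₂ (p := fun (a : El t) (b : El t') => a.1 = b.1) int_veq
      (IntF.snd IntF.fst') IntF.snd'
  · intro q x y hxy
    refine ⟨fun _ _ => hxy, ?_, ?_⟩
    · intro a' s h1 q' _ h3
      have h4 : Mem a'.1 y.1 := hxy ▸ (h1 : Mem a'.1 x.1)
      exact ⟨q', le_rfl, toEl (ht' _ _ y.2 h4), s, h4, h3, rfl⟩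
    · intro b' s h1 q' _ h3
      have h4 : Mem b'.1 x.1 := hxy ▸ (h1 : Mem b'.1 y.1)
      exact ⟨q', le_rfl, toEl (ht _ _ x.2 h4), s, h4, h3, rfl⟩

/-- Nodes that are forced to be equal are the same element. -/
theorem eq_of_feq (hS : ∀ x : M, IsSet x) (hF : FoundL M) {t t' : M} (ht : Trans t)
    (ht' : Trans t') {p : P} {a : El t} {b : El t'} (h : FEq M (chE P t) (chE P t') p a b) :
    a.1 = b.1 := by
  by_contra hab
  have hI := (ig_chE (P := P) t).feq (ig_chE (P := P) t')
  have hp : Int M (fun a : El t => ∃ p, ∃ b : El t', FEq M (chE P t) (chE P t') p a b ∧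
      ¬ a.1 = b.1) := by
    refine Int.ex (Int.ex (Int.and ?_ (Int.not ?_)))
    · exact Int.comp₃ (p := fun p a b => FEq M (chE P t) (chE P t') p a b) hI
        (IntF.snd IntF.fst') (IntF.fst IntF.fst') IntF.snd'
    · exact Int.comp₂ (p := fun (a : El t) (b : El t') => a.1 = b.1) int_veq
        (IntF.fst IntF.fst') IntF.snd'
  obtain ⟨c, h1, h2⟩ := wfi_chE (P := P) hF t (sep M fun a : El t => ∃ p, ∃ b : El t',
    FEq M (chE P t) (chE P t') p a b ∧ ¬ a.1 = b.1) ⟨a, (mem_sep hp).2 ⟨p, b, h, hab⟩⟩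
  obtain ⟨q, d, h3, h4⟩ := (mem_sep hp).1 h1
  have h5 : ∀ (c' : El t) (q' : P) (d' : El t'), Mem c'.1 c.1 →
      FEq M (chE P t) (chE P t') q' c' d' → c'.1 = d'.1 := by
    intro c' q' d' h6 h7
    by_contra h8
    exact h2 c' q ((mem_sep hp).2 ⟨q', d', h7, h8⟩) h6
  obtain ⟨-, h6, h7⟩ := feq_rbis q c d h3
  refine h4 (ext_of_isSet hS fun z => ⟨fun hz => ?_, fun hz => ?_⟩)
  · obtain ⟨q', -, d', s', h8, -, h9⟩ := h6 (toEl (ht _ _ c.2 hz)) q hz q le_rfl le_rfl
    have h10 : z = d'.1 := h5 _ _ _ hz h9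
    exact h10 ▸ (h8 : Mem d'.1 d.1)
  · obtain ⟨q', -, c', s', h8, -, h9⟩ := h7 (toEl (ht' _ _ d.2 hz)) q hz q le_rfl le_rfl
    have h10 : c'.1 = z := h5 _ _ _ h8 h9
    exact h10 ▸ (h8 : Mem c'.1 c.1)

variable {G : Set P} (hG : IsGen M G)

/-- The ground model is a transitive part of the extension. -/
theorem exists_ground (hS : ∀ x : M, IsSet x) (hR : ReplL M) (hF : FoundL M) :
    ∃ i : M → NN S hG, Function.Injective i ∧ (∀ x y, Plain.Mem (i x) (i y) ↔ Mem x y) ∧
      ∀ y z, Plain.Mem z (i y) → ∃ x, i x = z := by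
  have h : ∀ x : M, ∃ t, Trans t ∧ Mem x t := fun x => by
    obtain ⟨t, h1, h2⟩ := exists_trans hS hR (up x x)
    exact ⟨t, h2, h1 x (mem_up.2 (Or.inl rfl))⟩
  choose t ht hx using h
  have h1 : ∀ y z, Plain.Mem z (nd hG (good_chE (S := S) hF (t y)) (toEl (hx y))) ↔
      ∃ x, Mem x y ∧ nd hG (good_chE (S := S) hF (t x)) (toEl (hx x)) = z := by
    intro y z
    rw [mem_nd]
    constructor
    · rintro ⟨a, s, -, h2, rfl⟩
      exact ⟨a.1, h2, nd_eq_of hG _ _ fun p => feq_chE (ht _) (ht _) p rfl⟩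
    · rintro ⟨x, h2, rfl⟩
      obtain ⟨s, hs⟩ := hG.ne
      exact ⟨toEl (ht _ _ _ (hx y) h2), s, hs, h2, nd_eq_of hG _ _ fun p =>
        feq_chE (ht _) (ht _) p rfl⟩
  have h2 : Function.Injective fun x => nd hG (good_chE (S := S) hF (t x)) (toEl (hx x)) := by
    intro x y hxy
    obtain ⟨p, -, h3⟩ := (nd_eq hG _ _).1 hxy
    exact eq_of_feq hS hF (ht _) (ht _) h3
  refine ⟨fun x => nd hG (good_chE (S := S) hF (t x)) (toEl (hx x)), h2, fun x y => ?_,
    fun y z h3 => ?_⟩
  · rw [h1]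
    exact ⟨fun ⟨x', h4, h5⟩ => h2 h5 ▸ h4, fun h4 => ⟨x, h4, rfl⟩⟩
  · obtain ⟨x, -, h4⟩ := (h1 y z).1 h3
    exact ⟨x, h4⟩

end

/-- The conclusion for countable models of Collection, given real numbers. -/
theorem conclusion' (M : Type u) [L.Structure M] [IsModel M] [Countable M] (hC : CollL M)
    (hS : ∀ x : M, IsSet x) (hR' : ReplL M) (hF : FoundL M)
    (hR : ∀ (N : Type u) (_ : LSet.Structure N), Plain.Zermelo N →
      ∃ (r : N) (_ : Field (Plain.El r)) (_ : LinearOrder (Plain.El r))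
        (_ : IsStrictOrderedRing (Plain.El r)), IsReals r) :
    ∃ (N : Type u) (_ : LSet.Structure N), ZF N ∧ ¬ SubgroupsAmenable N ∧
      ∃ i : M → N, Function.Injective i ∧ (∀ x y, Plain.Mem (i x) (i y) ↔ Mem x y) ∧
      ∀ y z, Plain.Mem z (i y) → ∃ x, i x = z := by
  obtain ⟨Q⟩ := nonempty_parts (M := M)
  have p₀ : PP M (XX M) := ⟨sep M fun _ => False, fun i k d d' h =>
    absurd h (fun h => (mem_sep (Int.const False)).1 h), 0, fun c h =>
    absurd h (fun h => (mem_sep (Int.const False)).1 h)⟩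
  obtain ⟨G, hG⟩ := exists_gen (M := M) p₀
  exact ⟨NN (SS M (XX M)) hG, inferInstance, nn_zf hG hC,
    not_subgroupsAmenable hG Q (hR _ _ (nn_zermelo hG)), exists_ground hG hS hR' hF⟩

section

attribute [local instance] toL

/-- Every countable model of ZF is a transitive part of a model of ZF in which (S) fails. -/
theorem conclusion_zf (M : Type u) [LSet.Structure M] [Countable M] (h : ZF M) :
    ∃ (N : Type u) (_ : LSet.Structure N), ZF N ∧ ¬ SubgroupsAmenable N ∧
      ∃ i : M → N, Function.Injective i ∧ (∀ x y, Plain.Mem (i x) (i y) ↔ Plain.Mem x y) ∧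
      ∀ y z, Plain.Mem z (i y) → ∃ x, i x = z := by
  have hM : IsModel M := isModel_of_zermelo h.toZermelo
  exact conclusion' M (coll_of_zf h) (fun _ => trivial)
    (fun F hD a h1 => h.replacement {p | F p.1 p.2} (definable_of_toL hD) a h1) h.foundation
    (fun _ _ hN => exists_reals hN)

/-- A countable elementary substructure. -/
theorem exists_countable_sub (M : Type u) [LSet.Structure M] (hM : ZF M) :
    ∃ M₀ : LSet.ElementarySubstructure M, Countable M₀ ∧ ZF M₀ := by
  by_cases h : Countable M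
  · exact ⟨⊤, inferInstance, zf_substructure ⊤⟩
  · rw [not_countable_iff] at h
    have h0 : Nonempty M := by
      obtain ⟨i, -⟩ := hM.infinity
      exact ⟨i⟩
    have hc : Countable (Σ l, LSet.Functions l) :=
      ⟨⟨fun x => Empty.elim x.2, fun x => Empty.elim x.2⟩⟩
    have hc' : Countable (Σ l, LSet.Relations l) := ⟨⟨fun x => x.1, by
      rintro ⟨l, r⟩ ⟨l', r'⟩ h
      obtain rfl : l = l' := h
      cases r
      cases r'
      rfl⟩⟩
    have hcard : LSet.card ≤ Cardinal.aleph0 := by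
      have : Countable LSet.Symbols := inferInstanceAs (Countable
        ((Σ l, LSet.Functions l) ⊕ (Σ l, LSet.Relations l)))
      exact Cardinal.mk_le_aleph0
    obtain ⟨S, -, hS⟩ := exists_elementarySubstructure_card_eq LSet (∅ : Set M)
      (Cardinal.aleph0.{u}) le_rfl (by simp) (by simpa using hcard) (by simp)
    refine ⟨S, ?_, zf_substructure S⟩
    rw [← Cardinal.mk_le_aleph0_iff]
    simpa using hS.le

end

end Pool.Agent.Helper672.ZFA.H635
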