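import Pool.Agent.H635R2.Tools

/-!
# Forced equality of nodes of labelled graphs

A graph on the type `α` is a relation `E a p b` (`a` is an element of `b` as soon as the condition
`p` holds). Two nodes are forced to be equal by a condition if there is an internal bisimulation.
-/

namespace Pool.Agent.Helper672.ZFA.H635

open FirstOrder FirstOrder.Language

universe u

section defs

variable {P α β : Type u} [Preorder P]

/-- One half of the condition for a bisimulation. -/
def Hf (E : α → P → α → Prop) (F : β → P → β → Prop) (r : P → α → β → Prop) (q : P) (a : α)
    (b : β) : Prop :=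
  ∀ a' s, E a' s a → ∀ q', q' ≤ q → q' ≤ s →
    ∃ q'', q'' ≤ q' ∧ ∃ b' s', F b' s' b ∧ q'' ≤ s' ∧ r q'' a' b'

/-- Bisimulations. -/
def RBis (E : α → P → α → Prop) (F : β → P → β → Prop) (r : P → α → β → Prop) : Prop :=
  ∀ q a b, r q a b → (∀ q', q' ≤ q → r q' a b) ∧ Hf E F r q a b ∧
    Hf F E (fun q' b' a' => r q' a' b') q b a

theorem Hf.imp {E : α → P → α → Prop} {F : β → P → β → Prop} {r r' : P → α → β → Prop} {q : P}
    {a : α} {b : β} (h : Hf E F r q a b) (hr : ∀ q' a' b', r q' a' b' → r' q' a' b') :
    Hf E F r' q a b := by
  intro a' s h1 q' h2 h3
  obtain ⟨q'', h4, b', s', h5, h6, h7⟩ := h a' s h1 q' h2 h3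
  exact ⟨q'', h4, b', s', h5, h6, hr _ _ _ h7⟩

theorem Hf.mono {E : α → P → α → Prop} {F : β → P → β → Prop} {r : P → α → β → Prop} {q q' : P}
    {a : α} {b : β} (h : Hf E F r q a b) (hq : q' ≤ q) : Hf E F r q' a b :=
  fun a' s h1 q'' h2 h3 => h a' s h1 q'' (h2.trans hq) h3

variable (M : Type u) [L.Structure M] [hM : IsModel M] [ITy M P] [ITy M α] [ITy M β]

/-- A graph is internal. -/
def IG (E : α → P → α → Prop) : Prop := Int M (fun q : (α × P) × α => E q.1.1 q.1.2 q.2)

/-- The condition `p` forces the nodes `a` and `b` to be equal. -/
def FEq (E : α → P → α → Prop) (F : β → P → β → Prop) (p : P) (a : α) (b : β) :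
    Prop := ∃ R : IPow M ((P × α) × β), RBis E F (fun q x y => ((q, x), y) ∈ R) ∧ ((p, a), b) ∈ R

/-- The condition `p` forces the node `a` to be an element of the node `b`. -/
def FMem (E : α → P → α → Prop) (F : β → P → β → Prop) (p : P) (a : α) (b : β) :
    Prop := ∀ q, q ≤ p → ∃ q', q' ≤ q ∧ ∃ b' s, F b' s b ∧ q' ≤ s ∧ FEq M E F q' a b'

end defs

section

variable {M : Type u} [L.Structure M] [hM : IsModel M]
variable {P : Type u} [ITy M P] [Preorder P] [ILE M P]
variable {α β γ δ : Type u} [ITy M α] [ITy M β] [ITy M γ] [ITy M δ]

theorem Int.rbis {ε : Type u} [ITy M ε] {E : ε → α → P → α → Prop} {F : ε → β → P → β → Prop}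
    {R : ε → IPow M ((P × α) × β)}
    (hE : Int M (fun q : ((ε × α) × P) × α => E q.1.1.1 q.1.1.2 q.1.2 q.2))
    (hF : Int M (fun q : ((ε × β) × P) × β => F q.1.1.1 q.1.1.2 q.1.2 q.2)) (hR : IntF M R) :
    Int M (fun c => RBis (E c) (F c) (fun q x y => ((q, x), y) ∈ R c)) := by
  unfold RBis Hf
  (repeat' (first | with_reducible exact IntF.id | with_reducible exact IntF.fst' | with_reducible exact IntF.snd' | with_reducible exact IntF.const _ | with_reducible exact Int.const _ | assumption | with_reducible apply Int.and | with_reducible apply Int.or | with_reducible apply Int.not | with_reducible apply Int.imp | with_reducible apply Int.iff | with_reducible apply Int.ne | with_reducible apply Int.eq | with_reducible apply Int.mem | with_reducible apply Int.subset | with_reducible apply Int.ltN | with_reducible apply Int.leN | with_reducible_and_instances apply Int.le | with_reducible_and_instances apply Int.lt | with_reducible apply Int.all | with_reducible apply Int.ex | with_reducible apply IntF.fst | with_reducible apply IntF.snd | with_reducible apply IntF.app | with_reducible apply IntF.inl | with_reducible apply IntF.inr | with_reducible_and_instances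 apply IntF.mul | with_reducible_and_instances apply IntF.inv | with_reducible_and_instances apply IntF.add | with_reducible_and_instances apply IntF.sub | with_reducible_and_instances apply IntF.neg | with_reducible_and_instances apply IntF.smul | with_reducible apply IntF.succ | with_reducible apply IntF.val | with_reducible apply IntF.mk | (with_reducible refine Int.comp ?_ ?_; assumption) | (with_reducible refine Int.comp₂ ?_ ?_ ?_; assumption) | (with_reducible refine Int.comp₃ ?_ ?_ ?_ ?_; assumption) | (with_reducible refine Int.comp₄ ?_ ?_ ?_ ?_ ?_; assumption) | (with_reducible refine IntF.comp ?_ ?_; assumption) | (with_reducible refine IntF.comp₂ ?_ ?_ ?_; assumption) | (with_reducible refine IntF.comp₃ ?_ ?_ ?_ ?_; assumption) | with_reducible apply IntF.pair))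

theorem Int.feq {ε : Type u} [ITy M ε] {E : ε → α → P → α → Prop} {F : ε → β → P → β → Prop}
    (hE : Int M (fun q : ((ε × α) × P) × α => E q.1.1.1 q.1.1.2 q.1.2 q.2))
    (hF : Int M (fun q : ((ε × β) × P) × β => F q.1.1.1 q.1.1.2 q.1.2 q.2))
    {p : ε → P} {a : ε → α} {b : ε → β} (hp : IntF M p) (ha : IntF M a) (hb : IntF M b) :
    Int M (fun c => FEq M (E c) (F c) (p c) (a c) (b c)) := by
  unfold FEq
  refine Int.ex (Int.and (Int.rbis (E := fun q : ε × IPow M ((P × α) × β) => E q.1)
    (F := fun q : ε × IPow M ((P × α) × β) => F q.1) ?_ ?_ IntF.snd') ?_)
  · (repeat' (first | with_reducible exact IntF.id | with_reducible exact IntF.fst' | with_reducible exact IntF.snd' | with_reducible exact IntF.const _ | with_reducible exact Int.const _ | assumption | with_reducible apply Int.and | with_reducible apply Int.or | with_reducible apply Int.not | with_reducible apply Int.imp | with_reducible apply Int.iff | with_reducible apply Int.ne | with_reducible apply Int.eq | with_reducible apply Int.mem | with_reducible apply Int.subset | with_reducible apply Int.ltN | with_reducible apply Int.leN | with_reducible_and_instances apply Int.le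 | with_reducible_and_instances apply Int.lt | with_reducible apply Int.all | with_reducible apply Int.ex | with_reducible apply IntF.fst | with_reducible apply IntF.snd | with_reducible apply IntF.app | with_reducible apply IntF.inl | with_reducible apply IntF.inr | with_reducible_and_instances apply IntF.mul | with_reducible_and_instances apply IntF.inv | with_reducible_and_instances apply IntF.add | with_reducible_and_instances apply IntF.sub | with_reducible_and_instances apply IntF.neg | with_reducible_and_instances apply IntF.smul | with_reducible apply IntF.succ | with_reducible apply IntF.val | with_reducible apply IntF.mk | (with_reducible refine Int.comp ?_ ?_; assumption) | (with_reducible refine Int.comp₂ ?_ ?_ ?_; assumption) | (with_reducible refine Int.comp₃ ?_ ?_ ?_ ?_; assumption) | (with_reducible refine Int.comp₄ ?_ ?_ ?_ ?_ ?_; assumption) | (with_reducible refine IntF.comp ?_ ?_; assumption) | (with_reducible refine IntF.comp₂ ?_ ?_ ?_; assumption) | (with_reducible refine IntF.comp₃ ?_ ?_ ?_ ?_; assumption) | with_reducible apply IntF.pair))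
  · (repeat' (first | with_reducible exact IntF.id | with_reducible exact IntF.fst' | with_reducible exact IntF.snd' | with_reducible exact IntF.const _ | with_reducible exact Int.const _ | assumption | with_reducible apply Int.and | with_reducible apply Int.or | with_reducible apply Int.not | with_reducible apply Int.imp | with_reducible apply Int.iff | with_reducible apply Int.ne | with_reducible apply Int.eq | with_reducible apply Int.mem | with_reducible apply Int.subset | with_reducible apply Int.ltN | with_reducible apply Int.leN | with_reducible_and_instances apply Int.le | with_reducible_and_instances apply Int.lt | with_reducible apply Int.all | with_reducible apply Int.ex | with_reducible apply IntF.fst | with_reducible apply IntF.snd | with_reducible apply IntF.app | with_reducible apply IntF.inl | with_reducible apply IntF.inr | with_reducible_and_instances apply IntF.mul | with_reducible_and_instances apply IntF.inv | with_reducible_and_instances apply IntF.add | with_reducible_and_instances apply IntF.sub | with_reducible_and_instances apply IntF.neg | with_reducible_and_instances apply IntF.smul | with_reducible apply IntF.succ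 | with_reducible apply IntF.val | with_reducible apply IntF.mk | (with_reducible refine Int.comp ?_ ?_; assumption) | (with_reducible refine Int.comp₂ ?_ ?_ ?_; assumption) | (with_reducible refine Int.comp₃ ?_ ?_ ?_ ?_; assumption) | (with_reducible refine Int.comp₄ ?_ ?_ ?_ ?_ ?_; assumption) | (with_reducible refine IntF.comp ?_ ?_; assumption) | (with_reducible refine IntF.comp₂ ?_ ?_ ?_; assumption) | (with_reducible refine IntF.comp₃ ?_ ?_ ?_ ?_; assumption) | with_reducible apply IntF.pair))
  · (repeat' (first | with_reducible exact IntF.id | with_reducible exact IntF.fst' | with_reducible exact IntF.snd' | with_reducible exact IntF.const _ | with_reducible exact Int.const _ | assumption | with_reducible apply Int.and | with_reducible apply Int.or | with_reducible apply Int.not | with_reducible apply Int.imp | with_reducible apply Int.iff | with_reducible apply Int.ne | with_reducible apply Int.eq | with_reducible apply Int.mem | with_reducible apply Int.subset | with_reducible apply Int.ltN | with_reducible apply Int.leN | with_reducible_and_instances apply Int.le | with_reducible_and_instances apply Int.lt | with_reducible apply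 Int.all | with_reducible apply Int.ex | with_reducible apply IntF.fst | with_reducible apply IntF.snd | with_reducible apply IntF.app | with_reducible apply IntF.inl | with_reducible apply IntF.inr | with_reducible_and_instances apply IntF.mul | with_reducible_and_instances apply IntF.inv | with_reducible_and_instances apply IntF.add | with_reducible_and_instances apply IntF.sub | with_reducible_and_instances apply IntF.neg | with_reducible_and_instances apply IntF.smul | with_reducible apply IntF.succ | with_reducible apply IntF.val | with_reducible apply IntF.mk | (with_reducible refine Int.comp ?_ ?_; assumption) | (with_reducible refine Int.comp₂ ?_ ?_ ?_; assumption) | (with_reducible refine Int.comp₃ ?_ ?_ ?_ ?_; assumption) | (with_reducible refine Int.comp₄ ?_ ?_ ?_ ?_ ?_; assumption) | (with_reducible refine IntF.comp ?_ ?_; assumption) | (with_reducible refine IntF.comp₂ ?_ ?_ ?_; assumption) | (with_reducible refine IntF.comp₃ ?_ ?_ ?_ ?_; assumption) | with_reducible apply IntF.pair))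

theorem Int.fmem {ε : Type u} [ITy M ε] {E : ε → α → P → α → Prop} {F : ε → β → P → β → Prop}
    (hE : Int M (fun q : ((ε × α) × P) × α => E q.1.1.1 q.1.1.2 q.1.2 q.2))
    (hF : Int M (fun q : ((ε × β) × P) × β => F q.1.1.1 q.1.1.2 q.1.2 q.2))
    {p : ε → P} {a : ε → α} {b : ε → β} (hp : IntF M p) (ha : IntF M a) (hb : IntF M b) :
    Int M (fun c => FMem M (E c) (F c) (p c) (a c) (b c)) := by
  unfold FMem
  refine Int.all (Int.imp ?_ (Int.ex (Int.and ?_ (Int.ex (Int.ex (Int.and ?_ (Int.and ?_
    (Int.feq (E := fun q : (((ε × P) × P) × β) × P => E q.1.1.1.1)
    (F := fun q : (((ε × P) × P) × β) × P => F q.1.1.1.1) ?_ ?_ ?_ ?_ ?_))))))))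
  all_goals (repeat' (first | with_reducible exact IntF.id | with_reducible exact IntF.fst' | with_reducible exact IntF.snd' | with_reducible exact IntF.const _ | with_reducible exact Int.const _ | assumption | with_reducible apply Int.and | with_reducible apply Int.or | with_reducible apply Int.not | with_reducible apply Int.imp | with_reducible apply Int.iff | with_reducible apply Int.ne | with_reducible apply Int.eq | with_reducible apply Int.mem | with_reducible apply Int.subset | with_reducible apply Int.ltN | with_reducible apply Int.leN | with_reducible_and_instances apply Int.le | with_reducible_and_instances apply Int.lt | with_reducible apply Int.all | with_reducible apply Int.ex | with_reducible apply IntF.fst | with_reducible apply IntF.snd | with_reducible apply IntF.app | with_reducible apply IntF.inl | with_reducible apply IntF.inr | with_reducible_and_instances apply IntF.mul | with_reducible_and_instances apply IntF.inv | with_reducible_and_instances apply IntF.add | with_reducible_and_instances apply IntF.sub | with_reducible_and_instances apply IntF.neg | with_reducible_and_instances apply IntF.smul | with_reducible apply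 IntF.succ | with_reducible apply IntF.val | with_reducible apply IntF.mk | (with_reducible refine Int.comp ?_ ?_; assumption) | (with_reducible refine Int.comp₂ ?_ ?_ ?_; assumption) | (with_reducible refine Int.comp₃ ?_ ?_ ?_ ?_; assumption) | (with_reducible refine Int.comp₄ ?_ ?_ ?_ ?_ ?_; assumption) | (with_reducible refine IntF.comp ?_ ?_; assumption) | (with_reducible refine IntF.comp₂ ?_ ?_ ?_; assumption) | (with_reducible refine IntF.comp₃ ?_ ?_ ?_ ?_; assumption) | with_reducible apply IntF.pair))

variable {E : α → P → α → Prop} {F : β → P → β → Prop} {G : γ → P → γ → Prop} {p q : P} {a : α}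
  {b : β} {c : γ}

theorem IG.feq (hE : IG M E) (hF : IG M F) :
    Int M (fun q : (P × α) × β => FEq M E F q.1.1 q.1.2 q.2) := by
  have hE' : Int M (fun q : (α × P) × α => E q.1.1 q.1.2 q.2) := hE
  have hF' : Int M (fun q : (β × P) × β => F q.1.1 q.1.2 q.2) := hF
  refine Int.feq (E := fun _ => E) (F := fun _ => F) ?_ ?_ ?_ ?_ ?_
  all_goals (repeat' (first | with_reducible exact IntF.id | with_reducible exact IntF.fst' | with_reducible exact IntF.snd' | with_reducible exact IntF.const _ | with_reducible exact Int.const _ | assumption | with_reducible apply Int.and | with_reducible apply Int.or | with_reducible apply Int.not | with_reducible apply Int.imp | with_reducible apply Int.iff | with_reducible apply Int.ne | with_reducible apply Int.eq | with_reducible apply Int.mem | with_reducible apply Int.subset | with_reducible apply Int.ltN | with_reducible apply Int.leN | with_reducible_and_instances apply Int.le | with_reducible_and_instances apply Int.lt | with_reducible apply Int.all | with_reducible apply Int.ex | with_reducible apply IntF.fst | with_reducible apply IntF.snd | with_reducible apply IntF.app | with_reducible apply IntF.inl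 | with_reducible apply IntF.inr | with_reducible_and_instances apply IntF.mul | with_reducible_and_instances apply IntF.inv | with_reducible_and_instances apply IntF.add | with_reducible_and_instances apply IntF.sub | with_reducible_and_instances apply IntF.neg | with_reducible_and_instances apply IntF.smul | with_reducible apply IntF.succ | with_reducible apply IntF.val | with_reducible apply IntF.mk | (with_reducible refine Int.comp ?_ ?_; assumption) | (with_reducible refine Int.comp₂ ?_ ?_ ?_; assumption) | (with_reducible refine Int.comp₃ ?_ ?_ ?_ ?_; assumption) | (with_reducible refine Int.comp₄ ?_ ?_ ?_ ?_ ?_; assumption) | (with_reducible refine IntF.comp ?_ ?_; assumption) | (with_reducible refine IntF.comp₂ ?_ ?_ ?_; assumption) | (with_reducible refine IntF.comp₃ ?_ ?_ ?_ ?_; assumption) | with_reducible apply IntF.pair))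

theorem IG.fmem (hE : IG M E) (hF : IG M F) :
    Int M (fun q : (P × α) × β => FMem M E F q.1.1 q.1.2 q.2) := by
  have hE' : Int M (fun q : (α × P) × α => E q.1.1 q.1.2 q.2) := hE
  have hF' : Int M (fun q : (β × P) × β => F q.1.1 q.1.2 q.2) := hF
  refine Int.fmem (E := fun _ => E) (F := fun _ => F) ?_ ?_ ?_ ?_ ?_
  all_goals (repeat' (first | with_reducible exact IntF.id | with_reducible exact IntF.fst' | with_reducible exact IntF.snd' | with_reducible exact IntF.const _ | with_reducible exact Int.const _ | assumption | with_reducible apply Int.and | with_reducible apply Int.or | with_reducible apply Int.not | with_reducible apply Int.imp | with_reducible apply Int.iff | with_reducible apply Int.ne | with_reducible apply Int.eq | with_reducible apply Int.mem | with_reducible apply Int.subset | with_reducible apply Int.ltN | with_reducible apply Int.leN | with_reducible_and_instances apply Int.le | with_reducible_and_instances apply Int.lt | with_reducible apply Int.all | with_reducible apply Int.ex | with_reducible apply IntF.fst | with_reducible apply IntF.snd | with_reducible apply IntF.app | with_reducible apply IntF.inl | with_reducible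 apply IntF.inr | with_reducible_and_instances apply IntF.mul | with_reducible_and_instances apply IntF.inv | with_reducible_and_instances apply IntF.add | with_reducible_and_instances apply IntF.sub | with_reducible_and_instances apply IntF.neg | with_reducible_and_instances apply IntF.smul | with_reducible apply IntF.succ | with_reducible apply IntF.val | with_reducible apply IntF.mk | (with_reducible refine Int.comp ?_ ?_; assumption) | (with_reducible refine Int.comp₂ ?_ ?_ ?_; assumption) | (with_reducible refine Int.comp₃ ?_ ?_ ?_ ?_; assumption) | (with_reducible refine Int.comp₄ ?_ ?_ ?_ ?_ ?_; assumption) | (with_reducible refine IntF.comp ?_ ?_; assumption) | (with_reducible refine IntF.comp₂ ?_ ?_ ?_; assumption) | (with_reducible refine IntF.comp₃ ?_ ?_ ?_ ?_; assumption) | with_reducible apply IntF.pair))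

omit [ILE M P] in
theorem FEq.of_rel {r : P → α → β → Prop} (hr : Int M (fun x : (P × α) × β => r x.1.1 x.1.2 x.2))
    (h : RBis E F r) (h1 : r p a b) : FEq M E F p a b := by
  refine ⟨⟨fun x => r x.1.1 x.1.2 x.2, hr⟩, ?_, h1⟩
  exact h

omit [ILE M P] in
theorem feq_rbis : RBis E F (FEq M E F) := by
  rintro q a b ⟨R, hR, h⟩
  obtain ⟨h1, h2, h3⟩ := hR q a b h
  refine ⟨fun q' hq' => ⟨R, hR, h1 q' hq'⟩, ?_, ?_⟩
  · exact h2.imp fun q' a' b' h4 => ⟨R, hR, h4⟩
  · exact h3.imp fun q' b' a' h4 => ⟨R, hR, h4⟩

omit [ILE M P] in
theorem FEq.mono (h : FEq M E F p a b) (hq : q ≤ p) : FEq M E F q a b :=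
  (feq_rbis p a b h).1 q hq

omit [ILE M P] in
theorem FMem.mono (h : FMem M E F p a b) (hq : q ≤ p) : FMem M E F q a b :=
  fun r hr => h r (hr.trans hq)

theorem FEq.refl (p : P) (a : α) : FEq M E E p a a := by
  refine FEq.of_rel (r := fun _ x y => x = y) (by (repeat' (first | with_reducible exact IntF.id | with_reducible exact IntF.fst' | with_reducible exact IntF.snd' | with_reducible exact IntF.const _ | with_reducible exact Int.const _ | assumption | with_reducible apply Int.and | with_reducible apply Int.or | with_reducible apply Int.not | with_reducible apply Int.imp | with_reducible apply Int.iff | with_reducible apply Int.ne | with_reducible apply Int.eq | with_reducible apply Int.mem | with_reducible apply Int.subset | with_reducible apply Int.ltN | with_reducible apply Int.leN | with_reducible_and_instances apply Int.le | with_reducible_and_instances apply Int.lt | with_reducible apply Int.all | with_reducible apply Int.ex | with_reducible apply IntF.fst | with_reducible apply IntF.snd | with_reducible apply IntF.app | with_reducible apply IntF.inl | with_reducible apply IntF.inr | with_reducible_and_instances apply IntF.mul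 | with_reducible_and_instances apply IntF.inv | with_reducible_and_instances apply IntF.add | with_reducible_and_instances apply IntF.sub | with_reducible_and_instances apply IntF.neg | with_reducible_and_instances apply IntF.smul | with_reducible apply IntF.succ | with_reducible apply IntF.val | with_reducible apply IntF.mk | (with_reducible refine Int.comp ?_ ?_; assumption) | (with_reducible refine Int.comp₂ ?_ ?_ ?_; assumption) | (with_reducible refine Int.comp₃ ?_ ?_ ?_ ?_; assumption) | (with_reducible refine Int.comp₄ ?_ ?_ ?_ ?_ ?_; assumption) | (with_reducible refine IntF.comp ?_ ?_; assumption) | (with_reducible refine IntF.comp₂ ?_ ?_ ?_; assumption) | (with_reducible refine IntF.comp₃ ?_ ?_ ?_ ?_; assumption) | with_reducible apply IntF.pair))) ?_ rfl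
  rintro q x _ rfl
  refine ⟨fun _ _ => rfl, ?_, ?_⟩ <;>
  · intro a' s h1 q' h2 h3
    exact ⟨q', le_rfl, a', s, h1, h3, rfl⟩

theorem FEq.symm (hE : IG M E) (hF : IG M F) (h : FEq M E F p a b) : FEq M F E p b a := by
  have hI := hE.feq hF
  refine FEq.of_rel (r := fun q x y => FEq M E F q y x) ?_ ?_ h
  · refine Int.comp₃ (p := fun q x y => FEq M E F q x y) hI ?_ ?_ ?_
    all_goals (repeat' (first | with_reducible exact IntF.id | with_reducible exact IntF.fst' | with_reducible exact IntF.snd' | with_reducible exact IntF.const _ | with_reducible exact Int.const _ | assumption | with_reducible apply Int.and | with_reducible apply Int.or | with_reducible apply Int.not | with_reducible apply Int.imp | with_reducible apply Int.iff | with_reducible apply Int.ne | with_reducible apply Int.eq | with_reducible apply Int.mem | with_reducible apply Int.subset | with_reducible apply Int.ltN | with_reducible apply Int.leN | with_reducible_and_instances apply Int.le | with_reducible_and_instances apply Int.lt | with_reducible apply Int.all | with_reducible apply Int.ex | with_reducible apply IntF.fst | with_reducible apply IntF.snd | with_reducible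 apply IntF.app | with_reducible apply IntF.inl | with_reducible apply IntF.inr | with_reducible_and_instances apply IntF.mul | with_reducible_and_instances apply IntF.inv | with_reducible_and_instances apply IntF.add | with_reducible_and_instances apply IntF.sub | with_reducible_and_instances apply IntF.neg | with_reducible_and_instances apply IntF.smul | with_reducible apply IntF.succ | with_reducible apply IntF.val | with_reducible apply IntF.mk | (with_reducible refine Int.comp ?_ ?_; assumption) | (with_reducible refine Int.comp₂ ?_ ?_ ?_; assumption) | (with_reducible refine Int.comp₃ ?_ ?_ ?_ ?_; assumption) | (with_reducible refine Int.comp₄ ?_ ?_ ?_ ?_ ?_; assumption) | (with_reducible refine IntF.comp ?_ ?_; assumption) | (with_reducible refine IntF.comp₂ ?_ ?_ ?_; assumption) | (with_reducible refine IntF.comp₃ ?_ ?_ ?_ ?_; assumption) | with_reducible apply IntF.pair))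
  · intro q x y h1
    obtain ⟨h2, h3, h4⟩ := feq_rbis q y x h1
    exact ⟨h2, h4, h3⟩

theorem FEq.trans (hE : IG M E) (hF : IG M F) (hG : IG M G) (h : FEq M E F p a b)
    (h' : FEq M F G p b c) : FEq M E G p a c := by
  have hI := hE.feq hF
  have hI' := hF.feq hG
  refine FEq.of_rel (r := fun q x z => ∃ y, FEq M E F q x y ∧ FEq M F G q y z) ?_ ?_ ⟨b, h, h'⟩
  · refine Int.ex (Int.and ?_ ?_)
    · refine Int.comp₃ (p := fun q x y => FEq M E F q x y) hI ?_ ?_ ?_
      all_goals (repeat' (first | with_reducible exact IntF.id | with_reducible exact IntF.fst' | with_reducible exact IntF.snd' | with_reducible exact IntF.const _ | with_reducible exact Int.const _ | assumption | with_reducible apply Int.and | with_reducible apply Int.or | with_reducible apply Int.not | with_reducible apply Int.imp | with_reducible apply Int.iff | with_reducible apply Int.ne | with_reducible apply Int.eq | with_reducible apply Int.mem | with_reducible apply Int.subset | with_reducible apply Int.ltN | with_reducible apply Int.leN | with_reducible_and_instances apply Int.le | with_reducible_and_instances apply Int.lt | with_reducible apply Int.all | with_reducible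 apply Int.ex | with_reducible apply IntF.fst | with_reducible apply IntF.snd | with_reducible apply IntF.app | with_reducible apply IntF.inl | with_reducible apply IntF.inr | with_reducible_and_instances apply IntF.mul | with_reducible_and_instances apply IntF.inv | with_reducible_and_instances apply IntF.add | with_reducible_and_instances apply IntF.sub | with_reducible_and_instances apply IntF.neg | with_reducible_and_instances apply IntF.smul | with_reducible apply IntF.succ | with_reducible apply IntF.val | with_reducible apply IntF.mk | (with_reducible refine Int.comp ?_ ?_; assumption) | (with_reducible refine Int.comp₂ ?_ ?_ ?_; assumption) | (with_reducible refine Int.comp₃ ?_ ?_ ?_ ?_; assumption) | (with_reducible refine Int.comp₄ ?_ ?_ ?_ ?_ ?_; assumption) | (with_reducible refine IntF.comp ?_ ?_; assumption) | (with_reducible refine IntF.comp₂ ?_ ?_ ?_; assumption) | (with_reducible refine IntF.comp₃ ?_ ?_ ?_ ?_; assumption) | with_reducible apply IntF.pair))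
    · refine Int.comp₃ (p := fun q x y => FEq M F G q x y) hI' ?_ ?_ ?_
      all_goals (repeat' (first | with_reducible exact IntF.id | with_reducible exact IntF.fst' | with_reducible exact IntF.snd' | with_reducible exact IntF.const _ | with_reducible exact Int.const _ | assumption | with_reducible apply Int.and | with_reducible apply Int.or | with_reducible apply Int.not | with_reducible apply Int.imp | with_reducible apply Int.iff | with_reducible apply Int.ne | with_reducible apply Int.eq | with_reducible apply Int.mem | with_reducible apply Int.subset | with_reducible apply Int.ltN | with_reducible apply Int.leN | with_reducible_and_instances apply Int.le | with_reducible_and_instances apply Int.lt | with_reducible apply Int.all | with_reducible apply Int.ex | with_reducible apply IntF.fst | with_reducible apply IntF.snd | with_reducible apply IntF.app | with_reducible apply IntF.inl | with_reducible apply IntF.inr | with_reducible_and_instances apply IntF.mul | with_reducible_and_instances apply IntF.inv | with_reducible_and_instances apply IntF.add | with_reducible_and_instances apply IntF.sub | with_reducible_and_instances apply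 IntF.neg | with_reducible_and_instances apply IntF.smul | with_reducible apply IntF.succ | with_reducible apply IntF.val | with_reducible apply IntF.mk | (with_reducible refine Int.comp ?_ ?_; assumption) | (with_reducible refine Int.comp₂ ?_ ?_ ?_; assumption) | (with_reducible refine Int.comp₃ ?_ ?_ ?_ ?_; assumption) | (with_reducible refine Int.comp₄ ?_ ?_ ?_ ?_ ?_; assumption) | (with_reducible refine IntF.comp ?_ ?_; assumption) | (with_reducible refine IntF.comp₂ ?_ ?_ ?_; assumption) | (with_reducible refine IntF.comp₃ ?_ ?_ ?_ ?_; assumption) | with_reducible apply IntF.pair))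
  · rintro q x z ⟨y, h1, h2⟩
    refine ⟨fun q' hq' => ⟨y, h1.mono hq', h2.mono hq'⟩, ?_, ?_⟩
    · intro x' s hx q' hq' hs
      obtain ⟨q1, hq1, y', s', hy, hs', h3⟩ := (feq_rbis q x y h1).2.1 x' s hx q' hq' hs
      obtain ⟨q2, hq2, z', s'', hz, hs'', h4⟩ :=
        (feq_rbis q y z h2).2.1 y' s' hy q1 (hq1.trans hq') hs'
      exact ⟨q2, hq2.trans hq1, z', s'', hz, hs'', y', h3.mono hq2, h4⟩
    · intro z' s hz q' hq' hs
      obtain ⟨q1, hq1, y', s', hy, hs', h3⟩ := (feq_rbis q y z h2).2.2 z' s hz q' hq' hs
      obtain ⟨q2, hq2, x', s'', hx, hs'', h4⟩ :=
        (feq_rbis q x y h1).2.2 y' s' hy q1 (hq1.trans hq') hs'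
      exact ⟨q2, hq2.trans hq1, x', s'', hx, hs'', y', h4, h3.mono hq2⟩

/-- The inductive characterization of forced equality. -/
theorem feq_iff (hE : IG M E) (hF : IG M F) : FEq M E F p a b ↔
    (∀ a' s, E a' s a → ∀ q, q ≤ p → q ≤ s → FMem M E F q a' b) ∧
    (∀ b' s, F b' s b → ∀ q, q ≤ p → q ≤ s → FMem M F E q b' a) := by
  constructor
  · intro h
    obtain ⟨-, h1, h2⟩ := feq_rbis p a b h
    constructor
    · intro a' s ha q hq hs q' hq'
      obtain ⟨q'', h3, b', s', h4, h5, h6⟩ := h1 a' s ha q' (hq'.trans hq) (hq'.trans hs)
      exact ⟨q'', h3, b', s', h4, h5, h6⟩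
    · intro b' s hb q hq hs q' hq'
      obtain ⟨q'', h3, a', s', h4, h5, h6⟩ := h2 b' s hb q' (hq'.trans hq) (hq'.trans hs)
      exact ⟨q'', h3, a', s', h4, h5, h6.symm hE hF⟩
  · rintro ⟨h1, h2⟩
    have hI := hE.feq hF
    refine FEq.of_rel (r := fun q x y => FEq M E F q x y ∨ (q ≤ p ∧ x = a ∧ y = b)) ?_ ?_
      (Or.inr ⟨le_rfl, rfl, rfl⟩)
    · refine Int.or hI ?_
      (repeat' (first | with_reducible exact IntF.id | with_reducible exact IntF.fst' | with_reducible exact IntF.snd' | with_reducible exact IntF.const _ | with_reducible exact Int.const _ | assumption | with_reducible apply Int.and | with_reducible apply Int.or | with_reducible apply Int.not | with_reducible apply Int.imp | with_reducible apply Int.iff | with_reducible apply Int.ne | with_reducible apply Int.eq | with_reducible apply Int.mem | with_reducible apply Int.subset | with_reducible apply Int.ltN | with_reducible apply Int.leN | with_reducible_and_instances apply Int.le | with_reducible_and_instances apply Int.lt | with_reducible apply Int.all | with_reducible apply Int.ex | with_reducible apply IntF.fst | with_reducible apply IntF.snd | with_reducible apply IntF.app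 | with_reducible apply IntF.inl | with_reducible apply IntF.inr | with_reducible_and_instances apply IntF.mul | with_reducible_and_instances apply IntF.inv | with_reducible_and_instances apply IntF.add | with_reducible_and_instances apply IntF.sub | with_reducible_and_instances apply IntF.neg | with_reducible_and_instances apply IntF.smul | with_reducible apply IntF.succ | with_reducible apply IntF.val | with_reducible apply IntF.mk | (with_reducible refine Int.comp ?_ ?_; assumption) | (with_reducible refine Int.comp₂ ?_ ?_ ?_; assumption) | (with_reducible refine Int.comp₃ ?_ ?_ ?_ ?_; assumption) | (with_reducible refine Int.comp₄ ?_ ?_ ?_ ?_ ?_; assumption) | (with_reducible refine IntF.comp ?_ ?_; assumption) | (with_reducible refine IntF.comp₂ ?_ ?_ ?_; assumption) | (with_reducible refine IntF.comp₃ ?_ ?_ ?_ ?_; assumption) | with_reducible apply IntF.pair))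
    · rintro q x y (h3 | ⟨h3, rfl, rfl⟩)
      · obtain ⟨h4, h5, h6⟩ := feq_rbis q x y h3
        exact ⟨fun q' hq' => Or.inl (h4 q' hq'), h5.imp fun _ _ _ h => Or.inl h,
          h6.imp fun _ _ _ h => Or.inl h⟩
      · refine ⟨fun q' hq' => Or.inr ⟨hq'.trans h3, rfl, rfl⟩, ?_, ?_⟩
        · intro a' s ha q' hq' hs
          obtain ⟨q'', h4, b', s', h5, h6, h7⟩ := h1 a' s ha q' (hq'.trans h3) hs q' le_rfl
          exact ⟨q'', h4, b', s', h5, h6, Or.inl h7⟩
        · intro b' s hb q' hq' hs
          obtain ⟨q'', h4, a', s', h5, h6, h7⟩ := h2 b' s hb q' (hq'.trans h3) hs q' le_rfl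
          exact ⟨q'', h4, a', s', h5, h6, Or.inl (h7.symm hF hE)⟩

theorem FEq.of_dense (hE : IG M E) (hF : IG M F)
    (h : ∀ q, q ≤ p → ∃ r, r ≤ q ∧ FEq M E F r a b) : FEq M E F p a b := by
  have hI := hE.feq hF
  rw [feq_iff hE hF]
  constructor
  · intro a' s ha q hq hs q' hq'
    obtain ⟨r, hr, h1⟩ := h q' (hq'.trans hq)
    obtain ⟨r', hr', h2⟩ := ((feq_iff hE hF).1 h1).1 a' s ha r le_rfl
      (hr.trans (hq'.trans hs)) r le_rfl
    exact ⟨r', hr'.trans hr, h2⟩
  · intro b' s hb q hq hs q' hq'
    obtain ⟨r, hr, h1⟩ := h q' (hq'.trans hq)
    obtain ⟨r', hr', h2⟩ := ((feq_iff hE hF).1 h1).2 b' s hb r le_rfl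
      (hr.trans (hq'.trans hs)) r le_rfl
    exact ⟨r', hr'.trans hr, h2⟩

omit [ILE M P] in
theorem FMem.of_dense (h : ∀ q, q ≤ p → ∃ r, r ≤ q ∧ FMem M E F r a b) : FMem M E F p a b := by
  intro q hq
  obtain ⟨r, hr, h1⟩ := h q hq
  obtain ⟨r', hr', h2⟩ := h1 r le_rfl
  exact ⟨r', hr'.trans hr, h2⟩

theorem FMem.of_edge {a b : α} {s : P} (h : E a s b) (hp : p ≤ s) : FMem M E E p a b :=
  fun q hq => ⟨q, le_rfl, a, s, h, hq.trans hp, FEq.refl q a⟩

theorem FMem.congr_left (hE : IG M E) (hF : IG M F) (hG : IG M G) (h : FEq M E F p a b)
    (h' : FMem M F G p b c) : FMem M E G p a c := by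
  intro q hq
  obtain ⟨q', hq', c', s, h1, h2, h3⟩ := h' q hq
  exact ⟨q', hq', c', s, h1, h2, (h.mono (hq'.trans hq)).trans hE hF hG h3⟩

theorem FMem.congr_right (hE : IG M E) (hF : IG M F) (hG : IG M G) (h : FMem M E F p a b)
    (h' : FEq M F G p b c) : FMem M E G p a c := by
  intro q hq
  obtain ⟨q', hq', b', s, h1, h2, h3⟩ := h q hq
  obtain ⟨q'', hq'', c', s', h4, h5, h6⟩ :=
    ((feq_iff hF hG).1 h').1 b' s h1 q' (hq'.trans hq) h2 q' le_rfl
  exact ⟨q'', hq''.trans hq', c', s', h4, h5, (h3.mono hq'').trans hE hF hG h6⟩

/-- A map that is an isomorphism on elements identifies nodes. -/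
theorem feq_of_map {θ : α → β} (hθ : IntF M θ)
    (h : ∀ a b' s, F b' s (θ a) ↔ ∃ a', θ a' = b' ∧ E a' s a) (p : P) (a : α) :
    FEq M E F p a (θ a) := by
  refine FEq.of_rel (r := fun _ x y => θ x = y) (by (repeat' (first | with_reducible exact IntF.id | with_reducible exact IntF.fst' | with_reducible exact IntF.snd' | with_reducible exact IntF.const _ | with_reducible exact Int.const _ | assumption | with_reducible apply Int.and | with_reducible apply Int.or | with_reducible apply Int.not | with_reducible apply Int.imp | with_reducible apply Int.iff | with_reducible apply Int.ne | with_reducible apply Int.eq | with_reducible apply Int.mem | with_reducible apply Int.subset | with_reducible apply Int.ltN | with_reducible apply Int.leN | with_reducible_and_instances apply Int.le | with_reducible_and_instances apply Int.lt | with_reducible apply Int.all | with_reducible apply Int.ex | with_reducible apply IntF.fst | with_reducible apply IntF.snd | with_reducible apply IntF.app | with_reducible apply IntF.inl | with_reducible apply IntF.inr | with_reducible_and_instances apply IntF.mul | with_reducible_and_instances apply IntF.inv | with_reducible_and_instances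 apply IntF.add | with_reducible_and_instances apply IntF.sub | with_reducible_and_instances apply IntF.neg | with_reducible_and_instances apply IntF.smul | with_reducible apply IntF.succ | with_reducible apply IntF.val | with_reducible apply IntF.mk | (with_reducible refine Int.comp ?_ ?_; assumption) | (with_reducible refine Int.comp₂ ?_ ?_ ?_; assumption) | (with_reducible refine Int.comp₃ ?_ ?_ ?_ ?_; assumption) | (with_reducible refine Int.comp₄ ?_ ?_ ?_ ?_ ?_; assumption) | (with_reducible refine IntF.comp ?_ ?_; assumption) | (with_reducible refine IntF.comp₂ ?_ ?_ ?_; assumption) | (with_reducible refine IntF.comp₃ ?_ ?_ ?_ ?_; assumption) | with_reducible apply IntF.pair))) ?_ rfl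
  rintro q x _ rfl
  refine ⟨fun _ _ => rfl, ?_, ?_⟩
  · intro a' s h1 q' h2 h3
    exact ⟨q', le_rfl, θ a', s, (h x _ s).2 ⟨a', rfl, h1⟩, h3, rfl⟩
  · intro b' s h1 q' h2 h3
    obtain ⟨a', rfl, h4⟩ := (h x b' s).1 h1
    exact ⟨q', le_rfl, a', s, h4, h3, rfl⟩

end

end Pool.Agent.Helper672.ZFA.H635
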