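import Pool.Agent.H635R2.Amen

/-!
# The extension does not satisfy (S)
-/

namespace Pool.Agent.Helper672.ZFA.H635

open FirstOrder FirstOrder.Language
open Pool.Agent.H635Amen
open Pool.Agent.Helper672.Plain (LSet)

universe u

set_option synthInstance.maxSize 2000

section

variable {M : Type u} [L.Structure M] [hM : IsModel M] {X : Type u} [ITy M X] [Nontrivial X]
variable {G : Set (PP M X)} (hG : IsGen M G)

theorem not_subgroupsAmenable (Q : Parts M X)
    (hR : ∃ (r : NN (SS M X) hG) (_ : Field (Plain.El r)) (_ : LinearOrder (Plain.El r))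
      (_ : IsStrictOrderedRing (Plain.El r)), IsReals r) :
    ¬ SubgroupsAmenable (NN (SS M X) hG) := by
  intro hS
  obtain ⟨a, ha⟩ := exists_A hG (X := X)
  obtain ⟨b, hb'⟩ := exists_sub hG (X := X) (Z := fun _ => True) (by (repeat' (first | with_reducible exact IntF.id | with_reducible exact IntF.fst' | with_reducible exact IntF.snd' | with_reducible exact IntF.const _ | with_reducible exact Int.const _ | assumption | with_reducible apply Int.and | with_reducible apply Int.or | with_reducible apply Int.not | with_reducible apply Int.imp | with_reducible apply Int.iff | with_reducible apply Int.ne | with_reducible apply Int.eq | with_reducible apply Int.mem | with_reducible apply Int.subset | with_reducible apply Int.ltN | with_reducible apply Int.leN | with_reducible_and_instances apply Int.le | with_reducible_and_instances apply Int.lt | with_reducible apply Int.all | with_reducible apply Int.ex | with_reducible apply IntF.fst | with_reducible apply IntF.snd | with_reducible apply IntF.app | with_reducible apply IntF.inl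 | with_reducible apply IntF.inr | with_reducible_and_instances apply IntF.mul | with_reducible_and_instances apply IntF.inv | with_reducible_and_instances apply IntF.add | with_reducible_and_instances apply IntF.sub | with_reducible_and_instances apply IntF.neg | with_reducible_and_instances apply IntF.smul | with_reducible apply IntF.succ | with_reducible apply IntF.val | with_reducible apply IntF.mk | (with_reducible refine Int.comp ?_ ?_; assumption) | (with_reducible refine Int.comp₂ ?_ ?_ ?_; assumption) | (with_reducible refine Int.comp₃ ?_ ?_ ?_ ?_; assumption) | (with_reducible refine Int.comp₄ ?_ ?_ ?_ ?_ ?_; assumption) | (with_reducible refine IntF.comp ?_ ?_; assumption) | (with_reducible refine IntF.comp₂ ?_ ?_ ?_; assumption) | (with_reducible refine IntF.comp₃ ?_ ?_ ?_ ?_; assumption) | with_reducible apply IntF.pair)))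
  have hb : ∀ w, Plain.Mem w b ↔ ∃ h : KK M, w = cc hG (h, 1) := fun w =>
    (hb' w).trans (by simp)
  obtain ⟨g, hg⟩ := exists_op hG (X := X)
  -- the group structures
  let ea : II M ≃ Plain.El a := Equiv.ofBijective (fun i => ⟨cc hG i, (ha _).2 ⟨i, rfl⟩⟩)
    ⟨fun i j h => (cc_inj hG).1 (congrArg Subtype.val h), fun x => by
      obtain ⟨i, hi⟩ := (ha x.1).1 x.2
      exact ⟨i, Subtype.ext hi.symm⟩⟩
  let eb : KK M ≃ Plain.El b := Equiv.ofBijective (fun h => ⟨cc hG (h, 1), (hb _).2 ⟨h, rfl⟩⟩)
    ⟨fun i j h => (Prod.mk.inj ((cc_inj hG).1 (congrArg Subtype.val h))).1, fun x => by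
      obtain ⟨i, hi⟩ := (hb x.1).1 x.2
      exact ⟨i, Subtype.ext hi.symm⟩⟩
  have hea : ∀ i, (ea i).1 = cc hG i := fun i => rfl
  have heb : ∀ h, (eb h).1 = cc hG (h, 1) := fun i => rfl
  let _ : Group (Plain.El a) := ea.symm.group
  let _ : Group (Plain.El b) := eb.symm.group
  have hma : ∀ (x y : Plain.El a) (i j : II M), x.1 = cc hG i → y.1 = cc hG j →
      (x * y).1 = cc hG (i * j) := by
    intro x y i j hx hy
    obtain rfl : x = ea i := Subtype.ext hx
    obtain rfl : y = ea j := Subtype.ext hy
    change (ea (ea.symm (ea i) * ea.symm (ea j))).1 = _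
    rw [Equiv.symm_apply_apply, Equiv.symm_apply_apply]
    exact hea _
  have hmb : ∀ (x y : Plain.El b) (h h' : KK M), x.1 = cc hG (h, 1) → y.1 = cc hG (h', 1) →
      (x * y).1 = cc hG (h * h', 1) := by
    intro x y i j hx hy
    obtain rfl : x = eb i := Subtype.ext hx
    obtain rfl : y = eb j := Subtype.ext hy
    change (eb (eb.symm (eb i) * eb.symm (eb j))).1 = _
    rw [Equiv.symm_apply_apply, Equiv.symm_apply_apply]
    exact heb _
  have hga : IsGroupIn a := by
    refine ⟨g, fun x y z => ?_⟩
    rw [plain_opGraph, mem_NN, hg]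
    obtain ⟨i, hi⟩ := (ha x.1).1 x.2
    obtain ⟨j, hj⟩ := (ha y.1).1 y.2
    constructor
    · rintro rfl
      refine ⟨i, j, ?_⟩
      rw [hi, hj, hma x y i j hi hj]
    · rintro ⟨i', j', h⟩
      obtain ⟨h1, h2⟩ := op_inj h
      obtain ⟨h3, h4⟩ := op_inj h1
      exact Subtype.ext ((hma x y i' j' h3 h4).trans h2.symm)
  have hgb : IsGroupIn b := by
    refine ⟨g, fun x y z => ?_⟩
    rw [plain_opGraph, mem_NN, hg]
    obtain ⟨i, hi⟩ := (hb x.1).1 x.2
    obtain ⟨j, hj⟩ := (hb y.1).1 y.2
    constructor
    · rintro rfl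
      refine ⟨(i, 1), (j, 1), ?_⟩
      rw [hi, hj, hmb x y i j hi hj, Prod.mk_mul_mk, mul_one]
    · rintro ⟨i', j', h⟩
      obtain ⟨h1, h2⟩ := op_inj h
      obtain ⟨h3, h4⟩ := op_inj h1
      obtain rfl := (cc_inj hG).1 (hi.symm.trans h3)
      obtain rfl := (cc_inj hG).1 (hj.symm.trans h4)
      rw [Prod.mk_mul_mk, mul_one] at h2
      exact Subtype.ext ((hmb x y i j hi hj).trans h2.symm)
  have hsub : IsSubgroupIn b a := by
    have hba : ∀ x, Plain.Mem x b → Plain.Mem x a := fun x hx => by
      obtain ⟨h, rfl⟩ := (hb x).1 hx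
      exact (ha _).2 ⟨_, rfl⟩
    refine ⟨hba, fun x y => ?_⟩
    obtain ⟨i, hi⟩ := (hb x.1).1 x.2
    obtain ⟨j, hj⟩ := (hb y.1).1 y.2
    refine Subtype.ext ?_
    rw [hma (incl hba x) (incl hba y) (i, 1) (j, 1) hi hj, Prod.mk_mul_mk, mul_one]
    exact hmb x y i j hi hj
  obtain ⟨r, iF, iL, iO, hr⟩ := hR
  have hA : Amenable a := ⟨r, iF, iL, iO, hr, exists_mean hG ha hg hma⟩
  obtain ⟨r', iF', iL', iO', hr', μ, hμ, hm⟩ := hS a b hga hgb hsub hA
  exact not_mean hG Q hb hmb hr' hμ hm

end

/-- The conclusion for countable models of Collection, given real numbers. -/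
theorem conclusion (M : Type u) [L.Structure M] [IsModel M] [Countable M] (hC : CollL M)
    (hR : ∀ (N : Type u) (_ : LSet.Structure N), Plain.Zermelo N →
      ∃ (r : N) (_ : Field (Plain.El r)) (_ : LinearOrder (Plain.El r))
        (_ : IsStrictOrderedRing (Plain.El r)), IsReals r) :
    ∃ (N : Type u) (_ : LSet.Structure N), ZF N ∧ ¬ SubgroupsAmenable N := by
  obtain ⟨Q⟩ := nonempty_parts (M := M)
  have p₀ : PP M (XX M) := ⟨sep M fun _ => False, fun i k d d' h =>
    absurd h (fun h => (mem_sep (Int.const False)).1 h), 0, fun c h =>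
    absurd h (fun h => (mem_sep (Int.const False)).1 h)⟩
  obtain ⟨G, hG⟩ := exists_gen (M := M) p₀
  exact ⟨NN (SS M (XX M)) hG, inferInstance, nn_zf hG hC,
    not_subgroupsAmenable hG Q (hR _ _ (nn_zermelo hG))⟩

end Pool.Agent.Helper672.ZFA.H635
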