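import Pool.Agent.H635R2.Name
import Pool.Agent.Helper672.SIK.Plain

/-!
# The forcing relation for formulas
-/

namespace Pool.Agent.Helper672.ZFA.H635

open FirstOrder FirstOrder.Language
open Pool.Agent.Helper672.Plain (LSet)

universe u

section

variable {M : Type u} [L.Structure M] [hM : IsModel M]
variable {P Γ : Type u} [ITy M P] [Preorder P] [ILE M P] [ITy M Γ] [Group Γ] [IMul M Γ]
  [IInv M Γ] [MulAction Γ P] [ISMul M Γ P]
variable {Λ : Type u} [ITy M Λ] {S : SymSys M P Γ Λ}
variable {α β : Type u} [ITy M α] [ITy M β]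

/-- Forced equality of names. -/
def FEqN (p : P) (x y : Nm S) : Prop := FEq M x.E y.E p x.root y.root

/-- Forced membership of names. -/
def FMemN (p : P) (x y : Nm S) : Prop := FMem M x.E y.E p x.root y.root

theorem FEqN.refl (p : P) (x : Nm S) : FEqN p x x := FEq.refl _ _

theorem FEqN.symm {p : P} {x y : Nm S} (h : FEqN p x y) : FEqN p y x :=
  FEq.symm x.int y.int h

theorem FEqN.trans {p : P} {x y z : Nm S} (h : FEqN p x y) (h' : FEqN p y z) : FEqN p x z :=
  FEq.trans x.int y.int z.int h h'

theorem FEqN.mono {p q : P} {x y : Nm S} (h : FEqN p x y) (hq : q ≤ p) : FEqN q x y :=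
  FEq.mono h hq

theorem FMemN.mono {p q : P} {x y : Nm S} (h : FMemN p x y) (hq : q ≤ p) : FMemN q x y :=
  FMem.mono h hq

theorem FMemN.congr {p : P} {x y x' y' : Nm S} (h : FMemN p x y) (hx : FEqN p x x')
    (hy : FEqN p y y') : FMemN p x' y' :=
  FMem.congr_left x'.int x.int y'.int hx.symm (FMem.congr_right x.int y.int y'.int h hy)

/-- The action on names. -/
noncomputable def actN (π : Γ) (x : Nm S) : Nm S := mkNm (x.good.tw S π) x.root

theorem feq_actN (π : Γ) (x : Nm S) (p : P) :
    FEq M (tw π x.E) (actN π x).E p x.root (actN π x).root := feq_mkNm _ _ _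

theorem FEqN.act (π : Γ) {p : P} {x y : Nm S} (h : FEqN p x y) :
    FEqN (π • p) (actN π x) (actN π y) := by
  have h1 := feq_tw S π h
  have h2 := feq_actN π x (π • p)
  have h3 := feq_actN π y (π • p)
  have hx := x.int.tw π
  have hy := y.int.tw π
  exact ((h2.symm hx (actN π x).int).trans (actN π x).int hx hy h1).trans (actN π x).int hy
    (actN π y).int h3

theorem FMemN.act (π : Γ) {p : P} {x y : Nm S} (h : FMemN p x y) :
    FMemN (π • p) (actN π x) (actN π y) := by
  have h1 := fmem_tw S π h
  have h2 := feq_actN π x (π • p)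
  have h3 := feq_actN π y (π • p)
  have hx := x.int.tw π
  have hy := y.int.tw π
  exact FMem.congr_left (actN π x).int hx (actN π y).int (h2.symm hx (actN π x).int)
    (FMem.congr_right hx hy (actN π y).int h1 h3)

theorem actN_actN (π σ : Γ) (x : Nm S) (p : P) : FEqN p (actN π (actN σ x)) (actN (π * σ) x) := by
  have h1 := feq_actN (π * σ) x p
  have h2 := feq_actN π (actN σ x) p
  have h3 := feq_tw S π (feq_actN σ x (π⁻¹ • p))
  rw [smul_inv_smul, ← tw_mul] at h3
  have i1 := x.int.tw (π * σ)
  have i2 := (actN σ x).int.tw π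
  exact ((h2.symm i2 (actN π (actN σ x)).int).trans (actN π (actN σ x)).int i2 i1
    (h3.symm i1 i2)).trans (actN π (actN σ x)).int i1 (actN (π * σ) x).int h1

theorem actN_one (x : Nm S) (p : P) : FEqN p (actN 1 x) x := by
  have h1 := feq_actN 1 x p
  rw [tw_one] at h1
  exact h1.symm x.int (actN 1 x).int

theorem actN_actN_inv (π : Γ) (x : Nm S) (p : P) : FEqN p (actN π (actN π⁻¹ x)) x := by
  have h := actN_actN π π⁻¹ x p
  rw [mul_inv_cancel] at h
  exact h.trans (actN_one x p)

theorem FEqN.act_iff (π : Γ) {p : P} {x y : Nm S} :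
    FEqN (π • p) (actN π x) (actN π y) ↔ FEqN p x y := by
  refine ⟨fun h => ?_, FEqN.act π⟩
  have h1 := h.act π⁻¹
  rw [inv_smul_smul] at h1
  have h2 := actN_actN_inv π⁻¹ x p
  have h3 := actN_actN_inv π⁻¹ y p
  rw [inv_inv] at h2 h3
  exact (h2.symm.trans h1).trans h3

theorem FMemN.act_iff (π : Γ) {p : P} {x y : Nm S} :
    FMemN (π • p) (actN π x) (actN π y) ↔ FMemN p x y := by
  refine ⟨fun h => ?_, FMemN.act π⟩
  have h1 := h.act π⁻¹
  rw [inv_smul_smul] at h1
  have h2 := actN_actN_inv π⁻¹ x p
  have h3 := actN_actN_inv π⁻¹ y p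
  rw [inv_inv] at h2 h3
  exact h1.congr h2 h3

/-! ### Formulas -/

/-- The value of a term (all terms are variables). -/
def tval {κ : Type} {ν : Type u} (w : κ → ν) : LSet.Term κ → ν
  | Term.var i => w i
  | Term.func f _ => Empty.elim f

/-- The forcing relation. -/
def Force {ι : Type} : {n : ℕ} → LSet.BoundedFormula ι n → (ι → Nm S) → (Fin n → Nm S) → P → Prop
  | _, BoundedFormula.falsum, _, _, _ => False
  | _, BoundedFormula.equal t₁ t₂, v, xs, p => FEqN p (tval (Sum.elim v xs) t₁)
      (tval (Sum.elim v xs) t₂)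
  | _, BoundedFormula.rel R ts, v, xs, p => match R, ts with
      | Plain.Sym.mem, ts => FMemN p (tval (Sum.elim v xs) (ts 0)) (tval (Sum.elim v xs) (ts 1))
  | _, BoundedFormula.imp φ ψ, v, xs, p => ∀ q, q ≤ p → Force φ v xs q → Force ψ v xs q
  | _, BoundedFormula.all φ, v, xs, p => ∀ x, Force φ v (Fin.snoc xs x) p

theorem Force.mono {ι : Type} {n : ℕ} {φ : LSet.BoundedFormula ι n} {v : ι → Nm S}
    {xs : Fin n → Nm S} {p q : P} (h : Force φ v xs p) (hq : q ≤ p) : Force φ v xs q := by
  induction φ with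
  | falsum => exact h
  | equal t₁ t₂ => exact FEqN.mono h hq
  | rel R ts => cases R; exact FMemN.mono h hq
  | imp φ ψ _ _ => exact fun r hr h' => h r (hr.trans hq) h'
  | all φ ih => exact fun x => ih (h x)

theorem Force.of_dense {ι : Type} {n : ℕ} {φ : LSet.BoundedFormula ι n} {v : ι → Nm S}
    {xs : Fin n → Nm S} {p : P} (h : ∀ q, q ≤ p → ∃ r, r ≤ q ∧ Force φ v xs r) :
    Force φ v xs p := by
  induction φ generalizing p with
  | falsum => obtain ⟨r, _, h1⟩ := h p le_rfl; exact h1
  | equal t₁ t₂ => exact FEq.of_dense (Nm.int _) (Nm.int _) h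
  | rel R ts => cases R; exact FMem.of_dense h
  | imp φ ψ _ ih =>
    intro q hq h1
    refine ih fun q' hq' => ?_
    obtain ⟨r, hr, h2⟩ := h q' (hq'.trans hq)
    exact ⟨r, hr, h2 r le_rfl (h1.mono (hr.trans hq'))⟩
  | all φ ih =>
    intro x
    refine ih fun q hq => ?_
    obtain ⟨r, hr, h2⟩ := h q hq
    exact ⟨r, hr, h2 x⟩

theorem tval_congr {κ : Type} {v w : κ → Nm S} {p : P} (h : ∀ i, FEqN p (v i) (w i))
    (t : LSet.Term κ) : FEqN p (tval v t) (tval w t) := by
  cases t with
  | var i => exact h i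
  | func f _ => exact Empty.elim f

theorem Force.congr_aux {ι : Type} {n : ℕ} {φ : LSet.BoundedFormula ι n} {v v' : ι → Nm S}
    {xs xs' : Fin n → Nm S} {p : P} (h1 : ∀ i, FEqN p (v i) (v' i))
    (h2 : ∀ i, FEqN p (xs i) (xs' i)) : Force φ v xs p ↔ Force φ v' xs' p := by
  induction φ generalizing p with
  | falsum => exact Iff.rfl
  | equal t₁ t₂ =>
    have h3 : ∀ i, FEqN p (Sum.elim v xs i) (Sum.elim v' xs' i) := by
      rintro (i | i)
      · exact h1 i
      · exact h2 i
    constructor
    · intro h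
      exact ((tval_congr h3 t₁).symm.trans h).trans (tval_congr h3 t₂)
    · intro h
      exact ((tval_congr h3 t₁).trans h).trans (tval_congr h3 t₂).symm
  | rel R ts =>
    have h3 : ∀ i, FEqN p (Sum.elim v xs i) (Sum.elim v' xs' i) := by
      rintro (i | i)
      · exact h1 i
      · exact h2 i
    cases R
    constructor
    · intro h
      exact FMemN.congr h (tval_congr h3 _) (tval_congr h3 _)
    · intro h
      exact FMemN.congr h (tval_congr h3 _).symm (tval_congr h3 _).symm
  | imp φ ψ ih1 ih2 =>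
    have h3 : ∀ q, q ≤ p → (Force φ v xs q ↔ Force φ v' xs' q) := fun q hq =>
      ih1 (fun i => (h1 i).mono hq) (fun i => (h2 i).mono hq)
    have h4 : ∀ q, q ≤ p → (Force ψ v xs q ↔ Force ψ v' xs' q) := fun q hq =>
      ih2 (fun i => (h1 i).mono hq) (fun i => (h2 i).mono hq)
    exact forall_congr' fun q => forall_congr' fun hq => imp_congr (h3 q hq) (h4 q hq)
  | all φ ih =>
    refine forall_congr' fun x => ih h1 fun i => ?_
    refine Fin.lastCases ?_ (fun j => ?_) i
    · simp only [Fin.snoc_last]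
      exact FEqN.refl _ _
    · simp only [Fin.snoc_castSucc]
      exact h2 j

theorem tval_comp {κ : Type} {v : κ → Nm S} (f : Nm S → Nm S) (t : LSet.Term κ) :
    tval (fun i => f (v i)) t = f (tval v t) := by
  cases t with
  | var i => rfl
  | func f _ => exact Empty.elim f

/-- The symmetry lemma. -/
theorem Force.act_iff {ι : Type} {n : ℕ} (π : Γ) {φ : LSet.BoundedFormula ι n} {v : ι → Nm S}
    {xs : Fin n → Nm S} {p : P} : Force φ (fun i => actN π (v i)) (fun i => actN π (xs i)) (π • p) ↔
      Force φ v xs p := by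
  induction φ generalizing p with
  | falsum => exact Iff.rfl
  | @equal n t₁ t₂ =>
    have h : (Sum.elim (fun i => actN π (v i)) (fun i => actN π (xs i)) : ι ⊕ Fin n → Nm S) =
        fun i => actN π (Sum.elim v xs i) := by
      funext i
      rcases i with i | i <;> rfl
    change FEqN _ (tval _ t₁) (tval _ t₂) ↔ FEqN _ _ _
    rw [h, tval_comp, tval_comp]
    exact FEqN.act_iff π
  | @rel n k R ts =>
    have h : (Sum.elim (fun i => actN π (v i)) (fun i => actN π (xs i)) : ι ⊕ Fin n → Nm S) =
        fun i => actN π (Sum.elim v xs i) := by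
      funext i
      rcases i with i | i <;> rfl
    cases R
    change FMemN _ (tval _ (ts 0)) (tval _ (ts 1)) ↔ FMemN _ _ _
    rw [h, tval_comp, tval_comp]
    exact FMemN.act_iff π
  | imp φ ψ ih1 ih2 =>
    constructor
    · intro h q hq h1
      exact ih2.1 (h (π • q) (S.smul_le π hq) (ih1.2 h1))
    · intro h q hq h1
      have h2 : π⁻¹ • q ≤ p := by
        have := S.smul_le π⁻¹ hq
        simpa using this
      have h3 : q = π • π⁻¹ • q := by simp
      rw [h3] at h1 ⊢
      exact ih2.2 (h _ h2 (ih1.1 h1))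
  | all φ ih =>
    have hs : ∀ x, (fun i => actN π (Fin.snoc (α := fun _ => Nm S) xs x i)) =
        Fin.snoc (α := fun _ => Nm S) (fun i => actN π (xs i)) (actN π x) := by
      intro x
      funext i
      refine Fin.lastCases ?_ (fun j => ?_) i
      · simp only [Fin.snoc_last]
      · simp only [Fin.snoc_castSucc]
    constructor
    · intro h x
      have h1 := h (actN π x)
      rw [← hs] at h1
      exact ih.1 h1
    · intro h x
      have h1 := ih.2 (h (actN π⁻¹ x))
      rw [hs] at h1
      refine (Force.congr_aux (fun i => FEqN.refl _ _) fun i => ?_).1 h1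
      refine Fin.lastCases ?_ (fun j => ?_) i
      · simp only [Fin.snoc_last]
        exact actN_actN_inv π x _
      · simp only [Fin.snoc_castSucc]
        exact FEqN.refl _ _

end

end Pool.Agent.Helper672.ZFA.H635
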