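import Pool.Agent.H635R2.Force

/-!
# The forcing relation is definable
-/

namespace Pool.Agent.Helper672.ZFA.H635

open FirstOrder FirstOrder.Language
open Pool.Agent.Helper672.Plain (LSet)

universe u

section

variable {M : Type u} [L.Structure M] [hM : IsModel M]
variable {P Γ : Type u} [ITy M P] [Preorder P] [ILE M P] [ITy M Γ] [Group Γ] [IMul M Γ]
  [IInv M Γ] [MulAction Γ P] [ISMul M Γ P]
variable {Λ : Type u} [ITy M Λ] {S : SymSys M P Γ Λ}

/-- Being a name, in the language of set theory. -/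
def IsNmM (le act UU DP DL x : M) : Prop :=
  Mem (rn x) (Tn x) ∧
  (∀ s, (∃ a, Mem a s ∧ Mem a (Tn x)) → ∃ a, (Mem a s ∧ Mem a (Tn x)) ∧
    ∀ a' q, Mem a' s → Mem a' (Tn x) → Mem q DP → ¬ Mem (op (op a' q) a) (En x)) ∧
  (∀ a, Mem a (Tn x) → ∃ l, Mem l DL ∧ ∀ g, Mem (op l g) UU → ∀ p, Mem p DP →
    FEqM le act g x a x a p)

theorem D.isNmM₀ : D (fun v : Fin 6 → M =>
    IsNmM (v 0) (v 1) (v 2) (v 3) (v 4) (v 5)) := by
  unfold IsNmM Tn En rn
  (repeat' (first | with_reducible apply D.feqM | with_reducible exact DF.var _ | with_reducible exact DF.const _ | assumption | with_reducible apply D.and | with_reducible apply D.or | with_reducible apply D.not | with_reducible apply D.imp | with_reducible apply D.iff | with_reducible apply D.eqf | with_reducible apply D.memf | with_reducible apply D.all | with_reducible apply D.ex | with_reducible apply DF.op | with_reducible apply DF.up | with_reducible apply DF.fst | with_reducible apply DF.snd))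

variable (S) in
/-- The subgroups as an element of the model. -/
noncomputable def UUc : M := gr (M := M) S.int_U

theorem mem_UUc {l g : M} : Mem (op l g) (UUc S) ↔
    ∃ (l' : Λ) (g' : Γ), l = code l' ∧ g = code g' ∧ S.U l' g' := by
  unfold UUc
  rw [mem_gr]
  constructor
  · rintro ⟨⟨p', q'⟩, h1, h2⟩
    obtain ⟨h3, h4⟩ := op_inj (h2 : op (code p') (code q') = op l g)
    exact ⟨p', q', h3.symm, h4.symm, h1⟩
  · rintro ⟨p', q', rfl, rfl, h⟩
    exact ⟨(p', q'), h, rfl⟩

theorem isNmM_iff {x : M} : IsNmM (LEc M P) (ACTc M P Γ) (UUc S) (dom M P) (dom M Λ) x ↔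
    IsNm S x := by
  unfold IsNmM IsNm
  refine and_congr_right fun _ => and_congr ?_ ?_
  · constructor
    · intro h s ⟨a, ha⟩
      obtain ⟨a', ⟨h1, h2⟩, h3⟩ := h (code s) ⟨a.1, mem_code_iff.2 ha, a.2⟩
      refine ⟨⟨a', h2⟩, mem_code_iff.1 h1, fun b q hb hE => ?_⟩
      exact h3 b.1 (code q) (mem_code_iff.2 hb) b.2 (code_mem_dom q) hE
    · intro h s ⟨a, ha, ha'⟩
      have hs : Int M (fun a : El (Tn x) => Mem a.1 s) := ⟨s, fun _ => Iff.rfl⟩
      obtain ⟨b, h1, h2⟩ := h ⟨_, hs⟩ ⟨⟨a, ha'⟩, ha⟩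
      refine ⟨b.1, ⟨h1, b.2⟩, fun a' q h3 h4 h5 h6 => ?_⟩
      obtain ⟨q, rfl⟩ := mem_dom.1 h5
      exact h2 ⟨a', h4⟩ q h3 h6
  · constructor
    · intro h a
      obtain ⟨l, h1, h2⟩ := h a.1 a.2
      obtain ⟨l, rfl⟩ := mem_dom.1 h1
      refine ⟨l, fun π hπ p => ?_⟩
      exact (feqM_iff (g := π) (x := x) (y := x) (a := a) (b := a) (p := p)).1
        (h2 (code π) (mem_UUc.2 ⟨l, π, rfl, rfl, hπ⟩) (code p) (code_mem_dom p))
    · intro h a ha
      obtain ⟨l, hl⟩ := h ⟨a, ha⟩
      refine ⟨code l, code_mem_dom l, fun g hg p hp => ?_⟩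
      obtain ⟨l', π, h1, rfl, h2⟩ := mem_UUc.1 hg
      obtain rfl := ITy.inj h1
      obtain ⟨p, rfl⟩ := mem_dom.1 hp
      exact (feqM_iff (g := π) (x := x) (y := x) (a := ⟨a, ha⟩) (b := ⟨a, ha⟩) (p := p)).2
        (hl π h2 p)

theorem D.isNmM {ι : Type} {le act UU DP DL x : (ι → M) → M} (h0 : DF le) (h1 : DF act)
    (h2 : DF UU) (h3 : DF DP) (h4 : DF DL) (h5 : DF x) :
    D (fun v => IsNmM (le v) (act v) (UU v) (DP v) (DL v) (x v)) := by
  have h := D.subst (f := ![le, act, UU, DP, DL, x]) (D.isNmM₀ (M := M)) (by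
    intro k
    fin_cases k <;> assumption)
  exact h

theorem D.congr {ι : Type} {p q : (ι → M) → Prop} (h : D p) (hpq : ∀ v, p v ↔ q v) : D q := by
  have : p = q := funext fun v => propext (hpq v)
  exact this ▸ h

theorem D.isNm {ι : Type} {f : (ι → M) → M} (hf : DF f) : D (fun v => IsNm S (f v)) :=
  D.congr (D.isNmM (DF.const _) (DF.const _) (DF.const _) (DF.const _) (DF.const _) hf)
    fun _ => isNmM_iff

/-- Forced equality of names in the language of set theory. -/
def FEqNM (le act one p x y : M) : Prop := FEqM le act one x (rn x) y (rn y) p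

/-- Forced membership of names in the language of set theory. -/
def FMemNM (le act one p x y : M) : Prop :=
  ∀ q, Mem (op q p) le → ∃ q', Mem (op q' q) le ∧ ∃ b' s, (Mem b' (Tn y) ∧
    Mem (op (op b' s) (rn y)) (En y)) ∧ Mem (op q' s) le ∧ FEqM le act one x (rn x) y b' q'

theorem D.feqNM₀ : D (fun v : Fin 6 → M => FEqNM (v 0) (v 1) (v 2) (v 3) (v 4) (v 5)) := by
  unfold FEqNM rn
  (repeat' (first | with_reducible apply D.feqM | with_reducible exact DF.var _ | with_reducible exact DF.const _ | assumption | with_reducible apply D.and | with_reducible apply D.or | with_reducible apply D.not | with_reducible apply D.imp | with_reducible apply D.iff | with_reducible apply D.eqf | with_reducible apply D.memf | with_reducible apply D.all | with_reducible apply D.ex | with_reducible apply DF.op | with_reducible apply DF.up | with_reducible apply DF.fst | with_reducible apply DF.snd))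

theorem D.fmemNM₀ : D (fun v : Fin 6 → M => FMemNM (v 0) (v 1) (v 2) (v 3) (v 4) (v 5)) := by
  unfold FMemNM rn Tn En
  (repeat' (first | with_reducible apply D.feqM | with_reducible exact DF.var _ | with_reducible exact DF.const _ | assumption | with_reducible apply D.and | with_reducible apply D.or | with_reducible apply D.not | with_reducible apply D.imp | with_reducible apply D.iff | with_reducible apply D.eqf | with_reducible apply D.memf | with_reducible apply D.all | with_reducible apply D.ex | with_reducible apply DF.op | with_reducible apply DF.up | with_reducible apply DF.fst | with_reducible apply DF.snd))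

theorem feqNM_iff {x y : Nm S} {p : P} :
    FEqNM (LEc M P) (ACTc M P Γ) (code (1 : Γ)) (code p) x.1 y.1 ↔ FEqN p x y := by
  have h := feqM_iff (g := (1 : Γ)) (a := x.root) (b := y.root) (p := p)
  rw [tw_one] at h
  exact h

theorem fmemNM_iff {x y : Nm S} {p : P} :
    FMemNM (LEc M P) (ACTc M P Γ) (code (1 : Γ)) (code p) x.1 y.1 ↔ FMemN p x y := by
  unfold FMemNM FMemN FMem
  constructor
  · intro h q hq
    obtain ⟨q', h1, b', s, ⟨h2, h3⟩, h4, h5⟩ := h (code q) (mem_LEc.2 ⟨_, _, rfl, rfl, hq⟩)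
    obtain ⟨q1, q2, rfl, h11, h12⟩ := mem_LEc.1 h1
    obtain rfl := ITy.inj h11
    obtain ⟨q3, s1, h13, rfl, h14⟩ := mem_LEc.1 h4
    obtain rfl := ITy.inj h13
    have h6 := feqM_iff (g := (1 : Γ)) (a := x.root) (b := (⟨b', h2⟩ : El (Tn y.1))) (p := q1)
    rw [tw_one] at h6
    exact ⟨q1, h12, ⟨b', h2⟩, s1, h3, h14, h6.1 h5⟩
  · intro h q hq
    obtain ⟨q1, q2, rfl, h11, h12⟩ := mem_LEc.1 hq
    obtain rfl := ITy.inj h11
    obtain ⟨q', h1, b', s, h3, h4, h5⟩ := h q1 h12
    have h6 := feqM_iff (g := (1 : Γ)) (a := x.root) (b := b') (p := q')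
    rw [tw_one] at h6
    exact ⟨code q', mem_LEc.2 ⟨_, _, rfl, rfl, h1⟩, b'.1, code s, ⟨b'.2, h3⟩,
      mem_LEc.2 ⟨_, _, rfl, rfl, h4⟩, h6.2 h5⟩

theorem D.feqNM {ι : Type} {c d e x y p : (ι → M) → M} (hc : DF c) (hd : DF d) (he : DF e)
    (hx : DF x) (hy : DF y) (hp : DF p) : D (fun v => FEqNM (c v) (d v) (e v) (p v) (x v) (y v)) := by
  have h := D.subst (f := ![c, d, e, p, x, y]) (D.feqNM₀ (M := M)) (by
    intro k
    fin_cases k <;> assumption)
  exact h

theorem D.fmemNM {ι : Type} {c d e x y p : (ι → M) → M} (hc : DF c) (hd : DF d) (he : DF e)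
    (hx : DF x) (hy : DF y) (hp : DF p) : D (fun v => FMemNM (c v) (d v) (e v) (p v) (x v) (y v)) := by
  have h := D.subst (f := ![c, d, e, p, x, y]) (D.fmemNM₀ (M := M)) (by
    intro k
    fin_cases k <;> assumption)
  exact h

theorem D.false {ι : Type} : D (fun _ : ι → M => False) := Set.definable_empty

theorem tval_val {κ : Type} (w : κ → Nm S) (t : LSet.Term κ) :
    tval (fun i => (w i).1) t = (tval w t).1 := by
  cases t with
  | var i => rfl
  | func f _ => exact Empty.elim f

theorem DF.tval {κ ι : Type} {w : (ι → M) → κ → M} (hw : ∀ k, DF (fun v => w v k))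
    (t : LSet.Term κ) : DF (fun v => tval (w v) t) := by
  cases t with
  | var i => exact hw i
  | func f _ => exact Empty.elim f

variable (S) in
/-- The forcing relation in the language of set theory. -/
def ForceM {ι : Type} : {n : ℕ} → LSet.BoundedFormula ι n → (ι → M) → (Fin n → M) → M → Prop
  | _, BoundedFormula.falsum, _, _, _ => False
  | _, BoundedFormula.equal t₁ t₂, v, xs, p => FEqNM (LEc M P) (ACTc M P Γ) (code (1 : Γ)) p
      (H635.tval (Sum.elim v xs) t₁) (H635.tval (Sum.elim v xs) t₂)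
  | _, BoundedFormula.rel R ts, v, xs, p => match R, ts with
      | Plain.Sym.mem, ts => FMemNM (LEc M P) (ACTc M P Γ) (code (1 : Γ)) p
        (H635.tval (Sum.elim v xs) (ts 0)) (H635.tval (Sum.elim v xs) (ts 1))
  | _, BoundedFormula.imp φ ψ, v, xs, p => ∀ q, Mem (op q p) (LEc M P) → ForceM φ v xs q →
      ForceM ψ v xs q
  | _, BoundedFormula.all φ, v, xs, p => ∀ x, IsNm S x → ForceM φ v (Fin.snoc xs x) p

theorem D.forceM {ι : Type} {n : ℕ} (φ : LSet.BoundedFormula ι n) :
    D (fun w : (ι ⊕ Fin n) ⊕ Unit → M => ForceM S φ (fun i => w (Sum.inl (Sum.inl i)))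
      (fun i => w (Sum.inl (Sum.inr i))) (w (Sum.inr ()))) := by
  induction φ with
  | falsum => exact D.false
  | equal t₁ t₂ =>
    refine D.feqNM (DF.const _) (DF.const _) (DF.const _) ?_ ?_ (DF.var _)
    · refine DF.tval (w := fun w => Sum.elim (fun i => w (Sum.inl (Sum.inl i)))
        (fun i => w (Sum.inl (Sum.inr i)))) ?_ t₁
      rintro (i | i)
      · exact DF.var _
      · exact DF.var _
    · refine DF.tval (w := fun w => Sum.elim (fun i => w (Sum.inl (Sum.inl i)))
        (fun i => w (Sum.inl (Sum.inr i)))) ?_ t₂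
      rintro (i | i)
      · exact DF.var _
      · exact DF.var _
  | rel R ts =>
    cases R
    refine D.fmemNM (DF.const _) (DF.const _) (DF.const _) ?_ ?_ (DF.var _)
    · refine DF.tval (w := fun w => Sum.elim (fun i => w (Sum.inl (Sum.inl i)))
        (fun i => w (Sum.inl (Sum.inr i)))) ?_ (ts 0)
      rintro (i | i)
      · exact DF.var _
      · exact DF.var _
    · refine DF.tval (w := fun w => Sum.elim (fun i => w (Sum.inl (Sum.inl i)))
        (fun i => w (Sum.inl (Sum.inr i)))) ?_ (ts 1)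
      rintro (i | i)
      · exact DF.var _
      · exact DF.var _
  | @imp n φ ψ ih1 ih2 =>
    refine D.all (D.imp (D.memf (DF.op (DF.var _) (DF.var _)) (DF.const _)) (D.imp ?_ ?_))
    · exact ih1.reindex (Sum.elim (fun i => Sum.inl (Sum.inl i)) (fun _ => Sum.inr ()))
    · exact ih2.reindex (Sum.elim (fun i => Sum.inl (Sum.inl i)) (fun _ => Sum.inr ()))
  | @all n φ ih =>
    refine D.all (D.imp (D.isNm (DF.var _)) ?_)
    have h := ih.reindex (κ := ((ι ⊕ Fin n) ⊕ Unit) ⊕ Unit) (Sum.elim (Sum.elim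
      (fun i => Sum.inl (Sum.inl (Sum.inl i)))
      (Fin.snoc (α := fun _ => ((ι ⊕ Fin n) ⊕ Unit) ⊕ Unit)
        (fun i => Sum.inl (Sum.inl (Sum.inr i))) (Sum.inr ())))
      (fun _ => Sum.inl (Sum.inr ())))
    refine Eq.mp (congrArg D ?_) h
    funext w
    refine congrArg (fun xs => ForceM S φ _ xs _) ?_
    funext i
    refine Fin.lastCases ?_ (fun j => ?_) i
    · simp only [Sum.elim_inl, Sum.elim_inr, Fin.snoc_last]
    · simp only [Sum.elim_inl, Sum.elim_inr, Fin.snoc_castSucc]

theorem forceM_iff {ι : Type} {n : ℕ} {φ : LSet.BoundedFormula ι n} {v : ι → Nm S}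
    {xs : Fin n → Nm S} {p : P} :
    ForceM S φ (fun i => (v i).1) (fun i => (xs i).1) (code p) ↔ Force φ v xs p := by
  induction φ generalizing p with
  | falsum => exact Iff.rfl
  | @equal n t₁ t₂ =>
    have h : (Sum.elim (fun i => (v i).1) (fun i => (xs i).1) : ι ⊕ Fin n → M) =
        fun i => (Sum.elim v xs i).1 := by
      funext i
      rcases i with i | i <;> rfl
    change FEqNM _ _ _ _ (H635.tval _ t₁) (H635.tval _ t₂) ↔ FEqN _ _ _
    rw [h, tval_val, tval_val]
    exact feqNM_iff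
  | @rel n k R ts =>
    have h : (Sum.elim (fun i => (v i).1) (fun i => (xs i).1) : ι ⊕ Fin n → M) =
        fun i => (Sum.elim v xs i).1 := by
      funext i
      rcases i with i | i <;> rfl
    cases R
    change FMemNM _ _ _ _ (H635.tval _ (ts 0)) (H635.tval _ (ts 1)) ↔ FMemN _ _ _
    rw [h, tval_val, tval_val]
    exact fmemNM_iff
  | imp φ ψ ih1 ih2 =>
    constructor
    · intro h q hq h1
      exact ih2.1 (h (code q) (mem_LEc.2 ⟨_, _, rfl, rfl, hq⟩) (ih1.2 h1))
    · intro h q hq h1
      obtain ⟨q1, q2, rfl, h11, h12⟩ := mem_LEc.1 hq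
      obtain rfl := ITy.inj h11
      exact ih2.2 (h q1 h12 (ih1.1 h1))
  | @all n φ ih =>
    have hs : ∀ x : Nm S, (fun i => (Fin.snoc (α := fun _ => Nm S) xs x i).1) =
        Fin.snoc (α := fun _ => M) (fun i => (xs i).1) x.1 := by
      intro x
      funext i
      refine Fin.lastCases ?_ (fun j => ?_) i
      · simp only [Fin.snoc_last]
      · simp only [Fin.snoc_castSucc]
    constructor
    · intro h x
      have h1 := h x.1 x.2
      rw [← hs] at h1
      exact ih.1 h1
    · intro h x hx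
      have h1 := ih.2 (h ⟨x, hx⟩)
      rw [hs] at h1
      exact h1

end

end Pool.Agent.Helper672.ZFA.H635
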