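import Pool.Agent.H635R2.ForceD

/-!
# Generic filters, the extension, and the truth lemma
-/

namespace Pool.Agent.Helper672.ZFA.H635

open FirstOrder FirstOrder.Language
open Pool.Agent.Helper672.Plain (LSet)

universe u

section subst

variable {M : Type u} [L.Structure M] {ι κ : Type}

theorem D.substT {p : (κ → M) → Prop} (hp : D p) {f : κ → (ι → M) → M} (hf : ∀ k, T (f k)) :
    D (fun v => p (fun k => f k v)) := by
  obtain ⟨φ, hφ⟩ := hp
  choose τ hτ using hf
  refine ⟨BoundedFormula.subst φ τ, ?_⟩
  ext v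
  simp only [Set.mem_ofPred_eq]
  unfold Formula.Realize
  rw [BoundedFormula.realize_subst]
  have h : {v | p v} = {v | Formula.Realize φ v} := hφ
  have h1 : (fun k => f k v) ∈ {v | p v} ↔ (fun k => f k v) ∈ {v | Formula.Realize φ v} := by
    rw [h]
  simp only [Set.mem_ofPred_eq] at h1
  rw [h1]
  unfold Formula.Realize
  rw [funext fun k => hτ k v]

end subst

section

variable {M : Type u} [L.Structure M] [hM : IsModel M]
variable {P Γ : Type u} [ITy M P] [Preorder P] [ILE M P] [ITy M Γ] [Group Γ] [IMul M Γ]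
  [IInv M Γ] [MulAction Γ P] [ISMul M Γ P]
variable {Λ : Type u} [ITy M Λ] {S : SymSys M P Γ Λ}
variable {α β ε : Type u} [ITy M α] [ITy M β] [ITy M ε]

theorem int_force {A : Type} {k : ℕ} (φ : LSet.Formula (A ⊕ Fin k)) (params : A → Nm S)
    (y : ε → Fin k → Nm S) (F : Fin k → (Unit → M) → M) (hF : ∀ j, DF (F j))
    (hy : ∀ c j, (y c j).1 = F j (fun _ => code c)) {xs : Fin 0 → Nm S} :
    Int M (fun q : ε × P => Force φ (Sum.elim params (y q.1)) xs q.2) := by
  have h1 := D.substT (ι := Fin k ⊕ Unit) (D.forceM (S := S) φ)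
    (f := fun i v => match i with
      | Sum.inl (Sum.inl (Sum.inl a)) => (params a).1
      | Sum.inl (Sum.inl (Sum.inr j)) => v (Sum.inl j)
      | Sum.inl (Sum.inr j) => (xs j).1
      | Sum.inr () => v (Sum.inr ())) (by
      rintro (((a | j) | j) | j)
      · exact T.const _
      · exact T.var _
      · exact T.const _
      · exact T.var _)
  have h2 := D.subst (ι := Fin 2) h1 (f := fun i v => match i with
      | Sum.inl j => F j (fun _ => v 0)
      | Sum.inr () => v 1) (by
      rintro (j | j)
      · exact (hF j).reindex (fun _ => 0)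
      · exact DF.var _)
  refine Int.of_D₂ h2 fun c p => ?_
  rw [← forceM_iff]
  refine iff_of_eq (congrArg₂ (fun v xs => ForceM S φ v xs (code p)) ?_ rfl)
  funext i
  rcases i with a | j
  · rfl
  · exact (hy c j).symm

/-- Internally generic filters. -/
structure IsGen (M : Type u) [L.Structure M] [IsModel M] {P : Type u} [ITy M P] [Preorder P]
    (G : Set P) : Prop where
  up : ∀ p q, p ∈ G → p ≤ q → q ∈ G
  dir : ∀ p q, p ∈ G → q ∈ G → ∃ r, r ∈ G ∧ r ≤ p ∧ r ≤ q
  ne : ∃ p, p ∈ G
  dense : ∀ s : P → Prop, Int M s → (∀ p, ∃ q, q ≤ p ∧ s q) → ∃ p, p ∈ G ∧ s p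

theorem exists_gen [Countable M] (p₀ : P) : ∃ G : Set P, IsGen M G := by
  classical
  have _ := Encodable.ofCountable M
  let nx : P → M → P := fun p s => if h : ∃ q, q ≤ p ∧ Mem (code q) s then h.choose else p
  have hnx : ∀ p s, nx p s ≤ p := fun p s => by
    by_cases h : ∃ q, q ≤ p ∧ Mem (code q) s
    · simp only [nx, dif_pos h]
      exact h.choose_spec.1
    · simp only [nx, dif_neg h]
      exact le_rfl
  let sq : ℕ → P := fun n => Nat.rec p₀ (fun n p => match (Encodable.decode n : Option M) with
    | none => p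
    | some s => nx p s) n
  have hsq : ∀ n, sq (n + 1) ≤ sq n := fun n => by
    change (match (Encodable.decode n : Option M) with
      | none => sq n
      | some s => nx (sq n) s) ≤ sq n
    cases (Encodable.decode n : Option M) with
    | none => exact le_rfl
    | some s => exact hnx _ _
  have hmono : ∀ m n, sq (m + n) ≤ sq m := fun m n => by
    induction n with
    | zero => exact le_rfl
    | succ n ih => exact (hsq (m + n)).trans ih
  refine ⟨{p | ∃ n, sq n ≤ p}, fun p q ⟨n, hn⟩ hq => ⟨n, hn.trans hq⟩, ?_,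
    ⟨p₀, 0, le_rfl⟩, ?_⟩
  · rintro p q ⟨n, hn⟩ ⟨m, hm⟩
    refine ⟨sq (n + m), ⟨n + m, le_rfl⟩, (hmono n m).trans hn, ?_⟩
    rw [add_comm]
    exact (hmono m n).trans hm
  · rintro s ⟨c, hc⟩ hs
    refine ⟨sq (Encodable.encode c + 1), ⟨Encodable.encode c + 1, le_rfl⟩, (hc _).1 ?_⟩
    change Mem (code (match (Encodable.decode (Encodable.encode c) : Option M) with
      | none => sq (Encodable.encode c)
      | some s => nx (sq (Encodable.encode c)) s)) c
    rw [Encodable.encodek]
    have h : ∃ q, q ≤ sq (Encodable.encode c) ∧ Mem (code q) c := by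
      obtain ⟨q, h1, h2⟩ := hs (sq (Encodable.encode c))
      exact ⟨q, h1, (hc q).2 h2⟩
    simp only [nx, dif_pos h]
    exact h.choose_spec.2

variable {G : Set P} (hG : IsGen M G)
include hG

theorem IsGen.dense_below {s : P → Prop} (hs : Int M s) {p₀ : P} (hp : p₀ ∈ G)
    (h : ∀ p, p ≤ p₀ → ∃ q, q ≤ p ∧ s q) : ∃ p, p ∈ G ∧ p ≤ p₀ ∧ s p := by
  obtain ⟨p, h1, h2⟩ := hG.dense (fun p => (p ≤ p₀ ∧ s p) ∨ ∀ q, q ≤ p → ¬ q ≤ p₀)
    (by (repeat' (first | with_reducible exact IntF.id | with_reducible exact IntF.fst' | with_reducible exact IntF.snd' | with_reducible exact IntF.const _ | with_reducible exact Int.const _ | assumption | with_reducible apply Int.and | with_reducible apply Int.or | with_reducible apply Int.not | with_reducible apply Int.imp | with_reducible apply Int.iff | with_reducible apply Int.ne | with_reducible apply Int.eq | with_reducible apply Int.mem | with_reducible apply Int.subset | with_reducible apply Int.ltN | with_reducible apply Int.leN | with_reducible_and_instances apply Int.le | with_reducible_and_instances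 apply Int.lt | with_reducible apply Int.all | with_reducible apply Int.ex | with_reducible apply IntF.fst | with_reducible apply IntF.snd | with_reducible apply IntF.app | with_reducible apply IntF.inl | with_reducible apply IntF.inr | with_reducible_and_instances apply IntF.mul | with_reducible_and_instances apply IntF.inv | with_reducible_and_instances apply IntF.add | with_reducible_and_instances apply IntF.sub | with_reducible_and_instances apply IntF.neg | with_reducible_and_instances apply IntF.smul | with_reducible apply IntF.succ | with_reducible apply IntF.val | with_reducible apply IntF.mk | (with_reducible refine Int.comp ?_ ?_; assumption) | (with_reducible refine Int.comp₂ ?_ ?_ ?_; assumption) | (with_reducible refine Int.comp₃ ?_ ?_ ?_ ?_; assumption) | (with_reducible refine Int.comp₄ ?_ ?_ ?_ ?_ ?_; assumption) | (with_reducible refine IntF.comp ?_ ?_; assumption) | (with_reducible refine IntF.comp₂ ?_ ?_ ?_; assumption) | (with_reducible refine IntF.comp₃ ?_ ?_ ?_ ?_; assumption) | with_reducible apply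 IntF.pair))) fun p => by
      by_cases h3 : ∃ q, q ≤ p ∧ q ≤ p₀
      · obtain ⟨q, h4, h5⟩ := h3
        obtain ⟨r, h6, h7⟩ := h q h5
        exact ⟨r, h6.trans h4, Or.inl ⟨h6.trans h5, h7⟩⟩
      · exact ⟨p, le_rfl, Or.inr fun q h4 h5 => h3 ⟨q, h4, h5⟩⟩
  rcases h2 with h2 | h2
  · exact ⟨p, h1, h2⟩
  · obtain ⟨r, h3, h4, h5⟩ := hG.dir p p₀ h1 hp
    exact absurd h5 (h2 r h4)

variable (S) in
/-- Two names are identified if some condition in the generic filter forces them to be equal. -/
def nsetoid : Setoid (Nm S) where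
  r x y := ∃ p, p ∈ G ∧ FEqN p x y
  iseqv := ⟨fun x => by
      obtain ⟨p, hp⟩ := hG.ne
      exact ⟨p, hp, FEqN.refl p x⟩,
    fun ⟨p, hp, h⟩ => ⟨p, hp, h.symm⟩,
    fun ⟨p, hp, h⟩ ⟨q, hq, h'⟩ => by
      obtain ⟨r, hr, h1, h2⟩ := hG.dir p q hp hq
      exact ⟨r, hr, (h.mono h1).trans (h'.mono h2)⟩⟩

variable (S) in
/-- The symmetric extension. -/
def NN : Type u := Quotient (nsetoid S hG)

/-- The element given by a name. -/
def NN.mk (x : Nm S) : NN S hG := Quotient.mk (nsetoid S hG) x


theorem mk_eq {x y : Nm S} : NN.mk hG x = NN.mk hG y ↔ ∃ p, p ∈ G ∧ FEqN p x y := Quotient.eq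

theorem exists_mk (x : NN S hG) : ∃ y, NN.mk hG y = x := by
  induction x using Quotient.ind with
  | _ y => exact ⟨y, rfl⟩

/-- Membership. -/
def NN.mem : NN S hG → NN S hG → Prop :=
  Quotient.lift₂ (s₁ := nsetoid S hG) (s₂ := nsetoid S hG) (fun x y => ∃ p, p ∈ G ∧ FMemN p x y)
    (by
      rintro x y x' y' ⟨p, hp, h⟩ ⟨q, hq, h'⟩
      refine propext ⟨?_, ?_⟩
      · rintro ⟨r, hr, h1⟩
        obtain ⟨r1, hr1, h2, h3⟩ := hG.dir p q hp hq
        obtain ⟨r2, hr2, h4, h5⟩ := hG.dir r r1 hr hr1
        exact ⟨r2, hr2, (h1.mono h4).congr (h.mono (h5.trans h2)) (h'.mono (h5.trans h3))⟩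
      · rintro ⟨r, hr, h1⟩
        obtain ⟨r1, hr1, h2, h3⟩ := hG.dir p q hp hq
        obtain ⟨r2, hr2, h4, h5⟩ := hG.dir r r1 hr hr1
        exact ⟨r2, hr2, (h1.mono h4).congr (h.mono (h5.trans h2)).symm
          (h'.mono (h5.trans h3)).symm⟩)

noncomputable instance : LSet.Structure (NN S hG) where
  funMap := fun f => Empty.elim f
  RelMap := fun {_} r v => match r, v with
    | Plain.Sym.mem, v => NN.mem hG (v 0) (v 1)

theorem mem_mk {x y : Nm S} : Plain.Mem (NN.mk hG x) (NN.mk hG y) ↔
    ∃ p, p ∈ G ∧ FMemN p x y := Iff.rfl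

theorem realize_tval {κ : Type} (w : κ → Nm S) (t : LSet.Term κ) :
    t.realize (fun i => NN.mk hG (w i)) = NN.mk hG (tval w t) := by
  cases t with
  | var i => rfl
  | func f _ => exact Empty.elim f

theorem int_force_all {ι : Type} {n : ℕ} (φ : LSet.BoundedFormula ι n) (v : ι → Nm S)
    (xs : Fin n → Nm S) : Int M (fun p : P => Force φ v xs p) := by
  have h1 := D.substT (ι := Fin 1) (D.forceM (S := S) φ)
    (f := fun i v' => match i with
      | Sum.inl (Sum.inl a) => (v a).1
      | Sum.inl (Sum.inr j) => (xs j).1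
      | Sum.inr () => v' 0) (by
      rintro ((a | j) | j)
      · exact T.const _
      · exact T.const _
      · exact T.var _)
  refine Int.of_D h1 fun p => ?_
  rw [← forceM_iff]

theorem int_force_allx {ι : Type} {n : ℕ} (φ : LSet.BoundedFormula ι (n + 1)) (v : ι → Nm S)
    (xs : Fin n → Nm S) :
    Int M (fun p : P => ∃ x : Nm S, ∀ q, q ≤ p → ¬ Force φ v (Fin.snoc xs x) q) := by
  have h0 : D (fun w : (ι ⊕ Fin n) ⊕ Unit → M => ∃ x, IsNm S x ∧ ∀ q,
      Mem (op q (w (Sum.inr ()))) (LEc M P) → ¬ ForceM S φ (fun i => w (Sum.inl (Sum.inl i)))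
      (Fin.snoc (fun i => w (Sum.inl (Sum.inr i))) x) q) := by
    refine D.ex (D.and (D.isNm (DF.var _)) (D.all (D.imp (D.memf (DF.op (DF.var _) (DF.var _))
      (DF.const _)) (D.not ?_))))
    have h := (D.forceM (S := S) φ).reindex (κ := (((ι ⊕ Fin n) ⊕ Unit) ⊕ Unit) ⊕ Unit)
      (Sum.elim (Sum.elim
      (fun i => Sum.inl (Sum.inl (Sum.inl (Sum.inl i))))
      (Fin.snoc (α := fun _ => (((ι ⊕ Fin n) ⊕ Unit) ⊕ Unit) ⊕ Unit)
        (fun i => Sum.inl (Sum.inl (Sum.inl (Sum.inr i)))) (Sum.inl (Sum.inr ()))))
      (fun _ => Sum.inr ()))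
    refine Eq.mp (congrArg D ?_) h
    funext w
    refine congrArg (fun xs => ForceM S φ _ xs _) ?_
    funext i
    refine Fin.lastCases ?_ (fun j => ?_) i
    · simp only [Sum.elim_inl, Sum.elim_inr, Fin.snoc_last]
    · simp only [Sum.elim_inl, Sum.elim_inr, Fin.snoc_castSucc]
  have h1 := D.substT (ι := Fin 1) h0
    (f := fun i v' => match i with
      | Sum.inl (Sum.inl a) => (v a).1
      | Sum.inl (Sum.inr j) => (xs j).1
      | Sum.inr () => v' 0) (by
      rintro ((a | j) | j)
      · exact T.const _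
      · exact T.const _
      · exact T.var _)
  have hs : ∀ x : Nm S, (fun i => (Fin.snoc (α := fun _ => Nm S) xs x i).1) =
      Fin.snoc (α := fun _ => M) (fun i => (xs i).1) x.1 := by
    intro x
    funext i
    refine Fin.lastCases ?_ (fun j => ?_) i
    · simp only [Fin.snoc_last]
    · simp only [Fin.snoc_castSucc]
  refine Int.of_D h1 fun p => ?_
  constructor
  · rintro ⟨x, hx, h2⟩
    refine ⟨⟨x, hx⟩, fun q hq h3 => h2 (code q) (mem_LEc.2 ⟨_, _, rfl, rfl, hq⟩) ?_⟩
    have h4 := forceM_iff.2 h3
    rw [hs] at h4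
    exact h4
  · rintro ⟨x, h2⟩
    refine ⟨x.1, x.2, fun q hq h3 => ?_⟩
    obtain ⟨q1, q2, rfl, h11, h12⟩ := mem_LEc.1 hq
    obtain rfl := ITy.inj h11
    refine h2 q1 h12 (forceM_iff.1 ?_)
    rw [hs]
    exact h3

/-- The truth lemma. -/
theorem truth {ι : Type} {n : ℕ} (φ : LSet.BoundedFormula ι n) (v : ι → Nm S)
    (xs : Fin n → Nm S) :
    φ.Realize (fun i => NN.mk hG (v i)) (fun i => NN.mk hG (xs i)) ↔
      ∃ p, p ∈ G ∧ Force φ v xs p := by
  induction φ with
  | falsum =>
    constructor
    · intro h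
      exact absurd h id
    · rintro ⟨p, _, h⟩
      exact h
  | @equal n t₁ t₂ =>
    have h : (Sum.elim (fun i => NN.mk hG (v i)) (fun i => NN.mk hG (xs i)) :
        ι ⊕ Fin n → NN S hG) = fun i => NN.mk hG (Sum.elim v xs i) := by
      funext i
      rcases i with i | i <;> rfl
    change Term.realize (Sum.elim _ _) t₁ = Term.realize (Sum.elim _ _) t₂ ↔ _
    rw [h, realize_tval, realize_tval]
    exact mk_eq hG
  | @rel n k R ts =>
    have h : (Sum.elim (fun i => NN.mk hG (v i)) (fun i => NN.mk hG (xs i)) :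
        ι ⊕ Fin n → NN S hG) = fun i => NN.mk hG (Sum.elim v xs i) := by
      funext i
      rcases i with i | i <;> rfl
    cases R
    change NN.mem hG (Term.realize (Sum.elim _ _) (ts 0)) (Term.realize (Sum.elim _ _) (ts 1)) ↔ _
    rw [h, realize_tval, realize_tval]
    exact mem_mk (S := S) hG
  | imp φ ψ ih1 ih2 =>
    rw [BoundedFormula.realize_imp, ih1, ih2]
    constructor
    · intro h
      have hI1 := int_force_all (S := S) hG φ v xs
      have hI2 := int_force_all (S := S) hG ψ v xs
      obtain ⟨p, hp, h1⟩ := hG.dense (fun p => (∀ q, q ≤ p → Force φ v xs q → Force ψ v xs q) ∨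
        (Force φ v xs p ∧ ∀ q, q ≤ p → ¬ Force ψ v xs q)) (by
          have hJ1 : Int M (fun q : P × P => Force φ v xs q.2) :=
            Int.comp (p := fun p => Force φ v xs p) hI1 IntF.snd'
          have hJ2 : Int M (fun q : P × P => Force ψ v xs q.2) :=
            Int.comp (p := fun p => Force ψ v xs p) hI2 IntF.snd'
          (repeat' (first | with_reducible exact IntF.id | with_reducible exact IntF.fst' | with_reducible exact IntF.snd' | with_reducible exact IntF.const _ | with_reducible exact Int.const _ | assumption | with_reducible apply Int.and | with_reducible apply Int.or | with_reducible apply Int.not | with_reducible apply Int.imp | with_reducible apply Int.iff | with_reducible apply Int.ne | with_reducible apply Int.eq | with_reducible apply Int.mem | with_reducible apply Int.subset | with_reducible apply Int.ltN | with_reducible apply Int.leN | with_reducible_and_instances apply Int.le | with_reducible_and_instances apply Int.lt | with_reducible apply Int.all | with_reducible apply Int.ex | with_reducible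 apply IntF.fst | with_reducible apply IntF.snd | with_reducible apply IntF.app | with_reducible apply IntF.inl | with_reducible apply IntF.inr | with_reducible_and_instances apply IntF.mul | with_reducible_and_instances apply IntF.inv | with_reducible_and_instances apply IntF.add | with_reducible_and_instances apply IntF.sub | with_reducible_and_instances apply IntF.neg | with_reducible_and_instances apply IntF.smul | with_reducible apply IntF.succ | with_reducible apply IntF.val | with_reducible apply IntF.mk | (with_reducible refine Int.comp ?_ ?_; assumption) | (with_reducible refine Int.comp₂ ?_ ?_ ?_; assumption) | (with_reducible refine Int.comp₃ ?_ ?_ ?_ ?_; assumption) | (with_reducible refine Int.comp₄ ?_ ?_ ?_ ?_ ?_; assumption) | (with_reducible refine IntF.comp ?_ ?_; assumption) | (with_reducible refine IntF.comp₂ ?_ ?_ ?_; assumption) | (with_reducible refine IntF.comp₃ ?_ ?_ ?_ ?_; assumption) | with_reducible apply IntF.pair)))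
        fun p => by
          by_cases h2 : ∀ q, q ≤ p → Force φ v xs q → Force ψ v xs q
          · exact ⟨p, le_rfl, Or.inl h2⟩
          · push Not at h2
            obtain ⟨q, h3, h4, h5⟩ := h2
            by_contra h6
            push Not at h6
            refine h5 (Force.of_dense fun r hr => ?_)
            obtain ⟨h7, h8⟩ := h6 r (hr.trans h3)
            exact h8 (h4.mono hr)
      rcases h1 with h1 | ⟨h1, h2⟩
      · exact ⟨p, hp, h1⟩
      · obtain ⟨q, hq, h3⟩ := h ⟨p, hp, h1⟩
        obtain ⟨r, _, h4, h5⟩ := hG.dir p q hp hq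
        exact absurd (h3.mono h5) (h2 r h4)
    · rintro ⟨p, hp, h⟩ ⟨q, hq, h'⟩
      obtain ⟨r, hr, h1, h2⟩ := hG.dir p q hp hq
      exact ⟨r, hr, h r h1 (h'.mono h2)⟩
  | @all n φ ih =>
    rw [BoundedFormula.realize_all]
    have hs : ∀ x : Nm S, (fun i => NN.mk hG (Fin.snoc (α := fun _ => Nm S) xs x i)) =
        Fin.snoc (α := fun _ => NN S hG) (fun i => NN.mk hG (xs i)) (NN.mk hG x) := by
      intro x
      funext i
      refine Fin.lastCases ?_ (fun j => ?_) i
      · simp only [Fin.snoc_last]
      · simp only [Fin.snoc_castSucc]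
    constructor
    · intro h
      have hI1 := int_force_all (S := S) hG φ.all v xs
      have hI2 := int_force_allx (S := S) hG φ v xs
      obtain ⟨p, hp, h1⟩ := hG.dense (fun p => Force φ.all v xs p ∨
        ∃ x : Nm S, ∀ q, q ≤ p → ¬ Force φ v (Fin.snoc xs x) q) (Int.or hI1 hI2) fun p => by
          by_cases h2 : Force φ.all v xs p
          · exact ⟨p, le_rfl, Or.inl h2⟩
          · by_contra h6
            push Not at h6
            refine h2 fun x => Force.of_dense fun r hr => ?_
            obtain ⟨-, h7⟩ := h6 r hr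
            exact h7 x
      rcases h1 with h1 | ⟨x, h1⟩
      · exact ⟨p, hp, h1⟩
      · have h2 := h (NN.mk hG x)
        rw [← hs, ih] at h2
        obtain ⟨q, hq, h3⟩ := h2
        obtain ⟨r, _, h4, h5⟩ := hG.dir p q hp hq
        exact absurd (h3.mono h5) (h1 r h4)
    · rintro ⟨p, hp, h⟩ x
      obtain ⟨x, rfl⟩ := exists_mk hG x
      rw [← hs, ih]
      exact ⟨p, hp, h x⟩

end

end Pool.Agent.Helper672.ZFA.H635
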