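import Mathlib

/-!
# The combinatorial contradiction
-/

namespace Pool.Agent.Helper672.ZFA.H635

universe u v w

section

variable {K : Type u} {B : Type v} {R : Type w} [Field R] [LinearOrder R] [IsStrictOrderedRing R]
  {mem : K → B → Prop} {μ : B → R}

theorem no_three (hc : ∀ s, ∃ t, ∀ h, mem h t ↔ ¬ mem h s)
    (hi : ∀ s t, ∃ v, ∀ h, mem h v ↔ mem h s ∧ mem h t) (h0 : ∀ s, 0 ≤ μ s)
    (h1 : ∀ s, (∀ h, mem h s) → μ s = 1)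
    (hadd : ∀ s t v, (∀ h, ¬ (mem h s ∧ mem h t)) → (∀ h, mem h v ↔ mem h s ∨ mem h t) →
      μ v = μ s + μ t) {ι : Type*} (c : ι → B)
    (hd : ∀ m, ∃ m', μ (c m') = μ (c m) + μ (c m)) {m : ι} {Z1 Z2 Z3 : B}
    (e1 : 1 ≤ μ Z1 + μ Z1) (e2 : 1 ≤ μ Z2 + μ Z2) (e3 : 1 ≤ μ Z3 + μ Z3)
    (h12 : ∀ h, ¬ mem h (c m) → ¬ (mem h Z1 ∧ mem h Z2))
    (h13 : ∀ h, ¬ mem h (c m) → ¬ (mem h Z1 ∧ mem h Z3))
    (h23 : ∀ h, ¬ mem h (c m) → ¬ (mem h Z2 ∧ mem h Z3)) : False := by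
  have hu : ∀ s t, ∃ v, ∀ h, mem h v ↔ mem h s ∨ mem h t := by
    intro s t
    obtain ⟨s', hs'⟩ := hc s
    obtain ⟨t', ht'⟩ := hc t
    obtain ⟨v, hv⟩ := hi s' t'
    obtain ⟨v', hv'⟩ := hc v
    refine ⟨v', fun h => ?_⟩
    rw [hv', hv, hs', ht']
    tauto
  have hmono : ∀ s t, (∀ h, mem h s → mem h t) → μ s ≤ μ t := by
    intro s t hst
    obtain ⟨s', hs'⟩ := hc s
    obtain ⟨d, hd'⟩ := hi t s'
    have h2 := hadd s d t (fun h => by rw [hd', hs']; tauto) (fun h => by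
      rw [hd', hs']
      have := hst h
      tauto)
    rw [h2]
    have := h0 d
    linarith
  have hle : ∀ s, μ s ≤ 1 := by
    intro s
    obtain ⟨s', hs'⟩ := hc s
    obtain ⟨v, hv⟩ := hu s s'
    have h2 := h1 v fun h => by rw [hv, hs']; tauto
    rw [← h2]
    exact hmono s v fun h hh => by rw [hv]; exact Or.inl hh
  have h8 : 8 * μ (c m) ≤ 1 := by
    obtain ⟨m1, hm1⟩ := hd m
    obtain ⟨m2, hm2⟩ := hd m1
    obtain ⟨m3, hm3⟩ := hd m2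
    have := hle (c m3)
    rw [hm3, hm2, hm1] at this
    linarith
  obtain ⟨C', hC'⟩ := hc (c m)
  have key : ∀ Z, ∃ Z', (∀ h, mem h Z' ↔ mem h Z ∧ ¬ mem h (c m)) ∧ μ Z ≤ μ Z' + μ (c m) := by
    intro Z
    obtain ⟨Z', hZ'⟩ := hi Z C'
    obtain ⟨v, hv⟩ := hu Z' (c m)
    have h2 := hadd Z' (c m) v (fun h => by rw [hZ', hC']; tauto) hv
    refine ⟨Z', fun h => by rw [hZ', hC'], ?_⟩
    rw [← h2]
    refine hmono _ _ fun h hh => ?_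
    rw [hv, hZ', hC']
    tauto
  obtain ⟨Z1', k1, l1⟩ := key Z1
  obtain ⟨Z2', k2, l2⟩ := key Z2
  obtain ⟨Z3', k3, l3⟩ := key Z3
  obtain ⟨W1, hW1⟩ := hu Z1' Z2'
  obtain ⟨W2, hW2⟩ := hu W1 Z3'
  obtain ⟨W3, hW3⟩ := hu W2 (c m)
  have a1 := hadd Z1' Z2' W1 (fun h => by
    rw [k1, k2]
    have := h12 h
    tauto) hW1
  have a2 := hadd W1 Z3' W2 (fun h => by
    rw [hW1, k1, k2, k3]
    have := h13 h
    have := h23 h
    tauto) hW2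
  have a3 := hadd W2 (c m) W3 (fun h => by
    rw [hW2, hW1, k1, k2, k3]
    tauto) hW3
  have a4 := hle W3
  linarith

end

end Pool.Agent.Helper672.ZFA.H635
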