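import Pool.Agent.H635R2.Statement
import Pool.Agent.H635R2.Three
import Pool.Agent.H635R2.Grp

/-!
# The subgroup is not amenable
-/

namespace Pool.Agent.Helper672.ZFA.H635

open FirstOrder FirstOrder.Language
open Pool.Agent.H635Amen

universe u

set_option synthInstance.maxSize 2000

section general

variable {M : Type u} [L.Structure M] [hM : IsModel M]
variable {P Γ : Type u} [ITy M P] [Preorder P] [ILE M P] [ITy M Γ] [Group Γ] [IMul M Γ]
  [IInv M Γ] [MulAction Γ P] [ISMul M Γ P]
variable {Λ : Type u} [ITy M Λ] {S : SymSys M P Γ Λ}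
variable {G : Set P} {hG : IsGen M G}

theorem plain_pair {p x y : NN S hG} : Plain.IsPair p x y ↔ p = up x y :=
  ⟨fun h => nn_eq_up hG h, fun h => (eq_up.1 h).2⟩

theorem plain_ordPair {p x y : NN S hG} : Plain.IsOrdPair p x y ↔ p = op x y := by
  unfold Plain.IsOrdPair
  simp only [plain_pair]
  constructor
  · rintro ⟨s, d, rfl, rfl, rfl⟩
    rfl
  · rintro rfl
    exact ⟨_, _, rfl, rfl, rfl⟩

theorem plain_graph {g x y : NN S hG} : (∃ p, Plain.IsOrdPair p x y ∧ Plain.Mem p g) ↔
    Mem (op x y) g := by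
  simp only [plain_ordPair]
  exact ⟨fun ⟨p, h1, h2⟩ => h1 ▸ h2, fun h => ⟨_, rfl, h⟩⟩

theorem plain_opGraph {g x y z : NN S hG} : (∃ p q, Plain.IsOrdPair p x y ∧
    Plain.IsOrdPair q p z ∧ Plain.Mem q g) ↔ Mem (op (op x y) z) g := by
  simp only [plain_ordPair]
  exact ⟨fun ⟨p, q, h1, h2, h3⟩ => h1 ▸ h2 ▸ h3, fun h => ⟨_, _, rfl, rfl, h⟩⟩

/-- Separation in the extension. -/
theorem nn_sep {φ : NN S hG → Prop} (h : D (fun v : Fin 1 → NN S hG => φ (v 0)))
    (a : NN S hG) : ∃ z, ∀ w, Plain.Mem w z ↔ Plain.Mem w a ∧ φ w := by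
  obtain ⟨z, _, hz⟩ := small_sep (S := {x | φ x}) h a
  exact ⟨z, hz⟩

/-- Subsets by separation. -/
theorem sub_sep {a : NN S hG} {φ : NN S hG → Prop} (h : D (fun v : Fin 1 → NN S hG => φ (v 0))) :
    ∃ s : Sub a, ∀ w, Plain.Mem w s.1 ↔ Plain.Mem w a ∧ φ w := by
  obtain ⟨z, hz⟩ := nn_sep h a
  exact ⟨⟨z, fun x hx => ((hz x).1 hx).1⟩, hz⟩

/-- The family of the sets of large measure is in the extension. -/
theorem exists_large {b r : NN S hG} [Field (Plain.El r)] [LinearOrder (Plain.El r)]
    [IsStrictOrderedRing (Plain.El r)] (hr : IsReals r) {μ : Sub b → Plain.El r}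
    (hμ : IsFunIn μ) : ∃ z : NN S hG, ∀ s : Sub b, Plain.Mem s.1 z ↔ 1 ≤ μ s + μ s := by
  obtain ⟨gμ, hμ⟩ := hμ
  obtain ⟨ga, ha⟩ := hr.add
  obtain ⟨gl, hl⟩ := hr.le
  have hμ' : ∀ (s : Sub b) (y : Plain.El r), μ s = y ↔ Mem (op s.1 y.1) gμ := fun s y =>
    (hμ s y).trans plain_graph
  have ha' : ∀ x y z : Plain.El r, x + y = z ↔ Mem (op (op x.1 y.1) z.1) ga := fun x y z =>
    (ha x y z).trans plain_opGraph
  have hl' : ∀ x y : Plain.El r, x ≤ y ↔ Mem (op x.1 y.1) gl := fun x y =>
    (hl x y).trans plain_graph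
  obtain ⟨pb, hpb⟩ := nn_power hG b
  obtain ⟨z, hz⟩ := nn_sep (φ := fun s => ∃ y z, Mem y r ∧ Mem z r ∧ Mem (op s y) gμ ∧
    Mem (op (op y y) z) ga ∧ Mem (op (1 : Plain.El r).1 z) gl) (by (repeat' (first | with_reducible exact DF.var _ | with_reducible exact DF.const _ | assumption | with_reducible apply D.and | with_reducible apply D.or | with_reducible apply D.not | with_reducible apply D.imp | with_reducible apply D.iff | with_reducible apply D.eqf | with_reducible apply D.memf | with_reducible apply D.all | with_reducible apply D.ex | with_reducible apply DF.op | with_reducible apply DF.up | with_reducible apply DF.fst | with_reducible apply DF.snd))) pb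
  refine ⟨z, fun s => (hz s.1).trans ?_⟩
  constructor
  · rintro ⟨-, y, z, hy, hz, h1, h2, h3⟩
    obtain ⟨y, rfl⟩ : ∃ y' : Plain.El r, y'.1 = y := ⟨⟨y, hy⟩, rfl⟩
    obtain ⟨z, rfl⟩ : ∃ z' : Plain.El r, z'.1 = z := ⟨⟨z, hz⟩, rfl⟩
    have e1 : μ s = y := (hμ' s y).2 h1
    have e2 : y + y = z := (ha' y y z).2 h2
    rw [e1, e2]
    exact (hl' 1 z).2 h3
  · intro h
    refine ⟨(hpb s.1).2 s.2, (μ s).1, (μ s + μ s).1, (μ s).2, (μ s + μ s).2, (hμ' s _).1 rfl,
      (ha' _ _ _).1 rfl, (hl' _ _).1 h⟩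

end general

/-- A partition of the set of values with symmetries. -/
structure Parts (M : Type u) [L.Structure M] [IsModel M] (X : Type u) [ITy M X] where
  /-- first part -/
  T1 : X → Prop
  /-- second part -/
  T2 : X → Prop
  /-- third part -/
  T3 : X → Prop
  /-- exchanges the first part and its complement -/
  g0 : X → X
  /-- exchanges the first part and the second part -/
  g2 : X → X
  /-- exchanges the first part and the third part -/
  g3 : X → X
  int1 : Int M T1
  i0 : IntF M g0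
  i2 : IntF M g2
  i3 : IntF M g3
  gg0 : ∀ d, g0 (g0 d) = d
  gg2 : ∀ d, g2 (g2 d) = d
  gg3 : ∀ d, g3 (g3 d) = d
  h0 : ∀ d, T1 (g0 d) ↔ ¬ T1 d
  h2 : ∀ d, T1 (g2 d) ↔ T2 d
  h3 : ∀ d, T1 (g3 d) ↔ T3 d
  d12 : ∀ d, ¬ (T1 d ∧ T2 d)
  d13 : ∀ d, ¬ (T1 d ∧ T3 d)
  d23 : ∀ d, ¬ (T2 d ∧ T3 d)

variable {M : Type u} [L.Structure M] [hM : IsModel M] {X : Type u} [ITy M X] [Nontrivial X]
variable {G : Set (PP M X)} (hG : IsGen M G)

/-- The subgroup is not amenable. -/
theorem not_mean (Q : Parts M X) {b r : NN (SS M X) hG}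
    (hb : ∀ w, Plain.Mem w b ↔ ∃ h : KK M, w = cc hG (h, 1)) [Group (Plain.El b)]
    (hmul : ∀ (x y : Plain.El b) (h h' : KK M), x.1 = cc hG (h, 1) → y.1 = cc hG (h', 1) →
      (x * y).1 = cc hG (h * h', 1))
    [Field (Plain.El r)] [LinearOrder (Plain.El r)]
    [IsStrictOrderedRing (Plain.El r)] (hr : IsReals r) {μ : Sub b → Plain.El r}
    (hμ : IsFunIn μ) (hm : IsMean b r μ) : False := by
  obtain ⟨z, hz⟩ := exists_large hr hμ
  obtain ⟨n, hn⟩ := yy_symm hG z
  have hi : ¬ In n ((1, KK.sg n) : II M) := fun h => lt_irrefl n (h n (KK.mem_sg.2 rfl))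
  generalize ((1, KK.sg n) : II M) = i at hi
  replace hn := hn i hi
  -- the subsets
  have hY : ∀ t, ∀ x, Plain.Mem x (yy hG i t) → Plain.Mem x b := by
    intro t x hx
    obtain ⟨h, d, rfl, -⟩ := (mem_yy hG).1 hx
    exact (hb _).2 ⟨h, rfl⟩
  let Y : TS M X → Sub b := fun t => ⟨yy hG i t, hY t⟩
  let mem : KK M → Sub b → Prop := fun h s => Plain.Mem (cc hG (h, 1)) s.1
  have hmemY : ∀ h t, mem h (Y t) ↔ ∃ d, (h, d) ∈ t ∧ Gv G i h d := fun h t => mem_yy_cc hG
  have hPY : ∀ t, Plain.Mem (yy hG i t) z ↔ 1 ≤ μ (Y t) + μ (Y t) := fun t => hz (Y t)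
  have hsub : ∀ (s : Sub b) (w : NN (SS M X) hG), Plain.Mem w s.1 → ∃ h, w = cc hG (h, 1) ∧
      mem h s := by
    intro s w hw
    obtain ⟨h, rfl⟩ := (hb w).1 (s.2 w hw)
    exact ⟨h, rfl, hw⟩
  have hadd : ∀ s t v : Sub b, (∀ h, ¬ (mem h s ∧ mem h t)) →
      (∀ h, mem h v ↔ mem h s ∨ mem h t) → μ v = μ s + μ t := by
    intro s t v h1 h2
    refine hm.add s t v (fun x ⟨hx, hx'⟩ => ?_) fun x => ⟨fun hx => ?_, fun hx => ?_⟩
    · obtain ⟨h, rfl, hh⟩ := hsub s x hx
      exact h1 h ⟨hh, hx'⟩
    · obtain ⟨h, rfl, hh⟩ := hsub v x hx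
      exact (h2 h).1 hh
    · rcases hx with hx | hx
      · obtain ⟨h, rfl, hh⟩ := hsub s x hx
        exact (h2 h).2 (Or.inl hh)
      · obtain ⟨h, rfl, hh⟩ := hsub t x hx
        exact (h2 h).2 (Or.inr hh)
  have htot : ∀ s : Sub b, (∀ h, mem h s) → μ s = 1 := by
    intro s hs
    refine hm.total s fun x hx => ?_
    obtain ⟨h, rfl⟩ := (hb x).1 hx
    exact hs h
  have hcompl : ∀ s : Sub b, ∃ t : Sub b, ∀ h, mem h t ↔ ¬ mem h s := by
    intro s
    obtain ⟨t, ht⟩ := sub_sep (a := b) (φ := fun w => ¬ Mem w s.1) (by (repeat' (first | with_reducible exact DF.var _ | with_reducible exact DF.const _ | assumption | with_reducible apply D.and | with_reducible apply D.or | with_reducible apply D.not | with_reducible apply D.imp | with_reducible apply D.iff | with_reducible apply D.eqf | with_reducible apply D.memf | with_reducible apply D.all | with_reducible apply D.ex | with_reducible apply DF.op | with_reducible apply DF.up | with_reducible apply DF.fst | with_reducible apply DF.snd)))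
    refine ⟨t, fun h => (ht _).trans ⟨fun h1 => h1.2, fun h1 => ⟨(hb _).2 ⟨h, rfl⟩, h1⟩⟩⟩
  have hinter : ∀ s t : Sub b, ∃ v : Sub b, ∀ h, mem h v ↔ mem h s ∧ mem h t := by
    intro s t
    obtain ⟨v, hv⟩ := sub_sep (a := b) (φ := fun w => Mem w s.1 ∧ Mem w t.1) (by (repeat' (first | with_reducible exact DF.var _ | with_reducible exact DF.const _ | assumption | with_reducible apply D.and | with_reducible apply D.or | with_reducible apply D.not | with_reducible apply D.imp | with_reducible apply D.iff | with_reducible apply D.eqf | with_reducible apply D.memf | with_reducible apply D.all | with_reducible apply D.ex | with_reducible apply DF.op | with_reducible apply DF.up | with_reducible apply DF.fst | with_reducible apply DF.snd)))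
    refine ⟨v, fun h => (hv _).trans ⟨fun h1 => h1.2, fun h1 => ⟨(hb _).2 ⟨h, rfl⟩, h1⟩⟩⟩
  -- the small sets
  have hKn : Int M (fun q : INat M × KK M => KK.Kn q.1 q.2) := KK.int_Kn
  choose c₀ hc₀ using fun m : INat M => exists_sub hG (X := X) (Z := fun h => KK.Kn m h) (by (repeat' (first | with_reducible exact IntF.id | with_reducible exact IntF.fst' | with_reducible exact IntF.snd' | with_reducible exact IntF.const _ | with_reducible exact Int.const _ | assumption | with_reducible apply Int.and | with_reducible apply Int.or | with_reducible apply Int.not | with_reducible apply Int.imp | with_reducible apply Int.iff | with_reducible apply Int.ne | with_reducible apply Int.eq | with_reducible apply Int.mem | with_reducible apply Int.subset | with_reducible apply Int.ltN | with_reducible apply Int.leN | with_reducible_and_instances apply Int.le | with_reducible_and_instances apply Int.lt | with_reducible apply Int.all | with_reducible apply Int.ex | with_reducible apply IntF.fst | with_reducible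 apply IntF.snd | with_reducible apply IntF.app | with_reducible apply IntF.inl | with_reducible apply IntF.inr | with_reducible_and_instances apply IntF.mul | with_reducible_and_instances apply IntF.inv | with_reducible_and_instances apply IntF.add | with_reducible_and_instances apply IntF.sub | with_reducible_and_instances apply IntF.neg | with_reducible_and_instances apply IntF.smul | with_reducible apply IntF.succ | with_reducible apply IntF.val | with_reducible apply IntF.mk | (with_reducible refine Int.comp ?_ ?_; assumption) | (with_reducible refine Int.comp₂ ?_ ?_ ?_; assumption) | (with_reducible refine Int.comp₃ ?_ ?_ ?_ ?_; assumption) | (with_reducible refine Int.comp₄ ?_ ?_ ?_ ?_ ?_; assumption) | (with_reducible refine IntF.comp ?_ ?_; assumption) | (with_reducible refine IntF.comp₂ ?_ ?_ ?_; assumption) | (with_reducible refine IntF.comp₃ ?_ ?_ ?_ ?_; assumption) | with_reducible apply IntF.pair)))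
  let c : INat M → Sub b := fun m => ⟨c₀ m, fun x hx => by
    obtain ⟨h, -, rfl⟩ := (hc₀ m x).1 hx
    exact (hb _).2 ⟨h, rfl⟩⟩
  have hc : ∀ m h, mem h (c m) ↔ KK.Kn m h := by
    intro m h
    refine (hc₀ m _).trans ⟨?_, fun h1 => ⟨h, h1, rfl⟩⟩
    rintro ⟨h', h1, h2⟩
    obtain rfl := (Prod.mk.inj ((cc_inj hG).1 h2)).1
    exact h1
  have hd : ∀ m, ∃ m', μ (c m') = μ (c m) + μ (c m) := by
    intro m
    refine ⟨m.succ, ?_⟩
    -- the coset
    have hI : Int M (fun h : KK M => KK.Kn m (KK.sg m * h)) := by (repeat' (first | with_reducible exact IntF.id | with_reducible exact IntF.fst' | with_reducible exact IntF.snd' | with_reducible exact IntF.const _ | with_reducible exact Int.const _ | assumption | with_reducible apply Int.and | with_reducible apply Int.or | with_reducible apply Int.not | with_reducible apply Int.imp | with_reducible apply Int.iff | with_reducible apply Int.ne | with_reducible apply Int.eq | with_reducible apply Int.mem | with_reducible apply Int.subset | with_reducible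 apply Int.ltN | with_reducible apply Int.leN | with_reducible_and_instances apply Int.le | with_reducible_and_instances apply Int.lt | with_reducible apply Int.all | with_reducible apply Int.ex | with_reducible apply IntF.fst | with_reducible apply IntF.snd | with_reducible apply IntF.app | with_reducible apply IntF.inl | with_reducible apply IntF.inr | with_reducible_and_instances apply IntF.mul | with_reducible_and_instances apply IntF.inv | with_reducible_and_instances apply IntF.add | with_reducible_and_instances apply IntF.sub | with_reducible_and_instances apply IntF.neg | with_reducible_and_instances apply IntF.smul | with_reducible apply IntF.succ | with_reducible apply IntF.val | with_reducible apply IntF.mk | (with_reducible refine Int.comp ?_ ?_; assumption) | (with_reducible refine Int.comp₂ ?_ ?_ ?_; assumption) | (with_reducible refine Int.comp₃ ?_ ?_ ?_ ?_; assumption) | (with_reducible refine Int.comp₄ ?_ ?_ ?_ ?_ ?_; assumption) | (with_reducible refine IntF.comp ?_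 ?_; assumption) | (with_reducible refine IntF.comp₂ ?_ ?_ ?_; assumption) | (with_reducible refine IntF.comp₃ ?_ ?_ ?_ ?_; assumption) | with_reducible apply IntF.pair))
    obtain ⟨t₀, ht₀⟩ := exists_sub hG (X := X) hI
    let t : Sub b := ⟨t₀, fun x hx => by
      obtain ⟨h, -, rfl⟩ := (ht₀ x).1 hx
      exact (hb _).2 ⟨h, rfl⟩⟩
    have ht : ∀ h, mem h t ↔ KK.Kn m (KK.sg m * h) := by
      intro h
      refine (ht₀ _).trans ⟨?_, fun h1 => ⟨h, h1, rfl⟩⟩
      rintro ⟨h', h1, h2⟩
      obtain rfl := (Prod.mk.inj ((cc_inj hG).1 h2)).1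
      exact h1
    have e1 : μ t = μ (c m) := by
      refine hm.inv ⟨cc hG (KK.sg m, 1), (hb _).2 ⟨_, rfl⟩⟩ (c m) t fun x => ?_
      obtain ⟨h, hh⟩ := (hb x.1).1 x.2
      rw [hmul _ x (KK.sg m) h rfl hh, hh]
      refine (ht _).trans (Iff.trans ?_ (hc m h).symm)
      rw [← mul_assoc, KK.mul_self', one_mul]
    have e2 := hadd (c m) t (c m.succ) (fun h => by
      rw [hc, ht]
      rintro ⟨h1, h2⟩
      have h3 : m ∈ (KK.sg m * h).1 := by
        rw [KK.mem_mul]
        intro h4
        exact lt_irrefl m (h1 m (h4.1 (KK.mem_sg.2 rfl)))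
      exact lt_irrefl m (h2 m h3)) (fun h => by
      rw [hc, hc, ht]
      constructor
      · intro h1
        by_cases h2 : m ∈ h.1
        · refine Or.inr fun a ha => ?_
          rw [KK.mem_mul, KK.mem_sg] at ha
          by_cases h3 : a ∈ h.1
          · have h4 : a ≠ m := fun h4 => ha (iff_of_true h4 h3)
            exact lt_of_le_of_ne (INat.lt_succ_iff.1 (h1 a h3)) h4
          · exact absurd (iff_of_false (fun h4 : a = m => h3 (by rw [h4]; exact h2)) h3) ha
        · refine Or.inl fun a ha => ?_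
          exact lt_of_le_of_ne (INat.lt_succ_iff.1 (h1 a ha)) fun h3 => h2 (h3 ▸ ha)
      · rintro (h1 | h1)
        · exact h1.mono (INat.le_succ_self m)
        · intro a ha
          by_cases h2 : a = m
          · rw [h2]
            exact INat.lt_succ_self m
          · refine (h1 a ?_).trans (INat.lt_succ_self m)
            rw [KK.mem_mul, KK.mem_sg]
            exact fun h3 => h2 (h3.2 ha))
    rw [e2, e1]
  -- the three sets
  have hT : Int M (fun q : KK M × X => Q.T1 q.2) := Q.int1.comp IntF.snd'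
  have c1 : ∃ (m : INat M) (t : TS M X), 1 ≤ μ (Y t) + μ (Y t) ∧
      ∀ k, ¬ KK.Kn m k → ∀ d, ((k, d) ∈ t ↔ Q.T1 d) := by
    by_cases h1 : 1 ≤ μ (Y (sep M fun q : KK M × X => Q.T1 q.2)) +
        μ (Y (sep M fun q : KK M × X => Q.T1 q.2))
    · exact ⟨0, _, h1, fun k _ d => mem_sep hT⟩
    · obtain ⟨s, hs⟩ := hcompl (Y (sep M fun q : KK M × X => Q.T1 q.2))
      have h2 : 1 ≤ μ (Y (sep M fun q : KK M × X => ¬ Q.T1 q.2)) +
          μ (Y (sep M fun q : KK M × X => ¬ Q.T1 q.2)) := by
        obtain ⟨v, hv⟩ := hcompl (c 0)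
        obtain ⟨v', hv'⟩ := hinter v (c 0)
        obtain ⟨all, hall⟩ := hcompl v'
        have hall' : ∀ h, mem h all := fun h => (hall h).2 (by rw [hv', hv]; tauto)
        have h3 := hadd (Y (sep M fun q : KK M × X => Q.T1 q.2))
          (Y (sep M fun q : KK M × X => ¬ Q.T1 q.2)) all (fun h => by
            rw [hmemY, hmemY]
            rintro ⟨⟨d, h4, h5⟩, d', h6, h7⟩
            obtain rfl := Gv_unique hG h5 h7
            exact (mem_sep hT.not).1 h6 ((mem_sep hT).1 h4)) (fun h => by
            rw [hmemY, hmemY]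
            refine ⟨fun _ => ?_, fun _ => hall' h⟩
            obtain ⟨d, hd⟩ := Gv_total hG i h
            by_cases h4 : Q.T1 d
            · exact Or.inl ⟨d, (mem_sep hT).2 h4, hd⟩
            · exact Or.inr ⟨d, (mem_sep hT.not).2 h4, hd⟩)
        rw [htot all hall'] at h3
        push Not at h1
        linarith
      obtain ⟨m, t', h3, h4⟩ := hn Q.g0 Q.i0 Q.gg0 _ ((hPY _).2 h2)
      refine ⟨m, t', (hPY _).1 h3, fun k hk d => (h4 k hk d).trans ?_⟩
      rw [mem_sep hT.not]
      simp only
      rw [Q.h0, not_not]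
  obtain ⟨m1, t1, a1, b1⟩ := c1
  obtain ⟨m2, t2, a2, b2⟩ := hn Q.g2 Q.i2 Q.gg2 _ ((hPY _).2 a1)
  obtain ⟨m3, t3, a3, b3⟩ := hn Q.g3 Q.i3 Q.gg3 _ ((hPY _).2 a1)
  have hmx : ∀ h, ¬ mem h (c (max m1 (max m2 m3))) → ¬ KK.Kn m1 h ∧ ¬ KK.Kn m2 h ∧
      ¬ KK.Kn m3 h := by
    intro h hh
    rw [hc] at hh
    exact ⟨fun h1 => hh (h1.mono (le_max_left _ _)),
      fun h1 => hh (h1.mono ((le_max_left _ _).trans (le_max_right _ _))),
      fun h1 => hh (h1.mono ((le_max_right _ _).trans (le_max_right _ _)))⟩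
  refine no_three (K := KK M) (B := Sub b) (mem := mem) (μ := μ) hcompl hinter hm.nonneg htot hadd
    c hd (m := max m1 (max m2 m3)) (Z1 := Y t1) (Z2 := Y t2) (Z3 := Y t3) a1 ((hPY _).1 a2)
    ((hPY _).1 a3) ?_ ?_ ?_
  · rintro h hh ⟨h1, h2⟩
    obtain ⟨k1, k2, k3⟩ := hmx h hh
    obtain ⟨d, h3, h4⟩ := (hmemY _ _).1 h1
    obtain ⟨d', h5, h6⟩ := (hmemY _ _).1 h2
    obtain rfl := Gv_unique hG h4 h6
    rw [b1 h k1] at h3
    rw [b2 h k2, b1 h k1, Q.h2] at h5
    exact Q.d12 d ⟨h3, h5⟩
  · rintro h hh ⟨h1, h2⟩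
    obtain ⟨k1, k2, k3⟩ := hmx h hh
    obtain ⟨d, h3, h4⟩ := (hmemY _ _).1 h1
    obtain ⟨d', h5, h6⟩ := (hmemY _ _).1 h2
    obtain rfl := Gv_unique hG h4 h6
    rw [b1 h k1] at h3
    rw [b3 h k3, b1 h k1, Q.h3] at h5
    exact Q.d13 d ⟨h3, h5⟩
  · rintro h hh ⟨h1, h2⟩
    obtain ⟨k1, k2, k3⟩ := hmx h hh
    obtain ⟨d, h3, h4⟩ := (hmemY _ _).1 h1
    obtain ⟨d', h5, h6⟩ := (hmemY _ _).1 h2
    obtain rfl := Gv_unique hG h4 h6
    rw [b2 h k2, b1 h k1, Q.h2] at h3
    rw [b3 h k3, b1 h k1, Q.h3] at h5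
    exact Q.d23 d ⟨h3, h5⟩

end Pool.Agent.Helper672.ZFA.H635
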