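import Pool.Agent.H635R2.Pow

/-!
# Collection in the extension
-/

namespace Pool.Agent.Helper672.ZFA.H635

open FirstOrder FirstOrder.Language
open Pool.Agent.Helper672.Plain (LSet)

universe u

/-- The scheme of Collection. -/
def CollL (M : Type u) [L.Structure M] : Prop :=
  ∀ F : M → M → Prop, D (fun v : Fin 2 → M => F (v 0) (v 1)) →
    ∀ a, ∃ b, ∀ x, Mem x a → (∃ y, F x y) → ∃ y, Mem y b ∧ F x y

section

variable {M : Type u} [L.Structure M] [hM : IsModel M]
variable {P Γ : Type u} [ITy M P] [Preorder P] [ILE M P] [ITy M Γ] [Group Γ] [IMul M Γ]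
  [IInv M Γ] [MulAction Γ P] [ISMul M Γ P]
variable {Λ : Type u} [ITy M Λ] {S : SymSys M P Γ Λ}
variable {α β ε : Type u} [ITy M α] [ITy M β] [ITy M ε]
variable {G : Set P} (hG : IsGen M G)

theorem exists_Tset (b : M) : ∃ t : M, ∀ y s, Mem y b → Mem s (Tn y) → Mem s t := by
  obtain ⟨b1, -, h1⟩ := hM.union b
  obtain ⟨b2, -, h2⟩ := hM.union b1
  obtain ⟨b3, -, h3⟩ := hM.union b2
  refine ⟨(small_union b1 b3).elt, fun y s hy hs => (small_union b1 b3).mem.2 ?_⟩
  by_cases h : ∃ a c, y = op a c
  · obtain ⟨a, c, rfl⟩ := h
    have h4 : Tn (op a c) = a := by simp [Tn]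
    rw [h4] at hs
    exact Or.inr ((h3 s).2 ⟨a, (h2 a).2 ⟨up a a, (h1 _).2 ⟨op a c, hy, mem_up.2 (Or.inl rfl)⟩,
      mem_up.2 (Or.inl rfl)⟩, hs⟩)
  · have h4 : Tn y = y := by
      unfold Tn fstM
      rw [dif_neg h]
    rw [h4] at hs
    exact Or.inl ((h1 s).2 ⟨y, hy, hs⟩)

section big

variable {b t : M}

variable (S) in
/-- Being a name. -/
def RN (y : El b) : Prop := IsNm S y.1

/-- Being a node. -/
def RT (y : El b) (s : El t) : Prop := Mem s.1 (Tn y.1)

/-- Being an edge. -/
def RE (y : El b) (s : El t) (p : P) (s' : El t) : Prop :=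
  Mem (op (op s.1 (code p)) s'.1) (En y.1)

variable (S) in
/-- The graph of all conjugates of the names in `b`. -/
def bigG (x : Γ × (El b × El t)) (p : P) (x' : Γ × (El b × El t)) : Prop :=
  x.1 = x'.1 ∧ x.2.1 = x'.2.1 ∧ RN S x'.2.1 ∧ RT x'.2.1 x.2.2 ∧ RT x'.2.1 x'.2.2 ∧
    RE x'.2.1 x.2.2 (x'.1⁻¹ • p) x'.2.2

theorem int_RN : Int M (fun y : El b => RN S y) :=
  Int.of_D (D.isNm (S := S) (DF.var (0 : Fin 1))) fun _ => Iff.rfl

theorem int_RT : Int M (fun q : El b × El t => RT q.1 q.2) := by
  refine Int.of_D₂ (S := fun v => Mem (v 1) (Tn (v 0))) ?_ fun _ _ => Iff.rfl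
  unfold Tn
  (repeat' (first | with_reducible exact DF.var _ | with_reducible exact DF.const _ | assumption | with_reducible apply D.and | with_reducible apply D.or | with_reducible apply D.not | with_reducible apply D.imp | with_reducible apply D.iff | with_reducible apply D.eqf | with_reducible apply D.memf | with_reducible apply D.all | with_reducible apply D.ex | with_reducible apply DF.op | with_reducible apply DF.up | with_reducible apply DF.fst | with_reducible apply DF.snd))

theorem int_RE' : Int M (fun q : El b × ((El t × P) × El t) => RE q.1 q.2.1.1 q.2.1.2 q.2.2) := by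
  refine Int.of_D₂ (S := fun v => Mem (v 1) (En (v 0))) ?_ fun _ _ => Iff.rfl
  unfold En
  (repeat' (first | with_reducible exact DF.var _ | with_reducible exact DF.const _ | assumption | with_reducible apply D.and | with_reducible apply D.or | with_reducible apply D.not | with_reducible apply D.imp | with_reducible apply D.iff | with_reducible apply D.eqf | with_reducible apply D.memf | with_reducible apply D.all | with_reducible apply D.ex | with_reducible apply DF.op | with_reducible apply DF.up | with_reducible apply DF.fst | with_reducible apply DF.snd))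

theorem int_RE : Int M (fun q : ((El b × El t) × P) × El t => RE q.1.1.1 q.1.1.2 q.1.2 q.2) :=
  Int.comp (f := fun q : ((El b × El t) × P) × El t => (q.1.1.1, ((q.1.1.2, q.1.2), q.2)))
    int_RE' (by (repeat' (first | with_reducible exact IntF.id | with_reducible exact IntF.fst' | with_reducible exact IntF.snd' | with_reducible exact IntF.const _ | with_reducible exact Int.const _ | assumption | with_reducible apply Int.and | with_reducible apply Int.or | with_reducible apply Int.not | with_reducible apply Int.imp | with_reducible apply Int.iff | with_reducible apply Int.ne | with_reducible apply Int.eq | with_reducible apply Int.mem | with_reducible apply Int.subset | with_reducible apply Int.ltN | with_reducible apply Int.leN | with_reducible_and_instances apply Int.le | with_reducible_and_instances apply Int.lt | with_reducible apply Int.all | with_reducible apply Int.ex | with_reducible apply IntF.fst | with_reducible apply IntF.snd | with_reducible apply IntF.app | with_reducible apply IntF.inl | with_reducible apply IntF.inr | with_reducible_and_instances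 apply IntF.mul | with_reducible_and_instances apply IntF.inv | with_reducible_and_instances apply IntF.add | with_reducible_and_instances apply IntF.sub | with_reducible_and_instances apply IntF.neg | with_reducible_and_instances apply IntF.smul | with_reducible apply IntF.succ | with_reducible apply IntF.val | with_reducible apply IntF.mk | (with_reducible refine Int.comp ?_ ?_; assumption) | (with_reducible refine Int.comp₂ ?_ ?_ ?_; assumption) | (with_reducible refine Int.comp₃ ?_ ?_ ?_ ?_; assumption) | (with_reducible refine Int.comp₄ ?_ ?_ ?_ ?_ ?_; assumption) | (with_reducible refine IntF.comp ?_ ?_; assumption) | (with_reducible refine IntF.comp₂ ?_ ?_ ?_; assumption) | (with_reducible refine IntF.comp₃ ?_ ?_ ?_ ?_; assumption) | with_reducible apply IntF.pair)))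

theorem ig_bigG : IG M (bigG (P := P) (Γ := Γ) (b := b) (t := t) S) := by
  have h1 : Int M (fun y : El b => RN S y) := int_RN
  have h2 : Int M (fun q : El b × El t => RT q.1 q.2) := int_RT
  have h3 : Int M (fun q : ((El b × El t) × P) × El t => RE q.1.1.1 q.1.1.2 q.1.2 q.2) := int_RE
  unfold IG bigG
  (repeat' (first | with_reducible exact IntF.id | with_reducible exact IntF.fst' | with_reducible exact IntF.snd' | with_reducible exact IntF.const _ | with_reducible exact Int.const _ | assumption | with_reducible apply Int.and | with_reducible apply Int.or | with_reducible apply Int.not | with_reducible apply Int.imp | with_reducible apply Int.iff | with_reducible apply Int.ne | with_reducible apply Int.eq | with_reducible apply Int.mem | with_reducible apply Int.subset | with_reducible apply Int.ltN | with_reducible apply Int.leN | with_reducible_and_instances apply Int.le | with_reducible_and_instances apply Int.lt | with_reducible apply Int.all | with_reducible apply Int.ex | with_reducible apply IntF.fst | with_reducible apply IntF.snd | with_reducible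 apply IntF.app | with_reducible apply IntF.inl | with_reducible apply IntF.inr | with_reducible_and_instances apply IntF.mul | with_reducible_and_instances apply IntF.inv | with_reducible_and_instances apply IntF.add | with_reducible_and_instances apply IntF.sub | with_reducible_and_instances apply IntF.neg | with_reducible_and_instances apply IntF.smul | with_reducible apply IntF.succ | with_reducible apply IntF.val | with_reducible apply IntF.mk | (with_reducible refine Int.comp ?_ ?_; assumption) | (with_reducible refine Int.comp₂ ?_ ?_ ?_; assumption) | (with_reducible refine Int.comp₃ ?_ ?_ ?_ ?_; assumption) | (with_reducible refine Int.comp₄ ?_ ?_ ?_ ?_ ?_; assumption) | (with_reducible refine IntF.comp ?_ ?_; assumption) | (with_reducible refine IntF.comp₂ ?_ ?_ ?_; assumption) | (with_reducible refine IntF.comp₃ ?_ ?_ ?_ ?_; assumption) | with_reducible apply IntF.pair))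

/-- The embedding of the nodes of a name. -/
def emb₀ (ht : ∀ y s, Mem y b → Mem s (Tn y) → Mem s t) (y : El b) (s : El (Tn y.1)) : El t :=
  ⟨s.1, ht y.1 s.1 y.2 s.2⟩

/-- The embedding of the nodes of a name. -/
def emb (ht : ∀ y s, Mem y b → Mem s (Tn y) → Mem s t) (π : Γ) (y : El b) (s : El (Tn y.1)) :
    Γ × (El b × El t) := (π, (y, emb₀ ht y s))

variable (ht : ∀ y s, Mem y b → Mem s (Tn y) → Mem s t)

theorem int_emb₀ (y : El b) : IntF M (emb₀ ht y) := by
  refine IntF.of_D (S := fun v => v 0 = v 1) (D.eqf (DF.var _) (DF.var _)) fun b c => ?_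
  exact ⟨fun h => Subtype.ext h, fun h => congrArg Subtype.val h⟩

theorem int_emb (π : Γ) (y : El b) : IntF M (emb ht π y) :=
  IntF.pair (IntF.const _) (IntF.pair (IntF.const _) (int_emb₀ ht y))

theorem bigG_emb {π : Γ} {y : El b} (hy : RN S y) (s : El (Tn y.1)) (x : Γ × (El b × El t))
    (p : P) : bigG S x p (emb ht π y s) ↔ ∃ s', emb ht π y s' = x ∧ tw π (ed P y.1) s' p s := by
  obtain ⟨π', y', s'⟩ := x
  constructor
  · rintro ⟨h1, h2, h3, h4, h5, h6⟩
    exact ⟨⟨s'.1, h4⟩, Prod.ext h1.symm (Prod.ext h2.symm rfl), h6⟩
  · rintro ⟨s'', h1, h2⟩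
    obtain ⟨rfl, h3⟩ := Prod.mk.inj h1
    obtain ⟨rfl, rfl⟩ := Prod.mk.inj h3
    exact ⟨rfl, rfl, hy, s''.2, s.2, h2⟩

theorem feq_emb {π : Γ} {y : El b} (hy : RN S y) (p : P) (s : El (Tn y.1)) :
    FEq M (tw π (ed P y.1)) (bigG S) p s (emb ht π y s) :=
  feq_of_map (int_emb ht π y) (fun s x p => bigG_emb ht hy s x p) p s

include ht in
theorem good_bigG : Good S (bigG (Γ := Γ) (P := P) (b := b) (t := t) S) := by
  have hI := ig_bigG (M := M) (S := S) (b := b) (t := t)
  refine ⟨hI, ?_, ?_⟩
  · intro w ⟨x, hx⟩
    by_cases h1 : RN S x.2.1 ∧ RT x.2.1 x.2.2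
    · obtain ⟨π, y, s⟩ := x
      obtain ⟨hN, hs⟩ := h1
      have h2 := int_emb ht π y
      have h3 : Int M (fun s : El (Tn y.1) => emb ht π y s ∈ w) := by (repeat' (first | with_reducible exact IntF.id | with_reducible exact IntF.fst' | with_reducible exact IntF.snd' | with_reducible exact IntF.const _ | with_reducible exact Int.const _ | assumption | with_reducible apply Int.and | with_reducible apply Int.or | with_reducible apply Int.not | with_reducible apply Int.imp | with_reducible apply Int.iff | with_reducible apply Int.ne | with_reducible apply Int.eq | with_reducible apply Int.mem | with_reducible apply Int.subset | with_reducible apply Int.ltN | with_reducible apply Int.leN | with_reducible_and_instances apply Int.le | with_reducible_and_instances apply Int.lt | with_reducible apply Int.all | with_reducible apply Int.ex | with_reducible apply IntF.fst | with_reducible apply IntF.snd | with_reducible apply IntF.app | with_reducible apply IntF.inl | with_reducible apply IntF.inr | with_reducible_and_instances apply IntF.mul | with_reducible_and_instances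 apply IntF.inv | with_reducible_and_instances apply IntF.add | with_reducible_and_instances apply IntF.sub | with_reducible_and_instances apply IntF.neg | with_reducible_and_instances apply IntF.smul | with_reducible apply IntF.succ | with_reducible apply IntF.val | with_reducible apply IntF.mk | (with_reducible refine Int.comp ?_ ?_; assumption) | (with_reducible refine Int.comp₂ ?_ ?_ ?_; assumption) | (with_reducible refine Int.comp₃ ?_ ?_ ?_ ?_; assumption) | (with_reducible refine Int.comp₄ ?_ ?_ ?_ ?_ ?_; assumption) | (with_reducible refine IntF.comp ?_ ?_; assumption) | (with_reducible refine IntF.comp₂ ?_ ?_ ?_; assumption) | (with_reducible refine IntF.comp₃ ?_ ?_ ?_ ?_; assumption) | with_reducible apply IntF.pair))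
      have h4 : emb ht π y ⟨s.1, hs⟩ ∈ w := hx
      obtain ⟨s', h5, h6⟩ := hN.2.1 (sep M fun s => emb ht π y s ∈ w) ⟨_, (mem_sep h3).2 h4⟩
      refine ⟨emb ht π y s', (mem_sep h3).1 h5, fun x q hx hE => ?_⟩
      obtain ⟨s'', rfl, h7⟩ := (bigG_emb ht hN s' x q).1 hE
      exact h6 s'' _ ((mem_sep h3).2 hx) h7
    · refine ⟨x, hx, fun y q hy hE => h1 ⟨hE.2.2.1, hE.2.2.2.2.1⟩⟩
  · intro x
    by_cases h1 : RN S x.2.1 ∧ RT x.2.1 x.2.2
    · obtain ⟨π, y, s⟩ := x
      obtain ⟨hN, hs⟩ := h1
      obtain ⟨l, hl⟩ := hN.2.2 ⟨s.1, hs⟩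
      obtain ⟨l', hl'⟩ := S.conj π l
      have h2 : Sy S (tw π (ed P y.1)) l' ⟨s.1, hs⟩ := hl.tw S π hl'
      exact ⟨l', h2.congr S ((ed_int _).tw π) hI fun p => feq_emb ht hN p _⟩
    · obtain ⟨l⟩ := S.nonempty
      refine ⟨l, fun π _ p => (feq_iff (hI.tw π) hI).2 ⟨?_, ?_⟩⟩
      · intro a r ha
        exact absurd ⟨ha.2.2.1, ha.2.2.2.2.1⟩ h1
      · intro a r ha
        exact absurd ⟨ha.2.2.1, ha.2.2.2.2.1⟩ h1

/-- Being the root of a name. -/
def RR (y : El b) (s : El t) : Prop := s.1 = rn y.1

theorem int_RR : Int M (fun q : El b × El t => RR q.1 q.2) := by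
  refine Int.of_D₂ (S := fun v => v 1 = rn (v 0)) ?_ fun _ _ => Iff.rfl
  unfold rn
  (repeat' (first | with_reducible exact DF.var _ | with_reducible exact DF.const _ | assumption | with_reducible apply D.and | with_reducible apply D.or | with_reducible apply D.not | with_reducible apply D.imp | with_reducible apply D.iff | with_reducible apply D.eqf | with_reducible apply D.memf | with_reducible apply D.all | with_reducible apply D.ex | with_reducible apply DF.op | with_reducible apply DF.up | with_reducible apply DF.fst | with_reducible apply DF.snd))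

include hG in
/-- There is a set that contains all names in `b`. -/
theorem exists_big (b : M) : ∃ z : NN S hG, ∀ y : Nm S, Mem y.1 b →
    Plain.Mem (NN.mk hG y) z := by
  obtain ⟨t, ht⟩ := exists_Tset b
  have h := good_bigG (S := S) (P := P) ht
  have h1 : Int M (fun y : El b => RN S y) := int_RN
  have h2 : Int M (fun q : El b × El t => RR q.1 q.2) := int_RR
  obtain ⟨z, hz⟩ := exists_set hG h (Q := fun x _ => RN S x.2.1 ∧ RR x.2.1 x.2.2) (by (repeat' (first | with_reducible exact IntF.id | with_reducible exact IntF.fst' | with_reducible exact IntF.snd' | with_reducible exact IntF.const _ | with_reducible exact Int.const _ | assumption | with_reducible apply Int.and | with_reducible apply Int.or | with_reducible apply Int.not | with_reducible apply Int.imp | with_reducible apply Int.iff | with_reducible apply Int.ne | with_reducible apply Int.eq | with_reducible apply Int.mem | with_reducible apply Int.subset | with_reducible apply Int.ltN | with_reducible apply Int.leN | with_reducible_and_instances apply Int.le | with_reducible_and_instances apply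 Int.lt | with_reducible apply Int.all | with_reducible apply Int.ex | with_reducible apply IntF.fst | with_reducible apply IntF.snd | with_reducible apply IntF.app | with_reducible apply IntF.inl | with_reducible apply IntF.inr | with_reducible_and_instances apply IntF.mul | with_reducible_and_instances apply IntF.inv | with_reducible_and_instances apply IntF.add | with_reducible_and_instances apply IntF.sub | with_reducible_and_instances apply IntF.neg | with_reducible_and_instances apply IntF.smul | with_reducible apply IntF.succ | with_reducible apply IntF.val | with_reducible apply IntF.mk | (with_reducible refine Int.comp ?_ ?_; assumption) | (with_reducible refine Int.comp₂ ?_ ?_ ?_; assumption) | (with_reducible refine Int.comp₃ ?_ ?_ ?_ ?_; assumption) | (with_reducible refine Int.comp₄ ?_ ?_ ?_ ?_ ?_; assumption) | (with_reducible refine IntF.comp ?_ ?_; assumption) | (with_reducible refine IntF.comp₂ ?_ ?_ ?_; assumption) | (with_reducible refine IntF.comp₃ ?_ ?_ ?_ ?_; assumption) | with_reducible apply IntF.pair))) (by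
    obtain ⟨l⟩ := S.nonempty
    refine ⟨l, ?_⟩
    rintro σ - ⟨π, y, s⟩ r ⟨hy, hs⟩ q hq
    obtain ⟨r, hr⟩ : ∃ r : El (Tn y.1), r.1 = rn y.1 := ⟨⟨rn y.1, hy.1⟩, rfl⟩
    have hs' : (π, (y, s)) = emb ht π y r := Prod.ext rfl (Prod.ext rfl
      (Subtype.ext (hs.trans hr.symm)))
    refine ⟨q, le_rfl, emb ht (σ * π) y r, q, ⟨hy, hr⟩, le_rfl, ?_⟩
    rw [hs']
    have h3 := feq_tw S σ (feq_emb ht (π := π) hy (σ⁻¹ • q) r)
    rw [smul_inv_smul, ← tw_mul] at h3
    have h4 := feq_emb ht (π := σ * π) hy q r
    exact (h3.symm ((ed_int _).tw _) (h.int.tw σ)).trans (h.int.tw σ) ((ed_int _).tw _) h.int h4)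
  refine ⟨z, fun y hy => (hz _).2 ?_⟩
  obtain ⟨p, hp⟩ := hG.ne
  have h3 : RN S (⟨y.1, hy⟩ : El b) := y.2
  refine ⟨emb ht (1 : Γ) ⟨y.1, hy⟩ y.root, p, hp, ⟨h3, rfl⟩, ?_⟩
  rw [mk_eq_nd]
  refine nd_eq_of hG _ h fun p => ?_
  have h4 := feq_emb ht (π := 1) h3 p y.root
  rw [tw_one] at h4
  exact h4

end big

/-! ### Collection -/

theorem nn_collection (hC : CollL M) (F : NN S hG → NN S hG → Prop)
    (hF : (Set.univ : Set (NN S hG)).Definable LSet {v : Fin 2 → NN S hG | F (v 0) (v 1)})
    (a : NN S hG) : ∃ b, ∀ x, Plain.Mem x a → (∃ y, F x y) → ∃ y, Plain.Mem y b ∧ F x y := by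
  obtain ⟨k, φ, ps, h1⟩ := exists_formula hF
  choose params hp using fun i => exists_mk hG (ps i)
  obtain ⟨x, rfl⟩ := exists_mk hG a
  have h2 : ∀ c y : NN S hG, F c y ↔ φ.Realize (Sum.elim (fun i => NN.mk hG (params i))
      ![c, y]) := by
    intro c y
    have h3 := h1 ![c, y]
    simp only [hp]
    exact h3
  -- the relation in the ground model
  let R : M → M → Prop := fun u y => ∃ c r, u = op c r ∧ IsNm S y ∧
    ForceM S φ (Sum.elim (fun i => (params i).1) ![op (dom M (El (Tn x.1))) (op (gr x.int) c), y])
      (fun i => (i.elim0 : M)) r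
  have hR : D (fun v : Fin 2 → M => R (v 0) (v 1)) := by
    refine D.ex (D.ex (D.and (D.eqf (DF.var _) (DF.op (DF.var _) (DF.var _))) (D.and
      (D.isNm (DF.var _)) ?_)))
    have h3 := D.substT (ι := Fin 3) (D.forceM (S := S) φ)
      (f := fun i v => match i with
        | Sum.inl (Sum.inl (Sum.inl a)) => (params a).1
        | Sum.inl (Sum.inl (Sum.inr j)) => v (Fin.castSucc j)
        | Sum.inl (Sum.inr j) => (j.elim0 : M)
        | Sum.inr () => v 2) (by
        rintro (((a | j) | j) | j)
        · exact T.const _
        · exact T.var _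
        · exact j.elim0
        · exact T.var _)
    have h4 := D.subst (ι := (Fin 2 ⊕ Unit) ⊕ Unit) h3 (f := ![fun w =>
      op (dom M (El (Tn x.1))) (op (gr x.int) (w (Sum.inl (Sum.inr ())))),
      fun w => w (Sum.inl (Sum.inl 1)), fun w => w (Sum.inr ())]) (by
      intro i
      fin_cases i
      · exact DF.op (DF.const _) (DF.op (DF.const _) (DF.var _))
      · exact DF.var _
      · exact DF.var _)
    refine D.congr h4 fun w => ?_
    refine iff_of_eq (congrArg₂ (fun v xs => ForceM S φ v xs (w (Sum.inr ()))) ?_ ?_)
    · funext i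
      rcases i with i | i
      · rfl
      · fin_cases i <;> rfl
    · funext i
      exact i.elim0
  obtain ⟨b, hb⟩ := hC R hR (dom M (El (Tn x.1) × P))
  obtain ⟨z, hz⟩ := exists_big hG (S := S) b
  refine ⟨z, fun w hw ⟨v, hv⟩ => ?_⟩
  rw [mk_eq_nd] at hw
  obtain ⟨c, s, hs, h3, rfl⟩ := (mem_nd hG x.good).1 hw
  obtain ⟨v, rfl⟩ := exists_mk hG v
  have h4 : ∀ (v : Nm S) (r : P), Force φ (Sum.elim params ![mkNm x.good c, v]) default r ↔
      ForceM S φ (Sum.elim (fun i => (params i).1) ![op (dom M (El (Tn x.1)))
        (op (gr x.int) (code c)), v.1]) (fun i => (i.elim0 : M)) (code r) := by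
    intro v r
    rw [← forceM_iff]
    refine iff_of_eq (congrArg₂ (fun v xs => ForceM S φ v xs (code r)) ?_ ?_)
    · funext i
      rcases i with i | i
      · rfl
      · fin_cases i <;> rfl
    · funext i
      exact i.elim0
  have h5 : ∀ v : Nm S, F (nd hG x.good c) (NN.mk hG v) ↔ ∃ p, p ∈ G ∧
      Force φ (Sum.elim params ![mkNm x.good c, v]) default p := by
    intro v
    rw [h2, ← truth_formula hG φ params]
    refine iff_of_eq (congrArg _ (congrArg _ ?_))
    funext i
    fin_cases i <;> rfl
  obtain ⟨p, hp, h6⟩ := (h5 v).1 hv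
  obtain ⟨y, h7, c', r', h8, h9, h10⟩ := hb (code (c, p)) (code_mem_dom _) ⟨v.1, code c, code p, rfl,
    v.2, (h4 v p).1 h6⟩
  obtain ⟨rfl, rfl⟩ := op_inj (h8 : op (code c) (code p) = op c' r')
  exact ⟨NN.mk hG ⟨y, h9⟩, hz ⟨y, h9⟩ h7, (h5 ⟨y, h9⟩).2 ⟨p, hp, (h4 ⟨y, h9⟩ p).2 h10⟩⟩

end

end Pool.Agent.Helper672.ZFA.H635
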