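import Pool.Agent.H635R2.Sys

/-!
# Names: pointed graphs in the model
-/

namespace Pool.Agent.Helper672.ZFA.H635

open FirstOrder FirstOrder.Language

universe u

section subst

variable {M : Type u} [L.Structure M] {ι κ : Type} [Finite κ]

theorem D.exs {p : (ι → M) → (κ → M) → Prop}
    (h : D (fun w : ι ⊕ κ → M => p (fun i => w (Sum.inl i)) (fun i => w (Sum.inr i)))) :
    D (fun v => ∃ a, p v a) := by
  have h1 := Set.Definable.exists_of_finite (β := κ) h
  exact h1

theorem D.foralls {p : κ → (ι → M) → Prop} (h : ∀ k, D (p k)) : D (fun v => ∀ k, p k v) := by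
  have _ := Fintype.ofFinite κ
  have h1 := Set.definable_biInter_finset h Finset.univ
  refine Eq.mp (congrArg (Set.univ.Definable L) ?_) h1
  ext v
  simp

theorem D.subst {p : (κ → M) → Prop} (hp : D p) {f : κ → (ι → M) → M} (hf : ∀ k, DF (f k)) :
    D (fun v => p (fun k => f k v)) := by
  have h : D (fun v : ι → M => ∃ a : κ → M, (∀ k, a k = f k v) ∧ p a) := by
    refine D.exs (D.and (D.foralls fun k => ?_) ?_)
    · exact D.eqf (DF.var _) ((hf k).reindex Sum.inl)
    · exact hp.reindex Sum.inr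
  refine Eq.mp (congrArg D ?_) h
  funext v
  apply propext
  constructor
  · rintro ⟨a, h1, h2⟩
    rwa [funext h1] at h2
  · intro h1
    exact ⟨_, fun _ => rfl, h1⟩

end subst

section names

variable {M : Type u} [L.Structure M] [hM : IsModel M]
variable {P Γ : Type u} [ITy M P] [Preorder P] [ILE M P] [ITy M Γ] [Group Γ] [IMul M Γ]
  [IInv M Γ] [MulAction Γ P] [ISMul M Γ P]
variable {α β γ δ : Type u} [ITy M α] [ITy M β] [ITy M γ] [ITy M δ]
variable {Λ : Type u} [ITy M Λ]

/-- The set of nodes of a name. -/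
noncomputable def Tn (x : M) : M := fstM x

/-- The graph of a name. -/
noncomputable def En (x : M) : M := fstM (sndM x)

/-- The root of a name. -/
noncomputable def rn (x : M) : M := sndM (sndM x)

/-- The graph of a name as a relation. -/
def ed (P : Type u) [ITy M P] (x : M) : El (Tn x) → P → El (Tn x) → Prop :=
  fun a p b => Mem (op (op a.1 (code p)) b.1) (En x)

theorem ed_int (x : M) : IG M (ed P x) := ⟨En x, fun _ => Iff.rfl⟩

/-! ### The name given by a node of an internal graph -/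

/-- The set given by an internal predicate. -/
noncomputable def gr {p : α → Prop} (h : Int M p) : M := h.small.elt

theorem mem_gr {p : α → Prop} (h : Int M p) {z : M} : Mem z (gr h) ↔ ∃ a, p a ∧ code a = z :=
  h.small.mem

theorem code_mem_gr {p : α → Prop} (h : Int M p) {a : α} : Mem (code a) (gr h) ↔ p a :=
  (mem_gr h).trans ⟨fun ⟨_, h1, h2⟩ => ITy.inj h2 ▸ h1, fun h => ⟨a, h, rfl⟩⟩

/-- The name given by a node of an internal graph. -/
noncomputable def mkN {E : α → P → α → Prop} (hE : IG M E) (a : α) : M :=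
  op (dom M α) (op (gr hE) (code a))

theorem Tn_mkN {E : α → P → α → Prop} (hE : IG M E) (a : α) : Tn (mkN hE a) = dom M α := by
  simp [Tn, mkN]

theorem En_mkN {E : α → P → α → Prop} (hE : IG M E) (a : α) : En (mkN hE a) = gr hE := by
  simp [En, mkN]

theorem rn_mkN {E : α → P → α → Prop} (hE : IG M E) (a : α) : rn (mkN hE a) = code a := by
  simp [rn, mkN]

/-- The identification of the nodes. -/
def toT {E : α → P → α → Prop} (hE : IG M E) (a : α) (b : α) : El (Tn (mkN hE a)) :=
  ⟨code b, by rw [Tn_mkN]; exact code_mem_dom b⟩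

theorem int_toT {E : α → P → α → Prop} (hE : IG M E) (a : α) : IntF M (toT hE a) := by
  refine IntF.of_D (S := fun v => v 0 = v 1) (D.eqf (DF.var _) (DF.var _)) fun b c => ?_
  exact ⟨fun h => Subtype.ext h, fun h => congrArg Subtype.val h⟩

theorem toT_surj {E : α → P → α → Prop} (hE : IG M E) (a : α) (c : El (Tn (mkN hE a))) :
    ∃ b, toT hE a b = c := by
  obtain ⟨c, hc⟩ := c
  have hc' := hc
  rw [Tn_mkN] at hc'
  obtain ⟨b, rfl⟩ := mem_dom.1 hc'
  exact ⟨b, rfl⟩

theorem toT_inj {E : α → P → α → Prop} (hE : IG M E) (a : α) : Function.Injective (toT hE a) :=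
  fun _ _ h => ITy.inj (congrArg Subtype.val h)

theorem ed_toT {E : α → P → α → Prop} (hE : IG M E) (a : α) (b c : α) (p : P) :
    ed P (mkN hE a) (toT hE a b) p (toT hE a c) ↔ E b p c := by
  unfold ed
  rw [En_mkN]
  exact code_mem_gr (a := ((b, p), c)) hE

theorem ed_toT' {E : α → P → α → Prop} (hE : IG M E) (a : α) (b : α) (c : El (Tn (mkN hE a)))
    (p : P) : ed P (mkN hE a) c p (toT hE a b) ↔ ∃ b', toT hE a b' = c ∧ E b' p b := by
  obtain ⟨b', rfl⟩ := toT_surj hE a c
  rw [ed_toT]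
  exact ⟨fun h => ⟨b', rfl, h⟩, fun ⟨b'', h1, h2⟩ => toT_inj hE a h1 ▸ h2⟩

theorem feq_toT {E : α → P → α → Prop} (hE : IG M E) (a : α) (p : P) (b : α) :
    FEq M E (ed P (mkN hE a)) p b (toT hE a b) :=
  feq_of_map (int_toT hE a) (fun x y s => ed_toT' hE a x y s) p b

theorem WFI.map {E : α → P → α → Prop} {F : β → P → β → Prop} (hE : WFI M E) {θ : α → β}
    (hθ : IntF M θ) (hs : Function.Surjective θ)
    (h : ∀ a a' s, F (θ a') s (θ a) → E a' s a) : WFI M F := by
  intro t ⟨b, hb⟩
  obtain ⟨a, rfl⟩ := hs b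
  have hp : Int M (fun a => θ a ∈ t) := by (repeat' (first | with_reducible exact IntF.id | with_reducible exact IntF.fst' | with_reducible exact IntF.snd' | with_reducible exact IntF.const _ | with_reducible exact Int.const _ | assumption | with_reducible apply Int.and | with_reducible apply Int.or | with_reducible apply Int.not | with_reducible apply Int.imp | with_reducible apply Int.iff | with_reducible apply Int.ne | with_reducible apply Int.eq | with_reducible apply Int.mem | with_reducible apply Int.subset | with_reducible apply Int.ltN | with_reducible apply Int.leN | with_reducible_and_instances apply Int.le | with_reducible_and_instances apply Int.lt | with_reducible apply Int.all | with_reducible apply Int.ex | with_reducible apply IntF.fst | with_reducible apply IntF.snd | with_reducible apply IntF.app | with_reducible apply IntF.inl | with_reducible apply IntF.inr | with_reducible_and_instances apply IntF.mul | with_reducible_and_instances apply IntF.inv | with_reducible_and_instances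 apply IntF.add | with_reducible_and_instances apply IntF.sub | with_reducible_and_instances apply IntF.neg | with_reducible_and_instances apply IntF.smul | with_reducible apply IntF.succ | with_reducible apply IntF.val | with_reducible apply IntF.mk | (with_reducible refine Int.comp ?_ ?_; assumption) | (with_reducible refine Int.comp₂ ?_ ?_ ?_; assumption) | (with_reducible refine Int.comp₃ ?_ ?_ ?_ ?_; assumption) | (with_reducible refine Int.comp₄ ?_ ?_ ?_ ?_ ?_; assumption) | (with_reducible refine IntF.comp ?_ ?_; assumption) | (with_reducible refine IntF.comp₂ ?_ ?_ ?_; assumption) | (with_reducible refine IntF.comp₃ ?_ ?_ ?_ ?_; assumption) | with_reducible apply IntF.pair))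
  obtain ⟨a, h1, h2⟩ := hE (sep M fun a => θ a ∈ t) ⟨a, (mem_sep hp).2 hb⟩
  refine ⟨θ a, (mem_sep hp).1 h1, fun b' q hb' h3 => ?_⟩
  obtain ⟨a', rfl⟩ := hs b'
  exact h2 a' q ((mem_sep hp).2 hb') (h a a' q h3)

variable (S : SymSys M P Γ Λ)

theorem good_mkN {E : α → P → α → Prop} (h : Good S E) (a : α) :
    Good S (ed P (mkN h.int a)) := by
  refine ⟨ed_int _, ?_, ?_⟩
  · refine h.wf.map (int_toT h.int a) (toT_surj h.int a) fun b b' s h1 => ?_
    exact (ed_toT h.int a b' b s).1 h1
  · intro c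
    obtain ⟨b, rfl⟩ := toT_surj h.int a c
    obtain ⟨l, hl⟩ := h.sym b
    exact ⟨l, hl.congr S h.int (ed_int _) fun p => feq_toT h.int a p b⟩

/-- Names. -/
def IsNm (x : M) : Prop := Mem (rn x) (Tn x) ∧ WFI M (ed P x) ∧ SymG S (ed P x)

/-- The type of names. -/
def Nm : Type u := {x : M // IsNm S x}

variable {S}

/-- The root of a name. -/
noncomputable def Nm.root (x : Nm S) : El (Tn x.1) := ⟨rn x.1, x.2.1⟩

/-- The graph of a name. -/
def Nm.E (x : Nm S) : El (Tn x.1) → P → El (Tn x.1) → Prop := ed P x.1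

theorem Nm.good (x : Nm S) : Good S x.E := ⟨ed_int _, x.2.2.1, x.2.2.2⟩

theorem Nm.int (x : Nm S) : IG M x.E := ed_int _

/-- The name given by a node of a good graph. -/
noncomputable def mkNm {E : α → P → α → Prop} (h : Good S E) (a : α) : Nm S :=
  ⟨mkN h.int a, by
    refine ⟨?_, (good_mkN S h a).wf, (good_mkN S h a).sym⟩
    rw [rn_mkN, Tn_mkN]
    exact code_mem_dom a⟩

theorem feq_mkNm {E : α → P → α → Prop} (h : Good S E) (a : α) (p : P) :
    FEq M E (mkNm h a).E p a (mkNm h a).root := by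
  have h1 := feq_toT h.int a p a
  have h2 : toT h.int a a = (mkNm h a).root := Subtype.ext (rn_mkN h.int a).symm
  rw [← h2]
  exact h1

end names

/-! ### Definability of forced equality -/

section definability

variable {M : Type u} [L.Structure M] [hM : IsModel M]
variable {P Γ : Type u} [ITy M P] [Preorder P] [ILE M P] [ITy M Γ] [Group Γ] [IMul M Γ]
  [IInv M Γ] [MulAction Γ P] [ISMul M Γ P]
variable {Λ : Type u} [ITy M Λ]

variable (M P) in
/-- The order as an element of the model. -/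
noncomputable def LEc : M := gr (M := M) (ILE.out : Int M (fun q : P × P => q.1 ≤ q.2))

variable (M P Γ) in
/-- The action as an element of the model. -/
noncomputable def ACTc : M := gr (M := M) (ISMul.out : IntF M (fun q : Γ × P => q.1 • q.2))

theorem mem_LEc {p q : M} : Mem (op p q) (LEc M P) ↔
    ∃ p' q' : P, p = code p' ∧ q = code q' ∧ p' ≤ q' := by
  unfold LEc
  rw [mem_gr]
  constructor
  · rintro ⟨⟨p', q'⟩, h1, h2⟩
    obtain ⟨h3, h4⟩ := op_inj (h2 : op (code p') (code q') = op p q)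
    exact ⟨p', q', h3.symm, h4.symm, h1⟩
  · rintro ⟨p', q', rfl, rfl, h⟩
    exact ⟨(p', q'), h, rfl⟩

theorem mem_ACTc {g p q : M} : Mem (op (op g p) q) (ACTc M P Γ) ↔
    ∃ (g' : Γ) (p' q' : P), g = code g' ∧ p = code p' ∧ q = code q' ∧ g' • p' = q' := by
  unfold ACTc
  rw [mem_gr]
  constructor
  · rintro ⟨⟨⟨g', p'⟩, q'⟩, h1, h2⟩
    obtain ⟨h3, h4⟩ := op_inj (h2 : op (op (code g') (code p')) (code q') = op (op g p) q)
    obtain ⟨h5, h6⟩ := op_inj h3
    exact ⟨g', p', q', h5.symm, h6.symm, h4.symm, h1⟩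
  · rintro ⟨g', p', q', rfl, rfl, rfl, h⟩
    exact ⟨((g', p'), q'), h, rfl⟩

/-- Forced equality, in the language of set theory. -/
def FEqM (le act g x a y b p : M) : Prop :=
  ∃ r, (∀ q u v, Mem (op (op q u) v) r →
    (∀ q', Mem (op q' q) le → Mem (op (op q' u) v) r) ∧
    (∀ u' s s0, Mem u' (Tn x) → Mem (op (op g s0) s) act → Mem (op (op u' s0) u) (En x) →
      ∀ q', Mem (op q' q) le → Mem (op q' s) le → ∃ q'', Mem (op q'' q') le ∧
        ∃ v' s', (Mem v' (Tn y) ∧ Mem (op (op v' s') v) (En y)) ∧ Mem (op q'' s') le ∧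
          Mem (op (op q'' u') v') r) ∧
    (∀ v' s, Mem v' (Tn y) → Mem (op (op v' s) v) (En y) →
      ∀ q', Mem (op q' q) le → Mem (op q' s) le → ∃ q'', Mem (op q'' q') le ∧
        ∃ u' s', (Mem u' (Tn x) ∧ ∃ s0, Mem (op (op g s0) s') act ∧
          Mem (op (op u' s0) u) (En x)) ∧ Mem (op q'' s') le ∧
          Mem (op (op q'' u') v') r)) ∧
    Mem (op (op p a) b) r

theorem D.feqM₀ : D (fun v : Fin 8 → M =>
    FEqM (v 0) (v 1) (v 2) (v 3) (v 4) (v 5) (v 6) (v 7)) := by
  unfold FEqM Tn En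
  (repeat' (first | with_reducible exact DF.var _ | with_reducible exact DF.const _ | assumption | with_reducible apply D.and | with_reducible apply D.or | with_reducible apply D.not | with_reducible apply D.imp | with_reducible apply D.iff | with_reducible apply D.eqf | with_reducible apply D.memf | with_reducible apply D.all | with_reducible apply D.ex | with_reducible apply DF.op | with_reducible apply DF.up | with_reducible apply DF.fst | with_reducible apply DF.snd))

theorem D.feqM {ι : Type} {le act g x a y b p : (ι → M) → M} (h0 : DF le) (h1 : DF act)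
    (h2 : DF g) (h3 : DF x) (h4 : DF a) (h5 : DF y) (h6 : DF b) (h7 : DF p) :
    D (fun v => FEqM (le v) (act v) (g v) (x v) (a v) (y v) (b v) (p v)) := by
  have h := D.subst (f := ![le, act, g, x, a, y, b, p]) (D.feqM₀ (M := M)) (by
    intro k
    fin_cases k <;> assumption)
  exact h

theorem feqM_iff {g : Γ} {x y : M} {a : El (Tn x)} {b : El (Tn y)} {p : P} :
    FEqM (LEc M P) (ACTc M P Γ) (code g) x a.1 y b.1 (code p) ↔
      FEq M (tw g (ed P x)) (ed P y) p a b := by
  constructor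
  · rintro ⟨r, h1, h2⟩
    refine FEq.of_rel (r := fun q u v => Mem (op (op (code q) u.1) v.1) r)
      ⟨r, fun q => Iff.rfl⟩ ?_ h2
    intro q u v huv
    obtain ⟨h3, h4, h5⟩ := h1 _ _ _ huv
    refine ⟨fun q' hq' => h3 _ (mem_LEc.2 ⟨_, _, rfl, rfl, hq'⟩), ?_, ?_⟩
    · intro u' s hu q' hq' hs
      obtain ⟨q'', h6, v', s', ⟨h7, h7'⟩, h8, h9⟩ := h4 u'.1 (code s) (code (g⁻¹ • s)) u'.2
        (mem_ACTc.2 ⟨g, g⁻¹ • s, s, rfl, rfl, rfl, by simp⟩) hu (code q')
        (mem_LEc.2 ⟨_, _, rfl, rfl, hq'⟩) (mem_LEc.2 ⟨_, _, rfl, rfl, hs⟩)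
      obtain ⟨q1, q2, rfl, h11, h12⟩ := mem_LEc.1 h6
      obtain rfl := ITy.inj h11
      obtain ⟨q3, s1, h13, rfl, h14⟩ := mem_LEc.1 h8
      obtain rfl := ITy.inj h13
      exact ⟨q1, h12, ⟨v', h7⟩, s1, h7', h14, h9⟩
    · intro v' s hv q' hq' hs
      obtain ⟨q'', h6, u', s', ⟨h7, s0, h10, h7'⟩, h8, h9⟩ := h5 v'.1 (code s) v'.2 hv (code q')
        (mem_LEc.2 ⟨_, _, rfl, rfl, hq'⟩) (mem_LEc.2 ⟨_, _, rfl, rfl, hs⟩)
      obtain ⟨q1, q2, rfl, h11, h12⟩ := mem_LEc.1 h6
      obtain rfl := ITy.inj h11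
      obtain ⟨q3, s1, h13, rfl, h14⟩ := mem_LEc.1 h8
      obtain rfl := ITy.inj h13
      obtain ⟨g', p', p'', h15, rfl, h17, h18⟩ := mem_ACTc.1 h10
      obtain rfl := ITy.inj h15
      obtain rfl := ITy.inj h17
      refine ⟨q1, h12, ⟨u', h7⟩, s1, ?_, h14, h9⟩
      subst h18
      simpa [tw, ed] using h7'
  · rintro ⟨R, hR, h⟩
    refine ⟨code R, ?_, mem_code_iff.2 h⟩
    intro q u v huv
    obtain ⟨⟨⟨q, u⟩, v⟩, h1, h2⟩ := mem_code_pow.1 huv
    obtain ⟨h3, rfl⟩ := op_inj (h2 : op (op (code q) u.1) v.1 = _)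
    obtain ⟨rfl, rfl⟩ := op_inj h3
    obtain ⟨h3, h4, h5⟩ := hR _ _ _ h1
    refine ⟨?_, ?_, ?_⟩
    · intro q' hq'
      obtain ⟨q1, q2, rfl, h11, h12⟩ := mem_LEc.1 hq'
      obtain rfl := ITy.inj h11
      exact mem_code_iff.2 (h3 _ h12)
    · intro u' s s0 hu' hs hE q' hq' hqs
      obtain ⟨q1, q2, rfl, h11, h12⟩ := mem_LEc.1 hq'
      obtain rfl := ITy.inj h11
      obtain ⟨q3, s1, h13, rfl, h14⟩ := mem_LEc.1 hqs
      obtain rfl := ITy.inj h13
      obtain ⟨g', p', p'', h15, rfl, h17, h18⟩ := mem_ACTc.1 hs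
      obtain rfl := ITy.inj h15
      obtain rfl := ITy.inj h17
      subst h18
      obtain ⟨q'', h6, v', s', h7, h8, h9⟩ := h4 ⟨u', hu'⟩ (g • p')
        (by simp only [tw, inv_smul_smul, ed]; exact hE)
        q1 h12 h14
      exact ⟨code q'', mem_LEc.2 ⟨_, _, rfl, rfl, h6⟩, v'.1, code s', ⟨v'.2, h7⟩,
        mem_LEc.2 ⟨_, _, rfl, rfl, h8⟩, mem_code_iff.2 h9⟩
    · intro v' s hv' hE q' hq' hqs
      obtain ⟨q1, q2, rfl, h11, h12⟩ := mem_LEc.1 hq'
      obtain rfl := ITy.inj h11
      obtain ⟨q3, s1, h13, rfl, h14⟩ := mem_LEc.1 hqs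
      obtain rfl := ITy.inj h13
      obtain ⟨q'', h6, u', s', h7, h8, h9⟩ := h5 ⟨v', hv'⟩ s1 hE q1 h12 h14
      exact ⟨code q'', mem_LEc.2 ⟨_, _, rfl, rfl, h6⟩, u'.1, code s', ⟨u'.2, code (g⁻¹ • s'),
        mem_ACTc.2 ⟨g, g⁻¹ • s', s', rfl, rfl, rfl, by simp⟩, h7⟩,
        mem_LEc.2 ⟨_, _, rfl, rfl, h8⟩, mem_code_iff.2 h9⟩

end definability

end Pool.Agent.Helper672.ZFA.H635
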