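import Pool.Agent.H635R2.Mean

/-!
# The set of values
-/

namespace Pool.Agent.Helper672.ZFA.H635

open FirstOrder FirstOrder.Language

universe u

variable (M : Type u) [L.Structure M] [hM : IsModel M]

/-- The half of the values. -/
abbrev TT : Type u := IPow M (INat M)

/-- The values. -/
abbrev XX : Type u := TT M ⊕ (TT M ⊕ TT M)

variable {M}

/-- The bijection of `TT` and `TT ⊕ TT`, as a relation. -/
def RR2 (t : TT M) (x : TT M ⊕ TT M) : Prop :=
  (0 ∈ t ∧ ∃ s : TT M, x = Sum.inl s ∧ ∀ n, n ∈ s ↔ INat.succ n ∈ t) ∨
  (¬ 0 ∈ t ∧ ∃ s : TT M, x = Sum.inr s ∧ ∀ n, n ∈ s ↔ INat.succ n ∈ t)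

theorem RR2_left (t : TT M) : ∃ x, RR2 t x := by
  have hI : Int M (fun n => INat.succ n ∈ t) := by (repeat' (first | with_reducible exact IntF.id | with_reducible exact IntF.fst' | with_reducible exact IntF.snd' | with_reducible exact IntF.const _ | with_reducible exact Int.const _ | assumption | with_reducible apply Int.and | with_reducible apply Int.or | with_reducible apply Int.not | with_reducible apply Int.imp | with_reducible apply Int.iff | with_reducible apply Int.ne | with_reducible apply Int.eq | with_reducible apply Int.mem | with_reducible apply Int.subset | with_reducible apply Int.ltN | with_reducible apply Int.leN | with_reducible_and_instances apply Int.le | with_reducible_and_instances apply Int.lt | with_reducible apply Int.all | with_reducible apply Int.ex | with_reducible apply IntF.fst | with_reducible apply IntF.snd | with_reducible apply IntF.app | with_reducible apply IntF.inl | with_reducible apply IntF.inr | with_reducible_and_instances apply IntF.mul | with_reducible_and_instances apply IntF.inv | with_reducible_and_instances apply IntF.add | with_reducible_and_instances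 apply IntF.sub | with_reducible_and_instances apply IntF.neg | with_reducible_and_instances apply IntF.smul | with_reducible apply IntF.succ | with_reducible apply IntF.val | with_reducible apply IntF.mk | (with_reducible refine Int.comp ?_ ?_; assumption) | (with_reducible refine Int.comp₂ ?_ ?_ ?_; assumption) | (with_reducible refine Int.comp₃ ?_ ?_ ?_ ?_; assumption) | (with_reducible refine Int.comp₄ ?_ ?_ ?_ ?_ ?_; assumption) | (with_reducible refine IntF.comp ?_ ?_; assumption) | (with_reducible refine IntF.comp₂ ?_ ?_ ?_; assumption) | (with_reducible refine IntF.comp₃ ?_ ?_ ?_ ?_; assumption) | with_reducible apply IntF.pair))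
  by_cases h : 0 ∈ t
  · exact ⟨Sum.inl (sep M fun n => INat.succ n ∈ t), Or.inl ⟨h, _, rfl, fun n => mem_sep hI⟩⟩
  · exact ⟨Sum.inr (sep M fun n => INat.succ n ∈ t), Or.inr ⟨h, _, rfl, fun n => mem_sep hI⟩⟩

theorem RR2_unique {t : TT M} {x y : TT M ⊕ TT M} (h : RR2 t x) (h' : RR2 t y) : x = y := by
  rcases h with ⟨h1, s, rfl, h2⟩ | ⟨h1, s, rfl, h2⟩
  · rcases h' with ⟨h3, s', rfl, h4⟩ | ⟨h3, s', rfl, h4⟩
    · exact congrArg Sum.inl (IPow.ext' fun n => (h2 n).trans (h4 n).symm)
    · exact absurd h1 h3
  · rcases h' with ⟨h3, s', rfl, h4⟩ | ⟨h3, s', rfl, h4⟩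
    · exact absurd h3 h1
    · exact congrArg Sum.inr (IPow.ext' fun n => (h2 n).trans (h4 n).symm)

theorem RR2_right (x : TT M ⊕ TT M) : ∃ t, RR2 t x := by
  rcases x with s | s
  · have hI : Int M (fun n => n = 0 ∨ ∃ m, m ∈ s ∧ n = INat.succ m) := by (repeat' (first | with_reducible exact IntF.id | with_reducible exact IntF.fst' | with_reducible exact IntF.snd' | with_reducible exact IntF.const _ | with_reducible exact Int.const _ | assumption | with_reducible apply Int.and | with_reducible apply Int.or | with_reducible apply Int.not | with_reducible apply Int.imp | with_reducible apply Int.iff | with_reducible apply Int.ne | with_reducible apply Int.eq | with_reducible apply Int.mem | with_reducible apply Int.subset | with_reducible apply Int.ltN | with_reducible apply Int.leN | with_reducible_and_instances apply Int.le | with_reducible_and_instances apply Int.lt | with_reducible apply Int.all | with_reducible apply Int.ex | with_reducible apply IntF.fst | with_reducible apply IntF.snd | with_reducible apply IntF.app | with_reducible apply IntF.inl | with_reducible apply IntF.inr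 | with_reducible_and_instances apply IntF.mul | with_reducible_and_instances apply IntF.inv | with_reducible_and_instances apply IntF.add | with_reducible_and_instances apply IntF.sub | with_reducible_and_instances apply IntF.neg | with_reducible_and_instances apply IntF.smul | with_reducible apply IntF.succ | with_reducible apply IntF.val | with_reducible apply IntF.mk | (with_reducible refine Int.comp ?_ ?_; assumption) | (with_reducible refine Int.comp₂ ?_ ?_ ?_; assumption) | (with_reducible refine Int.comp₃ ?_ ?_ ?_ ?_; assumption) | (with_reducible refine Int.comp₄ ?_ ?_ ?_ ?_ ?_; assumption) | (with_reducible refine IntF.comp ?_ ?_; assumption) | (with_reducible refine IntF.comp₂ ?_ ?_ ?_; assumption) | (with_reducible refine IntF.comp₃ ?_ ?_ ?_ ?_; assumption) | with_reducible apply IntF.pair))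
    refine ⟨sep M fun n => n = 0 ∨ ∃ m, m ∈ s ∧ n = INat.succ m, Or.inl ⟨(mem_sep hI).2 (Or.inl rfl),
      s, rfl, fun n => ?_⟩⟩
    rw [mem_sep hI]
    constructor
    · exact fun h => Or.inr ⟨n, h, rfl⟩
    · rintro (h | ⟨m, h1, h2⟩)
      · exact absurd h (INat.succ_ne_zero n)
      · rwa [INat.succ_inj h2]
  · have hI : Int M (fun n => ∃ m, m ∈ s ∧ n = INat.succ m) := by (repeat' (first | with_reducible exact IntF.id | with_reducible exact IntF.fst' | with_reducible exact IntF.snd' | with_reducible exact IntF.const _ | with_reducible exact Int.const _ | assumption | with_reducible apply Int.and | with_reducible apply Int.or | with_reducible apply Int.not | with_reducible apply Int.imp | with_reducible apply Int.iff | with_reducible apply Int.ne | with_reducible apply Int.eq | with_reducible apply Int.mem | with_reducible apply Int.subset | with_reducible apply Int.ltN | with_reducible apply Int.leN | with_reducible_and_instances apply Int.le | with_reducible_and_instances apply Int.lt | with_reducible apply Int.all | with_reducible apply Int.ex | with_reducible apply IntF.fst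 | with_reducible apply IntF.snd | with_reducible apply IntF.app | with_reducible apply IntF.inl | with_reducible apply IntF.inr | with_reducible_and_instances apply IntF.mul | with_reducible_and_instances apply IntF.inv | with_reducible_and_instances apply IntF.add | with_reducible_and_instances apply IntF.sub | with_reducible_and_instances apply IntF.neg | with_reducible_and_instances apply IntF.smul | with_reducible apply IntF.succ | with_reducible apply IntF.val | with_reducible apply IntF.mk | (with_reducible refine Int.comp ?_ ?_; assumption) | (with_reducible refine Int.comp₂ ?_ ?_ ?_; assumption) | (with_reducible refine Int.comp₃ ?_ ?_ ?_ ?_; assumption) | (with_reducible refine Int.comp₄ ?_ ?_ ?_ ?_ ?_; assumption) | (with_reducible refine IntF.comp ?_ ?_; assumption) | (with_reducible refine IntF.comp₂ ?_ ?_ ?_; assumption) | (with_reducible refine IntF.comp₃ ?_ ?_ ?_ ?_; assumption) | with_reducible apply IntF.pair))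
    refine ⟨sep M fun n => ∃ m, m ∈ s ∧ n = INat.succ m, Or.inr ⟨fun h => ?_, s, rfl, fun n => ?_⟩⟩
    · obtain ⟨m, -, h1⟩ := (mem_sep hI).1 h
      exact INat.succ_ne_zero m h1.symm
    · rw [mem_sep hI]
      constructor
      · exact fun h => ⟨n, h, rfl⟩
      · rintro ⟨m, h1, h2⟩
        rwa [INat.succ_inj h2]

theorem RR2_inj {t t' : TT M} {x : TT M ⊕ TT M} (h : RR2 t x) (h' : RR2 t' x) : t = t' := by
  rcases h with ⟨h1, s, rfl, h2⟩ | ⟨h1, s, rfl, h2⟩
  · rcases h' with ⟨h3, s', hs, h4⟩ | ⟨h3, s', hs, h4⟩
    · cases hs
      refine IPow.ext' fun n => ?_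
      rcases INat.eq_zero_or_succ n with rfl | ⟨m, rfl⟩
      · exact iff_of_true h1 h3
      · exact (h2 m).symm.trans (h4 m)
    · cases hs
  · rcases h' with ⟨h3, s', hs, h4⟩ | ⟨h3, s', hs, h4⟩
    · cases hs
    · cases hs
      refine IPow.ext' fun n => ?_
      rcases INat.eq_zero_or_succ n with rfl | ⟨m, rfl⟩
      · exact iff_of_false h1 h3
      · exact (h2 m).symm.trans (h4 m)

theorem exists_g0 : ∃ g : XX M → XX M, IntF M g ∧ (∀ d, g (g d) = d) ∧
    ∀ d, (∃ t, g d = Sum.inl t) ↔ ¬ ∃ t, d = Sum.inl t := by
  let r : XX M → XX M → Prop := fun x y => (∃ t x', x = Sum.inl t ∧ y = Sum.inr x' ∧ RR2 t x') ∨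
    (∃ t x', x = Sum.inr x' ∧ y = Sum.inl t ∧ RR2 t x')
  have hr : Int M (fun q : XX M × XX M => r q.1 q.2) := by
    unfold r RR2
    (repeat' (first | with_reducible exact IntF.id | with_reducible exact IntF.fst' | with_reducible exact IntF.snd' | with_reducible exact IntF.const _ | with_reducible exact Int.const _ | assumption | with_reducible apply Int.and | with_reducible apply Int.or | with_reducible apply Int.not | with_reducible apply Int.imp | with_reducible apply Int.iff | with_reducible apply Int.ne | with_reducible apply Int.eq | with_reducible apply Int.mem | with_reducible apply Int.subset | with_reducible apply Int.ltN | with_reducible apply Int.leN | with_reducible_and_instances apply Int.le | with_reducible_and_instances apply Int.lt | with_reducible apply Int.all | with_reducible apply Int.ex | with_reducible apply IntF.fst | with_reducible apply IntF.snd | with_reducible apply IntF.app | with_reducible apply IntF.inl | with_reducible apply IntF.inr | with_reducible_and_instances apply IntF.mul | with_reducible_and_instances apply IntF.inv | with_reducible_and_instances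 apply IntF.add | with_reducible_and_instances apply IntF.sub | with_reducible_and_instances apply IntF.neg | with_reducible_and_instances apply IntF.smul | with_reducible apply IntF.succ | with_reducible apply IntF.val | with_reducible apply IntF.mk | (with_reducible refine Int.comp ?_ ?_; assumption) | (with_reducible refine Int.comp₂ ?_ ?_ ?_; assumption) | (with_reducible refine Int.comp₃ ?_ ?_ ?_ ?_; assumption) | (with_reducible refine Int.comp₄ ?_ ?_ ?_ ?_ ?_; assumption) | (with_reducible refine IntF.comp ?_ ?_; assumption) | (with_reducible refine IntF.comp₂ ?_ ?_ ?_; assumption) | (with_reducible refine IntF.comp₃ ?_ ?_ ?_ ?_; assumption) | with_reducible apply IntF.pair))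
  have hsymm : ∀ x y, r x y → r y x := by
    rintro x y (⟨t, x', rfl, rfl, h⟩ | ⟨t, x', rfl, rfl, h⟩)
    · exact Or.inr ⟨t, x', rfl, rfl, h⟩
    · exact Or.inl ⟨t, x', rfl, rfl, h⟩
  have hex : ∀ x, ∃ y, r x y := by
    rintro (t | x)
    · obtain ⟨x, hx⟩ := RR2_left t
      exact ⟨_, Or.inl ⟨t, x, rfl, rfl, hx⟩⟩
    · obtain ⟨t, ht⟩ := RR2_right x
      exact ⟨_, Or.inr ⟨t, x, rfl, rfl, ht⟩⟩
  have huniq : ∀ x y z, r x y → r x z → y = z := by
    rintro x y z (⟨t, x', rfl, rfl, h⟩ | ⟨t, x', rfl, rfl, h⟩) (⟨t', x'', h1, rfl, h2⟩ |
      ⟨t', x'', h1, rfl, h2⟩)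
    · cases h1
      exact congrArg Sum.inr (RR2_unique h h2)
    · cases h1
    · cases h1
    · cases h1
      exact congrArg Sum.inl (RR2_inj h h2)
  choose g hg using hex
  refine ⟨g, IntF.of_unique hr hg huniq, fun d => ?_, fun d => ?_⟩
  · exact huniq _ _ _ (hg (g d)) (hsymm _ _ (hg d))
  · rcases hg d with ⟨t, x', rfl, h, h1⟩ | ⟨t, x', rfl, h, h1⟩
    · rw [h]
      simp
    · rw [h]
      simp

theorem exists_g2 : ∃ g : XX M → XX M, IntF M g ∧ (∀ d, g (g d) = d) ∧
    ∀ d, (∃ t, g d = Sum.inl t) ↔ ∃ t, d = Sum.inr (Sum.inl t) := by
  let r : XX M → XX M → Prop := fun x y => (∃ t, x = Sum.inl t ∧ y = Sum.inr (Sum.inl t)) ∨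
    (∃ t, x = Sum.inr (Sum.inl t) ∧ y = Sum.inl t) ∨ (∃ t, x = Sum.inr (Sum.inr t) ∧
    y = Sum.inr (Sum.inr t))
  have hr : Int M (fun q : XX M × XX M => r q.1 q.2) := by
    unfold r
    (repeat' (first | with_reducible exact IntF.id | with_reducible exact IntF.fst' | with_reducible exact IntF.snd' | with_reducible exact IntF.const _ | with_reducible exact Int.const _ | assumption | with_reducible apply Int.and | with_reducible apply Int.or | with_reducible apply Int.not | with_reducible apply Int.imp | with_reducible apply Int.iff | with_reducible apply Int.ne | with_reducible apply Int.eq | with_reducible apply Int.mem | with_reducible apply Int.subset | with_reducible apply Int.ltN | with_reducible apply Int.leN | with_reducible_and_instances apply Int.le | with_reducible_and_instances apply Int.lt | with_reducible apply Int.all | with_reducible apply Int.ex | with_reducible apply IntF.fst | with_reducible apply IntF.snd | with_reducible apply IntF.app | with_reducible apply IntF.inl | with_reducible apply IntF.inr | with_reducible_and_instances apply IntF.mul | with_reducible_and_instances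 apply IntF.inv | with_reducible_and_instances apply IntF.add | with_reducible_and_instances apply IntF.sub | with_reducible_and_instances apply IntF.neg | with_reducible_and_instances apply IntF.smul | with_reducible apply IntF.succ | with_reducible apply IntF.val | with_reducible apply IntF.mk | (with_reducible refine Int.comp ?_ ?_; assumption) | (with_reducible refine Int.comp₂ ?_ ?_ ?_; assumption) | (with_reducible refine Int.comp₃ ?_ ?_ ?_ ?_; assumption) | (with_reducible refine Int.comp₄ ?_ ?_ ?_ ?_ ?_; assumption) | (with_reducible refine IntF.comp ?_ ?_; assumption) | (with_reducible refine IntF.comp₂ ?_ ?_ ?_; assumption) | (with_reducible refine IntF.comp₃ ?_ ?_ ?_ ?_; assumption) | with_reducible apply IntF.pair))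
  have hex : ∀ x, ∃ y, r x y := by
    rintro (t | t | t)
    · exact ⟨_, Or.inl ⟨t, rfl, rfl⟩⟩
    · exact ⟨_, Or.inr (Or.inl ⟨t, rfl, rfl⟩)⟩
    · exact ⟨_, Or.inr (Or.inr ⟨t, rfl, rfl⟩)⟩
  have hsymm : ∀ x y, r x y → r y x := by
    rintro x y (⟨t, rfl, rfl⟩ | ⟨t, rfl, rfl⟩ | ⟨t, rfl, rfl⟩)
    · exact Or.inr (Or.inl ⟨t, rfl, rfl⟩)
    · exact Or.inl ⟨t, rfl, rfl⟩
    · exact Or.inr (Or.inr ⟨t, rfl, rfl⟩)
  have huniq : ∀ x y z, r x y → r x z → y = z := by
    rintro x y z (⟨t, rfl, rfl⟩ | ⟨t, rfl, rfl⟩ | ⟨t, rfl, rfl⟩) (⟨t', h1, rfl⟩ |
      ⟨t', h1, rfl⟩ | ⟨t', h1, rfl⟩) <;> cases h1 <;> rfl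
  choose g hg using hex
  refine ⟨g, IntF.of_unique hr hg huniq, fun d => ?_, fun d => ?_⟩
  · exact huniq _ _ _ (hg (g d)) (hsymm _ _ (hg d))
  · rcases hg d with ⟨t, rfl, h⟩ | ⟨t, rfl, h⟩ | ⟨t, rfl, h⟩ <;>
    · rw [h]
      simp

theorem exists_g3 : ∃ g : XX M → XX M, IntF M g ∧ (∀ d, g (g d) = d) ∧
    ∀ d, (∃ t, g d = Sum.inl t) ↔ ∃ t, d = Sum.inr (Sum.inr t) := by
  let r : XX M → XX M → Prop := fun x y => (∃ t, x = Sum.inl t ∧ y = Sum.inr (Sum.inr t)) ∨
    (∃ t, x = Sum.inr (Sum.inr t) ∧ y = Sum.inl t) ∨ (∃ t, x = Sum.inr (Sum.inl t) ∧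
    y = Sum.inr (Sum.inl t))
  have hr : Int M (fun q : XX M × XX M => r q.1 q.2) := by
    unfold r
    (repeat' (first | with_reducible exact IntF.id | with_reducible exact IntF.fst' | with_reducible exact IntF.snd' | with_reducible exact IntF.const _ | with_reducible exact Int.const _ | assumption | with_reducible apply Int.and | with_reducible apply Int.or | with_reducible apply Int.not | with_reducible apply Int.imp | with_reducible apply Int.iff | with_reducible apply Int.ne | with_reducible apply Int.eq | with_reducible apply Int.mem | with_reducible apply Int.subset | with_reducible apply Int.ltN | with_reducible apply Int.leN | with_reducible_and_instances apply Int.le | with_reducible_and_instances apply Int.lt | with_reducible apply Int.all | with_reducible apply Int.ex | with_reducible apply IntF.fst | with_reducible apply IntF.snd | with_reducible apply IntF.app | with_reducible apply IntF.inl | with_reducible apply IntF.inr | with_reducible_and_instances apply IntF.mul | with_reducible_and_instances apply IntF.inv | with_reducible_and_instances apply IntF.add | with_reducible_and_instances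 apply IntF.sub | with_reducible_and_instances apply IntF.neg | with_reducible_and_instances apply IntF.smul | with_reducible apply IntF.succ | with_reducible apply IntF.val | with_reducible apply IntF.mk | (with_reducible refine Int.comp ?_ ?_; assumption) | (with_reducible refine Int.comp₂ ?_ ?_ ?_; assumption) | (with_reducible refine Int.comp₃ ?_ ?_ ?_ ?_; assumption) | (with_reducible refine Int.comp₄ ?_ ?_ ?_ ?_ ?_; assumption) | (with_reducible refine IntF.comp ?_ ?_; assumption) | (with_reducible refine IntF.comp₂ ?_ ?_ ?_; assumption) | (with_reducible refine IntF.comp₃ ?_ ?_ ?_ ?_; assumption) | with_reducible apply IntF.pair))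
  have hex : ∀ x, ∃ y, r x y := by
    rintro (t | t | t)
    · exact ⟨_, Or.inl ⟨t, rfl, rfl⟩⟩
    · exact ⟨_, Or.inr (Or.inr ⟨t, rfl, rfl⟩)⟩
    · exact ⟨_, Or.inr (Or.inl ⟨t, rfl, rfl⟩)⟩
  have hsymm : ∀ x y, r x y → r y x := by
    rintro x y (⟨t, rfl, rfl⟩ | ⟨t, rfl, rfl⟩ | ⟨t, rfl, rfl⟩)
    · exact Or.inr (Or.inl ⟨t, rfl, rfl⟩)
    · exact Or.inl ⟨t, rfl, rfl⟩
    · exact Or.inr (Or.inr ⟨t, rfl, rfl⟩)
  have huniq : ∀ x y z, r x y → r x z → y = z := by
    rintro x y z (⟨t, rfl, rfl⟩ | ⟨t, rfl, rfl⟩ | ⟨t, rfl, rfl⟩) (⟨t', h1, rfl⟩ |
      ⟨t', h1, rfl⟩ | ⟨t', h1, rfl⟩) <;> cases h1 <;> rfl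
  choose g hg using hex
  refine ⟨g, IntF.of_unique hr hg huniq, fun d => ?_, fun d => ?_⟩
  · exact huniq _ _ _ (hg (g d)) (hsymm _ _ (hg d))
  · rcases hg d with ⟨t, rfl, h⟩ | ⟨t, rfl, h⟩ | ⟨t, rfl, h⟩ <;>
    · rw [h]
      simp

theorem nonempty_parts : Nonempty (Parts M (XX M)) := by
  obtain ⟨g0, a0, b0, c0⟩ := exists_g0 (M := M)
  obtain ⟨g2, a2, b2, c2⟩ := exists_g2 (M := M)
  obtain ⟨g3, a3, b3, c3⟩ := exists_g3 (M := M)
  refine ⟨{ T1 := fun d => ∃ t, d = Sum.inl t
            T2 := fun d => ∃ t, d = Sum.inr (Sum.inl t)
            T3 := fun d => ∃ t, d = Sum.inr (Sum.inr t)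
            g0 := g0
            g2 := g2
            g3 := g3
            int1 := by (repeat' (first | with_reducible exact IntF.id | with_reducible exact IntF.fst' | with_reducible exact IntF.snd' | with_reducible exact IntF.const _ | with_reducible exact Int.const _ | assumption | with_reducible apply Int.and | with_reducible apply Int.or | with_reducible apply Int.not | with_reducible apply Int.imp | with_reducible apply Int.iff | with_reducible apply Int.ne | with_reducible apply Int.eq | with_reducible apply Int.mem | with_reducible apply Int.subset | with_reducible apply Int.ltN | with_reducible apply Int.leN | with_reducible_and_instances apply Int.le | with_reducible_and_instances apply Int.lt | with_reducible apply Int.all | with_reducible apply Int.ex | with_reducible apply IntF.fst | with_reducible apply IntF.snd | with_reducible apply IntF.app | with_reducible apply IntF.inl | with_reducible apply IntF.inr | with_reducible_and_instances apply IntF.mul | with_reducible_and_instances apply IntF.inv | with_reducible_and_instances apply IntF.add | with_reducible_and_instances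 apply IntF.sub | with_reducible_and_instances apply IntF.neg | with_reducible_and_instances apply IntF.smul | with_reducible apply IntF.succ | with_reducible apply IntF.val | with_reducible apply IntF.mk | (with_reducible refine Int.comp ?_ ?_; assumption) | (with_reducible refine Int.comp₂ ?_ ?_ ?_; assumption) | (with_reducible refine Int.comp₃ ?_ ?_ ?_ ?_; assumption) | (with_reducible refine Int.comp₄ ?_ ?_ ?_ ?_ ?_; assumption) | (with_reducible refine IntF.comp ?_ ?_; assumption) | (with_reducible refine IntF.comp₂ ?_ ?_ ?_; assumption) | (with_reducible refine IntF.comp₃ ?_ ?_ ?_ ?_; assumption) | with_reducible apply IntF.pair))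
            i0 := a0
            i2 := a2
            i3 := a3
            gg0 := b0
            gg2 := b2
            gg3 := b3
            h0 := c0
            h2 := c2
            h3 := c3
            d12 := ?_
            d13 := ?_
            d23 := ?_ }⟩
  · rintro _ ⟨⟨t, rfl⟩, s, h⟩
    cases h
  · rintro _ ⟨⟨t, rfl⟩, s, h⟩
    cases h
  · rintro _ ⟨⟨t, rfl⟩, s, h⟩
    cases h

instance : Nontrivial (XX M) :=
  ⟨Sum.inl (sep M fun _ => False), Sum.inr (Sum.inl (sep M fun _ => False)), fun h => by cases h⟩

end Pool.Agent.Helper672.ZFA.H635
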