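import Pool.Agent.H635R2.Ax

/-!
# The power set axiom in the extension
-/

namespace Pool.Agent.Helper672.ZFA.H635

open FirstOrder FirstOrder.Language
open Pool.Agent.Helper672.Plain (LSet)

universe u

section

variable {M : Type u} [L.Structure M] [hM : IsModel M]
variable {P Γ : Type u} [ITy M P] [Preorder P] [ILE M P] [ITy M Γ] [Group Γ] [IMul M Γ]
  [IInv M Γ] [MulAction Γ P] [ISMul M Γ P]
variable {Λ : Type u} [ITy M Λ] {S : SymSys M P Γ Λ}
variable {α β ε : Type u} [ITy M α] [ITy M β] [ITy M ε]
variable {G : Set P} (hG : IsGen M G)

theorem int_feq_tw {E : α → P → α → Prop} {F : β → P → β → Prop} (hE : IG M E) (hF : IG M F) :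
    Int M (fun q : ((Γ × P) × α) × β => FEq M (tw q.1.1.1 E) F q.1.1.2 q.1.2 q.2) := by
  have hE' : Int M (fun q : (α × P) × α => E q.1.1 q.1.2 q.2) := hE
  have hF' : Int M (fun q : (β × P) × β => F q.1.1 q.1.2 q.2) := hF
  refine Int.feq (E := fun q : ((Γ × P) × α) × β => tw q.1.1.1 E) (F := fun _ => F) ?_ ?_ ?_ ?_ ?_
  · exact int_tw (E := fun _ => E) (π := fun q : ((Γ × P) × α) × β => q.1.1.1) (by (repeat' (first | with_reducible exact IntF.id | with_reducible exact IntF.fst' | with_reducible exact IntF.snd' | with_reducible exact IntF.const _ | with_reducible exact Int.const _ | assumption | with_reducible apply Int.and | with_reducible apply Int.or | with_reducible apply Int.not | with_reducible apply Int.imp | with_reducible apply Int.iff | with_reducible apply Int.ne | with_reducible apply Int.eq | with_reducible apply Int.mem | with_reducible apply Int.subset | with_reducible apply Int.ltN | with_reducible apply Int.leN | with_reducible_and_instances apply Int.le | with_reducible_and_instances apply Int.lt | with_reducible apply Int.all | with_reducible apply Int.ex | with_reducible apply IntF.fst | with_reducible apply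 IntF.snd | with_reducible apply IntF.app | with_reducible apply IntF.inl | with_reducible apply IntF.inr | with_reducible_and_instances apply IntF.mul | with_reducible_and_instances apply IntF.inv | with_reducible_and_instances apply IntF.add | with_reducible_and_instances apply IntF.sub | with_reducible_and_instances apply IntF.neg | with_reducible_and_instances apply IntF.smul | with_reducible apply IntF.succ | with_reducible apply IntF.val | with_reducible apply IntF.mk | (with_reducible refine Int.comp ?_ ?_; assumption) | (with_reducible refine Int.comp₂ ?_ ?_ ?_; assumption) | (with_reducible refine Int.comp₃ ?_ ?_ ?_ ?_; assumption) | (with_reducible refine Int.comp₄ ?_ ?_ ?_ ?_ ?_; assumption) | (with_reducible refine IntF.comp ?_ ?_; assumption) | (with_reducible refine IntF.comp₂ ?_ ?_ ?_; assumption) | (with_reducible refine IntF.comp₃ ?_ ?_ ?_ ?_; assumption) | with_reducible apply IntF.pair))) (by (repeat' (first | with_reducible exact IntF.id | with_reducible exact IntF.fst' | with_reducible exact IntF.snd' | with_reducible exact IntF.const _ | with_reducible exact Int.const _ | assumption | with_reducible apply Int.and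 | with_reducible apply Int.or | with_reducible apply Int.not | with_reducible apply Int.imp | with_reducible apply Int.iff | with_reducible apply Int.ne | with_reducible apply Int.eq | with_reducible apply Int.mem | with_reducible apply Int.subset | with_reducible apply Int.ltN | with_reducible apply Int.leN | with_reducible_and_instances apply Int.le | with_reducible_and_instances apply Int.lt | with_reducible apply Int.all | with_reducible apply Int.ex | with_reducible apply IntF.fst | with_reducible apply IntF.snd | with_reducible apply IntF.app | with_reducible apply IntF.inl | with_reducible apply IntF.inr | with_reducible_and_instances apply IntF.mul | with_reducible_and_instances apply IntF.inv | with_reducible_and_instances apply IntF.add | with_reducible_and_instances apply IntF.sub | with_reducible_and_instances apply IntF.neg | with_reducible_and_instances apply IntF.smul | with_reducible apply IntF.succ | with_reducible apply IntF.val | with_reducible apply IntF.mk | (with_reducible refine Int.comp ?_ ?_; assumption) | (with_reducible refine Int.comp₂ ?_ ?_ ?_; assumption) | (with_reducible refine Int.comp₃ ?_ ?_ ?_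 ?_; assumption) | (with_reducible refine Int.comp₄ ?_ ?_ ?_ ?_ ?_; assumption) | (with_reducible refine IntF.comp ?_ ?_; assumption) | (with_reducible refine IntF.comp₂ ?_ ?_ ?_; assumption) | (with_reducible refine IntF.comp₃ ?_ ?_ ?_ ?_; assumption) | with_reducible apply IntF.pair)))
  all_goals (repeat' (first | with_reducible exact IntF.id | with_reducible exact IntF.fst' | with_reducible exact IntF.snd' | with_reducible exact IntF.const _ | with_reducible exact Int.const _ | assumption | with_reducible apply Int.and | with_reducible apply Int.or | with_reducible apply Int.not | with_reducible apply Int.imp | with_reducible apply Int.iff | with_reducible apply Int.ne | with_reducible apply Int.eq | with_reducible apply Int.mem | with_reducible apply Int.subset | with_reducible apply Int.ltN | with_reducible apply Int.leN | with_reducible_and_instances apply Int.le | with_reducible_and_instances apply Int.lt | with_reducible apply Int.all | with_reducible apply Int.ex | with_reducible apply IntF.fst | with_reducible apply IntF.snd | with_reducible apply IntF.app | with_reducible apply IntF.inl | with_reducible apply IntF.inr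 | with_reducible_and_instances apply IntF.mul | with_reducible_and_instances apply IntF.inv | with_reducible_and_instances apply IntF.add | with_reducible_and_instances apply IntF.sub | with_reducible_and_instances apply IntF.neg | with_reducible_and_instances apply IntF.smul | with_reducible apply IntF.succ | with_reducible apply IntF.val | with_reducible apply IntF.mk | (with_reducible refine Int.comp ?_ ?_; assumption) | (with_reducible refine Int.comp₂ ?_ ?_ ?_; assumption) | (with_reducible refine Int.comp₃ ?_ ?_ ?_ ?_; assumption) | (with_reducible refine Int.comp₄ ?_ ?_ ?_ ?_ ?_; assumption) | (with_reducible refine IntF.comp ?_ ?_; assumption) | (with_reducible refine IntF.comp₂ ?_ ?_ ?_; assumption) | (with_reducible refine IntF.comp₃ ?_ ?_ ?_ ?_; assumption) | with_reducible apply IntF.pair))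

variable (S) in
/-- Admissible codes of subsets. -/
def OK (E : α → P → α → Prop) (a : α) (s : IPow M (α × P)) : Prop :=
  (∃ l, SymQ S E (fun c r => (c, r) ∈ s) l) ∧ ∀ c r, (c, r) ∈ s → ∃ t, E c t a ∧ r ≤ t

variable (S) in
/-- The elements of a coded subset. -/
def powQ (E : α → P → α → Prop) (a : α) (c : α) (r : P) (s : IPow M (α × P)) : Prop :=
  (c, r) ∈ s ∧ OK S E a s

theorem int_symQ {E : α → P → α → Prop} (hE : IG M E) {Q : ε → α → P → Prop}
    (hQ : Int M (fun q : (ε × α) × P => Q q.1.1 q.1.2 q.2)) {l : ε → Λ} (hl : IntF M l) :
    Int M (fun e => SymQ S E (Q e) (l e)) := by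
  have hE' : Int M (fun q : (α × P) × α => E q.1.1 q.1.2 q.2) := hE
  have hU := S.int_U
  have hI := int_feq_tw (Γ := Γ) hE hE
  unfold SymQ
  (repeat' (first | (with_reducible refine Int.comp₄ (p := fun π p a b => FEq M (tw π E) E p a b) hI ?_ ?_ ?_ ?_) | (with_reducible refine Int.comp₂ (p := fun l π => S.U l π) hU ?_ ?_) | with_reducible exact IntF.id | with_reducible exact IntF.fst' | with_reducible exact IntF.snd' | with_reducible exact IntF.const _ | with_reducible exact Int.const _ | assumption | with_reducible apply Int.and | with_reducible apply Int.or | with_reducible apply Int.not | with_reducible apply Int.imp | with_reducible apply Int.iff | with_reducible apply Int.ne | with_reducible apply Int.eq | with_reducible apply Int.mem | with_reducible apply Int.subset | with_reducible apply Int.ltN | with_reducible apply Int.leN | with_reducible_and_instances apply Int.le | with_reducible_and_instances apply Int.lt | with_reducible apply Int.all | with_reducible apply Int.ex | with_reducible apply IntF.fst | with_reducible apply IntF.snd | with_reducible apply IntF.app | with_reducible apply IntF.inl | with_reducible apply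 IntF.inr | with_reducible_and_instances apply IntF.mul | with_reducible_and_instances apply IntF.inv | with_reducible_and_instances apply IntF.add | with_reducible_and_instances apply IntF.sub | with_reducible_and_instances apply IntF.neg | with_reducible_and_instances apply IntF.smul | with_reducible apply IntF.succ | with_reducible apply IntF.val | with_reducible apply IntF.mk | (with_reducible refine Int.comp ?_ ?_; assumption) | (with_reducible refine Int.comp₂ ?_ ?_ ?_; assumption) | (with_reducible refine Int.comp₃ ?_ ?_ ?_ ?_; assumption) | (with_reducible refine Int.comp₄ ?_ ?_ ?_ ?_ ?_; assumption) | (with_reducible refine IntF.comp ?_ ?_; assumption) | (with_reducible refine IntF.comp₂ ?_ ?_ ?_; assumption) | (with_reducible refine IntF.comp₃ ?_ ?_ ?_ ?_; assumption) | with_reducible apply IntF.pair))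

theorem int_ok {E : α → P → α → Prop} (hE : IG M E) (a : α) : Int M (OK S E a) := by
  have hE' : Int M (fun q : (α × P) × α => E q.1.1 q.1.2 q.2) := hE
  have h1 : Int M (fun q : IPow M (α × P) × Λ => SymQ S E (fun c r => (c, r) ∈ q.1) q.2) :=
    int_symQ hE (by (repeat' (first | with_reducible exact IntF.id | with_reducible exact IntF.fst' | with_reducible exact IntF.snd' | with_reducible exact IntF.const _ | with_reducible exact Int.const _ | assumption | with_reducible apply Int.and | with_reducible apply Int.or | with_reducible apply Int.not | with_reducible apply Int.imp | with_reducible apply Int.iff | with_reducible apply Int.ne | with_reducible apply Int.eq | with_reducible apply Int.mem | with_reducible apply Int.subset | with_reducible apply Int.ltN | with_reducible apply Int.leN | with_reducible_and_instances apply Int.le | with_reducible_and_instances apply Int.lt | with_reducible apply Int.all | with_reducible apply Int.ex | with_reducible apply IntF.fst | with_reducible apply IntF.snd | with_reducible apply IntF.app | with_reducible apply IntF.inl | with_reducible apply IntF.inr | with_reducible_and_instances apply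 IntF.mul | with_reducible_and_instances apply IntF.inv | with_reducible_and_instances apply IntF.add | with_reducible_and_instances apply IntF.sub | with_reducible_and_instances apply IntF.neg | with_reducible_and_instances apply IntF.smul | with_reducible apply IntF.succ | with_reducible apply IntF.val | with_reducible apply IntF.mk | (with_reducible refine Int.comp ?_ ?_; assumption) | (with_reducible refine Int.comp₂ ?_ ?_ ?_; assumption) | (with_reducible refine Int.comp₃ ?_ ?_ ?_ ?_; assumption) | (with_reducible refine Int.comp₄ ?_ ?_ ?_ ?_ ?_; assumption) | (with_reducible refine IntF.comp ?_ ?_; assumption) | (with_reducible refine IntF.comp₂ ?_ ?_ ?_; assumption) | (with_reducible refine IntF.comp₃ ?_ ?_ ?_ ?_; assumption) | with_reducible apply IntF.pair))) (by (repeat' (first | with_reducible exact IntF.id | with_reducible exact IntF.fst' | with_reducible exact IntF.snd' | with_reducible exact IntF.const _ | with_reducible exact Int.const _ | assumption | with_reducible apply Int.and | with_reducible apply Int.or | with_reducible apply Int.not | with_reducible apply Int.imp | with_reducible apply Int.iff | with_reducible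 apply Int.ne | with_reducible apply Int.eq | with_reducible apply Int.mem | with_reducible apply Int.subset | with_reducible apply Int.ltN | with_reducible apply Int.leN | with_reducible_and_instances apply Int.le | with_reducible_and_instances apply Int.lt | with_reducible apply Int.all | with_reducible apply Int.ex | with_reducible apply IntF.fst | with_reducible apply IntF.snd | with_reducible apply IntF.app | with_reducible apply IntF.inl | with_reducible apply IntF.inr | with_reducible_and_instances apply IntF.mul | with_reducible_and_instances apply IntF.inv | with_reducible_and_instances apply IntF.add | with_reducible_and_instances apply IntF.sub | with_reducible_and_instances apply IntF.neg | with_reducible_and_instances apply IntF.smul | with_reducible apply IntF.succ | with_reducible apply IntF.val | with_reducible apply IntF.mk | (with_reducible refine Int.comp ?_ ?_; assumption) | (with_reducible refine Int.comp₂ ?_ ?_ ?_; assumption) | (with_reducible refine Int.comp₃ ?_ ?_ ?_ ?_; assumption) | (with_reducible refine Int.comp₄ ?_ ?_ ?_ ?_ ?_; assumption) | (with_reducible refine IntF.comp ?_ ?_; assumption) | (with_reducible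 refine IntF.comp₂ ?_ ?_ ?_; assumption) | (with_reducible refine IntF.comp₃ ?_ ?_ ?_ ?_; assumption) | with_reducible apply IntF.pair)))
  unfold OK
  (repeat' (first | (with_reducible refine Int.comp₂ (p := fun s l => SymQ S E (fun c r => (c, r) ∈ s) l) h1 ?_ ?_) | with_reducible exact IntF.id | with_reducible exact IntF.fst' | with_reducible exact IntF.snd' | with_reducible exact IntF.const _ | with_reducible exact Int.const _ | assumption | with_reducible apply Int.and | with_reducible apply Int.or | with_reducible apply Int.not | with_reducible apply Int.imp | with_reducible apply Int.iff | with_reducible apply Int.ne | with_reducible apply Int.eq | with_reducible apply Int.mem | with_reducible apply Int.subset | with_reducible apply Int.ltN | with_reducible apply Int.leN | with_reducible_and_instances apply Int.le | with_reducible_and_instances apply Int.lt | with_reducible apply Int.all | with_reducible apply Int.ex | with_reducible apply IntF.fst | with_reducible apply IntF.snd | with_reducible apply IntF.app | with_reducible apply IntF.inl | with_reducible apply IntF.inr | with_reducible_and_instances apply IntF.mul | with_reducible_and_instances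 apply IntF.inv | with_reducible_and_instances apply IntF.add | with_reducible_and_instances apply IntF.sub | with_reducible_and_instances apply IntF.neg | with_reducible_and_instances apply IntF.smul | with_reducible apply IntF.succ | with_reducible apply IntF.val | with_reducible apply IntF.mk | (with_reducible refine Int.comp ?_ ?_; assumption) | (with_reducible refine Int.comp₂ ?_ ?_ ?_; assumption) | (with_reducible refine Int.comp₃ ?_ ?_ ?_ ?_; assumption) | (with_reducible refine Int.comp₄ ?_ ?_ ?_ ?_ ?_; assumption) | (with_reducible refine IntF.comp ?_ ?_; assumption) | (with_reducible refine IntF.comp₂ ?_ ?_ ?_; assumption) | (with_reducible refine IntF.comp₃ ?_ ?_ ?_ ?_; assumption) | with_reducible apply IntF.pair))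

theorem int_powQ {E : α → P → α → Prop} (hE : IG M E) (a : α) :
    Int M (fun q : (α × P) × IPow M (α × P) => powQ S E a q.1.1 q.1.2 q.2) := by
  have h1 := int_ok (S := S) hE a
  unfold powQ
  (repeat' (first | (with_reducible refine Int.comp (p := OK S E a) h1 ?_) | with_reducible exact IntF.id | with_reducible exact IntF.fst' | with_reducible exact IntF.snd' | with_reducible exact IntF.const _ | with_reducible exact Int.const _ | assumption | with_reducible apply Int.and | with_reducible apply Int.or | with_reducible apply Int.not | with_reducible apply Int.imp | with_reducible apply Int.iff | with_reducible apply Int.ne | with_reducible apply Int.eq | with_reducible apply Int.mem | with_reducible apply Int.subset | with_reducible apply Int.ltN | with_reducible apply Int.leN | with_reducible_and_instances apply Int.le | with_reducible_and_instances apply Int.lt | with_reducible apply Int.all | with_reducible apply Int.ex | with_reducible apply IntF.fst | with_reducible apply IntF.snd | with_reducible apply IntF.app | with_reducible apply IntF.inl | with_reducible apply IntF.inr | with_reducible_and_instances apply IntF.mul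 | with_reducible_and_instances apply IntF.inv | with_reducible_and_instances apply IntF.add | with_reducible_and_instances apply IntF.sub | with_reducible_and_instances apply IntF.neg | with_reducible_and_instances apply IntF.smul | with_reducible apply IntF.succ | with_reducible apply IntF.val | with_reducible apply IntF.mk | (with_reducible refine Int.comp ?_ ?_; assumption) | (with_reducible refine Int.comp₂ ?_ ?_ ?_; assumption) | (with_reducible refine Int.comp₃ ?_ ?_ ?_ ?_; assumption) | (with_reducible refine Int.comp₄ ?_ ?_ ?_ ?_ ?_; assumption) | (with_reducible refine IntF.comp ?_ ?_; assumption) | (with_reducible refine IntF.comp₂ ?_ ?_ ?_; assumption) | (with_reducible refine IntF.comp₃ ?_ ?_ ?_ ?_; assumption) | with_reducible apply IntF.pair))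

theorem good_pow {E : α → P → α → Prop} (h : Good S E) (a : α) :
    Good S (extG E (powQ S E a)) := by
  refine good_extG h (int_powQ h.int a) fun s => ?_
  by_cases hs : OK S E a s
  · obtain ⟨l, hl⟩ := hs.1
    refine ⟨l, ?_⟩
    have : (fun c r => powQ S E a c r s) = fun c r => (c, r) ∈ s := by
      funext c r
      exact propext ⟨fun h => h.1, fun h => ⟨h, hs⟩⟩
    rw [this]
    exact hl
  · obtain ⟨l⟩ := S.nonempty
    exact ⟨l, fun π _ c r h => absurd h.2 hs⟩

/-- The image of a coded subset under an automorphism. -/
def imS (E : α → P → α → Prop) (a : α) (π : Γ) (s : IPow M (α × P)) (c' : α) (r' : P) : Prop :=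
  (∃ t, E c' t a ∧ r' ≤ t) ∧ ∃ c r, (c, r) ∈ s ∧ r' ≤ π • r ∧ FEq M (tw π E) E r' c c'

theorem int_imS {E : α → P → α → Prop} (hE : IG M E) (a : α) (π : Γ) (s : IPow M (α × P)) :
    Int M (fun q : α × P => imS E a π s q.1 q.2) := by
  have hE' : Int M (fun q : (α × P) × α => E q.1.1 q.1.2 q.2) := hE
  have hI := int_feq_tw (Γ := Γ) hE hE
  unfold imS
  (repeat' (first | (with_reducible refine Int.comp₄ (p := fun π p a b => FEq M (tw π E) E p a b) hI ?_ ?_ ?_ ?_) | with_reducible exact IntF.id | with_reducible exact IntF.fst' | with_reducible exact IntF.snd' | with_reducible exact IntF.const _ | with_reducible exact Int.const _ | assumption | with_reducible apply Int.and | with_reducible apply Int.or | with_reducible apply Int.not | with_reducible apply Int.imp | with_reducible apply Int.iff | with_reducible apply Int.ne | with_reducible apply Int.eq | with_reducible apply Int.mem | with_reducible apply Int.subset | with_reducible apply Int.ltN | with_reducible apply Int.leN | with_reducible_and_instances apply Int.le | with_reducible_and_instances apply Int.lt | with_reducible apply Int.all | with_reducible apply Int.ex | with_reducible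 apply IntF.fst | with_reducible apply IntF.snd | with_reducible apply IntF.app | with_reducible apply IntF.inl | with_reducible apply IntF.inr | with_reducible_and_instances apply IntF.mul | with_reducible_and_instances apply IntF.inv | with_reducible_and_instances apply IntF.add | with_reducible_and_instances apply IntF.sub | with_reducible_and_instances apply IntF.neg | with_reducible_and_instances apply IntF.smul | with_reducible apply IntF.succ | with_reducible apply IntF.val | with_reducible apply IntF.mk | (with_reducible refine Int.comp ?_ ?_; assumption) | (with_reducible refine Int.comp₂ ?_ ?_ ?_; assumption) | (with_reducible refine Int.comp₃ ?_ ?_ ?_ ?_; assumption) | (with_reducible refine Int.comp₄ ?_ ?_ ?_ ?_ ?_; assumption) | (with_reducible refine IntF.comp ?_ ?_; assumption) | (with_reducible refine IntF.comp₂ ?_ ?_ ?_; assumption) | (with_reducible refine IntF.comp₃ ?_ ?_ ?_ ?_; assumption) | with_reducible apply IntF.pair))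

theorem ok_imS {E : α → P → α → Prop} (h : Good S E) {a : α} {l₀ : Λ} (hl₀ : Sy S E l₀ a) {π : Γ}
    (hπ : S.U l₀ π) {s : IPow M (α × P)} (hs : OK S E a s) :
    OK S E a (sep M fun q => imS E a π s q.1 q.2) := by
  obtain ⟨⟨l, hl⟩, hs2⟩ := hs
  have hI := int_imS (M := M) h.int a π s
  constructor
  · obtain ⟨l', hl'⟩ := S.conj π l
    refine ⟨l', fun σ hσ c' r' hc q hq => ?_⟩
    obtain ⟨⟨t, ht, hrt⟩, c, r, h1, h2, h3⟩ := (mem_sep hI).1 hc
    have hτ := hl' σ hσ
    set τ := π⁻¹ * σ * π with hτd
    have hπτ : π * τ = σ * π := by rw [hτd]; group
    have h4 : q ≤ π • τ • r := by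
      rw [← mul_smul, hπτ, mul_smul]
      exact hq.trans (S.smul_le σ h2)
    have h5 : π⁻¹ • q ≤ τ • r := (smul_le_iff' S π).1 h4
    obtain ⟨q1, h6, b, r1, h7, h8, h9⟩ := hl τ hτ c r h1 (π⁻¹ • q) h5
    obtain ⟨t1, ht1, hrt1⟩ := hs2 b r1 h7
    obtain ⟨q', h10, b', t', h11, h12, h13⟩ := child_sym h hl₀ hπ ht1
      (q := π • q1) (S.smul_le π (h8.trans hrt1))
    have h6' : π • q1 ≤ q := by
      have := S.smul_le π h6
      rwa [smul_inv_smul] at this
    have h14 : q' ≤ q := h10.trans h6'
    refine ⟨q', h14, b', q', (mem_sep hI).2 ⟨⟨t', h11, h12⟩, b, r1, h7,
      h10.trans (S.smul_le π h8), h13⟩, le_rfl, ?_⟩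
    -- c' in σ ~ c in σπ = πτ ~ b in π ~ b'
    have e1 : FEq M (tw σ E) (tw (σ * π) E) q' c' c := by
      have e := feq_tw S σ h3
      rw [← tw_mul] at e
      exact (e.symm (h.int.tw _) (h.int.tw _)).mono (h14.trans hq)
    have e2 : FEq M (tw (σ * π) E) (tw π E) q' c b := by
      have e := feq_tw S π h9
      rw [← tw_mul, hπτ] at e
      exact e.mono h10
    exact (e1.trans (h.int.tw _) (h.int.tw _) (h.int.tw _) e2).trans (h.int.tw _) (h.int.tw _)
      h.int h13
  · intro c r hc
    exact ((mem_sep hI).1 hc).1

theorem sym_pow {E : α → P → α → Prop} (h : Good S E) {a : α} {l₀ : Λ} (hl₀ : Sy S E l₀ a) :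
    SymQ S (extG E (powQ S E a)) (fun x _ => ∃ s : IPow M (α × P), OK S E a s ∧ x = Sum.inr s)
      l₀ := by
  have hF := good_pow h a
  rintro π hπ _ r ⟨s, hs, rfl⟩ q hq
  have hs' := ok_imS h hl₀ hπ hs
  have hI := int_imS (M := M) h.int a π s
  refine ⟨q, le_rfl, Sum.inr (sep M fun q => imS E a π s q.1 q.2), q, ⟨_, hs', rfl⟩, le_rfl, ?_⟩
  refine (feq_iff (hF.int.tw π) hF.int).2 ⟨?_, ?_⟩
  · intro x r hx q1 _ hr q2 hq2
    obtain ⟨c, rfl, h1, -⟩ := (extG_inr E _ x _ s).1 hx
    obtain ⟨t, h2, h3⟩ := hs.2 c _ h1
    have h4 : q2 ≤ π • π⁻¹ • r := by
      rw [smul_inv_smul]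
      exact hq2.trans hr
    obtain ⟨q', h5, c', t', h6, h7, h8⟩ := child_sym h hl₀ hπ h2 (q := q2)
      (h4.trans (S.smul_le π h3))
    refine ⟨q', h5, Sum.inl c', q', (extG_inr E _ _ _ _).2 ⟨c', rfl,
      (mem_sep hI).2 ⟨⟨t', h6, h7⟩, c, π⁻¹ • r, h1, h5.trans h4, h8⟩, hs'⟩, le_rfl, ?_⟩
    have h9 := feq_inl (M := M) E (powQ S E a) q' c'
    have h10 := feq_tw_inl (M := M) π E (powQ S E a) q' c
    exact ((h10.symm (h.int.tw π) (hF.int.tw π)).trans (hF.int.tw π) (h.int.tw π) h.int h8).trans
      (hF.int.tw π) h.int hF.int h9
  · intro x r' hx q1 _ hr q2 hq2
    obtain ⟨c', rfl, h1, -⟩ := (extG_inr E _ x _ _).1 hx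
    obtain ⟨-, c, r, h2, h3, h4⟩ := (mem_sep hI).1 h1
    have h5 : q2 ≤ π • r := (hq2.trans hr).trans h3
    refine ⟨q2, le_rfl, Sum.inl c, π • r, ?_, h5, ?_⟩
    · rw [tw_smul]
      exact (extG_inr E _ _ _ _).2 ⟨c, rfl, h2, hs⟩
    · have h9 := feq_inl (M := M) E (powQ S E a) q2 c'
      have h10 := feq_tw_inl (M := M) π E (powQ S E a) q2 c
      exact ((h9.symm h.int hF.int).trans hF.int h.int (h.int.tw π)
        ((h4.mono (hq2.trans hr)).symm (h.int.tw π) h.int)).trans hF.int (h.int.tw π)
        (hF.int.tw π) h10

theorem nn_power_nd {E : α → P → α → Prop} (h : Good S E) (a : α) :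
    ∃ z : NN S hG, ∀ w, Plain.Mem w z ↔ ∀ y, Plain.Mem y w → Plain.Mem y (nd hG h a) := by
  have hE' : Int M (fun q : (α × P) × α => E q.1.1 q.1.2 q.2) := h.int
  have hF := good_pow h a
  obtain ⟨l₀, hl₀⟩ := h.sym a
  have hok := int_ok (S := S) h.int a
  obtain ⟨z, hz⟩ := exists_set hG hF (Q := fun x _ => ∃ s : IPow M (α × P), OK S E a s ∧
    x = Sum.inr s) (by
      (repeat' (first | (with_reducible refine Int.comp (p := OK S E a) hok ?_) | with_reducible exact IntF.id | with_reducible exact IntF.fst' | with_reducible exact IntF.snd' | with_reducible exact IntF.const _ | with_reducible exact Int.const _ | assumption | with_reducible apply Int.and | with_reducible apply Int.or | with_reducible apply Int.not | with_reducible apply Int.imp | with_reducible apply Int.iff | with_reducible apply Int.ne | with_reducible apply Int.eq | with_reducible apply Int.mem | with_reducible apply Int.subset | with_reducible apply Int.ltN | with_reducible apply Int.leN | with_reducible_and_instances apply Int.le | with_reducible_and_instances apply Int.lt | with_reducible apply Int.all | with_reducible apply Int.ex | with_reducible apply IntF.fst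 | with_reducible apply IntF.snd | with_reducible apply IntF.app | with_reducible apply IntF.inl | with_reducible apply IntF.inr | with_reducible_and_instances apply IntF.mul | with_reducible_and_instances apply IntF.inv | with_reducible_and_instances apply IntF.add | with_reducible_and_instances apply IntF.sub | with_reducible_and_instances apply IntF.neg | with_reducible_and_instances apply IntF.smul | with_reducible apply IntF.succ | with_reducible apply IntF.val | with_reducible apply IntF.mk | (with_reducible refine Int.comp ?_ ?_; assumption) | (with_reducible refine Int.comp₂ ?_ ?_ ?_; assumption) | (with_reducible refine Int.comp₃ ?_ ?_ ?_ ?_; assumption) | (with_reducible refine Int.comp₄ ?_ ?_ ?_ ?_ ?_; assumption) | (with_reducible refine IntF.comp ?_ ?_; assumption) | (with_reducible refine IntF.comp₂ ?_ ?_ ?_; assumption) | (with_reducible refine IntF.comp₃ ?_ ?_ ?_ ?_; assumption) | with_reducible apply IntF.pair))) ⟨l₀, sym_pow h hl₀⟩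
  refine ⟨z, fun w => (hz w).trans ⟨?_, fun hw => ?_⟩⟩
  · rintro ⟨_, t, -, ⟨s, hs, rfl⟩, rfl⟩ y hy
    obtain ⟨c, r, hr, ⟨h1, -⟩, rfl⟩ := (mem_nd_inr hG h hF s).1 hy
    obtain ⟨t, h2, h3⟩ := hs.2 c r h1
    exact (mem_nd hG h).2 ⟨c, t, hG.up _ _ hr h3, h2, rfl⟩
  · obtain ⟨x, rfl⟩ := exists_mk hG w
    have hx' : Int M (fun q : (El (Tn x.1) × P) × El (Tn x.1) => x.E q.1.1 q.1.2 q.2) := x.int
    have hI := h.int.fmem x.int
    have hQ : Int M (fun q : α × P => (∃ t, E q.1 t a ∧ q.2 ≤ t) ∧
        FMem M E x.E q.2 q.1 x.root) := by
      (repeat' (first | (with_reducible refine Int.comp₃ (p := fun p a b => FMem M E x.E p a b) hI ?_ ?_ ?_) | with_reducible exact IntF.id | with_reducible exact IntF.fst' | with_reducible exact IntF.snd' | with_reducible exact IntF.const _ | with_reducible exact Int.const _ | assumption | with_reducible apply Int.and | with_reducible apply Int.or | with_reducible apply Int.not | with_reducible apply Int.imp | with_reducible apply Int.iff | with_reducible apply Int.ne | with_reducible apply Int.eq | with_reducible apply Int.mem | with_reducible apply Int.subset | with_reducible apply Int.ltN | with_reducible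 apply Int.leN | with_reducible_and_instances apply Int.le | with_reducible_and_instances apply Int.lt | with_reducible apply Int.all | with_reducible apply Int.ex | with_reducible apply IntF.fst | with_reducible apply IntF.snd | with_reducible apply IntF.app | with_reducible apply IntF.inl | with_reducible apply IntF.inr | with_reducible_and_instances apply IntF.mul | with_reducible_and_instances apply IntF.inv | with_reducible_and_instances apply IntF.add | with_reducible_and_instances apply IntF.sub | with_reducible_and_instances apply IntF.neg | with_reducible_and_instances apply IntF.smul | with_reducible apply IntF.succ | with_reducible apply IntF.val | with_reducible apply IntF.mk | (with_reducible refine Int.comp ?_ ?_; assumption) | (with_reducible refine Int.comp₂ ?_ ?_ ?_; assumption) | (with_reducible refine Int.comp₃ ?_ ?_ ?_ ?_; assumption) | (with_reducible refine Int.comp₄ ?_ ?_ ?_ ?_ ?_; assumption) | (with_reducible refine IntF.comp ?_ ?_; assumption) | (with_reducible refine IntF.comp₂ ?_ ?_ ?_; assumption) | (with_reducible refine IntF.comp₃ ?_ ?_ ?_ ?_; assumption) | with_reducible apply IntF.pair))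
    have hs : OK S E a (sep M fun q : α × P => (∃ t, E q.1 t a ∧ q.2 ≤ t) ∧
        FMem M E x.E q.2 q.1 x.root) := by
      constructor
      · obtain ⟨l', hl'⟩ := x.good.sym x.root
        obtain ⟨l, hl⟩ := S.dir l₀ l'
        refine ⟨l, fun π hπ c r hc q hq => ?_⟩
        obtain ⟨⟨t, h1, h2⟩, h3⟩ := (mem_sep hQ).1 hc
        obtain ⟨q', h4, c', t', h5, h6, h7⟩ := child_sym h hl₀ (hl π hπ).1 h1 (q := q)
          (hq.trans (S.smul_le π h2))
        refine ⟨q', h4, c', q', (mem_sep hQ).2 ⟨⟨t', h5, h6⟩, ?_⟩, le_rfl, h7⟩
        have h8 := (fmem_tw S π h3).mono (h4.trans hq)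
        exact FMem.congr_left h.int (h.int.tw π) x.int (h7.symm (h.int.tw π) h.int)
          (FMem.congr_right (h.int.tw π) (x.int.tw π) x.int h8 (hl' π (hl π hπ).2 q'))
      · intro c r hc
        exact ((mem_sep hQ).1 hc).1
    obtain ⟨p, hp⟩ := hG.ne
    refine ⟨_, p, hp, ⟨_, hs, rfl⟩, nn_ext hG fun y => ?_⟩
    rw [mem_nd_inr hG h hF]
    constructor
    · intro hy
      obtain ⟨c, t, ht, h1, rfl⟩ := (mem_nd hG h).1 (hw y hy)
      rw [mk_eq_nd, mem_nd_nd] at hy
      obtain ⟨p, hp, h2⟩ := hy
      obtain ⟨r, hr, h3, h4⟩ := hG.dir p t hp ht
      exact ⟨c, r, hr, ⟨(mem_sep hQ).2 ⟨⟨t, h1, h4⟩, h2.mono h3⟩, hs⟩, rfl⟩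
    · rintro ⟨c, r, hr, ⟨h1, -⟩, rfl⟩
      rw [mk_eq_nd, mem_nd_nd]
      exact ⟨r, hr, ((mem_sep hQ).1 h1).2⟩

theorem nn_power (x : NN S hG) :
    ∃ z, ∀ w, Plain.Mem w z ↔ ∀ y, Plain.Mem y w → Plain.Mem y x := by
  obtain ⟨x, rfl⟩ := exists_mk hG x
  rw [mk_eq_nd]
  exact nn_power_nd hG _ _

end

end Pool.Agent.Helper672.ZFA.H635
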