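import Pool.Agent.Helper672.ZFA.Alg

/-!
# Further tools for internal types
-/

namespace Pool.Agent.Helper672.ZFA

open FirstOrder FirstOrder.Language

universe u u₁ u₂ u₃ u₄ u₅

section comp

variable {M : Type u} [L.Structure M] [hM : IsModel M]
variable {α : Type u₁} {β : Type u₂} {γ : Type u₃} {δ : Type u₄} {ε : Type u₅}
  [ITy M α] [ITy M β] [ITy M γ] [ITy M δ] [ITy M ε]

theorem Int.comp₃ {p : α → β → δ → Prop} (hp : Int M (fun q : (α × β) × δ => p q.1.1 q.1.2 q.2))
    {f : γ → α} {g : γ → β} {h : γ → δ} (hf : IntF M f) (hg : IntF M g) (hh : IntF M h) :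
    Int M (fun c => p (f c) (g c) (h c)) :=
  Int.comp (p := fun q : (α × β) × δ => p q.1.1 q.1.2 q.2) (f := fun c => ((f c, g c), h c)) hp
    ((hf.pair hg).pair hh)

theorem Int.comp₄ {p : α → β → δ → ε → Prop}
    (hp : Int M (fun q : ((α × β) × δ) × ε => p q.1.1.1 q.1.1.2 q.1.2 q.2))
    {f : γ → α} {g : γ → β} {h : γ → δ} {k : γ → ε} (hf : IntF M f) (hg : IntF M g)
    (hh : IntF M h) (hk : IntF M k) :
    Int M (fun c => p (f c) (g c) (h c) (k c)) :=
  Int.comp (p := fun q : ((α × β) × δ) × ε => p q.1.1.1 q.1.1.2 q.1.2 q.2)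
    (f := fun c => (((f c, g c), h c), k c)) hp (((hf.pair hg).pair hh).pair hk)

theorem IntF.comp₃ {p : α → β → δ → ε} (hp : IntF M (fun q : (α × β) × δ => p q.1.1 q.1.2 q.2))
    {f : γ → α} {g : γ → β} {h : γ → δ} (hf : IntF M f) (hg : IntF M g) (hh : IntF M h) :
    IntF M (fun c => p (f c) (g c) (h c)) :=
  IntF.comp (g := fun q : (α × β) × δ => p q.1.1 q.1.2 q.2) (f := fun c => ((f c, g c), h c)) hp
    ((hf.pair hg).pair hh)

end comp

/-! ### Sums and the unit type -/

section sum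

variable {M : Type u} [L.Structure M] [hM : IsModel M]
variable {α : Type u₁} {β : Type u₂} {γ : Type u₃} [ITy M α] [ITy M β] [ITy M γ]

noncomputable instance instITyPUnit : ITy M PUnit.{u₅+1} where
  code _ := small_empty.elt
  inj _ _ _ := rfl
  small := by
    obtain ⟨x, hx, h⟩ := small_pair (M := M) small_empty.elt small_empty.elt
    exact ⟨x, hx, fun z => (h z).trans ⟨fun h => ⟨PUnit.unit, by rcases h with h | h <;> exact h.symm⟩,
      fun ⟨_, h⟩ => Or.inl h.symm⟩⟩

variable (M) in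
/-- The code of the left tag. -/
noncomputable def tag0 : M := (INat.succ (0 : INat M)).val

variable (M) in
/-- The code of the right tag. -/
noncomputable def tag1 : M := (0 : INat M).val

theorem tag_ne : tag0 M ≠ tag1 M := fun h => INat.succ_ne_zero (0 : INat M) (INat.ext h)

/-- The code of an element of a sum. -/
noncomputable def codeSum : α ⊕ β → M := fun x => match x with
  | Sum.inl a => op (tag0 M) (code a)
  | Sum.inr b => op (tag1 M) (code b)

theorem codeSum_inj : Function.Injective (codeSum (M := M) (α := α) (β := β)) := by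
  rintro (a | a) (b | b) h
  · exact congrArg Sum.inl (ITy.inj (op_inj h).2)
  · exact absurd (op_inj h).1 tag_ne
  · exact absurd (op_inj h).1.symm tag_ne
  · exact congrArg Sum.inr (ITy.inj (op_inj h).2)

noncomputable instance : ITy M (α ⊕ β) where
  code := codeSum
  inj := codeSum_inj
  small := by
    obtain ⟨x, hx, h⟩ := small_prod (small_pair (tag0 M) (tag1 M)).elt
      (small_union (dom M α) (dom M β)).elt
    have hS : D (fun v : Fin 1 → M => v 0 ∈ {z : M | (∃ y, Mem y (dom M α) ∧ z = op (tag0 M) y) ∨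
        (∃ y, Mem y (dom M β) ∧ z = op (tag1 M) y)}) := by
      change D (fun v : Fin 1 → M => (∃ y, Mem y (dom M α) ∧ v 0 = op (tag0 M) y) ∨
        (∃ y, Mem y (dom M β) ∧ v 0 = op (tag1 M) y))
      refine D.or (D.ex ?_) (D.ex ?_) <;>
        exact D.and (D.memf (DF.var _) (DF.const _)) (D.eqf (DF.var _)
          (DF.op (DF.const _) (DF.var _)))
    have h1 := small_sep hS x
    refine ⟨h1.elt, h1.isSet, fun z => h1.mem.trans ⟨?_, ?_⟩⟩
    · rintro ⟨-, ⟨y, hy, rfl⟩ | ⟨y, hy, rfl⟩⟩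
      · obtain ⟨a, rfl⟩ := mem_dom.1 hy
        exact ⟨Sum.inl a, rfl⟩
      · obtain ⟨a, rfl⟩ := mem_dom.1 hy
        exact ⟨Sum.inr a, rfl⟩
    · rintro ⟨a | a, rfl⟩
      · refine ⟨(h _).2 ⟨_, _, (small_pair _ _).mem.2 (Or.inl rfl),
          (small_union _ _).mem.2 (Or.inl (code_mem_dom a)), rfl⟩, Or.inl ⟨_, code_mem_dom a, rfl⟩⟩
      · refine ⟨(h _).2 ⟨_, _, (small_pair _ _).mem.2 (Or.inr rfl),
          (small_union _ _).mem.2 (Or.inr (code_mem_dom a)), rfl⟩, Or.inr ⟨_, code_mem_dom a, rfl⟩⟩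

theorem code_inl (a : α) : code (M := M) (Sum.inl a : α ⊕ β) = op (tag0 M) (code a) := rfl

theorem code_inr (b : β) : code (M := M) (Sum.inr b : α ⊕ β) = op (tag1 M) (code b) := rfl

theorem IntF.inl' : IntF M (fun a : α => (Sum.inl a : α ⊕ β)) := by
  refine IntF.of_D (S := fun v => op (tag0 M) (v 0) = v 1)
    (D.eqf (DF.op (DF.const _) (DF.var _)) (DF.var _)) fun a b => ?_
  change op (tag0 M) (code a) = code b ↔ _
  rw [← code_inl (β := β)]
  exact ⟨fun h => ITy.inj h, fun h => congrArg code h⟩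

theorem IntF.inr' : IntF M (fun a : β => (Sum.inr a : α ⊕ β)) := by
  refine IntF.of_D (S := fun v => op (tag1 M) (v 0) = v 1)
    (D.eqf (DF.op (DF.const _) (DF.var _)) (DF.var _)) fun a b => ?_
  change op (tag1 M) (code a) = code b ↔ _
  rw [← code_inr (α := α)]
  exact ⟨fun h => ITy.inj h, fun h => congrArg code h⟩

theorem IntF.inl {f : γ → α} (hf : IntF M f) : IntF M (fun c => (Sum.inl (f c) : α ⊕ β)) :=
  IntF.comp IntF.inl' hf

theorem IntF.inr {f : γ → β} (hf : IntF M f) : IntF M (fun c => (Sum.inr (f c) : α ⊕ β)) :=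
  IntF.comp IntF.inr' hf

end sum

/-! ### The elements of an element -/

/-- The elements of an element of the model form an internal type. -/
noncomputable instance instITyEl {M : Type u} [L.Structure M] [hM : IsModel M] (x : M) :
    ITy M (El x) where
  code z := z.1
  inj _ _ h := Subtype.ext h
  small := by
    by_cases hx : IsSet x
    · exact ⟨x, hx, fun z => ⟨fun h => ⟨⟨z, h⟩, rfl⟩, fun ⟨a, h⟩ => h ▸ a.2⟩⟩
    · obtain ⟨e, he, h⟩ := small_empty (M := M)
      refine ⟨e, he, fun z => ⟨fun h1 => absurd ((h z).1 h1) (Set.notMem_empty z), fun ⟨a, _⟩ =>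
        absurd (hM.atoms _ _ a.2) hx⟩⟩

section fstsnd

variable {M : Type u} [L.Structure M] [hM : IsModel M]

theorem code_El {x : M} (a : El x) : code (M := M) a = a.1 := rfl

open Classical in
/-- The first component. -/
noncomputable def fstM (x : M) : M := if h : ∃ a b, x = op a b then h.choose else x

open Classical in
/-- The second component. -/
noncomputable def sndM (x : M) : M := if h : ∃ b a, x = op a b then h.choose else x

@[simp] theorem fstM_op (a b : M) : fstM (op a b) = a := by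
  unfold fstM
  have h : ∃ a' b', op a b = op a' b' := ⟨a, b, rfl⟩
  rw [dif_pos h]
  exact (op_inj h.choose_spec.choose_spec).1.symm

@[simp] theorem sndM_op (a b : M) : sndM (op a b) = b := by
  unfold sndM
  have h : ∃ b' a', op a b = op a' b' := ⟨b, a, rfl⟩
  rw [dif_pos h]
  exact (op_inj h.choose_spec.choose_spec).2.symm

variable {ι : Type}

theorem DF.fst {f : (ι → M) → M} (hf : DF f) : DF (fun v => fstM (f v)) := by
  have h : D (fun w : ι ⊕ Unit → M => (∃ b, f (fun i => w (Sum.inl i)) = ZFA.op (w (Sum.inr ())) b) ∨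
      ((¬ ∃ a b, f (fun i => w (Sum.inl i)) = ZFA.op a b) ∧
        w (Sum.inr ()) = f (fun i => w (Sum.inl i)))) := by
    refine D.or (D.ex (D.eqf hf.lift.lift (DF.op (DF.var _) (DF.var _)))) (D.and (D.not
      (D.ex (D.ex (D.eqf hf.lift.lift.lift (DF.op (DF.var _) (DF.var _)))))) ?_)
    exact D.eqf (DF.var _) hf.lift
  refine Eq.mp (congrArg D ?_) h
  funext w
  apply propext
  beta_reduce
  by_cases h1 : ∃ a b, f (fun i => w (Sum.inl i)) = ZFA.op a b
  · obtain ⟨a, b, h2⟩ := h1
    rw [h2, fstM_op]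
    constructor
    · rintro (⟨b', h3⟩ | ⟨h3, -⟩)
      · exact (op_inj h3).1.symm
      · exact absurd ⟨a, b, rfl⟩ h3
    · intro h3
      exact Or.inl ⟨b, by rw [h3]⟩
  · have h3 : fstM (f fun i => w (Sum.inl i)) = f fun i => w (Sum.inl i) := by
      unfold fstM
      rw [dif_neg h1]
    rw [h3]
    constructor
    · rintro (⟨b', h3⟩ | ⟨-, h3⟩)
      · exact absurd ⟨_, b', h3⟩ h1
      · exact h3
    · intro h4
      exact Or.inr ⟨h1, h4⟩

theorem DF.snd {f : (ι → M) → M} (hf : DF f) : DF (fun v => sndM (f v)) := by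
  have h : D (fun w : ι ⊕ Unit → M => (∃ a, f (fun i => w (Sum.inl i)) = ZFA.op a (w (Sum.inr ()))) ∨
      ((¬ ∃ b a, f (fun i => w (Sum.inl i)) = ZFA.op a b) ∧
        w (Sum.inr ()) = f (fun i => w (Sum.inl i)))) := by
    refine D.or (D.ex (D.eqf hf.lift.lift (DF.op (DF.var _) (DF.var _)))) (D.and (D.not
      (D.ex (D.ex (D.eqf hf.lift.lift.lift (DF.op (DF.var _) (DF.var _)))))) ?_)
    exact D.eqf (DF.var _) hf.lift
  refine Eq.mp (congrArg D ?_) h
  funext w
  apply propext
  beta_reduce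
  by_cases h1 : ∃ b a, f (fun i => w (Sum.inl i)) = ZFA.op a b
  · obtain ⟨b, a, h2⟩ := h1
    rw [h2, sndM_op]
    constructor
    · rintro (⟨b', h3⟩ | ⟨h3, -⟩)
      · exact (op_inj h3).2.symm
      · exact absurd ⟨b, a, rfl⟩ h3
    · intro h3
      exact Or.inl ⟨a, by rw [h3]⟩
  · have h3 : sndM (f fun i => w (Sum.inl i)) = f fun i => w (Sum.inl i) := by
      unfold sndM
      rw [dif_neg h1]
    rw [h3]
    constructor
    · rintro (⟨b', h3⟩ | ⟨-, h3⟩)
      · exact absurd ⟨_, b', h3⟩ h1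
      · exact h3
    · intro h4
      exact Or.inr ⟨h1, h4⟩

end fstsnd

end Pool.Agent.Helper672.ZFA
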