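import Pool.Agent.H635R2.Cut
import Pool.Agent.H635R2.Tools
import Pool.Agent.Helper672.ZFA.Arith

/-!
# The real numbers of a model
-/

namespace Pool.Agent.Helper672.ZFA

open FirstOrder FirstOrder.Language

universe u

variable {M : Type u} [L.Structure M] [hM : IsModel M]

namespace IQ

theorem nonneg_mul {x y : IQ M} (hx : nonneg x) (hy : nonneg y) : nonneg (x * y) := by
  obtain ⟨a, b, rfl⟩ := hx
  obtain ⟨c, d, rfl⟩ := hy
  refine ⟨a * c, b * d + b + d, ?_⟩
  rw [pi_mul]
  simp

theorem nonneg_iff {x : IQ M} : nonneg x ↔ 0 ≤ x := by
  rw [le_def, sub_zero]

instance : ZeroLEOneClass (IQ M) := ⟨zero_lt_one'.le⟩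

instance : IsStrictOrderedRing (IQ M) :=
  IsStrictOrderedRing.of_mul_pos fun a b ha hb => by
    refine lt_of_le_of_ne (nonneg_iff.1 (nonneg_mul (nonneg_iff.2 ha.le) (nonneg_iff.2 hb.le))) ?_
    exact (mul_ne_zero ha.ne' hb.ne').symm

theorem of_nonneg (a : INat M) : (0 : IQ M) ≤ of a := by
  rw [← nonneg_iff]
  refine ⟨a, 0, ?_⟩
  rw [pi_zero, of_zero, zero_add, div_one]

theorem exists_lt (x : IQ M) : ∃ n : INat M, x < of n := by
  obtain ⟨a, b, rfl | rfl⟩ := cases x
  · refine ⟨a + 1, ?_⟩
    have h1 : (0 : IQ M) < of b + 1 := add_pos_of_nonneg_of_pos (of_nonneg b) zero_lt_one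
    rw [of_add, of_one, div_lt_iff₀ h1]
    have h2 := of_nonneg a
    have h3 := of_nonneg b
    nlinarith
  · refine ⟨1, ?_⟩
    have h1 : (0 : IQ M) < of b + 1 := add_pos_of_nonneg_of_pos (of_nonneg b) zero_lt_one
    have h2 : (0 : IQ M) ≤ of a / (of b + 1) := div_nonneg (of_nonneg a) h1.le
    rw [of_one]
    linarith

theorem exists_lt_mul (x : IQ M) {e : IQ M} (he : 0 < e) : ∃ n : INat M, x < of n * e := by
  obtain ⟨n, hn⟩ := exists_lt (x / e)
  exact ⟨n, (div_lt_iff₀ he).1 hn⟩

end IQ

namespace H635

theorem intF_of : IntF M (fun n : INat M => IQ.of n) := by
  have h : IntF M (fun n : INat M => IQ.pi ((n, 0), 0)) := IntF.qpi (by (repeat' (first | with_reducible exact IntF.id | with_reducible exact IntF.fst' | with_reducible exact IntF.snd' | with_reducible exact IntF.const _ | with_reducible exact Int.const _ | assumption | with_reducible apply Int.and | with_reducible apply Int.or | with_reducible apply Int.not | with_reducible apply Int.imp | with_reducible apply Int.iff | with_reducible apply Int.ne | with_reducible apply Int.eq | with_reducible apply Int.mem | with_reducible apply Int.subset | with_reducible apply Int.ltN | with_reducible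 apply Int.leN | with_reducible_and_instances apply Int.le | with_reducible_and_instances apply Int.lt | with_reducible apply Int.all | with_reducible apply Int.ex | with_reducible apply IntF.fst | with_reducible apply IntF.snd | with_reducible apply IntF.app | with_reducible apply IntF.inl | with_reducible apply IntF.inr | with_reducible_and_instances apply IntF.mul | with_reducible_and_instances apply IntF.inv | with_reducible_and_instances apply IntF.add | with_reducible_and_instances apply IntF.sub | with_reducible_and_instances apply IntF.neg | with_reducible_and_instances apply IntF.smul | with_reducible apply IntF.succ | with_reducible apply IntF.val | with_reducible apply IntF.mk | (with_reducible refine Int.comp ?_ ?_; assumption) | (with_reducible refine Int.comp₂ ?_ ?_ ?_; assumption) | (with_reducible refine Int.comp₃ ?_ ?_ ?_ ?_; assumption) | (with_reducible refine Int.comp₄ ?_ ?_ ?_ ?_ ?_; assumption) | (with_reducible refine IntF.comp ?_ ?_; assumption) | (with_reducible refine IntF.comp₂ ?_ ?_ ?_; assumption) | (with_reducible refine IntF.comp₃ ?_ ?_ ?_ ?_; assumption) | with_reducible apply IntF.pair)))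
  refine h.congr fun q => ?_
  beta_reduce
  rw [IQ.pi_zero, IQ.of_zero, zero_add, div_one]

/-- The archimedean property of internal cuts. -/
theorem arch_int {p : IQ M → Prop} (hp : Int M p) (h1 : ∃ x, p x) (h2 : ∃ x, ¬ p x)
    (h3 : ∀ x y, p y → x < y → p x) (ε : IQ M) (hε : 0 < ε) : ∃ x, p x ∧ ¬ p (x + ε) := by
  by_contra h
  push Not at h
  obtain ⟨x, hx⟩ := h1
  obtain ⟨y, hy⟩ := h2
  obtain ⟨n, hn⟩ := IQ.exists_lt_mul (y - x) hε
  have hof : IntF M (fun n : INat M => IQ.of n) := intF_of
  have h4 : ∀ n : INat M, p (x + IQ.of n * ε) := by
    refine INat.ind (by (repeat' (first | with_reducible exact IntF.id | with_reducible exact IntF.fst' | with_reducible exact IntF.snd' | with_reducible exact IntF.const _ | with_reducible exact Int.const _ | assumption | with_reducible apply Int.and | with_reducible apply Int.or | with_reducible apply Int.not | with_reducible apply Int.imp | with_reducible apply Int.iff | with_reducible apply Int.ne | with_reducible apply Int.eq | with_reducible apply Int.mem | with_reducible apply Int.subset | with_reducible apply Int.ltN | with_reducible apply Int.leN | with_reducible_and_instances apply Int.le | with_reducible_and_instances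 apply Int.lt | with_reducible apply Int.all | with_reducible apply Int.ex | with_reducible apply IntF.fst | with_reducible apply IntF.snd | with_reducible apply IntF.app | with_reducible apply IntF.inl | with_reducible apply IntF.inr | with_reducible_and_instances apply IntF.mul | with_reducible_and_instances apply IntF.inv | with_reducible_and_instances apply IntF.add | with_reducible_and_instances apply IntF.sub | with_reducible_and_instances apply IntF.neg | with_reducible_and_instances apply IntF.smul | with_reducible apply IntF.succ | with_reducible apply IntF.val | with_reducible apply IntF.mk | (with_reducible refine Int.comp ?_ ?_; assumption) | (with_reducible refine Int.comp₂ ?_ ?_ ?_; assumption) | (with_reducible refine Int.comp₃ ?_ ?_ ?_ ?_; assumption) | (with_reducible refine Int.comp₄ ?_ ?_ ?_ ?_ ?_; assumption) | (with_reducible refine IntF.comp ?_ ?_; assumption) | (with_reducible refine IntF.comp₂ ?_ ?_ ?_; assumption) | (with_reducible refine IntF.comp₃ ?_ ?_ ?_ ?_; assumption) | with_reducible apply IntF.pair))) ?_ fun n hn => ?_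
    · rw [IQ.of_zero, zero_mul, add_zero]
      exact hx
    · have h5 := h _ hn
      have h6 : x + IQ.of (INat.succ n) * ε = x + IQ.of n * ε + ε := by
        rw [INat.succ_eq, IQ.of_add, IQ.of_one]
        ring
      rwa [h6]
  exact hy (h3 _ _ (h4 n) (by linarith))

open Classical in
theorem abs_or (a : GC (IQ M)) : |a| = a ∨ |a| = -a := abs_choice a

theorem int_neg {c : GC (IQ M)} (hc : Int M c.p) : Int M (-c).p := by
  have h : Int M (fun z : IQ M => ∃ w, ¬ c.p w ∧ z < -w) := by (repeat' (first | with_reducible exact IntF.id | with_reducible exact IntF.fst' | with_reducible exact IntF.snd' | with_reducible exact IntF.const _ | with_reducible exact Int.const _ | assumption | with_reducible apply Int.and | with_reducible apply Int.or | with_reducible apply Int.not | with_reducible apply Int.imp | with_reducible apply Int.iff | with_reducible apply Int.ne | with_reducible apply Int.eq | with_reducible apply Int.mem | with_reducible apply Int.subset | with_reducible apply Int.ltN | with_reducible apply Int.leN | with_reducible_and_instances apply Int.le | with_reducible_and_instances apply Int.lt | with_reducible apply Int.all | with_reducible apply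 Int.ex | with_reducible apply IntF.fst | with_reducible apply IntF.snd | with_reducible apply IntF.app | with_reducible apply IntF.inl | with_reducible apply IntF.inr | with_reducible_and_instances apply IntF.mul | with_reducible_and_instances apply IntF.inv | with_reducible_and_instances apply IntF.add | with_reducible_and_instances apply IntF.sub | with_reducible_and_instances apply IntF.neg | with_reducible_and_instances apply IntF.smul | with_reducible apply IntF.succ | with_reducible apply IntF.val | with_reducible apply IntF.mk | (with_reducible refine Int.comp ?_ ?_; assumption) | (with_reducible refine Int.comp₂ ?_ ?_ ?_; assumption) | (with_reducible refine Int.comp₃ ?_ ?_ ?_ ?_; assumption) | (with_reducible refine Int.comp₄ ?_ ?_ ?_ ?_ ?_; assumption) | (with_reducible refine IntF.comp ?_ ?_; assumption) | (with_reducible refine IntF.comp₂ ?_ ?_ ?_; assumption) | (with_reducible refine IntF.comp₃ ?_ ?_ ?_ ?_; assumption) | with_reducible apply IntF.pair))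
  exact h

theorem int_add {c d : GC (IQ M)} (hc : Int M c.p) (hd : Int M d.p) : Int M (c + d).p := by
  have h : Int M (fun z : IQ M => ∃ x y, c.p x ∧ d.p y ∧ z = x + y) := by (repeat' (first | with_reducible exact IntF.id | with_reducible exact IntF.fst' | with_reducible exact IntF.snd' | with_reducible exact IntF.const _ | with_reducible exact Int.const _ | assumption | with_reducible apply Int.and | with_reducible apply Int.or | with_reducible apply Int.not | with_reducible apply Int.imp | with_reducible apply Int.iff | with_reducible apply Int.ne | with_reducible apply Int.eq | with_reducible apply Int.mem | with_reducible apply Int.subset | with_reducible apply Int.ltN | with_reducible apply Int.leN | with_reducible_and_instances apply Int.le | with_reducible_and_instances apply Int.lt | with_reducible apply Int.all | with_reducible apply Int.ex | with_reducible apply IntF.fst | with_reducible apply IntF.snd | with_reducible apply IntF.app | with_reducible apply IntF.inl | with_reducible apply IntF.inr | with_reducible_and_instances apply IntF.mul | with_reducible_and_instances apply IntF.inv | with_reducible_and_instances apply IntF.add | with_reducible_and_instances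 apply IntF.sub | with_reducible_and_instances apply IntF.neg | with_reducible_and_instances apply IntF.smul | with_reducible apply IntF.succ | with_reducible apply IntF.val | with_reducible apply IntF.mk | (with_reducible refine Int.comp ?_ ?_; assumption) | (with_reducible refine Int.comp₂ ?_ ?_ ?_; assumption) | (with_reducible refine Int.comp₃ ?_ ?_ ?_ ?_; assumption) | (with_reducible refine Int.comp₄ ?_ ?_ ?_ ?_ ?_; assumption) | (with_reducible refine IntF.comp ?_ ?_; assumption) | (with_reducible refine IntF.comp₂ ?_ ?_ ?_; assumption) | (with_reducible refine IntF.comp₃ ?_ ?_ ?_ ?_; assumption) | with_reducible apply IntF.pair))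
  exact h

theorem int_sub {c d : GC (IQ M)} (hc : Int M c.p) (hd : Int M d.p) : Int M (c - d).p := by
  rw [sub_eq_add_neg]
  exact int_add hc (int_neg hd)

theorem int_one : Int M (1 : GC (IQ M)).p := by
  have h : Int M (fun z : IQ M => z < 1) := by (repeat' (first | with_reducible exact IntF.id | with_reducible exact IntF.fst' | with_reducible exact IntF.snd' | with_reducible exact IntF.const _ | with_reducible exact Int.const _ | assumption | with_reducible apply Int.and | with_reducible apply Int.or | with_reducible apply Int.not | with_reducible apply Int.imp | with_reducible apply Int.iff | with_reducible apply Int.ne | with_reducible apply Int.eq | with_reducible apply Int.mem | with_reducible apply Int.subset | with_reducible apply Int.ltN | with_reducible apply Int.leN | with_reducible_and_instances apply Int.le | with_reducible_and_instances apply Int.lt | with_reducible apply Int.all | with_reducible apply Int.ex | with_reducible apply IntF.fst | with_reducible apply IntF.snd | with_reducible apply IntF.app | with_reducible apply IntF.inl | with_reducible apply IntF.inr | with_reducible_and_instances apply IntF.mul | with_reducible_and_instances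 apply IntF.inv | with_reducible_and_instances apply IntF.add | with_reducible_and_instances apply IntF.sub | with_reducible_and_instances apply IntF.neg | with_reducible_and_instances apply IntF.smul | with_reducible apply IntF.succ | with_reducible apply IntF.val | with_reducible apply IntF.mk | (with_reducible refine Int.comp ?_ ?_; assumption) | (with_reducible refine Int.comp₂ ?_ ?_ ?_; assumption) | (with_reducible refine Int.comp₃ ?_ ?_ ?_ ?_; assumption) | (with_reducible refine Int.comp₄ ?_ ?_ ?_ ?_ ?_; assumption) | (with_reducible refine IntF.comp ?_ ?_; assumption) | (with_reducible refine IntF.comp₂ ?_ ?_ ?_; assumption) | (with_reducible refine IntF.comp₃ ?_ ?_ ?_ ?_; assumption) | with_reducible apply IntF.pair))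
  exact h

theorem int_zero : Int M (0 : GC (IQ M)).p := by
  have h : Int M (fun z : IQ M => z < 0) := by (repeat' (first | with_reducible exact IntF.id | with_reducible exact IntF.fst' | with_reducible exact IntF.snd' | with_reducible exact IntF.const _ | with_reducible exact Int.const _ | assumption | with_reducible apply Int.and | with_reducible apply Int.or | with_reducible apply Int.not | with_reducible apply Int.imp | with_reducible apply Int.iff | with_reducible apply Int.ne | with_reducible apply Int.eq | with_reducible apply Int.mem | with_reducible apply Int.subset | with_reducible apply Int.ltN | with_reducible apply Int.leN | with_reducible_and_instances apply Int.le | with_reducible_and_instances apply Int.lt | with_reducible apply Int.all | with_reducible apply Int.ex | with_reducible apply IntF.fst | with_reducible apply IntF.snd | with_reducible apply IntF.app | with_reducible apply IntF.inl | with_reducible apply IntF.inr | with_reducible_and_instances apply IntF.mul | with_reducible_and_instances apply IntF.inv | with_reducible_and_instances apply IntF.add | with_reducible_and_instances apply IntF.sub | with_reducible_and_instances apply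 IntF.neg | with_reducible_and_instances apply IntF.smul | with_reducible apply IntF.succ | with_reducible apply IntF.val | with_reducible apply IntF.mk | (with_reducible refine Int.comp ?_ ?_; assumption) | (with_reducible refine Int.comp₂ ?_ ?_ ?_; assumption) | (with_reducible refine Int.comp₃ ?_ ?_ ?_ ?_; assumption) | (with_reducible refine Int.comp₄ ?_ ?_ ?_ ?_ ?_; assumption) | (with_reducible refine IntF.comp ?_ ?_; assumption) | (with_reducible refine IntF.comp₂ ?_ ?_ ?_; assumption) | (with_reducible refine IntF.comp₃ ?_ ?_ ?_ ?_; assumption) | with_reducible apply IntF.pair))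
  exact h

theorem int_abs {c : GC (IQ M)} (hc : Int M c.p) : Int M (|c|).p := by
  rcases abs_choice c with h | h <;> rw [h]
  · exact hc
  · exact int_neg hc

theorem int_pmul {c d : GC (IQ M)} (hc : Int M c.p) (hd : Int M d.p) (h1 : 0 < c) (h2 : 0 < d) :
    Int M (c * d).p := by
  rw [GC.mul_pos_eq h1 h2]
  have h : Int M (fun z : IQ M => ∃ x y, 0 < x ∧ 0 < y ∧ c.p x ∧ d.p y ∧ z < x * y) := by (repeat' (first | with_reducible exact IntF.id | with_reducible exact IntF.fst' | with_reducible exact IntF.snd' | with_reducible exact IntF.const _ | with_reducible exact Int.const _ | assumption | with_reducible apply Int.and | with_reducible apply Int.or | with_reducible apply Int.not | with_reducible apply Int.imp | with_reducible apply Int.iff | with_reducible apply Int.ne | with_reducible apply Int.eq | with_reducible apply Int.mem | with_reducible apply Int.subset | with_reducible apply Int.ltN | with_reducible apply Int.leN | with_reducible_and_instances apply Int.le | with_reducible_and_instances apply Int.lt | with_reducible apply Int.all | with_reducible apply Int.ex | with_reducible apply IntF.fst | with_reducible apply IntF.snd | with_reducible apply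 IntF.app | with_reducible apply IntF.inl | with_reducible apply IntF.inr | with_reducible_and_instances apply IntF.mul | with_reducible_and_instances apply IntF.inv | with_reducible_and_instances apply IntF.add | with_reducible_and_instances apply IntF.sub | with_reducible_and_instances apply IntF.neg | with_reducible_and_instances apply IntF.smul | with_reducible apply IntF.succ | with_reducible apply IntF.val | with_reducible apply IntF.mk | (with_reducible refine Int.comp ?_ ?_; assumption) | (with_reducible refine Int.comp₂ ?_ ?_ ?_; assumption) | (with_reducible refine Int.comp₃ ?_ ?_ ?_ ?_; assumption) | (with_reducible refine Int.comp₄ ?_ ?_ ?_ ?_ ?_; assumption) | (with_reducible refine IntF.comp ?_ ?_; assumption) | (with_reducible refine IntF.comp₂ ?_ ?_ ?_; assumption) | (with_reducible refine IntF.comp₃ ?_ ?_ ?_ ?_; assumption) | with_reducible apply IntF.pair))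
  exact h

theorem int_mul {c d : GC (IQ M)} (hc : Int M c.p) (hd : Int M d.p) : Int M (c * d).p := by
  have e1 : 0 < |c| + 1 + c := abs_add_pos one_pos c
  have e2 : 0 < |d| + 1 + d := abs_add_pos one_pos d
  have e3 : 0 < |c| + 1 := add_pos_of_nonneg_of_pos (abs_nonneg c) one_pos
  have e4 : 0 < |d| + 1 := add_pos_of_nonneg_of_pos (abs_nonneg d) one_pos
  have h1 := int_add (int_abs hc) int_one
  have h2 := int_add (int_abs hd) int_one
  have h3 := int_add h1 hc
  have h4 := int_add h2 hd
  have h5 : c * d = (|c| + 1 + c) * (|d| + 1 + d) - (|c| + 1) * (|d| + 1 + d) -
      ((|c| + 1 + c) * (|d| + 1) - (|c| + 1) * (|d| + 1)) := by ring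
  rw [h5]
  exact int_sub (int_sub (int_pmul h3 h4 e1 e2) (int_pmul h1 h4 e3 e2))
    (int_sub (int_pmul h3 h2 e1 e4) (int_pmul h1 h2 e3 e4))

theorem int_pinv {c : GC (IQ M)} (hc : Int M c.p) (h : 0 < c) : Int M (c⁻¹).p := by
  have h1 : c⁻¹ = GC.pinv c h := by
    refine inv_eq_of_mul_eq_one_right ?_
    rw [GC.mul_pos_eq h (GC.pinv_pos h), GC.pmul_pinv]
  rw [h1]
  have h2 : Int M (fun z : IQ M => ∃ w, ¬ c.p w ∧ z < w⁻¹) := by (repeat' (first | with_reducible exact IntF.id | with_reducible exact IntF.fst' | with_reducible exact IntF.snd' | with_reducible exact IntF.const _ | with_reducible exact Int.const _ | assumption | with_reducible apply Int.and | with_reducible apply Int.or | with_reducible apply Int.not | with_reducible apply Int.imp | with_reducible apply Int.iff | with_reducible apply Int.ne | with_reducible apply Int.eq | with_reducible apply Int.mem | with_reducible apply Int.subset | with_reducible apply Int.ltN | with_reducible apply Int.leN | with_reducible_and_instances apply Int.le | with_reducible_and_instances apply Int.lt | with_reducible apply Int.all | with_reducible apply Int.ex | with_reducible apply IntF.fst | with_reducible apply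 IntF.snd | with_reducible apply IntF.app | with_reducible apply IntF.inl | with_reducible apply IntF.inr | with_reducible_and_instances apply IntF.mul | with_reducible_and_instances apply IntF.inv | with_reducible_and_instances apply IntF.add | with_reducible_and_instances apply IntF.sub | with_reducible_and_instances apply IntF.neg | with_reducible_and_instances apply IntF.smul | with_reducible apply IntF.succ | with_reducible apply IntF.val | with_reducible apply IntF.mk | (with_reducible refine Int.comp ?_ ?_; assumption) | (with_reducible refine Int.comp₂ ?_ ?_ ?_; assumption) | (with_reducible refine Int.comp₃ ?_ ?_ ?_ ?_; assumption) | (with_reducible refine Int.comp₄ ?_ ?_ ?_ ?_ ?_; assumption) | (with_reducible refine IntF.comp ?_ ?_; assumption) | (with_reducible refine IntF.comp₂ ?_ ?_ ?_; assumption) | (with_reducible refine IntF.comp₃ ?_ ?_ ?_ ?_; assumption) | with_reducible apply IntF.pair))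
  exact h2

variable (M) in
/-- The real numbers of the model as a subfield of the field of cuts. -/
noncomputable def IRs : Subfield (GC (IQ M)) where
  carrier := {c | Int M c.p}
  mul_mem' hc hd := int_mul hc hd
  one_mem' := int_one
  add_mem' hc hd := int_add hc hd
  zero_mem' := int_zero
  neg_mem' hc := int_neg hc
  inv_mem' c hc := by
    rcases lt_trichotomy c 0 with h | h | h
    · have h1 := int_neg (int_pinv (int_neg hc) (neg_pos.2 h))
      rw [inv_neg, neg_neg] at h1
      exact h1
    · rw [h, inv_zero]
      exact int_zero
    · exact int_pinv hc h

variable (M) in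
/-- The real numbers of the model. -/
abbrev IR : Type u := IRs M

theorem IR.int (c : IR M) : Int M c.1.p := c.2

/-- The lower set. -/
def toPow (c : IR M) : IPow M (IQ M) := ⟨c.1.p, c.2⟩

theorem mem_toPow {c : IR M} {x : IQ M} : x ∈ toPow c ↔ c.1.p x := Iff.rfl

theorem toPow_injective : Function.Injective (toPow (M := M)) := fun c d h =>
  Subtype.ext (GC.ext' fun x => by
    rw [← mem_toPow, ← mem_toPow, h])

/-- Internal cuts. -/
def IsCutI (s : IPow M (IQ M)) : Prop :=
  (∃ x, x ∈ s) ∧ (∃ x, ¬ x ∈ s) ∧ (∀ x y, y ∈ s → x < y → x ∈ s) ∧ ∀ x, x ∈ s → ∃ y, y ∈ s ∧ x < y

theorem exists_toPow {s : IPow M (IQ M)} (h : IsCutI s) : ∃ c : IR M, toPow c = s :=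
  ⟨⟨⟨fun x => x ∈ s, h.1, arch_int s.int h.1 h.2.1 h.2.2.1, h.2.2.1, h.2.2.2⟩, s.int⟩, rfl⟩

theorem range_toPow : Int M (fun s : IPow M (IQ M) => ∃ c, toPow c = s) := by
  have h : Int M (IsCutI (M := M)) := by
    unfold IsCutI
    (repeat' (first | with_reducible exact IntF.id | with_reducible exact IntF.fst' | with_reducible exact IntF.snd' | with_reducible exact IntF.const _ | with_reducible exact Int.const _ | assumption | with_reducible apply Int.and | with_reducible apply Int.or | with_reducible apply Int.not | with_reducible apply Int.imp | with_reducible apply Int.iff | with_reducible apply Int.ne | with_reducible apply Int.eq | with_reducible apply Int.mem | with_reducible apply Int.subset | with_reducible apply Int.ltN | with_reducible apply Int.leN | with_reducible_and_instances apply Int.le | with_reducible_and_instances apply Int.lt | with_reducible apply Int.all | with_reducible apply Int.ex | with_reducible apply IntF.fst | with_reducible apply IntF.snd | with_reducible apply IntF.app | with_reducible apply IntF.inl | with_reducible apply IntF.inr | with_reducible_and_instances apply IntF.mul | with_reducible_and_instances apply IntF.inv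 | with_reducible_and_instances apply IntF.add | with_reducible_and_instances apply IntF.sub | with_reducible_and_instances apply IntF.neg | with_reducible_and_instances apply IntF.smul | with_reducible apply IntF.succ | with_reducible apply IntF.val | with_reducible apply IntF.mk | (with_reducible refine Int.comp ?_ ?_; assumption) | (with_reducible refine Int.comp₂ ?_ ?_ ?_; assumption) | (with_reducible refine Int.comp₃ ?_ ?_ ?_ ?_; assumption) | (with_reducible refine Int.comp₄ ?_ ?_ ?_ ?_ ?_; assumption) | (with_reducible refine IntF.comp ?_ ?_; assumption) | (with_reducible refine IntF.comp₂ ?_ ?_ ?_; assumption) | (with_reducible refine IntF.comp₃ ?_ ?_ ?_ ?_; assumption) | with_reducible apply IntF.pair))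
  refine h.congr fun s => ⟨exists_toPow, ?_⟩
  rintro ⟨c, rfl⟩
  exact ⟨c.1.ne, c.1.exists_not, c.1.down, c.1.nomax⟩

noncomputable instance instITyIR : ITy M (IR M) := ITy.ofInj toPow toPow_injective range_toPow

theorem intF_toPow : IntF M (toPow (M := M)) := IntF.ofInj toPow toPow_injective range_toPow

instance : ILE M (IR M) where
  out := by
    have ht : IntF M (toPow (M := M)) := intF_toPow
    have h : Int M (fun q : IR M × IR M => ∀ x, x ∈ toPow q.1 → x ∈ toPow q.2) := by (repeat' (first | with_reducible exact IntF.id | with_reducible exact IntF.fst' | with_reducible exact IntF.snd' | with_reducible exact IntF.const _ | with_reducible exact Int.const _ | assumption | with_reducible apply Int.and | with_reducible apply Int.or | with_reducible apply Int.not | with_reducible apply Int.imp | with_reducible apply Int.iff | with_reducible apply Int.ne | with_reducible apply Int.eq | with_reducible apply Int.mem | with_reducible apply Int.subset | with_reducible apply Int.ltN | with_reducible apply Int.leN | with_reducible_and_instances apply Int.le | with_reducible_and_instances apply Int.lt | with_reducible apply Int.all | with_reducible apply Int.ex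 | with_reducible apply IntF.fst | with_reducible apply IntF.snd | with_reducible apply IntF.app | with_reducible apply IntF.inl | with_reducible apply IntF.inr | with_reducible_and_instances apply IntF.mul | with_reducible_and_instances apply IntF.inv | with_reducible_and_instances apply IntF.add | with_reducible_and_instances apply IntF.sub | with_reducible_and_instances apply IntF.neg | with_reducible_and_instances apply IntF.smul | with_reducible apply IntF.succ | with_reducible apply IntF.val | with_reducible apply IntF.mk | (with_reducible refine Int.comp ?_ ?_; assumption) | (with_reducible refine Int.comp₂ ?_ ?_ ?_; assumption) | (with_reducible refine Int.comp₃ ?_ ?_ ?_ ?_; assumption) | (with_reducible refine Int.comp₄ ?_ ?_ ?_ ?_ ?_; assumption) | (with_reducible refine IntF.comp ?_ ?_; assumption) | (with_reducible refine IntF.comp₂ ?_ ?_ ?_; assumption) | (with_reducible refine IntF.comp₃ ?_ ?_ ?_ ?_; assumption) | with_reducible apply IntF.pair))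
    exact h

instance : IAdd M (IR M) where
  out := by
    have ht : IntF M (toPow (M := M)) := intF_toPow
    refine IntF.of_rel (r := fun (q : IR M × IR M) (c : IR M) => ∀ z, z ∈ toPow c ↔
      ∃ x y, x ∈ toPow q.1 ∧ y ∈ toPow q.2 ∧ z = x + y) (by (repeat' (first | with_reducible exact IntF.id | with_reducible exact IntF.fst' | with_reducible exact IntF.snd' | with_reducible exact IntF.const _ | with_reducible exact Int.const _ | assumption | with_reducible apply Int.and | with_reducible apply Int.or | with_reducible apply Int.not | with_reducible apply Int.imp | with_reducible apply Int.iff | with_reducible apply Int.ne | with_reducible apply Int.eq | with_reducible apply Int.mem | with_reducible apply Int.subset | with_reducible apply Int.ltN | with_reducible apply Int.leN | with_reducible_and_instances apply Int.le | with_reducible_and_instances apply Int.lt | with_reducible apply Int.all | with_reducible apply Int.ex | with_reducible apply IntF.fst | with_reducible apply IntF.snd | with_reducible apply IntF.app | with_reducible apply IntF.inl | with_reducible apply IntF.inr | with_reducible_and_instances apply IntF.mul | with_reducible_and_instances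 apply IntF.inv | with_reducible_and_instances apply IntF.add | with_reducible_and_instances apply IntF.sub | with_reducible_and_instances apply IntF.neg | with_reducible_and_instances apply IntF.smul | with_reducible apply IntF.succ | with_reducible apply IntF.val | with_reducible apply IntF.mk | (with_reducible refine Int.comp ?_ ?_; assumption) | (with_reducible refine Int.comp₂ ?_ ?_ ?_; assumption) | (with_reducible refine Int.comp₃ ?_ ?_ ?_ ?_; assumption) | (with_reducible refine Int.comp₄ ?_ ?_ ?_ ?_ ?_; assumption) | (with_reducible refine IntF.comp ?_ ?_; assumption) | (with_reducible refine IntF.comp₂ ?_ ?_ ?_; assumption) | (with_reducible refine IntF.comp₃ ?_ ?_ ?_ ?_; assumption) | with_reducible apply IntF.pair))) fun q c => ?_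
    constructor
    · intro h
      exact toPow_injective (IPow.ext' fun z => (h z).symm)
    · rintro rfl z
      exact Iff.rfl

/-- The graph of the multiplication of positive elements. -/
def PMr (a b c : IR M) : Prop :=
  ∀ z, z ∈ toPow c ↔ ∃ x y, 0 < x ∧ 0 < y ∧ x ∈ toPow a ∧ y ∈ toPow b ∧ z < x * y

theorem PMr_iff {a b c : IR M} (ha : 0 < a) (hb : 0 < b) : PMr a b c ↔ a * b = c := by
  have e1 : 0 < a.1 := ha
  have e2 : 0 < b.1 := hb
  constructor
  · intro h
    refine Subtype.ext ?_
    change a.1 * b.1 = c.1
    rw [GC.mul_pos_eq e1 e2]
    exact GC.ext' fun z => (h z).symm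
  · rintro rfl z
    change (a.1 * b.1).p z ↔ _
    rw [GC.mul_pos_eq e1 e2]
    exact Iff.rfl

theorem int_PMr : Int M (fun q : (IR M × IR M) × IR M => PMr q.1.1 q.1.2 q.2) := by
  have ht : IntF M (toPow (M := M)) := intF_toPow
  unfold PMr
  (repeat' (first | with_reducible exact IntF.id | with_reducible exact IntF.fst' | with_reducible exact IntF.snd' | with_reducible exact IntF.const _ | with_reducible exact Int.const _ | assumption | with_reducible apply Int.and | with_reducible apply Int.or | with_reducible apply Int.not | with_reducible apply Int.imp | with_reducible apply Int.iff | with_reducible apply Int.ne | with_reducible apply Int.eq | with_reducible apply Int.mem | with_reducible apply Int.subset | with_reducible apply Int.ltN | with_reducible apply Int.leN | with_reducible_and_instances apply Int.le | with_reducible_and_instances apply Int.lt | with_reducible apply Int.all | with_reducible apply Int.ex | with_reducible apply IntF.fst | with_reducible apply IntF.snd | with_reducible apply IntF.app | with_reducible apply IntF.inl | with_reducible apply IntF.inr | with_reducible_and_instances apply IntF.mul | with_reducible_and_instances apply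 IntF.inv | with_reducible_and_instances apply IntF.add | with_reducible_and_instances apply IntF.sub | with_reducible_and_instances apply IntF.neg | with_reducible_and_instances apply IntF.smul | with_reducible apply IntF.succ | with_reducible apply IntF.val | with_reducible apply IntF.mk | (with_reducible refine Int.comp ?_ ?_; assumption) | (with_reducible refine Int.comp₂ ?_ ?_ ?_; assumption) | (with_reducible refine Int.comp₃ ?_ ?_ ?_ ?_; assumption) | (with_reducible refine Int.comp₄ ?_ ?_ ?_ ?_ ?_; assumption) | (with_reducible refine IntF.comp ?_ ?_; assumption) | (with_reducible refine IntF.comp₂ ?_ ?_ ?_; assumption) | (with_reducible refine IntF.comp₃ ?_ ?_ ?_ ?_; assumption) | with_reducible apply IntF.pair))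

/-- The graph of the multiplication. -/
def MRr (a b c : IR M) : Prop := ∃ p q u1 u2 u3 u4 : IR M, 0 < p ∧ 0 < q ∧ 0 < p + a ∧ 0 < q + b ∧
  PMr (p + a) (q + b) u1 ∧ PMr p (q + b) u2 ∧ PMr (p + a) q u3 ∧ PMr p q u4 ∧
  c + (u2 + u3) = u1 + u4

theorem MRr_iff {a b c : IR M} : MRr a b c ↔ a * b = c := by
  constructor
  · rintro ⟨p, q, u1, u2, u3, u4, h1, h2, h3, h4, h5, h6, h7, h8, h9⟩
    rw [PMr_iff h3 h4] at h5
    rw [PMr_iff h1 h4] at h6
    rw [PMr_iff h3 h2] at h7
    rw [PMr_iff h1 h2] at h8
    subst h5 h6 h7 h8
    linear_combination h9.symm
  · rintro rfl
    have h1 : (0 : IR M) < |a| + 1 := add_pos_of_nonneg_of_pos (abs_nonneg a) one_pos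
    have h2 : (0 : IR M) < |b| + 1 := add_pos_of_nonneg_of_pos (abs_nonneg b) one_pos
    have h3 : 0 < |a| + 1 + a := abs_add_pos one_pos a
    have h4 : 0 < |b| + 1 + b := abs_add_pos one_pos b
    exact ⟨|a| + 1, |b| + 1, _, _, _, _, h1, h2, h3, h4, (PMr_iff h3 h4).2 rfl,
      (PMr_iff h1 h4).2 rfl, (PMr_iff h3 h2).2 rfl, (PMr_iff h1 h2).2 rfl, by ring⟩

instance : IMul M (IR M) where
  out := by
    have h : Int M (fun q : (IR M × IR M) × IR M => PMr q.1.1 q.1.2 q.2) := int_PMr
    refine IntF.of_rel (r := fun (q : IR M × IR M) (c : IR M) => MRr q.1 q.2 c) ?_
      fun q c => MRr_iff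
    unfold MRr
    (repeat' (first | with_reducible exact IntF.id | with_reducible exact IntF.fst' | with_reducible exact IntF.snd' | with_reducible exact IntF.const _ | with_reducible exact Int.const _ | assumption | with_reducible apply Int.and | with_reducible apply Int.or | with_reducible apply Int.not | with_reducible apply Int.imp | with_reducible apply Int.iff | with_reducible apply Int.ne | with_reducible apply Int.eq | with_reducible apply Int.mem | with_reducible apply Int.subset | with_reducible apply Int.ltN | with_reducible apply Int.leN | with_reducible_and_instances apply Int.le | with_reducible_and_instances apply Int.lt | with_reducible apply Int.all | with_reducible apply Int.ex | with_reducible apply IntF.fst | with_reducible apply IntF.snd | with_reducible apply IntF.app | with_reducible apply IntF.inl | with_reducible apply IntF.inr | with_reducible_and_instances apply IntF.mul | with_reducible_and_instances apply IntF.inv | with_reducible_and_instances apply IntF.add | with_reducible_and_instances apply IntF.sub | with_reducible_and_instances apply IntF.neg | with_reducible_and_instances apply IntF.smul | with_reducible apply IntF.succ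 | with_reducible apply IntF.val | with_reducible apply IntF.mk | (with_reducible refine Int.comp ?_ ?_; assumption) | (with_reducible refine Int.comp₂ ?_ ?_ ?_; assumption) | (with_reducible refine Int.comp₃ ?_ ?_ ?_ ?_; assumption) | (with_reducible refine Int.comp₄ ?_ ?_ ?_ ?_ ?_; assumption) | (with_reducible refine IntF.comp ?_ ?_; assumption) | (with_reducible refine IntF.comp₂ ?_ ?_ ?_; assumption) | (with_reducible refine IntF.comp₃ ?_ ?_ ?_ ?_; assumption) | with_reducible apply IntF.pair))

/-- Completeness. -/
theorem IR.complete (s : IPow M (IR M)) (h1 : ∃ c, c ∈ s) (h2 : ∃ b, ∀ c, c ∈ s → c ≤ b) :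
    ∃ c, (∀ d, d ∈ s → d ≤ c) ∧ ∀ b, (∀ d, d ∈ s → d ≤ b) → c ≤ b := by
  have ht : IntF M (toPow (M := M)) := intF_toPow
  have hI : Int M (fun x : IQ M => ∃ c, c ∈ s ∧ x ∈ toPow c) := by (repeat' (first | with_reducible exact IntF.id | with_reducible exact IntF.fst' | with_reducible exact IntF.snd' | with_reducible exact IntF.const _ | with_reducible exact Int.const _ | assumption | with_reducible apply Int.and | with_reducible apply Int.or | with_reducible apply Int.not | with_reducible apply Int.imp | with_reducible apply Int.iff | with_reducible apply Int.ne | with_reducible apply Int.eq | with_reducible apply Int.mem | with_reducible apply Int.subset | with_reducible apply Int.ltN | with_reducible apply Int.leN | with_reducible_and_instances apply Int.le | with_reducible_and_instances apply Int.lt | with_reducible apply Int.all | with_reducible apply Int.ex | with_reducible apply IntF.fst | with_reducible apply IntF.snd | with_reducible apply IntF.app | with_reducible apply IntF.inl | with_reducible apply IntF.inr | with_reducible_and_instances apply IntF.mul | with_reducible_and_instances apply IntF.inv | with_reducible_and_instances apply IntF.add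 | with_reducible_and_instances apply IntF.sub | with_reducible_and_instances apply IntF.neg | with_reducible_and_instances apply IntF.smul | with_reducible apply IntF.succ | with_reducible apply IntF.val | with_reducible apply IntF.mk | (with_reducible refine Int.comp ?_ ?_; assumption) | (with_reducible refine Int.comp₂ ?_ ?_ ?_; assumption) | (with_reducible refine Int.comp₃ ?_ ?_ ?_ ?_; assumption) | (with_reducible refine Int.comp₄ ?_ ?_ ?_ ?_ ?_; assumption) | (with_reducible refine IntF.comp ?_ ?_; assumption) | (with_reducible refine IntF.comp₂ ?_ ?_ ?_; assumption) | (with_reducible refine IntF.comp₃ ?_ ?_ ?_ ?_; assumption) | with_reducible apply IntF.pair))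
  obtain ⟨c, hc⟩ := exists_toPow (s := sep M fun x : IQ M => ∃ c, c ∈ s ∧ x ∈ toPow c) (by
    refine ⟨?_, ?_, ?_, ?_⟩
    · obtain ⟨c, hc⟩ := h1
      obtain ⟨x, hx⟩ := c.1.ne
      exact ⟨x, (mem_sep hI).2 ⟨c, hc, hx⟩⟩
    · obtain ⟨b, hb⟩ := h2
      obtain ⟨x, hx⟩ := b.1.exists_not
      refine ⟨x, fun h => ?_⟩
      obtain ⟨c, hc, hxc⟩ := (mem_sep hI).1 h
      exact hx (hb c hc x hxc)
    · intro x y hy hxy
      obtain ⟨c, hc, hyc⟩ := (mem_sep hI).1 hy
      exact (mem_sep hI).2 ⟨c, hc, c.1.down x y hyc hxy⟩
    · intro x hx
      obtain ⟨c, hc, hxc⟩ := (mem_sep hI).1 hx
      obtain ⟨y, hy, hxy⟩ := c.1.nomax x hxc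
      exact ⟨y, (mem_sep hI).2 ⟨c, hc, hy⟩, hxy⟩)
  have hc' : ∀ x, c.1.p x ↔ ∃ d, d ∈ s ∧ x ∈ toPow d := fun x => by
    rw [← mem_toPow, hc, mem_sep hI]
  refine ⟨c, fun d hd x hx => (hc' x).2 ⟨d, hd, hx⟩, fun b hb x hx => ?_⟩
  obtain ⟨d, hd, hxd⟩ := (hc' x).1 hx
  exact hb d hd x hxd

end H635

end Pool.Agent.Helper672.ZFA
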